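import Pool.Agent.H709L.Basic

set_option autoImplicit false

/-! Task A1: a closed orbit of a Lienard system has exactly one right arc and one left arc. -/

open Real Set MeasureTheory Topology Filter

namespace Pool.Agent.H709L

namespace A1

/-- a periodic curve with `y' = -x`, crossing `x = 0` transversally -/
structure Cv (x y : ℝ → ℝ) (T : ℝ) : Prop where
  pos : 0 < T
  cx : Continuous x
  dy : ∀ t, HasDerivAt y (-x t) t
  px : ∀ t, x (t + T) = x t
  py : ∀ t, y (t + T) = y t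
  inj : ∀ t u, x t = x u → y t = y u → ∃ k : ℤ, t = u + k * T
  dx : ∀ t, x t = 0 → HasDerivAt x (y t) t
  ne : ∀ t, x t = 0 → y t ≠ 0

variable {x y : ℝ → ℝ} {T : ℝ}

theorem Cv.cy (h : Cv x y T) : Continuous y :=
  continuous_iff_continuousAt.2 fun t => (h.dy t).continuousAt

theorem Cv.neg (h : Cv x y T) : Cv (fun t => -x t) (fun t => -y t) T where
  pos := h.pos
  cx := h.cx.neg
  dy := fun t => (h.dy t).neg
  px := fun t => by rw [h.px]
  py := fun t => by rw [h.py]
  inj := fun t u h1 h2 => h.inj t u (neg_injective h1) (neg_injective h2)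
  dx := fun t h1 => (h.dx t (neg_eq_zero.1 h1)).neg
  ne := fun t h1 h2 => h.ne t (neg_eq_zero.1 h1) (neg_eq_zero.1 h2)

theorem Cv.rev (h : Cv x y T) : Cv (fun t => -x (-t)) (fun t => y (-t)) T where
  pos := h.pos
  cx := (h.cx.comp continuous_neg).neg
  dy := fun t => by
    have h1 := (h.dy (-t)).comp t (hasDerivAt_neg t)
    simp only [mul_neg, mul_one] at h1
    exact h1
  px := fun t => by
    have h1 := h.px (-t - T)
    have e1 : -t - T + T = -t := by ring
    have e2 : -t - T = -(t + T) := by ring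
    rw [e1, e2] at h1
    rw [h1]
  py := fun t => by
    have h1 := h.py (-t - T)
    have e1 : -t - T + T = -t := by ring
    have e2 : -t - T = -(t + T) := by ring
    rw [e1, e2] at h1
    rw [h1]
  inj := fun t u h1 h2 => by
    obtain ⟨k, hk⟩ := h.inj (-t) (-u) (neg_injective h1) h2
    refine ⟨-k, ?_⟩
    push_cast
    linarith
  dx := fun t h1 => by
    have h2 := ((h.dx (-t) (neg_eq_zero.1 h1)).comp t (hasDerivAt_neg t)).neg
    simp only [mul_neg, mul_one, neg_neg] at h2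
    exact h2
  ne := fun t h1 => h.ne (-t) (neg_eq_zero.1 h1)

/-- next zero of `x` after an up-crossing -/
theorem Cv.next (h : Cv x y T) {t₀ : ℝ} (h0 : x t₀ = 0) (hy : 0 < y t₀) :
    ∃ t₁, t₀ < t₁ ∧ (∀ t ∈ Ioo t₀ t₁, 0 < x t) ∧ x t₁ = 0 ∧ y t₁ < 0 := by
  have hT := h.pos
  -- `x > 0` just after `t₀`
  have h1 : ∀ᶠ t in 𝓝[>] t₀, 0 < x t := by
    have h2 : Tendsto (slope x t₀) (𝓝[>] t₀) (𝓝 (y t₀)) :=
      (hasDerivAt_iff_tendsto_slope.1 (h.dx t₀ h0)).mono_left
        (nhdsWithin_mono _ fun t ht => ne_of_gt ht)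
    filter_upwards [h2.eventually (lt_mem_nhds hy), self_mem_nhdsWithin] with t ht ht2
    rw [slope_def_field, h0, sub_zero] at ht
    have ht3 : 0 < t - t₀ := sub_pos.2 ht2
    by_contra hc
    push Not at hc
    exact absurd (div_nonpos_of_nonpos_of_nonneg hc ht3.le) (not_le.2 ht)
  obtain ⟨d, hd, hpos⟩ := (mem_nhdsGT_iff_exists_Ioo_subset).1 h1
  have hd0 : t₀ < d := hd
  -- the zeros after `t₀`
  set e := min d (t₀ + T) with he
  have he0 : t₀ < e := lt_min hd0 (by linarith)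
  set m := (t₀ + e) / 2 with hm
  have hm0 : t₀ < m := by rw [hm]; linarith
  have hme : m < e := by rw [hm]; linarith
  have hmd : m < d := hme.trans_le (min_le_left _ _)
  have hmT : m < t₀ + T := hme.trans_le (min_le_right _ _)
  set Z := {t | t ∈ Icc m (t₀ + T) ∧ x t = 0} with hZ
  have hZc : IsCompact Z := by
    have : Z = Icc m (t₀ + T) ∩ x ⁻¹' {0} := by
      ext t
      simp [hZ]
    rw [this]
    exact isCompact_Icc.inter_right (isClosed_singleton.preimage h.cx)
  have hZn : Z.Nonempty := ⟨t₀ + T, ⟨hmT.le, le_rfl⟩, by rw [h.px, h0]⟩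
  obtain ⟨t₁, ht1, hmin⟩ := hZc.exists_isLeast hZn
  have ht01 : t₀ < t₁ := hm0.trans_le ht1.1.1
  have hne : ∀ t ∈ Ioo t₀ t₁, x t ≠ 0 := by
    intro t ht hx
    rcases lt_or_ge t m with h2 | h2
    · have : 0 < x t := hpos ⟨ht.1, h2.trans hmd⟩
      linarith
    · exact absurd (hmin ⟨⟨h2, ht.2.le.trans ht1.1.2⟩, hx⟩) (not_le.2 ht.2)
  have hmt1 : m < t₁ := by
    rcases ht1.1.1.lt_or_eq with h2 | h2
    · exact h2
    · exfalso
      have h3 : 0 < x m := hpos ⟨hm0, hmd⟩
      have h4 := ht1.2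
      rw [← h2] at h4
      linarith
  have hxpos : ∀ t ∈ Ioo t₀ t₁, 0 < x t := by
    intro t ht
    by_contra hc
    push Not at hc
    have hxm : 0 < x m := hpos ⟨hm0, hmd⟩
    have h2 : (0 : ℝ) ∈ x '' (uIcc t m) := by
      have h3 := intermediate_value_uIcc (h.cx.continuousOn (s := uIcc t m))
      apply h3
      rw [mem_uIcc]
      exact Or.inl ⟨hc, hxm.le⟩
    obtain ⟨u, hu, hu0⟩ := h2
    refine hne u ?_ hu0
    rw [mem_uIcc] at hu
    rcases hu with hu | hu
    · exact ⟨ht.1.trans_le hu.1, hu.2.trans_lt hmt1⟩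
    · exact ⟨hm0.trans_le hu.1, hu.2.trans_lt ht.2⟩
  refine ⟨t₁, ht01, hxpos, ht1.2, ?_⟩
  -- sign of `y t₁`
  have h6 : Tendsto (slope x t₁) (𝓝[<] t₁) (𝓝 (y t₁)) :=
    (hasDerivAt_iff_tendsto_slope.1 (h.dx t₁ ht1.2)).mono_left
      (nhdsWithin_mono _ fun t ht => ne_of_lt ht)
  have h7 : y t₁ ≤ 0 := by
    refine le_of_tendsto h6 ?_
    filter_upwards [Ioo_mem_nhdsLT ht01] with t ht
    rw [slope_def_field, ht1.2, sub_zero]
    exact div_nonpos_of_nonneg_of_nonpos (hxpos t ht).le (by linarith [ht.2])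
  exact lt_of_le_of_ne h7 (h.ne t₁ ht1.2)

/-- previous zero of `x` before an up-crossing -/
theorem Cv.prev (h : Cv x y T) {t₀ : ℝ} (h0 : x t₀ = 0) (hy : 0 < y t₀) :
    ∃ a, a < t₀ ∧ (∀ t ∈ Ioo a t₀, x t < 0) ∧ x a = 0 ∧ y a < 0 := by
  obtain ⟨t₁, h1, h2, h3, h4⟩ := h.rev.next (t₀ := -t₀) (by simp [h0]) (by simpa using hy)
  refine ⟨-t₁, by linarith, ?_, neg_eq_zero.1 h3, h4⟩
  intro t ht
  have h5 := h2 (-t) ⟨by linarith [ht.2], by linarith [ht.1]⟩
  simp only [neg_neg] at h5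
  linarith

/-- the height decreases along a right arc -/
theorem Cv.anti (h : Cv x y T) {a b : ℝ} (hx : ∀ t ∈ Ioo a b, 0 < x t) :
    StrictAntiOn y (Icc a b) := by
  apply strictAntiOn_of_deriv_neg (convex_Icc a b) h.cy.continuousOn
  intro t ht
  rw [interior_Icc] at ht
  rw [(h.dy t).deriv]
  have := hx t ht
  linarith

/-- two arcs `[a, b]`, `[c, d]` with interleaved end points have a common point -/
theorem cross {x y : ℝ → ℝ} (hx : Continuous x) (hy : Continuous y) {a b c d : ℝ} (hab : a < b)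
    (hcd : c < d) (ha : AntitoneOn y (Icc a b)) (hi : InjOn y (Icc c d)) (xa : x a = 0)
    (xab : ∀ t ∈ Ioo a b, 0 < x t) (xc : x c = 0) (xd : x d = 0) (xcd : ∀ t ∈ Ioo c d, 0 < x t)
    (h1 : y a < y c) (h2 : y b < y d) (h3 : y d < y a) :
    ∃ t ∈ Icc a b, ∃ u ∈ Icc c d, x t = x u ∧ y t = y u := by
  have xcd0 : ∀ t ∈ Icc c d, 0 ≤ x t := by
    intro t ht
    rcases ht.1.lt_or_eq with h4 | h4
    · rcases ht.2.lt_or_eq with h5 | h5
      · exact (xcd t ⟨h4, h5⟩).le
      · rw [h5, xd]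
    · rw [← h4, xc]
  obtain ⟨m, hm, hym⟩ := intermediate_value_Icc' hab.le hy.continuousOn
    (⟨h2.le, h3.le⟩ : y d ∈ Icc (y b) (y a))
  have ham : a < m := lt_of_le_of_ne hm.1 (by rintro rfl; linarith)
  have hmb : m < b := lt_of_le_of_ne hm.2 (by rintro rfl; linarith)
  have hsub : Icc a m ⊆ Icc a b := Icc_subset_Icc_right hm.2
  have hex : ∀ t ∈ Icc a m, ∃ u ∈ Icc c d, y u = y t := by
    intro t ht
    have e1 : y t ≤ y a := ha ⟨le_rfl, hab.le⟩ (hsub ht) ht.1
    have e2 : y m ≤ y t := ha (hsub ht) hm ht.2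
    obtain ⟨u, hu, hu2⟩ := intermediate_value_Icc' hcd.le hy.continuousOn
      (⟨by linarith, by linarith⟩ : y t ∈ Icc (y d) (y c))
    exact ⟨u, hu, hu2⟩
  -- two closed sets
  set K : Set (ℝ × ℝ) := (Icc a m ×ˢ Icc c d) ∩ {q | y q.2 = y q.1} with hK
  have hKc : IsCompact K := (isCompact_Icc.prod isCompact_Icc).inter_right
    (isClosed_eq (hy.comp continuous_snd) (hy.comp continuous_fst))
  set S₁ : Set ℝ := Prod.fst '' (K ∩ {q | x q.2 ≤ x q.1}) with hS1
  set S₂ : Set ℝ := Prod.fst '' (K ∩ {q | x q.1 ≤ x q.2}) with hS2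
  have hc1 : IsClosed S₁ := ((hKc.inter_right (isClosed_le (hx.comp continuous_snd)
    (hx.comp continuous_fst))).image continuous_fst).isClosed
  have hc2 : IsClosed S₂ := ((hKc.inter_right (isClosed_le (hx.comp continuous_fst)
    (hx.comp continuous_snd))).image continuous_fst).isClosed
  have hcov : Icc a m ⊆ S₁ ∪ S₂ := by
    intro t ht
    obtain ⟨u, hu, hu2⟩ := hex t ht
    rcases le_total (x u) (x t) with h4 | h4
    · exact Or.inl ⟨(t, u), ⟨⟨⟨ht, hu⟩, hu2⟩, h4⟩, rfl⟩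
    · exact Or.inr ⟨(t, u), ⟨⟨⟨ht, hu⟩, hu2⟩, h4⟩, rfl⟩
  have hn1 : (Icc a m ∩ S₁).Nonempty := by
    refine ⟨m, ⟨ham.le, le_rfl⟩, (m, d), ⟨⟨⟨⟨ham.le, le_rfl⟩, ⟨hcd.le, le_rfl⟩⟩, hym.symm⟩, ?_⟩, rfl⟩
    show x d ≤ x m
    rw [xd]
    exact (xab m ⟨ham, hmb⟩).le
  have hn2 : (Icc a m ∩ S₂).Nonempty := by
    obtain ⟨u, hu, hu2⟩ := hex a ⟨le_rfl, ham.le⟩
    refine ⟨a, ⟨le_rfl, ham.le⟩, (a, u), ⟨⟨⟨⟨le_rfl, ham.le⟩, hu⟩, hu2⟩, ?_⟩, rfl⟩
    show x a ≤ x u
    rw [xa]
    exact xcd0 u hu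
  obtain ⟨t, ht, ht1, ht2⟩ := isPreconnected_closed_iff.1 isPreconnected_Icc S₁ S₂ hc1 hc2 hcov
    hn1 hn2
  obtain ⟨⟨t1, u1⟩, ⟨⟨⟨-, hu1⟩, hy1⟩, hx1⟩, e1⟩ := ht1
  obtain ⟨⟨t2, u2⟩, ⟨⟨⟨-, hu2⟩, hy2⟩, hx2⟩, e2⟩ := ht2
  simp only at e1 e2 hu1 hu2
  subst e1
  subst e2
  simp only [Set.mem_ofPred_eq] at hy1 hy2 hx1 hx2
  have e3 : u1 = u2 := hi hu1 hu2 (hy1.trans hy2.symm)
  subst e3
  exact ⟨_, hsub ht, u1, hu1, le_antisymm hx2 hx1, hy1.symm⟩

/-- right arcs with a common point start at the same height -/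
theorem Cv.share (h : Cv x y T) {a b c d : ℝ} (hab : a < b) (hcd : c < d) (xa : x a = 0)
    (xb : x b = 0) (xc : x c = 0) (xd : x d = 0) (ya : 0 < y a) (yb : y b < 0) (yc : 0 < y c)
    (yd : y d < 0) (xab : ∀ t ∈ Ioo a b, 0 < x t) (xcd : ∀ t ∈ Ioo c d, 0 < x t)
    {t u : ℝ} (ht : t ∈ Icc a b) (hu : u ∈ Icc c d) (h1 : x t = x u) (h2 : y t = y u) :
    y a = y c := by
  obtain ⟨k, hk⟩ := h.inj u t h1.symm h2.symm
  have hpx : ∀ s, x (s + k * T) = x s := by
    have hP : Function.Periodic x T := h.px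
    intro s
    exact (hP.int_mul k) s
  have hpy : ∀ s, y (s + k * T) = y s := by
    have hP : Function.Periodic y T := h.py
    intro s
    exact (hP.int_mul k) s
  have xab' : ∀ s ∈ Ioo (a + k * T) (b + k * T), 0 < x s := by
    intro s hs
    have h3 := xab (s - k * T) ⟨by linarith [hs.1], by linarith [hs.2]⟩
    have h4 := hpx (s - k * T)
    rw [sub_add_cancel] at h4
    rw [h4]
    exact h3
  have xa' : x (a + k * T) = 0 := by rw [hpx, xa]
  -- it is enough that the shifted arc starts at `c`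
  have key : c < b + k * T → a + k * T < d → y a = y c := by
    intro h3 h4
    have h5 : a + k * T = c := by
      rcases lt_trichotomy (a + k * T) c with h6 | h6 | h6
      · have := xab' c ⟨h6, h3⟩
        linarith
      · exact h6
      · have := xcd (a + k * T) ⟨h6, h4⟩
        linarith
    rw [← h5, hpy]
  rcases ht.1.lt_or_eq with h3 | h3
  · rcases ht.2.lt_or_eq with h4 | h4
    · -- `t` is an interior time
      have hxt : 0 < x t := xab t ⟨h3, h4⟩
      have huc : c ≠ u := by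
        rintro rfl
        linarith
      have hud : u ≠ d := by
        rintro rfl
        linarith
      apply key
      · have := lt_of_le_of_ne hu.1 huc
        linarith
      · have := lt_of_le_of_ne hu.2 hud
        linarith
    · -- `t = b`
      subst h4
      have hu0 : x u = 0 := by rw [← h1, xb]
      have hud : u = d := by
        rcases hu.1.lt_or_eq with h5 | h5
        · rcases hu.2.lt_or_eq with h6 | h6
          · have := xcd u ⟨h5, h6⟩
            linarith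
          · exact h6
        · exfalso
          rw [← h5] at h2
          linarith
      apply key
      · linarith
      · linarith
  · -- `t = a`
    subst h3
    have hu0 : x u = 0 := by rw [← h1, xa]
    rcases hu.1.lt_or_eq with h5 | h5
    · rcases hu.2.lt_or_eq with h6 | h6
      · have := xcd u ⟨h5, h6⟩
        linarith
      · exfalso
        rw [h6] at h2
        linarith
    · rw [h2, h5]

/-- monotonicity of the right arcs -/
theorem Cv.mono (h : Cv x y T) {a b c d : ℝ} (hab : a < b) (hcd : c < d) (xa : x a = 0)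
    (xb : x b = 0) (xc : x c = 0) (xd : x d = 0) (ya : 0 < y a) (yb : y b < 0) (yc : 0 < y c)
    (yd : y d < 0) (xab : ∀ t ∈ Ioo a b, 0 < x t) (xcd : ∀ t ∈ Ioo c d, 0 < x t)
    (hac : y a < y c) : y d < y b := by
  by_contra hcon
  push Not at hcon
  rcases hcon.lt_or_eq with h1 | h1
  · obtain ⟨t, ht, u, hu, e1, e2⟩ := cross h.cx h.cy hab hcd (h.anti xab).antitoneOn
      (h.anti xcd).injOn xa xab xc xd xcd hac h1 (by linarith)
    have := h.share hab hcd xa xb xc xd ya yb yc yd xab xcd ht hu e1 e2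
    linarith
  · have := h.share hab hcd xa xb xc xd ya yb yc yd xab xcd (t := b) (u := d)
      ⟨hab.le, le_rfl⟩ ⟨hcd.le, le_rfl⟩ (by rw [xb, xd]) h1
    linarith

theorem Cv.main (h : Cv x y T) : ∃ t₀ t₁, t₀ < t₁ ∧ t₁ < t₀ + T ∧ x t₀ = 0 ∧ 0 < y t₀ ∧ x t₁ = 0 ∧
    y t₁ < 0 ∧ (∀ t ∈ Ioo t₀ t₁, 0 < x t) ∧ ∀ t ∈ Ioo t₁ (t₀ + T), x t < 0 := by
  have hT := h.pos
  -- time of maximal height
  obtain ⟨c, -, hmax⟩ : ∃ c ∈ Icc (0 : ℝ) T, ∀ t, y t ≤ y c := by
    obtain ⟨c, hc, hmax⟩ := isCompact_Icc.exists_isMaxOn (nonempty_Icc.2 hT.le)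
      h.cy.continuousOn
    refine ⟨c, hc, fun t => ?_⟩
    have hP : Function.Periodic y T := h.py
    obtain ⟨s, hs, hs2⟩ := hP.exists_mem_Ico₀ hT t
    rw [hs2]
    exact hmax ⟨hs.1, hs.2.le⟩
  have xc : x c = 0 := by
    have h1 : IsLocalMax y c := Filter.Eventually.of_forall fun t => hmax t
    have h2 := h1.hasDerivAt_eq_zero (h.dy c)
    linarith
  have yc : 0 < y c := by
    by_contra hc
    push Not at hc
    have hneg : 0 < -y c := by
      have := lt_of_le_of_ne hc (h.ne c xc)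
      linarith
    obtain ⟨d, h1, h2, -, -⟩ := h.neg.next (t₀ := c) (by simp [xc]) hneg
    have h3 := h.neg.anti (a := c) (b := d) h2
    have h4 := h3 ⟨le_rfl, h1.le⟩ ⟨h1.le, le_rfl⟩ h1
    have h5 := hmax d
    simp only at h4
    linarith
  obtain ⟨b, hbc, xbc, xb, yb⟩ := h.prev xc yc
  obtain ⟨a, hab, xab, xa, ya⟩ := h.neg.prev (t₀ := b) (by simp [xb]) (by simpa using yb)
  simp only [neg_eq_zero, neg_lt_zero] at xab xa ya
  obtain ⟨d, hcd, xcd, xd, yd⟩ := h.next xc yc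
  obtain ⟨e, hde, xde, xe, ye⟩ := h.neg.next (t₀ := d) (by simp [xd]) (by simpa using yd)
  -- the heights agree
  have hac : y a = y c := by
    by_contra hne
    have h1 : y a < y c := lt_of_le_of_ne (hmax a) hne
    have h2 := h.mono hab hcd xa xb xc xd ya yb yc yd xab xcd h1
    have h3 := h.neg.mono (a := b) (b := c) (c := d) (d := e) hbc hde (by simp [xb]) (by simp [xc])
      (by simp [xd]) xe (by simpa using yb) (by simpa using yc) (by simpa using yd)
      ye (fun t ht => by simpa using xbc t ht) xde (by simpa using h2)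
    have h4 := hmax e
    linarith
  obtain ⟨k, hk⟩ := h.inj c a (by rw [xc, xa]) hac.symm
  have hk1 : 1 ≤ k := by
    by_contra hc
    have h1 : k ≤ 0 := by omega
    have h2 : (k : ℝ) ≤ 0 := by exact_mod_cast h1
    have := mul_nonpos_of_nonpos_of_nonneg h2 hT.le
    linarith
  have hk2 : (1 : ℝ) ≤ k := by exact_mod_cast hk1
  have hac2 : a ≤ c - T := by
    have := mul_le_mul_of_nonneg_right hk2 hT.le
    linarith
  have xcT : x (c - T) = 0 := by
    have := h.px (c - T)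
    rw [sub_add_cancel] at this
    rw [← this, xc]
  have ycT : y (c - T) = y c := by
    have := h.py (c - T)
    rw [sub_add_cancel] at this
    rw [← this]
  have hfin : c - T = a := by
    rcases hac2.lt_or_eq with h1 | h1
    · exfalso
      rcases lt_trichotomy (c - T) b with h2 | h2 | h2
      · have := xab (c - T) ⟨h1, h2⟩
        linarith
      · rw [h2] at ycT
        linarith
      · have := xbc (c - T) ⟨h2, by linarith⟩
        linarith
    · exact h1.symm
  have hcT : a + T = c := by rw [← hfin]; ring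
  exact ⟨a, b, hab, by rw [hcT]; exact hbc, xa, ya, xb, yb, xab, by rw [hcT]; exact xbc⟩

end A1

theorem arcTimes : ArcTimes := by
  intro p s γ T hp h
  have d1 : ∀ t, HasDerivAt (fun t => (γ t).1) ((γ t).2 - p.eval (γ t).1 + s * (γ t).1) t :=
    fun t => (h.ode t).fst
  have d2 : ∀ t, HasDerivAt (fun t => (γ t).2) (-(γ t).1) t := fun t => (h.ode t).snd
  have hC : A1.Cv (fun t => (γ t).1) (fun t => (γ t).2) T := by
    refine ⟨h.pos, continuous_iff_continuousAt.2 fun t => (d1 t).continuousAt, d2, ?_, ?_, ?_, ?_, ?_⟩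
    · intro t
      simp only [h.per t]
    · intro t
      simp only [h.per t]
    · intro t u h1 h2
      exact h.inj t u (Prod.ext h1 h2)
    · intro t h0
      have h1 := d1 t
      have h0' : (γ t).1 = 0 := h0
      rw [h0', hp] at h1
      simpa using h1
    · intro t h0 h1
      exact h.ne t (Prod.ext h0 h1)
  exact hC.main

end Pool.Agent.H709L
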