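import Pool.Agent.H709L.Basic

/-! A2: right and left arc of a closed orbit of a Lienard system. -/

open Real Set MeasureTheory Topology Filter
open scoped ENNReal

namespace Pool.Agent.H709L

open Pool.Agent.H709R2 (wedge ClosedOrbit)

/-- inverse of a strictly increasing branch -/
lemma A2_branch {x p : ℝ → ℝ} {a b : ℝ} (hab : a < b) (hx : Continuous x)
    (hd : ∀ t ∈ Ioo a b, HasDerivAt x (p t) t) (hp : ∀ t ∈ Ioo a b, 0 < p t) :
    ∃ θ : ℝ → ℝ, Continuous θ ∧ (∀ s ∈ Icc (x a) (x b), θ s ∈ Icc a b ∧ x (θ s) = s) ∧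
      (∀ t ∈ Icc a b, θ (x t) = t) ∧
      (∀ s ∈ Ioo (x a) (x b), θ s ∈ Ioo a b ∧ HasDerivAt θ (1 / p (θ s)) s) := by
  have hmono : StrictMonoOn x (Icc a b) := by
    refine strictMonoOn_of_deriv_pos (convex_Icc a b) hx.continuousOn ?_
    intro t ht
    rw [interior_Icc] at ht
    rw [(hd t ht).deriv]
    exact hp t ht
  set q : ℝ → ℝ := fun t => max a (min b t) with hq
  have hqc : Continuous q := by fun_prop
  have hqm : ∀ t, q t ∈ Icc a b := fun t => ⟨le_max_left _ _, max_le hab.le (min_le_left _ _)⟩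
  have hqid : ∀ t ∈ Icc a b, q t = t := by
    intro t ht
    simp only [hq]
    rw [min_eq_right ht.2, max_eq_right ht.1]
  have hqmono : Monotone q := by
    intro s t hst
    simp only [hq]
    exact max_le_max le_rfl (min_le_min le_rfl hst)
  set xe : ℝ → ℝ := fun t => x (q t) + (t - q t) with hxe
  have hxec : Continuous xe := by fun_prop
  have hqdiff : ∀ s t, s ≤ t → s - q s ≤ t - q t := by
    intro s t hst
    simp only [hq]
    rcases le_total b s with h1 | h1
    · rw [min_eq_left h1, min_eq_left (h1.trans hst)]; linarith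
    · rw [min_eq_right h1]
      rcases le_total a s with h2 | h2
      · rw [max_eq_right h2]
        rcases le_total b t with h3 | h3
        · rw [min_eq_left h3, max_eq_right hab.le]; linarith
        · rw [min_eq_right h3, max_eq_right (h2.trans hst)]; linarith
      · rw [max_eq_left h2]
        rcases le_total b t with h3 | h3
        · rw [min_eq_left h3, max_eq_right hab.le]; linarith
        · rw [min_eq_right h3]
          rcases le_total a t with h4 | h4
          · rw [max_eq_right h4]; linarith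
          · rw [max_eq_left h4]; linarith
  have hxem : StrictMono xe := by
    intro s t hst
    have h1 := hqmono hst.le
    have h2 := hqdiff s t hst.le
    simp only [hxe]
    rcases h1.lt_or_eq with h | h
    · have := hmono (hqm s) (hqm t) h
      linarith
    · rw [← h] at h2 ⊢
      linarith
  have hqlo : ∀ t, t - q t ≥ t - b := fun t => by have := (hqm t).2; linarith
  have hqhi : ∀ t, t - q t ≤ t - a := fun t => by have := (hqm t).1; linarith
  have hxlo : ∀ t ∈ Icc a b, x a ≤ x t := fun t ht =>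
    hmono.monotoneOn ⟨le_rfl, hab.le⟩ ht ht.1
  have hxhi : ∀ t ∈ Icc a b, x t ≤ x b := fun t ht =>
    hmono.monotoneOn ht ⟨hab.le, le_rfl⟩ ht.2
  have htop : Tendsto xe atTop atTop := by
    refine tendsto_atTop_mono (f := fun t => t + (x a - b)) ?_ (tendsto_atTop_add_const_right _ _ tendsto_id)
    intro t
    have := hqlo t; have := hxlo _ (hqm t)
    simp only [hxe]; linarith
  have hbot : Tendsto xe atBot atBot := by
    refine tendsto_atBot_mono (f := fun t => t + (x b - a)) ?_ (tendsto_atBot_add_const_right _ _ tendsto_id)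
    intro t
    have := hqhi t; have := hxhi _ (hqm t)
    simp only [hxe]; linarith
  have hsurj : Function.Surjective xe := hxec.surjective htop hbot
  set e := StrictMono.orderIsoOfSurjective xe hxem hsurj with he
  have hxeid : ∀ t ∈ Icc a b, xe t = x t := by
    intro t ht
    simp only [hxe, hqid t ht]; ring
  have hes : ∀ s, xe (e.symm s) = s := fun s => e.apply_symm_apply s
  have hse : ∀ t, e.symm (xe t) = t := fun t => e.symm_apply_apply t
  have hea : e.symm (x a) = a := by
    rw [← hxeid a ⟨le_rfl, hab.le⟩]; exact hse a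
  have heb : e.symm (x b) = b := by
    rw [← hxeid b ⟨hab.le, le_rfl⟩]; exact hse b
  refine ⟨fun s => e.symm s, e.symm.continuous, ?_, ?_, ?_⟩
  · intro s hs
    have h1 : e.symm s ∈ Icc a b := by
      constructor
      · have := e.symm.monotone hs.1; rw [hea] at this; exact this
      · have := e.symm.monotone hs.2; rw [heb] at this; exact this
    refine ⟨h1, ?_⟩
    have := hes s
    rw [hxeid _ h1] at this
    exact this
  · intro t ht
    show e.symm (x t) = t
    rw [← hxeid t ht]; exact hse t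
  · intro s hs
    have h1 : e.symm s ∈ Ioo a b := by
      constructor
      · have := e.symm.strictMono hs.1; rw [hea] at this; exact this
      · have := e.symm.strictMono hs.2; rw [heb] at this; exact this
    refine ⟨h1, ?_⟩
    have hd1 : HasDerivAt xe (p (e.symm s)) (e.symm s) := by
      refine (hd _ h1).congr_of_eventuallyEq ?_
      filter_upwards [isOpen_Ioo.mem_nhds h1] with t ht
      exact hxeid t ⟨ht.1.le, ht.2.le⟩
    have := HasDerivAt.of_local_left_inverse (f := xe) (g := fun s => e.symm s) (a := s)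
      e.symm.continuous.continuousAt hd1 (hp _ h1).ne' (Eventually.of_forall hes)
    simpa [one_div] using this


section arcs

variable {p : Polynomial ℝ} {s : ℝ} {γ : ℝ → ℝ × ℝ} {T : ℝ}

lemma A2_d1 (h : LCyc p s γ T) (t : ℝ) :
    HasDerivAt (fun t => (γ t).1) ((γ t).2 - p.eval (γ t).1 + s * (γ t).1) t :=
  (ContinuousLinearMap.fst ℝ ℝ ℝ).hasFDerivAt.comp_hasDerivAt t (h.ode t)

lemma A2_d2 (h : LCyc p s γ T) (t : ℝ) : HasDerivAt (fun t => (γ t).2) (-(γ t).1) t :=
  (ContinuousLinearMap.snd ℝ ℝ ℝ).hasFDerivAt.comp_hasDerivAt t (h.ode t)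

lemma A2_cont (h : LCyc p s γ T) : Continuous γ :=
  continuous_iff_continuousAt.2 fun t => (h.ode t).continuousAt

/-- the right arc -/
lemma A2_right (h : LCyc p s γ T) {a b : ℝ} (hab : a < b)
    (hpos : ∀ t ∈ Ioo a b, 0 < (γ t).1) :
    ∃ θ : ℝ → ℝ, Continuous θ ∧
      (∀ y ∈ Icc (γ b).2 (γ a).2, θ y ∈ Icc a b ∧ (γ (θ y)).2 = y) ∧
      (∀ t ∈ Icc a b, θ (γ t).2 = t) ∧ (∀ y ∈ Ioo (γ b).2 (γ a).2, θ y ∈ Ioo a b ∧
        HasDerivAt θ (-(1 / (γ (θ y)).1)) y) := by
  obtain ⟨θ, h1, h2, h3, h4⟩ := A2_branch (x := fun t => -(γ t).2) (p := fun t => (γ t).1) hab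
    ((continuous_snd.comp (A2_cont h)).neg)
    (fun t _ => ((A2_d2 h t).neg).congr_deriv (neg_neg _)) hpos
  refine ⟨fun y => θ (-y), h1.comp continuous_neg, ?_, ?_, ?_⟩
  · intro y hy
    obtain ⟨k1, k2⟩ := h2 (-y) ⟨by simpa using hy.2, by simpa using hy.1⟩
    exact ⟨k1, by simpa using k2⟩
  · intro t ht
    exact h3 t ht
  · intro y hy
    obtain ⟨k1, k2⟩ := h4 (-y) ⟨by simpa using hy.2, by simpa using hy.1⟩
    refine ⟨k1, ?_⟩
    exact (k2.scomp y (hasDerivAt_neg y)).congr_deriv (by simp)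

/-- the left arc -/
lemma A2_left (h : LCyc p s γ T) {a b : ℝ} (hab : a < b)
    (hneg : ∀ t ∈ Ioo a b, (γ t).1 < 0) :
    ∃ θ : ℝ → ℝ, Continuous θ ∧
      (∀ y ∈ Icc (γ a).2 (γ b).2, θ y ∈ Icc a b ∧ (γ (θ y)).2 = y) ∧
      (∀ t ∈ Icc a b, θ (γ t).2 = t) ∧ (∀ y ∈ Ioo (γ a).2 (γ b).2, θ y ∈ Ioo a b ∧
        HasDerivAt θ (1 / (-(γ (θ y)).1)) y) :=
  A2_branch (x := fun t => (γ t).2) (p := fun t => -(γ t).1) hab
    (continuous_snd.comp (A2_cont h)) (fun t _ => A2_d2 h t)
    (fun t ht => by have := hneg t ht; linarith)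

end arcs

theorem data (hA : ArcTimes) : Data := by
  intro p s γ T hp0 hγ
  obtain ⟨t₀, t₁, h01, h1T, hx0, hy0, hx1, hy1, hpos, hneg⟩ := hA p s γ T hp0 hγ
  have hT := hγ.pos
  have hper : Function.Periodic γ T := hγ.per
  have hcont := A2_cont hγ
  have e0 : γ (t₀ + T) = γ t₀ := hγ.per t₀
  obtain ⟨θ, θc, θ1, θ2, θ3⟩ := A2_right hγ h01 hpos
  obtain ⟨φ, φc, φ1, φ2, φ3⟩ := A2_left hγ h1T hneg
  rw [e0] at φ1 φ3
  set y₀ := (γ t₀).2 with hy₀
  set y₁ := (γ t₁).2 with hy₁
  have hyy : y₁ < y₀ := by linarith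
  have hxc : Continuous (fun t => (γ t).1) := continuous_fst.comp hcont
  have hyc : Continuous (fun t => (γ t).2) := continuous_snd.comp hcont
  have hRp : ∀ y ∈ Ioo y₁ y₀, 0 < (γ (θ y)).1 := fun y hy => hpos _ (θ3 y hy).1
  have hLp : ∀ y ∈ Ioo y₁ y₀, 0 < -(γ (φ y)).1 := fun y hy => by
    have := hneg _ (φ3 y hy).1; linarith
  have hRt : ∀ t ∈ Icc t₀ t₁, (γ (θ (γ t).2)).1 = (γ t).1 := fun t ht => by rw [θ2 t ht]
  have hLt : ∀ t ∈ Icc t₁ (t₀ + T), (γ (φ (γ t).2)).1 = (γ t).1 := fun t ht => by rw [φ2 t ht]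
  refine ⟨y₁, y₀, fun y => (γ (θ y)).1, fun y => -(γ (φ y)).1, ?_⟩
  constructor
  · exact hy1
  · exact hy0
  · exact (hxc.comp θc).continuousOn
  · exact (hxc.comp φc).neg.continuousOn
  · show (γ (θ y₁)).1 = 0
    rw [hy₁, hRt t₁ ⟨h01.le, le_rfl⟩]; exact hx1
  · show (γ (θ y₀)).1 = 0
    rw [hy₀, hRt t₀ ⟨le_rfl, h01.le⟩]; exact hx0
  · show -(γ (φ y₁)).1 = 0
    rw [hy₁, hLt t₁ ⟨le_rfl, h1T.le⟩, hx1, neg_zero]
  · show -(γ (φ y₀)).1 = 0
    have := hLt (t₀ + T) ⟨h1T.le, le_rfl⟩
    rw [e0] at this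
    rw [hy₀, this, hx0, neg_zero]
  · exact hRp
  · exact hLp
  · intro y hy
    have hne := (hRp y hy).ne'
    have k1 := (A2_d1 hγ (θ y)).scomp y (θ3 y hy).2
    have k2 : (γ (θ y)).2 = y := (θ1 y ⟨hy.1.le, hy.2.le⟩).2
    refine (k1.congr_deriv ?_)
    rw [k2, smul_eq_mul]
    field_simp
    ring
  · intro y hy
    have hne := (hLp y hy).ne'
    have hne' : (γ (φ y)).1 ≠ 0 := fun h => hne (by rw [h, neg_zero])
    have k1 := ((A2_d1 hγ (φ y)).scomp y (φ3 y hy).2).neg
    have k2 : (γ (φ y)).2 = y := (φ1 y ⟨hy.1.le, hy.2.le⟩).2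
    refine (k1.congr_deriv ?_)
    rw [k2, smul_eq_mul, neg_neg]
    field_simp
    ring
  · ext z
    simp only [Set.mem_range, Set.mem_ofPred_eq]
    constructor
    · rintro ⟨t, rfl⟩
      obtain ⟨t', ht', e⟩ := hper.exists_mem_Ico hT t t₀
      rw [e]
      rcases le_total t' t₁ with h | h
      · have hm : t' ∈ Icc t₀ t₁ := ⟨ht'.1, h⟩
        refine ⟨?_, Or.inl (hRt t' hm).symm⟩
        have hanti : AntitoneOn (fun t => (γ t).2) (Icc t₀ t₁) := by
          apply antitoneOn_of_deriv_nonpos (convex_Icc _ _) hyc.continuousOn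
          · intro t _
            exact (A2_d2 hγ t).differentiableAt.differentiableWithinAt
          · intro t ht
            rw [interior_Icc] at ht
            rw [(A2_d2 hγ t).deriv]
            have := hpos t ht
            linarith
        exact ⟨hanti hm ⟨h01.le, le_rfl⟩ h, hanti ⟨le_rfl, h01.le⟩ hm ht'.1⟩
      · have hm : t' ∈ Icc t₁ (t₀ + T) := ⟨h, ht'.2.le⟩
        refine ⟨?_, Or.inr (by rw [hLt t' hm, neg_neg])⟩
        have hmono : MonotoneOn (fun t => (γ t).2) (Icc t₁ (t₀ + T)) := by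
          apply monotoneOn_of_deriv_nonneg (convex_Icc _ _) hyc.continuousOn
          · intro t _
            exact (A2_d2 hγ t).differentiableAt.differentiableWithinAt
          · intro t ht
            rw [interior_Icc] at ht
            rw [(A2_d2 hγ t).deriv]
            have := hneg t ht
            linarith
        have k1 := hmono ⟨le_rfl, h1T.le⟩ hm h
        have k2 := hmono hm ⟨h1T.le, le_rfl⟩ ht'.2.le
        simp only [e0] at k2
        exact ⟨k1, k2⟩
    · rintro ⟨hz, h | h⟩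
      · exact ⟨θ z.2, Prod.ext h.symm (θ1 z.2 hz).2⟩
      · exact ⟨φ z.2, Prod.ext (by rw [h, neg_neg]) (φ1 z.2 hz).2⟩
  · intro w hw hwc c d hc hcd hd
    have hgc : Continuous (fun t => w (γ t) * (γ t).1 ^ 2) :=
      (hwc.comp_continuous hcont fun t => hγ.ne t).mul (hxc.pow 2)
    have hg0 : ∀ t, 0 ≤ w (γ t) * (γ t).1 ^ 2 := fun t => mul_nonneg (hw _) (sq_nonneg _)
    have hgper : Function.Periodic (fun t => w (γ t) * (γ t).1 ^ 2) T := fun t => by
      simp only [hγ.per t]
    have hcI : c ∈ Ioo y₁ y₀ := ⟨hc, by linarith⟩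
    have hdI : d ∈ Ioo y₁ y₀ := ⟨by linarith, hd⟩
    obtain ⟨hac, -⟩ := θ3 c hcI
    obtain ⟨had, -⟩ := θ3 d hdI
    have hyc' : (γ (θ c)).2 = c := (θ1 c ⟨hcI.1.le, hcI.2.le⟩).2
    have hyd' : (γ (θ d)).2 = d := (θ1 d ⟨hdI.1.le, hdI.2.le⟩).2
    have hanti : StrictAntiOn (fun t => (γ t).2) (Icc t₀ t₁) := by
      apply strictAntiOn_of_deriv_neg (convex_Icc _ _) hyc.continuousOn
      intro t ht
      rw [interior_Icc] at ht
      rw [(A2_d2 hγ t).deriv]
      have := hpos t ht
      linarith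
    have hdc : θ d ≤ θ c := by
      have := (hanti.le_iff_ge ⟨hac.1.le, hac.2.le⟩ ⟨had.1.le, had.2.le⟩).1
        (show (γ (θ c)).2 ≤ (γ (θ d)).2 by rw [hyc', hyd']; exact hcd)
      exact this
    have hsub : ∫ t in (θ d)..(θ c), w (γ t) * (γ t).1 ^ 2 =
        ∫ y in c..d, w ((γ (θ y)).1, y) * (γ (θ y)).1 := by
      have key := intervalIntegral.integral_comp_mul_deriv' (a := θ d) (b := θ c)
        (f := fun t => (γ t).2) (f' := fun t => -(γ t).1)
        (g := fun y => w ((γ (θ y)).1, y) * (γ (θ y)).1)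
        (fun t _ => A2_d2 hγ t) hxc.neg.continuousOn (by
          have himg : (fun t => (γ t).2) '' (uIcc (θ d) (θ c)) ⊆ Icc c d := by
            rintro _ ⟨t, ht, rfl⟩
            rw [uIcc_of_le hdc] at ht
            have htI : t ∈ Icc t₀ t₁ := ⟨had.1.le.trans ht.1, ht.2.trans hac.2.le⟩
            constructor
            · have := hanti.antitoneOn htI ⟨hac.1.le, hac.2.le⟩ ht.2
              simpa only [hyc'] using this
            · have := hanti.antitoneOn ⟨had.1.le, had.2.le⟩ htI ht.1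
              simpa only [hyd'] using this
          refine ContinuousOn.mono ?_ himg
          refine ContinuousOn.mul ?_ (hxc.comp θc).continuousOn
          refine hwc.comp ((hxc.comp θc).prodMk continuous_id).continuousOn ?_
          intro y hy h0
          have h1 := hRp y ⟨by linarith [hy.1], by linarith [hy.2]⟩
          have h2 : (γ (θ y)).1 = 0 := congrArg Prod.fst h0
          linarith)
      simp only [hyc', hyd'] at key
      rw [intervalIntegral.integral_symm c d, ← neg_eq_iff_eq_neg] at key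
      rw [← key, ← intervalIntegral.integral_neg]
      apply intervalIntegral.integral_congr
      intro t ht
      rw [uIcc_of_le hdc] at ht
      have htI : t ∈ Icc t₀ t₁ := ⟨had.1.le.trans ht.1, ht.2.trans hac.2.le⟩
      simp only [Function.comp]
      rw [hRt t htI]
      ring
    show ∫ y in c..d, w ((γ (θ y)).1, y) * (γ (θ y)).1 ≤ J w γ T
    rw [← hsub]
    unfold J
    have e1 := hgper.intervalIntegral_add_eq 0 t₀
    rw [zero_add] at e1
    rw [e1]
    apply intervalIntegral.integral_mono_interval had.1.le hdc (hac.2.le.trans h1T.le)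
    · exact Eventually.of_forall hg0
    · exact hgc.intervalIntegrable _ _

end Pool.Agent.H709L
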