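import Pool.Agent.H709L.Basic

/-! Task B1 (helper640): unimodality of the right arc. -/

open Real Set MeasureTheory Topology Filter
open scoped ENNReal

namespace Pool.Agent.H709L

theorem unimodal : Unimodal := by
  intro p s γ T y₁ y₀ R L hp0 hL
  set f : ℝ → ℝ := fun y => p.eval (R y) - s * R y - y with hf
  set R' : ℝ → ℝ := fun y => (p.eval (R y) - s * R y - y) / R y with hR'
  set f' : ℝ → ℝ := fun y => p.derivative.eval (R y) * R' y - s * R' y - 1 with hf'
  have h10 : y₁ < y₀ := hL.neg.trans hL.pos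
  have hcf : ContinuousOn f (Icc y₁ y₀) := by
    have h1 : ContinuousOn (fun y => p.eval (R y)) (Icc y₁ y₀) :=
      p.continuous.comp_continuousOn hL.cR
    exact (h1.sub (continuousOn_const.mul hL.cR)).sub continuousOn_id
  have hdf : ∀ x ∈ Ioo y₁ y₀, HasDerivAt f (f' x) x := by
    intro x hx
    have h1 := hL.dR x hx
    have h2 : HasDerivAt (fun y => p.eval (R y)) (p.derivative.eval (R x) * R' x) x :=
      (p.hasDerivAt (R x)).comp x h1
    exact (h2.sub (h1.const_mul s)).sub (hasDerivAt_id x)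
  have hz : ∀ x ∈ Ioo y₁ y₀, f x = 0 → f' x < 0 := by
    intro x _ hx0
    have h1 : R' x = 0 := by
      simp only [hR']
      rw [show p.eval (R x) - s * R x - x = f x from rfl, hx0, zero_div]
    simp only [hf']
    rw [h1]
    norm_num
  have hf1 : 0 < f y₁ := by
    simp only [hf]
    rw [hL.R1, hp0]
    linarith [hL.neg]
  have hf0 : f y₀ < 0 := by
    simp only [hf]
    rw [hL.R0, hp0]
    linarith [hL.pos]
  obtain ⟨ym, hym, hfm⟩ : ∃ ym ∈ Icc y₁ y₀, f ym = 0 := by
    have := intermediate_value_Icc' h10.le hcf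
    obtain ⟨ym, h1, h2⟩ := this ⟨hf0.le, hf1.le⟩
    exact ⟨ym, h1, h2⟩
  have hymI : ym ∈ Ioo y₁ y₀ := by
    refine ⟨lt_of_le_of_ne hym.1 ?_, lt_of_le_of_ne hym.2 ?_⟩
    · rintro rfl; linarith
    · rintro rfl; linarith
  have hdm := hdf ym hymI
  have hneg := hz ym hymI hfm
  have hright : ∀ u ∈ Ioo ym y₀, f u < 0 := by
    intro u hu
    have h6 : Tendsto (slope f ym) (𝓝[>] ym) (𝓝 (f' ym)) :=
      (hasDerivAt_iff_tendsto_slope.1 hdm).mono_left (nhdsWithin_mono _ fun x hx => ne_of_gt hx)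
    obtain ⟨c, hc1, hc2⟩ := ((h6.eventually (gt_mem_nhds hneg)).and (Ioo_mem_nhdsGT hu.1)).exists
    have hfc : f c < 0 := by
      rw [slope_def_field, hfm, sub_zero] at hc1
      by_contra hcon
      push Not at hcon
      exact absurd (div_nonneg hcon (by linarith [hc2.1])) (not_le.2 hc1)
    have hcy : c < y₀ := hc2.2.trans hu.2
    have hyc : y₁ < c := hymI.1.trans hc2.1
    exact (zeroCross f f' c y₀ hcy (hcf.mono (Icc_subset_Icc hyc.le le_rfl))
      (fun x hx => hdf x ⟨hyc.trans hx.1, hx.2⟩) (fun x hx => hz x ⟨hyc.trans hx.1, hx.2⟩)).1 hfc u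
      ⟨hc2.2.le, hu.2⟩
  have hleft : ∀ u ∈ Ioo y₁ ym, 0 < f u := by
    intro u hu
    have h6 : Tendsto (slope f ym) (𝓝[<] ym) (𝓝 (f' ym)) :=
      (hasDerivAt_iff_tendsto_slope.1 hdm).mono_left (nhdsWithin_mono _ fun x hx => ne_of_lt hx)
    obtain ⟨c, hc1, hc2⟩ := ((h6.eventually (gt_mem_nhds hneg)).and (Ioo_mem_nhdsLT hu.2)).exists
    have hfc : 0 < f c := by
      rw [slope_def_field, hfm, sub_zero] at hc1
      by_contra hcon
      push Not at hcon
      exact absurd (div_nonneg_of_nonpos hcon (by linarith [hc2.2])) (not_le.2 hc1)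
    have hcy : c < y₀ := hc2.2.trans hymI.2
    have hyc : y₁ < c := hu.1.trans hc2.1
    exact (zeroCross f f' y₁ c hyc (hcf.mono (Icc_subset_Icc le_rfl hcy.le))
      (fun x hx => hdf x ⟨hx.1, hx.2.trans hcy⟩) (fun x hx => hz x ⟨hx.1, hx.2.trans hcy⟩)).2 hfc u
      ⟨hu.1, hc2.1.le⟩
  refine ⟨ym, hymI, ?_, ?_, ?_, ?_, ?_⟩
  · simp only [hf] at hfm
    linarith
  · intro y hy
    have := hleft y hy
    simp only [hf] at this
    linarith
  · intro y hy
    have := hright y hy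
    simp only [hf] at this
    linarith
  · refine strictMonoOn_of_deriv_pos (convex_Icc _ _)
      (hL.cR.mono (Icc_subset_Icc le_rfl hymI.2.le)) ?_
    intro x hx
    rw [interior_Icc] at hx
    have hx' : x ∈ Ioo y₁ y₀ := ⟨hx.1, hx.2.trans hymI.2⟩
    rw [(hL.dR x hx').deriv]
    exact div_pos (hleft x hx) (hL.Rp x hx')
  · refine strictAntiOn_of_deriv_neg (convex_Icc _ _)
      (hL.cR.mono (Icc_subset_Icc hymI.1.le le_rfl)) ?_
    intro x hx
    rw [interior_Icc] at hx
    have hx' : x ∈ Ioo y₁ y₀ := ⟨hymI.1.trans hx.1, hx.2⟩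
    rw [(hL.dR x hx').deriv]
    exact div_neg_of_neg_of_pos (hright x hx) (hL.Rp x hx')

end Pool.Agent.H709L
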