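import Pool.Agent.H709L.Basic

/-! The width of the right arc. -/

open Real Set MeasureTheory Topology Filter

namespace Pool.Agent.H709L

theorem widthR (h : Unimodal) : WidthR := by
  intro p s γ T y₁ y₀ R L hp ld
  obtain ⟨ym, um⟩ := h p s γ T y₁ y₀ R L hp ld
  have h1 : y₁ < ym := um.mem.1
  have h2 : ym < y₀ := um.mem.2
  set F : ℝ → ℝ := fun x => p.eval x - s * x with hF
  have cR1 : ContinuousOn R (Icc y₁ ym) := ld.cR.mono (Icc_subset_Icc_right h2.le)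
  have cR2 : ContinuousOn R (Icc ym y₀) := ld.cR.mono (Icc_subset_Icc_left h1.le)
  -- bounds of `F (R u)`
  have lo : ∀ u ∈ Ioc y₁ ym, u ≤ F (R u) := by
    intro u hu
    rcases hu.2.lt_or_eq with h3 | h3
    · exact (um.lo u ⟨hu.1, h3⟩).le
    · rw [h3]; exact um.eq.le
  have hi : ∀ u ∈ Ico ym y₀, F (R u) ≤ u := by
    intro u hu
    rcases hu.1.lt_or_eq with h3 | h3
    · exact (um.hi u ⟨h3, hu.2⟩).le
    · rw [← h3]; exact um.eq.ge
  have bd : ∀ u ∈ Ioo y₁ y₀, y₁ ≤ F (R u) ∧ F (R u) ≤ y₀ := by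
    intro u hu
    have hRu := ld.Rp u hu
    rcases le_total u ym with h3 | h3
    · have hm : R u ≤ R ym := um.mono.monotoneOn ⟨hu.1.le, h3⟩ ⟨h1.le, le_refl _⟩ h3
      obtain ⟨v, hv, hv'⟩ := intermediate_value_Icc' h2.le cR2 (show R u ∈ Icc (R y₀) (R ym) from
        ⟨by rw [ld.R0]; exact hRu.le, hm⟩)
      have hv2 : v < y₀ := by
        rcases hv.2.lt_or_eq with h4 | h4
        · exact h4
        · rw [h4, ld.R0] at hv'; linarith
      have h5 := hi v ⟨hv.1, hv2⟩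
      have h6 := lo u ⟨hu.1, h3⟩
      rw [hv'] at h5
      exact ⟨by linarith [hu.1], by linarith⟩
    · have hm : R u ≤ R ym := um.anti.antitoneOn ⟨le_refl _, h2.le⟩ ⟨h3, hu.2.le⟩ h3
      obtain ⟨v, hv, hv'⟩ := intermediate_value_Icc h1.le cR1 (show R u ∈ Icc (R y₁) (R ym) from
        ⟨by rw [ld.R1]; exact hRu.le, hm⟩)
      have hv2 : y₁ < v := by
        rcases hv.1.lt_or_eq with h4 | h4
        · exact h4
        · rw [← h4, ld.R1] at hv'; linarith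
      have h5 := lo v ⟨hv2, hv.2⟩
      have h6 := hi u ⟨h3, hu.2⟩
      rw [hv'] at h5
      exact ⟨by linarith, by linarith [hu.2]⟩
  have hd : ∀ u ∈ Ioo y₁ y₀, HasDerivAt (fun y => R y ^ 2) (2 * (F (R u) - u)) u := by
    intro u hu
    have hRu := ld.Rp u hu
    have h5 := (ld.dR u hu).pow 2
    have e2 : 2 * (F (R u) - u) = ((2:ℕ):ℝ) * R u ^ (2 - 1) * ((p.eval (R u) - s * R u - u) / R u) := by
      simp only [hF]
      field_simp
      norm_num
      ring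
    rw [e2]; exact h5
  have cs : ContinuousOn (fun y => R y ^ 2) (Icc y₁ y₀) := ld.cR.pow 2
  obtain ⟨c, hc, hc'⟩ := exists_hasDerivAt_eq_slope (fun y => R y ^ 2) (fun u => 2 * (F (R u) - u)) h1
    (cs.mono (Icc_subset_Icc_right h2.le)) (fun u hu => hd u ⟨hu.1, hu.2.trans h2⟩)
  obtain ⟨e, he, he'⟩ := exists_hasDerivAt_eq_slope (fun y => R y ^ 2) (fun u => 2 * (F (R u) - u)) h2
    (cs.mono (Icc_subset_Icc_left h1.le)) (fun u hu => hd u ⟨h1.trans hu.1, hu.2⟩)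
  have b1 := bd c ⟨hc.1, hc.2.trans h2⟩
  have b2 := bd e ⟨h1.trans he.1, he.2⟩
  rw [eq_div_iff (by linarith)] at hc' he'
  simp only [ld.R1, ld.R0] at hc' he'
  have k1 : R ym ^ 2 ≤ 2 * (y₀ - y₁) * (ym - y₁) := by
    have : F (R c) - c ≤ y₀ - y₁ := by linarith [hc.1]
    nlinarith
  have k2 : R ym ^ 2 ≤ 2 * (y₀ - y₁) * (y₀ - ym) := by
    have : -(y₀ - y₁) ≤ F (R e) - e := by linarith [he.2]
    nlinarith
  have k3 : R ym ^ 2 ≤ (y₀ - y₁) ^ 2 := by nlinarith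
  have k4 : R ym ≤ y₀ - y₁ := abs_le_of_sq_le_sq' k3 (by linarith) |>.2
  intro y hy
  rcases le_total y ym with h3 | h3
  · exact (um.mono.monotoneOn ⟨hy.1, h3⟩ ⟨h1.le, le_refl _⟩ h3).trans k4
  · exact (um.anti.antitoneOn ⟨le_refl _, h2.le⟩ ⟨h3, hy.2⟩ h3).trans k4

end Pool.Agent.H709L
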