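import Pool.Agent.H709L.Basic

/-! Task B3: reflection of closed orbits of Lienard systems. -/

open Real Set MeasureTheory Topology Filter
open scoped ENNReal

namespace Pool.Agent.H709L

noncomputable section

theorem B3_eval (p : Polynomial ℝ) (x : ℝ) :
    (-(p.comp (-Polynomial.X))).eval x = -(p.eval (-x)) := by
  simp

theorem B3_lf (p : Polynomial ℝ) (s : ℝ) (z : ℝ × ℝ) :
    -(lf p s z) = lf (-(p.comp (-Polynomial.X))) s (-z) := by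
  unfold lf
  ext
  · simp only [Prod.fst_neg, Prod.snd_neg, B3_eval, neg_neg]
    ring
  · simp

theorem B3_cyc {p : Polynomial ℝ} {s : ℝ} {γ : ℝ → ℝ × ℝ} {T : ℝ} (h : LCyc p s γ T) :
    LCyc (-(p.comp (-Polynomial.X))) s (fun t => -γ t) T := by
  refine ⟨h.pos, fun t => ?_, fun t => ?_, fun t u htu => ?_, fun t ht => ?_⟩
  · have h1 := (h.ode t).neg
    rw [B3_lf] at h1
    exact h1
  · simp only [h.per t]
  · exact h.inj t u (neg_injective htu)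
  · exact h.ne t (neg_eq_zero.1 ht)

theorem B3_rng {y₁ y₀ : ℝ} {γ : ℝ → ℝ × ℝ} {R L : ℝ → ℝ}
    (h : range γ = {z : ℝ × ℝ | z.2 ∈ Icc y₁ y₀ ∧ (z.1 = R z.2 ∨ z.1 = -L z.2)}) :
    range (fun t => -γ t) =
      {z : ℝ × ℝ | z.2 ∈ Icc (-y₀) (-y₁) ∧ (z.1 = L (-z.2) ∨ z.1 = -R (-z.2))} := by
  ext z
  have h1 : z ∈ range (fun t => -γ t) ↔ -z ∈ range γ := by
    constructor
    · rintro ⟨t, rfl⟩
      exact ⟨t, (neg_neg _).symm⟩
    · rintro ⟨t, ht⟩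
      refine ⟨t, ?_⟩
      simp only [ht, neg_neg]
  rw [h1, h]
  simp only [mem_ofPred_eq, mem_Icc, Prod.fst_neg, Prod.snd_neg]
  constructor
  · rintro ⟨⟨h2, h3⟩, h4⟩
    refine ⟨⟨by linarith, by linarith⟩, ?_⟩
    rcases h4 with h4 | h4
    · right; linarith
    · left; linarith
  · rintro ⟨⟨h2, h3⟩, h4⟩
    refine ⟨⟨by linarith, by linarith⟩, ?_⟩
    rcases h4 with h4 | h4
    · right; linarith
    · left; linarith

theorem B3_same {y₁ y₀ u₁ u₀ : ℝ} {R L R₂ L₂ : ℝ → ℝ} (hy : y₁ < y₀) (hu : u₁ < u₀)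
    (hLp : ∀ y ∈ Ioo y₁ y₀, 0 < L y) (hR₂p : ∀ y ∈ Ioo u₁ u₀, 0 < R₂ y)
    (h : {z : ℝ × ℝ | z.2 ∈ Icc y₁ y₀ ∧ (z.1 = R z.2 ∨ z.1 = -L z.2)} =
      {z : ℝ × ℝ | z.2 ∈ Icc u₁ u₀ ∧ (z.1 = R₂ z.2 ∨ z.1 = -L₂ z.2)}) :
    u₁ = y₁ ∧ u₀ = y₀ ∧ ∀ y ∈ Ioo y₁ y₀, R₂ y = R y := by
  have h1 : Icc y₁ y₀ = Icc u₁ u₀ := by
    ext y
    constructor
    · intro hy1
      have h2 : ((R y, y) : ℝ × ℝ) ∈
          {z : ℝ × ℝ | z.2 ∈ Icc y₁ y₀ ∧ (z.1 = R z.2 ∨ z.1 = -L z.2)} := ⟨hy1, Or.inl rfl⟩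
      rw [h] at h2
      exact h2.1
    · intro hy1
      have h2 : ((R₂ y, y) : ℝ × ℝ) ∈
          {z : ℝ × ℝ | z.2 ∈ Icc u₁ u₀ ∧ (z.1 = R₂ z.2 ∨ z.1 = -L₂ z.2)} := ⟨hy1, Or.inl rfl⟩
      rw [← h] at h2
      exact h2.1
  have e1 : y₁ ∈ Icc u₁ u₀ := by rw [← h1]; exact ⟨le_rfl, hy.le⟩
  have e2 : y₀ ∈ Icc u₁ u₀ := by rw [← h1]; exact ⟨hy.le, le_rfl⟩
  have e3 : u₁ ∈ Icc y₁ y₀ := by rw [h1]; exact ⟨le_rfl, hu.le⟩
  have e4 : u₀ ∈ Icc y₁ y₀ := by rw [h1]; exact ⟨hu.le, le_rfl⟩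
  have f1 : u₁ = y₁ := le_antisymm e1.1 e3.1
  have f2 : u₀ = y₀ := le_antisymm e4.2 e2.2
  refine ⟨f1, f2, fun y hy1 => ?_⟩
  have h2 : ((R₂ y, y) : ℝ × ℝ) ∈
      {z : ℝ × ℝ | z.2 ∈ Icc u₁ u₀ ∧ (z.1 = R₂ z.2 ∨ z.1 = -L₂ z.2)} :=
    ⟨by rw [← h1]; exact Ioo_subset_Icc_self hy1, Or.inl rfl⟩
  rw [← h] at h2
  rcases h2.2 with h3 | h3
  · exact h3
  · have h4 := hLp y hy1
    have h5 := hR₂p y (by rw [f1, f2]; exact hy1)
    simp only at h3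
    linarith

theorem reflect (hd : Data) : Reflect := by
  intro p s γ T y₁ y₀ R L hp hcyc h
  have hq : (-(p.comp (-Polynomial.X))).eval 0 = 0 := by
    rw [B3_eval, neg_zero, hp, neg_zero]
  have hcyc' := B3_cyc hcyc
  refine ⟨hcyc', hq, fun y => L (-y), fun y => R (-y), ?_, fun _ => rfl, fun _ => rfl⟩
  have hneg : ContinuousOn (fun y : ℝ => -y) (Icc (-y₀) (-y₁)) := continuous_neg.continuousOn
  have hmaps : MapsTo (fun y : ℝ => -y) (Icc (-y₀) (-y₁)) (Icc y₁ y₀) := fun y hy =>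
    ⟨by linarith [hy.2], by linarith [hy.1]⟩
  have hio : ∀ y ∈ Ioo (-y₀) (-y₁), -y ∈ Ioo y₁ y₀ := fun y hy =>
    ⟨by linarith [hy.2], by linarith [hy.1]⟩
  have hrng := B3_rng h.rng
  have hn := h.neg
  have hpp := h.pos
  refine ⟨by linarith, by linarith, h.cL.comp hneg hmaps, h.cR.comp hneg hmaps, ?_, ?_, ?_, ?_,
    fun y hy => h.Lp _ (hio y hy), fun y hy => h.Rp _ (hio y hy), ?_, ?_, hrng, ?_⟩
  · simp only [neg_neg]; exact h.L0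
  · simp only [neg_neg]; exact h.L1
  · simp only [neg_neg]; exact h.R0
  · simp only [neg_neg]; exact h.R1
  · intro y hy
    have h1 := (h.dL (-y) (hio y hy)).comp y (hasDerivAt_neg y)
    have h2 := h.Lp _ (hio y hy)
    rw [B3_eval]
    refine h1.congr_deriv ?_
    field_simp
    ring
  · intro y hy
    have h1 := (h.dR (-y) (hio y hy)).comp y (hasDerivAt_neg y)
    have h2 := h.Rp _ (hio y hy)
    rw [B3_eval]
    simp only [neg_neg]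
    refine h1.congr_deriv ?_
    field_simp
    ring
  · intro w hw hwc c d hc hcd hdd
    obtain ⟨u₁, u₀, R₂, L₂, h2⟩ := hd _ s _ T hq hcyc'
    obtain ⟨f1, f2, f3⟩ := B3_same (y₁ := -y₀) (y₀ := -y₁) (R := fun y => L (-y))
      (L := fun y => R (-y)) (by linarith) (h2.neg.trans h2.pos)
      (fun y hy => h.Rp _ (hio y hy)) h2.Rp (hrng.symm.trans h2.rng)
    have h3 := h2.act w hw hwc c d (by rw [f1]; exact hc) hcd (by rw [f2]; exact hdd)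
    refine le_trans (le_of_eq ?_) h3
    refine intervalIntegral.integral_congr fun y hy => ?_
    rw [uIcc_of_le hcd] at hy
    have h4 := f3 y ⟨lt_of_lt_of_le hc hy.1, lt_of_le_of_lt hy.2 hdd⟩
    simp only [h4]

end

end Pool.Agent.H709L
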