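import Pool.Agent.H709L.Basic

/-! Task B4: bound for the width of the left arc. -/

open Real Set MeasureTheory Topology Filter
open scoped ENNReal

namespace Pool.Agent.H709L

theorem widthL (h : WidthR) (hr : Reflect) : WidthL := by
  intro p s γ T y₁ y₀ R L hp hc hd y hy
  obtain ⟨hc', hp', R', L', hd', hR', hL'⟩ := hr p s γ T y₁ y₀ R L hp hc hd
  have h1 := h _ s _ T (-y₀) (-y₁) R' L' hp' hd' (-y) ⟨by linarith [hy.2], by linarith [hy.1]⟩
  rw [hR', neg_neg] at h1
  linarith

end Pool.Agent.H709L
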