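import Pool.Agent.H709L.Defs

/-! Zero crossing lemma and bookkeeping of majorants. -/

open Real Set MeasureTheory Topology Filter
open scoped ENNReal

namespace Pool.Agent.H709L

theorem zeroCross : ZeroCross := by
  intro f f' a b hab hc hd hz
  have key : ∀ u v, a ≤ u → u < v → v ≤ b → f u < 0 → f v < 0 ∨ (v = b ∧ f v ≤ 0) := by
    intro u v hau huv hvb hu
    by_contra hcon
    push Not at hcon
    obtain ⟨h1, h2⟩ := hcon
    -- first zero after u
    set Z := {x | x ∈ Icc u v ∧ 0 ≤ f x} with hZ
    have hcuv : ContinuousOn f (Icc u v) := hc.mono (Icc_subset_Icc hau hvb)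
    have hZc : IsCompact Z := by
      have : Z = Icc u v ∩ f ⁻¹' Ici 0 := by ext x; simp [hZ]
      rw [this]
      exact isCompact_Icc.of_isClosed_subset
        (hcuv.preimage_isClosed_of_isClosed isClosed_Icc isClosed_Ici) inter_subset_left
    have hZn : Z.Nonempty := ⟨v, ⟨huv.le, le_rfl⟩, h1⟩
    obtain ⟨m, hmZ, hmin⟩ := hZc.exists_isLeast hZn
    have hum : u < m := lt_of_le_of_ne hmZ.1.1 (by rintro rfl; linarith [hmZ.2])
    have hlt : ∀ x ∈ Ico u m, f x < 0 := by
      intro x hx
      by_contra hx0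
      push Not at hx0
      exact absurd (hmin ⟨⟨hx.1, hx.2.le.trans hmZ.1.2⟩, hx0⟩) (not_le.2 hx.2)
    have hfm : f m = 0 := by
      refine le_antisymm ?_ hmZ.2
      have h3 : ContinuousWithinAt f (Iio m) m := by
        have h4 := hcuv m hmZ.1
        exact (h4.mono_of_mem_nhdsWithin (mem_of_superset (Ico_mem_nhdsLT hum)
          fun x hx => ⟨hx.1, hx.2.le.trans hmZ.1.2⟩))
      refine le_of_tendsto h3 ?_
      filter_upwards [Ico_mem_nhdsLT hum] with x hx using (hlt x hx).le
    have hmb : m < b := by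
      rcases (hmZ.1.2.trans hvb).lt_or_eq with h | h
      · exact h
      · exfalso
        have hvm : v = b := le_antisymm hvb (h ▸ hmZ.1.2)
        have := h2 hvm
        have hmv : m = v := by rw [hvm, h]
        rw [← hmv, hfm] at this
        exact lt_irrefl _ this
    have hmI : m ∈ Ioo a b := ⟨hau.trans_lt hum, hmb⟩
    have hdm := hz m hmI hfm
    have h5 := (hd m hmI)
    have h6 : Tendsto (slope f m) (𝓝[<] m) (𝓝 (f' m)) := by
      have := hasDerivAt_iff_tendsto_slope.1 h5
      exact this.mono_left (nhdsWithin_mono _ fun x hx => ne_of_lt hx)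
    have h7 : 0 ≤ f' m := by
      refine ge_of_tendsto h6 ?_
      filter_upwards [Ico_mem_nhdsLT hum] with x hx
      rw [slope_def_field, hfm, sub_zero]
      exact div_nonneg_of_nonpos (hlt x hx).le (by linarith [hx.2])
    linarith
  constructor
  · intro ha x hx
    rcases hx.1.eq_or_lt with rfl | h
    · exact ha
    · rcases key a x le_rfl h hx.2.le ha with h1 | h1
      · exact h1
      · exact absurd h1.1 (ne_of_lt hx.2)
  · intro hb x hx
    by_contra hx0
    push Not at hx0
    rcases hx.2.eq_or_lt with rfl | hxb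
    · linarith
    -- a point y in (x, b) with f y < 0
    have hxI : x ∈ Ioo a b := ⟨hx.1, hxb⟩
    have hy : ∃ y, x ≤ y ∧ y < b ∧ f y < 0 := by
      rcases hx0.eq_or_lt with h | h
      · have hdx := hz x hxI h
        have h5 := hd x hxI
        have h6 : Tendsto (slope f x) (𝓝[>] x) (𝓝 (f' x)) := by
          have := hasDerivAt_iff_tendsto_slope.1 h5
          exact this.mono_left (nhdsWithin_mono _ fun x hx => ne_of_gt hx)
        have h7 := h6.eventually (gt_mem_nhds hdx)
        obtain ⟨y, hy1, hy2⟩ := (h7.and (Ioo_mem_nhdsGT hxb)).exists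
        refine ⟨y, hy2.1.le, hy2.2, ?_⟩
        rw [slope_def_field, h, sub_zero] at hy1
        by_contra hc
        push Not at hc
        exact absurd (div_nonneg hc (by linarith [hy2.1])) (not_le.2 hy1)
      · exact ⟨x, le_rfl, hxb, h⟩
    obtain ⟨y, hxy, hyb, hfy⟩ := hy
    rcases key y b (hx.1.le.trans hxy) hyb le_rfl hfy with h1 | h1
    · linarith
    · linarith [h1.2]

theorem majRulesI : MajRulesI := by
  refine ⟨?_, ?_, ?_, ?_⟩
  · rintro N N' K K' h hK ⟨g, hg1, hg2, hg3⟩
    exact ⟨g, hg1, fun α hα => (h α hα).trans (hg2 α hα), hg3.trans (ENNReal.ofReal_le_ofReal hK)⟩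
  · rintro N N' K K' hK hK' ⟨g, hg1, hg2, hg3⟩ ⟨g', hg1', hg2', hg3'⟩
    refine ⟨fun α => g α + g' α, hg1.add hg1', fun α hα => add_le_add (hg2 α hα) (hg2' α hα), ?_⟩
    rw [lintegral_add_left hg1, ENNReal.ofReal_add hK hK']
    exact add_le_add hg3 hg3'
  · intro N K S hK hS h
    choose g hg1 hg2 hg3 using h
    refine ⟨fun α => ∑' i, g i α, Measurable.tsum hg1,
      fun α hα => ENNReal.tsum_le_tsum fun i => hg2 i α hα, ?_⟩
    rw [lintegral_tsum fun i => (hg1 i).aemeasurable]
    calc ∑' i, ∫⁻ α in Ioo (-1:ℝ) 1, g i α ≤ ∑' i, ENNReal.ofReal (K i) :=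
          ENNReal.tsum_le_tsum fun i => hg3 i
      _ = ENNReal.ofReal (∑' i, K i) := (ENNReal.ofReal_tsum_of_nonneg hK hS.summable).symm
      _ = ENNReal.ofReal S := by rw [hS.tsum_eq]
  · intro N K hmono h
    choose g hg1 hg2 hg3 using h
    refine ⟨fun α => liminf (fun i => g i α) atTop, Measurable.liminf hg1, fun α hα => ?_, ?_⟩
    · refine iSup_le fun i => ?_
      refine le_liminf_of_le (by isBoundedDefault) ?_
      filter_upwards [eventually_ge_atTop i] with j hj
      exact (hmono i j α hj).trans (hg2 j α hα)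
    · refine (lintegral_liminf_le hg1).trans ?_
      refine (liminf_le_liminf (Eventually.of_forall fun i => hg3 i)).trans ?_
      rw [liminf_const]

end Pool.Agent.H709L
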