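import Pool.Agent.H709L.Basic

/-! Closed orbits of Lienard systems for different values of the parameter are disjoint. -/

open Real Set MeasureTheory Topology Filter
open scoped ENNReal

namespace Pool.Agent.H709L

/-- an arc in the right half plane, as a function of the height -/
structure CArc (q : ℝ → ℝ) (s a b : ℝ) (R : ℝ → ℝ) : Prop where
  neg : a < 0
  pos : 0 < b
  c : ContinuousOn R (Icc a b)
  Ra : R a = 0
  Rb : R b = 0
  Rp : ∀ y ∈ Ioo a b, 0 < R y
  d : ∀ y ∈ Ioo a b, HasDerivAt R ((q (R y) - s * R y - y) / R y) y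

theorem CArc.nonneg {q : ℝ → ℝ} {s a b : ℝ} {R : ℝ → ℝ} (h : CArc q s a b R) {y : ℝ}
    (hy : y ∈ Icc a b) : 0 ≤ R y := by
  rcases hy.1.eq_or_lt with h1 | h1
  · rw [← h1, h.Ra]
  · rcases hy.2.eq_or_lt with h2 | h2
    · rw [h2, h.Rb]
    · exact (h.Rp y ⟨h1, h2⟩).le

/-- the half difference of squares -/
theorem CArc.dD {q : ℝ → ℝ} {s s' a b a' b' : ℝ} {R R' : ℝ → ℝ} (h : CArc q s a b R)
    (h' : CArc q s' a' b' R') {y : ℝ} (hy : y ∈ Ioo a b) (hy' : y ∈ Ioo a' b') :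
    HasDerivAt (fun y => R' y ^ 2 / 2 - R y ^ 2 / 2)
      ((q (R' y) - s' * R' y) - (q (R y) - s * R y)) y := by
  have h1 := h.Rp y hy
  have h2 := h'.Rp y hy'
  have h3 := ((((h'.d y hy').pow 2).div_const 2).sub (((h.d y hy).pow 2).div_const 2))
  refine h3.congr_deriv ?_
  field_simp
  ring

/-- crossing: all zeros of the half difference are down-crossings -/
theorem CArc.cross {q : ℝ → ℝ} {s s' a b a' b' : ℝ} {R R' : ℝ → ℝ} (h : CArc q s a b R)
    (h' : CArc q s' a' b' R') (hs : s < s') {c d : ℝ} (hcd : c < d) (hc : a ≤ c) (hc' : a' ≤ c)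
    (hd : d ≤ b) (hd' : d ≤ b') :
    (R' c < R c → ∀ y ∈ Ico c d, R' y < R y) ∧ (R d < R' d → ∀ y ∈ Ioc c d, R y < R' y) := by
  have hcont : ContinuousOn (fun y => R' y ^ 2 / 2 - R y ^ 2 / 2) (Icc c d) := by
    have h1 := h.c.mono (Icc_subset_Icc hc hd)
    have h2 := h'.c.mono (Icc_subset_Icc hc' hd')
    exact ((h2.pow 2).div_const 2).sub ((h1.pow 2).div_const 2)
  have hz := zeroCross (fun y => R' y ^ 2 / 2 - R y ^ 2 / 2)
    (fun y => (q (R' y) - s' * R' y) - (q (R y) - s * R y)) c d hcd hcont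
    (fun y hy => h.dD h' ⟨hc.trans_lt hy.1, hy.2.trans_le hd⟩ ⟨hc'.trans_lt hy.1, hy.2.trans_le hd'⟩)
    (by
      intro y hy h0
      have h1 := h.Rp y ⟨hc.trans_lt hy.1, hy.2.trans_le hd⟩
      have h2 := h'.Rp y ⟨hc'.trans_lt hy.1, hy.2.trans_le hd'⟩
      have h3 : R' y = R y := by
        have h4 : (R' y - R y) * (R' y + R y) = 0 := by
          have h00 : R' y ^ 2 / 2 - R y ^ 2 / 2 = 0 := h0
          linarith [h00]
        rcases mul_eq_zero.1 h4 with h5 | h5
        · linarith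
        · linarith
      simp only [h3]
      nlinarith)
  constructor
  · intro hlt y hy
    have h1 := h.nonneg ⟨hc, hcd.le.trans hd⟩
    have h2 := h'.nonneg ⟨hc', hcd.le.trans hd'⟩
    have h3 := hz.1 (show R' c ^ 2 / 2 - R c ^ 2 / 2 < 0 by nlinarith) y hy
    have h4 := h.nonneg ⟨hc.trans hy.1, hy.2.le.trans hd⟩
    have h5 := h'.nonneg ⟨hc'.trans hy.1, hy.2.le.trans hd'⟩
    by_contra hcon
    push Not at hcon
    nlinarith
  · intro hlt y hy
    have h1 := h.nonneg ⟨hc.trans hcd.le, hd⟩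
    have h2 := h'.nonneg ⟨hc'.trans hcd.le, hd'⟩
    have h3 := hz.2 (show 0 < R' d ^ 2 / 2 - R d ^ 2 / 2 by nlinarith) y hy
    have h4 := h.nonneg ⟨hc.trans hy.1.le, hy.2.trans hd⟩
    have h5 := h'.nonneg ⟨hc'.trans hy.1.le, hy.2.trans hd'⟩
    by_contra hcon
    push Not at hcon
    nlinarith

/-- equal tops: the arc of the larger parameter is larger at points close to the top -/
theorem CArc.top {q : ℝ → ℝ} {s s' a b a' : ℝ} {R R' : ℝ → ℝ} (hq : ContDiff ℝ 1 q)
    (hq0 : q 0 = 0) (h : CArc q s a b R)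
    (h' : CArc q s' a' b R') (hs : s < s') {c : ℝ} (hc : c < b) :
    ∃ y ∈ Ioo c b, R y < R' y := by
  have hb := h.pos
  have hab : a < b := h.neg.trans h.pos
  have hab' : a' < b := h'.neg.trans h'.pos
  -- the Lipschitz constant
  have hh : ContDiffAt ℝ 1 (fun x => q x - s' * x) 0 :=
    (hq.contDiffAt).sub (contDiffAt_const.mul contDiffAt_id)
  obtain ⟨K, t, ht, hK⟩ := hh.exists_lipschitzOnWith
  have hRc : Tendsto R (𝓝[<] b) (𝓝 0) := by
    have h1 := h.c b ⟨hab.le, le_rfl⟩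
    have h2 : Tendsto R (𝓝[Icc a b] b) (𝓝 (R b)) := h1
    rw [h.Rb] at h2
    exact h2.mono_left (nhdsWithin_le_of_mem (mem_of_superset (Ioo_mem_nhdsLT hab) Ioo_subset_Icc_self))
  have hRc' : Tendsto R' (𝓝[<] b) (𝓝 0) := by
    have h1 := h'.c b ⟨hab'.le, le_rfl⟩
    have h2 : Tendsto R' (𝓝[Icc a' b] b) (𝓝 (R' b)) := h1
    rw [h'.Rb] at h2
    exact h2.mono_left (nhdsWithin_le_of_mem (mem_of_superset (Ioo_mem_nhdsLT hab') Ioo_subset_Icc_self))
  have hu : Tendsto (fun y => q (R y) - s * R y - y) (𝓝[<] b) (𝓝 (q 0 - s * 0 - b)) :=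
    (((hq.continuous.tendsto 0).comp hRc).sub (hRc.const_mul s)).sub
      (tendsto_id.mono_left nhdsWithin_le_nhds)
  have hu' : q 0 - s * 0 - b < -(b / 2) := by rw [hq0]; linarith
  have e1 := hu.eventually (gt_mem_nhds hu')
  have e2 := hRc.eventually ht
  have e3 := hRc'.eventually ht
  obtain ⟨c0, hc0, hev⟩ := (mem_nhdsLT_iff_exists_Ioo_subset).1 (e1.and (e2.and e3))
  obtain ⟨c1, hc1, hc1b⟩ := exists_between (max_lt (max_lt hab hab') (max_lt hc hc0))
  have hac : a < c1 := (le_max_left _ _).trans_lt ((le_max_left _ _).trans_lt hc1)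
  have hac' : a' < c1 := (le_max_right _ _).trans_lt ((le_max_left _ _).trans_lt hc1)
  have hcc : c < c1 := (le_max_left _ _).trans_lt ((le_max_right _ _).trans_lt hc1)
  have hcc0 : c0 < c1 := (le_max_right _ _).trans_lt ((le_max_right _ _).trans_lt hc1)
  by_contra hcon
  push Not at hcon
  set κ : ℝ := 4 * K / b with hκ
  have hanti : StrictAntiOn (fun y => (R' y ^ 2 / 2 - R y ^ 2 / 2) * Real.exp (-(κ * R y)))
      (Icc c1 b) := by
    have hc1' := h.c.mono (Icc_subset_Icc hac.le le_rfl)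
    have hc2' := h'.c.mono (Icc_subset_Icc hac'.le le_rfl)
    refine strictAntiOn_of_deriv_neg (convex_Icc _ _) ?_ ?_
    · exact (((hc2'.pow 2).div_const 2).sub ((hc1'.pow 2).div_const 2)).mul
        (Real.continuous_exp.comp_continuousOn (hc1'.const_mul κ).neg)
    · intro y hy
      rw [interior_Icc] at hy
      have hyI : y ∈ Ioo a b := ⟨hac.trans hy.1, hy.2⟩
      have hyI' : y ∈ Ioo a' b := ⟨hac'.trans hy.1, hy.2⟩
      have h1 := h.Rp y hyI
      have h2 := h'.Rp y hyI'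
      have h3 := hcon y ⟨hcc.trans hy.1, hy.2⟩
      obtain ⟨g1, g2, g3⟩ := hev ⟨hcc0.trans hy.1, hy.2⟩
      have hder : HasDerivAt (fun y => (R' y ^ 2 / 2 - R y ^ 2 / 2) * Real.exp (-(κ * R y)))
          (((q (R' y) - s' * R' y) - (q (R y) - s * R y)) * Real.exp (-(κ * R y)) +
            (R' y ^ 2 / 2 - R y ^ 2 / 2) * (Real.exp (-(κ * R y)) *
              -(κ * ((q (R y) - s * R y - y) / R y)))) y :=
        (h.dD h' hyI hyI').mul (((h.d y hyI).const_mul κ).neg.exp)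
      rw [hder.deriv]
      have hlip : |(q (R' y) - s' * R' y) - (q (R y) - s' * R y)| ≤ K * |R' y - R y| := by
        have := hK.dist_le_mul _ g3 _ g2
        rw [Real.dist_eq, Real.dist_eq] at this
        exact this
      rw [abs_of_nonpos (by linarith : R' y - R y ≤ 0)] at hlip
      have hl2 := (le_abs_self _).trans hlip
      -- main estimate
      have hK0 : (0:ℝ) ≤ K := K.2
      have m1 : (q (R' y) - s' * R' y) - (q (R y) - s * R y) ≤
          K * (R y - R' y) - (s' - s) * R y := by linarith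
      have m2 : (q (R y) - s * R y - y) / R y ≤ -(b / 2) / R y :=
        div_le_div_of_nonneg_right (le_of_lt g1) h1.le
      have m3 : (R' y ^ 2 / 2 - R y ^ 2 / 2) ≤ 0 := by nlinarith
      have m4 : (R' y ^ 2 / 2 - R y ^ 2 / 2) * -(κ * ((q (R y) - s * R y - y) / R y)) ≤
          (R' y ^ 2 / 2 - R y ^ 2 / 2) * (2 * K / R y) := by
        refine mul_le_mul_of_nonpos_left ?_ m3
        have : 2 * (K:ℝ) / R y = κ * (b / 2 / R y) := by
          rw [hκ]; field_simp; ring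
        rw [this]
        have hκ0 : 0 ≤ κ := by positivity
        have := mul_le_mul_of_nonneg_left m2 hκ0
        have e : -(b / 2) / R y = -(b / 2 / R y) := by ring
        rw [e] at this
        linarith
      have m5 : (R' y ^ 2 / 2 - R y ^ 2 / 2) * (2 * K / R y) ≤ -(K * (R y - R' y)) := by
        have : (R' y ^ 2 / 2 - R y ^ 2 / 2) * (2 * K / R y) =
            -(K * (R y - R' y)) * ((R y + R' y) / R y) := by
          field_simp; ring
        rw [this]
        have h6 : 1 ≤ (R y + R' y) / R y := by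
          rw [le_div_iff₀ h1]; linarith
        have h7 : 0 ≤ K * (R y - R' y) := mul_nonneg hK0 (by linarith)
        nlinarith
      have m6 : 0 < (s' - s) * R y := mul_pos (by linarith) h1
      have hexp := Real.exp_pos (-(κ * R y))
      have m7 : ((q (R' y) - s' * R' y) - (q (R y) - s * R y)) +
          (R' y ^ 2 / 2 - R y ^ 2 / 2) * -(κ * ((q (R y) - s * R y - y) / R y)) < 0 := by
        linarith
      have := mul_neg_of_neg_of_pos m7 hexp
      calc _ = (((q (R' y) - s' * R' y) - (q (R y) - s * R y)) +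
          (R' y ^ 2 / 2 - R y ^ 2 / 2) * -(κ * ((q (R y) - s * R y - y) / R y))) *
            Real.exp (-(κ * R y)) := by ring
        _ < 0 := this
  have h1 := hanti ⟨le_rfl, hc1b.le⟩ ⟨hc1b.le, le_rfl⟩ hc1b
  simp only [h.Rb, h'.Rb] at h1
  have h2 : 0 < (R' c1 ^ 2 / 2 - R c1 ^ 2 / 2) * Real.exp (-(κ * R c1)) := by
    simpa using h1
  have h3 : 0 < R' c1 ^ 2 / 2 - R c1 ^ 2 / 2 := by
    by_contra h4
    push Not at h4
    exact absurd h2 (not_lt.2 (mul_nonpos_of_nonpos_of_nonneg h4 (Real.exp_pos _).le))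
  have h4 := hcon c1 ⟨hcc, hc1b⟩
  have h5 := h'.Rp c1 ⟨hac', hc1b⟩
  nlinarith

/-- time reversal -/
theorem CArc.rev {q : ℝ → ℝ} {s a b : ℝ} {R : ℝ → ℝ} (h : CArc q s a b R) :
    CArc (fun x => -q x) (-s) (-b) (-a) (fun y => R (-y)) := by
  refine ⟨by linarith [h.pos], by linarith [h.neg], ?_, by simpa using h.Rb, by simpa using h.Ra,
    ?_, ?_⟩
  · refine h.c.comp continuous_neg.continuousOn ?_
    intro y hy
    exact ⟨by linarith [hy.2], by linarith [hy.1]⟩
  · intro y hy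
    exact h.Rp _ ⟨by linarith [hy.2], by linarith [hy.1]⟩
  · intro y hy
    have h1 := h.d (-y) ⟨by linarith [hy.2], by linarith [hy.1]⟩
    have h2 := h1.comp y (hasDerivAt_neg y)
    refine h2.congr_deriv ?_
    ring

theorem CArc.cmp {q : ℝ → ℝ} {s s' a b a' b' : ℝ} {R R' : ℝ → ℝ} (hq : ContDiff ℝ 1 q)
    (hq0 : q 0 = 0) (h : CArc q s a b R)
    (h' : CArc q s' a' b' R') (hs : s < s') (hb : b ≤ b') : a' < a := by
  by_contra hcon
  push Not at hcon
  have hb0 := h.pos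
  have ha0 := h'.neg
  -- a point close to the top
  have T : ∃ y ∈ Ioo 0 b, R y < R' y := by
    rcases hb.eq_or_lt with he | hlt
    · subst he
      exact h.top hq hq0 h' hs h.pos
    · have h1 : ContinuousWithinAt (fun y => R' y - R y) (Icc 0 b) b := by
        refine ContinuousWithinAt.sub ?_ ?_
        · exact (h'.c b ⟨by linarith, hb⟩).mono (Icc_subset_Icc ha0.le hb)
        · exact (h.c b ⟨by linarith [h.neg], le_rfl⟩).mono (Icc_subset_Icc h.neg.le le_rfl)
      have h2 : 0 < R' b - R b := by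
        rw [h.Rb, sub_zero]; exact h'.Rp b ⟨by linarith, hlt⟩
      have h3 : ContinuousWithinAt (fun y => R' y - R y) (Iio b) b := h1.mono_of_mem_nhdsWithin
        (mem_of_superset (Ioo_mem_nhdsLT hb0) Ioo_subset_Icc_self)
      have h4 := (h3.tendsto.eventually (lt_mem_nhds h2)).and (Ioo_mem_nhdsLT hb0)
      obtain ⟨y, hy1, hy2⟩ := h4.exists
      exact ⟨y, hy2, by linarith⟩
  have B : ∃ y ∈ Ioo a' 0, R' y < R y := by
    rcases hcon.eq_or_lt with he | hlt
    · subst he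
      obtain ⟨y, hy1, hy2⟩ := h'.rev.top (s' := -s) (R' := fun y => R (-y)) hq.neg (by simp [hq0])
        h.rev (by linarith) (c := 0) (by linarith [h.neg])
      exact ⟨-y, ⟨by linarith [hy1.2], by linarith [hy1.1]⟩, hy2⟩
    · have h1 : ContinuousWithinAt (fun y => R y - R' y) (Icc a' 0) a' := by
        refine ContinuousWithinAt.sub ?_ ?_
        · exact (h.c a' ⟨hcon, by linarith⟩).mono (Icc_subset_Icc hcon hb0.le)
        · exact (h'.c a' ⟨le_rfl, by linarith [h'.pos]⟩).mono (Icc_subset_Icc le_rfl h'.pos.le)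
      have h2 : 0 < R a' - R' a' := by
        rw [h'.Ra, sub_zero]; exact h.Rp a' ⟨hlt, by linarith⟩
      have h3 : ContinuousWithinAt (fun y => R y - R' y) (Ioi a') a' := h1.mono_of_mem_nhdsWithin
        (mem_of_superset (Ioo_mem_nhdsGT ha0) Ioo_subset_Icc_self)
      have h4 := (h3.tendsto.eventually (lt_mem_nhds h2)).and (Ioo_mem_nhdsGT ha0)
      obtain ⟨y, hy1, hy2⟩ := h4.exists
      exact ⟨y, hy2, by linarith⟩
  obtain ⟨y, hy, hyl⟩ := T
  obtain ⟨x, hx, hxl⟩ := B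
  have h1 := (h.cross h' hs (c := x) (d := b) (by linarith [hx.2]) (by linarith [hx.1])
    hx.1.le le_rfl hb).1 hxl y ⟨by linarith [hx.2, hy.1], hy.2⟩
  linarith

theorem CArc.lt1 {q : ℝ → ℝ} {s s' a b a' b' : ℝ} {R R' : ℝ → ℝ} (h : CArc q s a b R)
    (h' : CArc q s' a' b' R') (hs : s < s') (hb : b < b') (ha : a' < a) :
    ∀ y ∈ Icc a b, R y < R' y := by
  have hab : a < b := h.neg.trans h.pos
  intro y hy
  rcases hy.1.eq_or_lt with h1 | h1
  · rw [← h1, h.Ra]
    exact h'.Rp a ⟨ha, hab.trans hb⟩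
  · exact (h.cross h' hs hab le_rfl ha.le le_rfl hb.le).2
      (by rw [h.Rb]; exact h'.Rp b ⟨ha.trans hab, hb⟩) y ⟨h1, hy.2⟩

theorem CArc.lt2 {q : ℝ → ℝ} {s s' a b a' b' : ℝ} {R R' : ℝ → ℝ} (h : CArc q s a b R)
    (h' : CArc q s' a' b' R') (hs : s < s') (hb : b' < b) (ha : a < a') :
    ∀ y ∈ Icc a' b', R' y < R y := by
  have hab : a' < b' := h'.neg.trans h'.pos
  intro y hy
  rcases hy.2.eq_or_lt with h1 | h1
  · rw [h1, h'.Rb]
    exact h.Rp b' ⟨ha.trans hab, hb⟩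
  · exact (h.cross h' hs hab ha.le le_rfl hb.le le_rfl).1
      (by rw [h'.Ra]; exact h.Rp a' ⟨ha, hab.trans hb⟩) y ⟨hy.1, h1⟩

theorem LD.right {p : Polynomial ℝ} {s : ℝ} {γ : ℝ → ℝ × ℝ} {T y₁ y₀ : ℝ} {R L : ℝ → ℝ}
    (h : LD p s γ T y₁ y₀ R L) : CArc (fun x => p.eval x) s y₁ y₀ R :=
  ⟨h.neg, h.pos, h.cR, h.R1, h.R0, h.Rp, h.dR⟩

theorem LD.left {p : Polynomial ℝ} {s : ℝ} {γ : ℝ → ℝ × ℝ} {T y₁ y₀ : ℝ} {R L : ℝ → ℝ}
    (h : LD p s γ T y₁ y₀ R L) : CArc (fun x => -p.eval (-x)) s (-y₀) (-y₁) (fun y => L (-y)) := by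
  refine ⟨by linarith [h.pos], by linarith [h.neg], ?_, by simpa using h.L0, by simpa using h.L1,
    ?_, ?_⟩
  · refine h.cL.comp continuous_neg.continuousOn ?_
    intro y hy
    exact ⟨by linarith [hy.2], by linarith [hy.1]⟩
  · intro y hy
    exact h.Lp _ ⟨by linarith [hy.2], by linarith [hy.1]⟩
  · intro y hy
    have h1 := h.dL (-y) ⟨by linarith [hy.2], by linarith [hy.1]⟩
    have h2 := h1.comp y (hasDerivAt_neg y)
    refine h2.congr_deriv ?_
    ring

theorem disj_aux (p : Polynomial ℝ) (hp : p.eval 0 = 0) {s s' : ℝ} {γ γ' : ℝ → ℝ × ℝ}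
    {T T' y₁ y₀ y₁' y₀' : ℝ} {R L R' L' : ℝ → ℝ} (h : LD p s γ T y₁ y₀ R L)
    (h' : LD p s' γ' T' y₁' y₀' R' L') (hs : s < s') (h0 : γ 0 = γ' 0) : False := by
  have c1 : ContDiff ℝ 1 (fun x => p.eval x) := by
    simpa using p.contDiff_aeval (𝕜 := ℝ) 1
  have c2 : ContDiff ℝ 1 (fun x => -p.eval (-x)) := (c1.comp contDiff_neg).neg
  have r := h.right
  have r' := h'.right
  have l := h.left
  have l' := h'.left
  have k1 := r.cmp c1 hp r' hs
  have k2 := l.cmp c2 (by simp [hp]) l' hs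
  have z1 : γ 0 ∈ {z : ℝ × ℝ | z.2 ∈ Icc y₁ y₀ ∧ (z.1 = R z.2 ∨ z.1 = -L z.2)} := by
    rw [← h.rng]; exact mem_range_self 0
  have z2 : γ 0 ∈ {z : ℝ × ℝ | z.2 ∈ Icc y₁' y₀' ∧ (z.1 = R' z.2 ∨ z.1 = -L' z.2)} := by
    rw [← h'.rng, h0]; exact mem_range_self 0
  obtain ⟨z1a, z1b⟩ := z1
  obtain ⟨z2a, z2b⟩ := z2
  set y := (γ 0).2
  set x := (γ 0).1
  have R0 : 0 ≤ R y := r.nonneg z1a
  have R0' : 0 ≤ R' y := r'.nonneg z2a
  have L0 : 0 ≤ L y := by
    have := l.nonneg (y := -y) ⟨by linarith [z1a.2], by linarith [z1a.1]⟩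
    simpa using this
  have L0' : 0 ≤ L' y := by
    have := l'.nonneg (y := -y) ⟨by linarith [z2a.2], by linarith [z2a.1]⟩
    simpa using this
  rcases le_or_gt y₀ y₀' with hle | hlt
  · have h1 := k1 hle
    have h2 : y₀ < y₀' := by linarith [k2 (by linarith)]
    have h3 := r.lt1 r' hs h2 h1 y z1a
    have h4 := l.lt1 l' hs (by linarith) (by linarith) (-y)
      ⟨by linarith [z1a.2], by linarith [z1a.1]⟩
    simp only [neg_neg] at h4
    rcases z1b with e1 | e1 <;> rcases z2b with e2 | e2 <;> linarith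
  · have h1 : y₁ < y₁' := by
      by_contra hc
      push Not at hc
      linarith [k2 (by linarith)]
    have h3 := r.lt2 r' hs hlt h1 y z2a
    have h4 := l.lt2 l' hs (by linarith) (by linarith) (-y)
      ⟨by linarith [z2a.2], by linarith [z2a.1]⟩
    simp only [neg_neg] at h4
    rcases z1b with e1 | e1 <;> rcases z2b with e2 | e2 <;> linarith

theorem disj (hd : Data) : Disj := by
  intro p s s' γ γ' T T' hp h h' h0
  obtain ⟨y₁, y₀, R, L, hL⟩ := hd p s γ T hp h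
  obtain ⟨y₁', y₀', R', L', hL'⟩ := hd p s' γ' T' hp h'
  rcases lt_trichotomy s s' with hlt | he | hlt
  · exact (disj_aux p hp hL hL' hlt h0).elim
  · exact he
  · exact (disj_aux p hp hL' hL hlt h0.symm).elim

end Pool.Agent.H709L
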