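import Pool.Agent.H709L.Basic

/-! The capture lemma: if `|p x| ≥ 4 x` for `x ≥ ρ` (in the range of the orbit) then the right arc
satisfies `R y ≤ ρ` for `|y| ≤ ρ / 4`. -/

open Real Set MeasureTheory Topology Filter
open scoped ENNReal

namespace Pool.Agent.H709L

theorem capture (h : Unimodal) : Capture := by
  intro p s γ T y₁ y₀ R L ρ hp hs hLD hρ hx y hy hyρ
  by_contra hcon
  push Not at hcon
  obtain ⟨ym, hU⟩ := h p s γ T y₁ y₀ R L hp hLD
  have hymI : ym ∈ Icc y₁ y₀ := ⟨hU.mem.1.le, hU.mem.2.le⟩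
  have hRm : R y ≤ R ym := by
    rcases le_total y ym with h1 | h1
    · exact hU.mono.monotoneOn ⟨hy.1, h1⟩ ⟨hU.mem.1.le, le_rfl⟩ h1
    · exact hU.anti.antitoneOn ⟨le_rfl, hU.mem.2.le⟩ ⟨h1, hy.2⟩ h1
  have hρm : ρ < R ym := hcon.trans_le hRm
  have hbig : ∀ x ∈ Icc ρ (R ym), 4 * x ≤ |p.eval x| :=
    fun x hx' => hx x hx'.1 ⟨ym, hymI, hx'.2⟩
  obtain ⟨hs1, hs2⟩ := abs_lt.1 hs
  obtain ⟨hy1, hy2⟩ := abs_le.1 hyρ
  have hsx : ∀ x : ℝ, 0 < x → |s * x| ≤ x := by
    intro x hx0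
    rw [abs_mul, abs_of_pos hx0]
    nlinarith [abs_nonneg s]
  -- constant sign of `p` on `[ρ, R ym]`
  have hcont : ContinuousOn (fun x => p.eval x) (Icc ρ (R ym)) := p.continuous.continuousOn
  have hne : ∀ x ∈ Icc ρ (R ym), p.eval x ≠ 0 := by
    intro x hx' h0
    have := hbig x hx'
    rw [h0, abs_zero] at this
    linarith [hx'.1]
  have hsign : (∀ x ∈ Icc ρ (R ym), 4 * x ≤ p.eval x) ∨
      (∀ x ∈ Icc ρ (R ym), p.eval x ≤ -(4 * x)) := by
    rcases lt_or_gt_of_ne (hne ρ ⟨le_rfl, hρm.le⟩) with h0 | h0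
    · right
      intro x hx'
      have hneg : p.eval x < 0 := by
        by_contra hc
        push Not at hc
        obtain ⟨z, hz, hz0⟩ := intermediate_value_Icc hx'.1
          (hcont.mono (Icc_subset_Icc le_rfl hx'.2)) (show (0:ℝ) ∈ Icc _ _ from ⟨h0.le, hc⟩)
        exact hne z ⟨hz.1, hz.2.trans hx'.2⟩ hz0
      have := hbig x hx'
      rw [abs_of_neg hneg] at this
      linarith
    · left
      intro x hx'
      have hpos : 0 < p.eval x := by
        by_contra hc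
        push Not at hc
        obtain ⟨z, hz, hz0⟩ := intermediate_value_Icc' hx'.1
          (hcont.mono (Icc_subset_Icc le_rfl hx'.2)) (show (0:ℝ) ∈ Icc _ _ from ⟨hc, h0.le⟩)
        exact hne z ⟨hz.1, hz.2.trans hx'.2⟩ hz0
      have := hbig x hx'
      rwa [abs_of_pos hpos] at this
  rcases hsign with hsg | hsg
  · -- `p x ≥ 4 x`
    have hF : ∀ x ∈ Icc ρ (R ym), 3 * x ≤ p.eval x - s * x := by
      intro x hx'
      have h1 := hsg x hx'
      have h2 := (abs_le.1 (hsx x (hρ.trans_le hx'.1))).2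
      linarith
    have hym3 : 3 * R ym ≤ ym := by
      have h1 := hF (R ym) ⟨hρm.le, le_rfl⟩
      rw [← hU.eq] at h1
      exact h1
    have hyym : y < ym := by linarith
    have hR : ∀ u ∈ Icc y ym, ρ < R u ∧ R u ≤ R ym := by
      intro u hu
      have hu1 : u ∈ Icc y₁ ym := ⟨hy.1.trans hu.1, hu.2⟩
      exact ⟨hcon.trans_le (hU.mono.monotoneOn ⟨hy.1, hyym.le⟩ hu1 hu.1),
        hU.mono.monotoneOn hu1 ⟨hU.mem.1.le, le_rfl⟩ hu.2⟩
    obtain ⟨c1, c2⟩ := zeroCross (fun u => u - 3 / 2 * R u)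
      (fun u => 1 - 3 / 2 * ((p.eval (R u) - s * R u - u) / R u)) y ym hyym
      (continuousOn_id.sub (continuousOn_const.mul
        (hLD.cR.mono (Icc_subset_Icc hy.1 hymI.2))))
      (fun u hu => by
        have hu' : u ∈ Ioo y₁ y₀ := ⟨hy.1.trans_lt hu.1, hu.2.trans hU.mem.2⟩
        exact (hasDerivAt_id' u).sub ((hLD.dR u hu').const_mul (3 / 2)))
      (fun u hu h0 => by
        obtain ⟨r1, r2⟩ := hR u ⟨hu.1.le, hu.2.le⟩
        have hRu : 0 < R u := hρ.trans r1
        have h1 := hF (R u) ⟨r1.le, r2⟩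
        have h2 : 3 / 2 ≤ (p.eval (R u) - s * R u - u) / R u := by
          rw [le_div_iff₀ hRu]
          have h0' : u = 3 / 2 * R u := by linarith [h0]
          linarith
        show 1 - 3 / 2 * ((p.eval (R u) - s * R u - u) / R u) < 0
        linarith)
    have d1 := c1 (show y - 3 / 2 * R y < 0 by linarith) ((y + ym) / 2)
      ⟨by linarith, by linarith⟩
    have d2 := c2 (show 0 < ym - 3 / 2 * R ym by linarith) ((y + ym) / 2)
      ⟨by linarith, by linarith⟩
    linarith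
  · -- `p x ≤ -4 x`
    have hF : ∀ x ∈ Icc ρ (R ym), p.eval x - s * x ≤ -(3 * x) := by
      intro x hx'
      have h1 := hsg x hx'
      have h2 := (abs_le.1 (hsx x (hρ.trans_le hx'.1))).1
      linarith
    have hym3 : ym ≤ -(3 * R ym) := by
      have h1 := hF (R ym) ⟨hρm.le, le_rfl⟩
      rw [← hU.eq] at h1
      exact h1
    have hyym : ym < y := by linarith
    have hR : ∀ u ∈ Icc ym y, ρ < R u ∧ R u ≤ R ym := by
      intro u hu
      have hu1 : u ∈ Icc ym y₀ := ⟨hu.1, hu.2.trans hy.2⟩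
      exact ⟨hcon.trans_le (hU.anti.antitoneOn hu1 ⟨hyym.le, hy.2⟩ hu.2),
        hU.anti.antitoneOn ⟨le_rfl, hU.mem.2.le⟩ hu1 hu.1⟩
    obtain ⟨c1, c2⟩ := zeroCross (fun u => u + 3 / 2 * R u)
      (fun u => 1 + 3 / 2 * ((p.eval (R u) - s * R u - u) / R u)) ym y hyym
      (continuousOn_id.add (continuousOn_const.mul
        (hLD.cR.mono (Icc_subset_Icc hymI.1 hy.2))))
      (fun u hu => by
        have hu' : u ∈ Ioo y₁ y₀ := ⟨hU.mem.1.trans hu.1, hu.2.trans_le hy.2⟩
        exact (hasDerivAt_id' u).add ((hLD.dR u hu').const_mul (3 / 2)))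
      (fun u hu h0 => by
        obtain ⟨r1, r2⟩ := hR u ⟨hu.1.le, hu.2.le⟩
        have hRu : 0 < R u := hρ.trans r1
        have h1 := hF (R u) ⟨r1.le, r2⟩
        have h2 : (p.eval (R u) - s * R u - u) / R u ≤ -(3 / 2) := by
          rw [div_le_iff₀ hRu]
          have h0' : u = -(3 / 2 * R u) := by linarith [h0]
          linarith
        show 1 + 3 / 2 * ((p.eval (R u) - s * R u - u) / R u) < 0
        linarith)
    have d1 := c1 (show ym + 3 / 2 * R ym < 0 by linarith) ((ym + y) / 2)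
      ⟨by linarith, by linarith⟩
    have d2 := c2 (show 0 < y + 3 / 2 * R y by linarith) ((ym + y) / 2)
      ⟨by linarith, by linarith⟩
    linarith

end Pool.Agent.H709L
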