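import Pool.Agent.H709R2.OMaster
import Pool.Agent.H709R2.CellE

/-! Lienard systems: definitions and statements of the project on the averaged
bound for the number of closed orbits of Lienard systems. -/

open Real Set MeasureTheory Topology Filter
open scoped ENNReal

namespace Pool.Agent.H709L

noncomputable section

open Pool.Agent.H709R2 (wedge ClosedOrbit)

/-- the Lienard field `x' = y - p(x) + s x`, `y' = -x` -/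
def lf (p : Polynomial ℝ) (s : ℝ) (z : ℝ × ℝ) : ℝ × ℝ :=
  (z.2 - p.eval z.1 + s * z.1, -z.1)

/-- a closed orbit parametrised by its minimal period (used when `p(0) = 0`) -/
structure LCyc (p : Polynomial ℝ) (s : ℝ) (γ : ℝ → ℝ × ℝ) (T : ℝ) : Prop where
  pos : 0 < T
  ode : ∀ t, HasDerivAt γ (lf p s (γ t)) t
  per : ∀ t, γ (t + T) = γ t
  inj : ∀ t u, γ t = γ u → ∃ k : ℤ, t = u + k * T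
  ne : ∀ t, γ t ≠ 0

/-- the closed orbits of the Lienard field -/
def LOrb (p : Polynomial ℝ) (s : ℝ) : Set (Set (ℝ × ℝ)) := {C | ∃ γ T, LCyc p s γ T ∧ C = range γ}

/-- the weighted length `∮ w x² dt` -/
def J (w : ℝ × ℝ → ℝ) (γ : ℝ → ℝ × ℝ) (T : ℝ) : ℝ := ∫ t in (0:ℝ)..T, w (γ t) * (γ t).1 ^ 2

/-- right arc `x = R y` and left arc `x = - L y` of a closed orbit, `y₁ ≤ y ≤ y₀` -/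
structure LD (p : Polynomial ℝ) (s : ℝ) (γ : ℝ → ℝ × ℝ) (T y₁ y₀ : ℝ) (R L : ℝ → ℝ) : Prop where
  neg : y₁ < 0
  pos : 0 < y₀
  cR : ContinuousOn R (Icc y₁ y₀)
  cL : ContinuousOn L (Icc y₁ y₀)
  R1 : R y₁ = 0
  R0 : R y₀ = 0
  L1 : L y₁ = 0
  L0 : L y₀ = 0
  Rp : ∀ y ∈ Ioo y₁ y₀, 0 < R y
  Lp : ∀ y ∈ Ioo y₁ y₀, 0 < L y
  dR : ∀ y ∈ Ioo y₁ y₀, HasDerivAt R ((p.eval (R y) - s * R y - y) / R y) y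
  dL : ∀ y ∈ Ioo y₁ y₀, HasDerivAt L ((p.eval (-L y) + s * L y - y) / L y) y
  rng : range γ = {z | z.2 ∈ Icc y₁ y₀ ∧ (z.1 = R z.2 ∨ z.1 = -L z.2)}
  act : ∀ w : ℝ × ℝ → ℝ, (∀ z, 0 ≤ w z) → ContinuousOn w {z | z ≠ 0} → ∀ c d, y₁ < c → c ≤ d → d < y₀ →
    ∫ y in c..d, w (R y, y) * R y ≤ J w γ T

/-- the right arc is unimodal -/
structure UM (p : Polynomial ℝ) (s y₁ y₀ : ℝ) (R : ℝ → ℝ) (ym : ℝ) : Prop where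
  mem : ym ∈ Ioo y₁ y₀
  eq : ym = p.eval (R ym) - s * R ym
  lo : ∀ y ∈ Ioo y₁ ym, y < p.eval (R y) - s * R y
  hi : ∀ y ∈ Ioo ym y₀, p.eval (R y) - s * R y < y
  mono : StrictMonoOn R (Icc y₁ ym)
  anti : StrictAntiOn R (Icc ym y₀)

/-- `N` has a measurable majorant on `(-1, 1)` with integral at most `K` -/
def MajI (N : ℝ → ℝ≥0∞) (K : ℝ) : Prop :=
  ∃ g : ℝ → ℝ≥0∞, Measurable g ∧ (∀ s ∈ Ioo (-1:ℝ) 1, N s ≤ g s) ∧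
    ∫⁻ s in Ioo (-1:ℝ) 1, g s ≤ ENNReal.ofReal K

/-- bookkeeping of majorants -/
def MajRulesI : Prop :=
  (∀ N N' K K', (∀ s ∈ Ioo (-1:ℝ) 1, N s ≤ N' s) → K' ≤ K → MajI N' K' → MajI N K) ∧
  (∀ N N' K K', 0 ≤ K → 0 ≤ K' → MajI N K → MajI N' K' → MajI (fun s => N s + N' s) (K + K')) ∧
  (∀ (N : ℕ → ℝ → ℝ≥0∞) (K : ℕ → ℝ) (S : ℝ), (∀ i, 0 ≤ K i) → HasSum K S →
    (∀ i, MajI (N i) (K i)) → MajI (fun s => ∑' i, N i s) S) ∧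
  (∀ (N : ℕ → ℝ → ℝ≥0∞) (K : ℝ), (∀ i j s, i ≤ j → N i s ≤ N j s) → (∀ i, MajI (N i) K) →
    MajI (fun s => ⨆ i, N i s) K)

/-- centred square -/
def Sq (r : ℝ) : Set (ℝ × ℝ) := {z | |z.1| ≤ r ∧ |z.2| ≤ r}

/-- closed orbits in `Ω` with weighted length at least `ℓ` -/
def Kl (p : Polynomial ℝ) (s : ℝ) (w : ℝ × ℝ → ℝ) (Ω : Set (ℝ × ℝ)) (ℓ : ℝ) : Set (Set (ℝ × ℝ)) :=
  {C | ∃ γ T, LCyc p s γ T ∧ C = range γ ∧ C ⊆ Ω ∧ ℓ ≤ J w γ T}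

/-- divergence of `w • lf p s` -/
def dvl (p : Polynomial ℝ) (s : ℝ) (w : ℝ × ℝ → ℝ) (z : ℝ × ℝ) : ℝ :=
  fderiv ℝ w z (lf p s z) + w z * (s - p.derivative.eval z.1)

/-- speed of rotation of `lf p 0` in the horizontal direction -/
def kx (p : Polynomial ℝ) (z : ℝ × ℝ) : ℝ :=
  |wedge (lf p 0 z) (fderiv ℝ (lf p 0) z (1, 0))| / H709R2.sq (lf p 0 z)

/-- speed of rotation of `lf p 0` in the vertical direction -/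
def ky (p : Polynomial ℝ) (z : ℝ × ℝ) : ℝ :=
  |wedge (lf p 0 z) (fderiv ℝ (lf p 0) z (0, 1))| / H709R2.sq (lf p 0 z)

/-- smooth bump in the horizontal direction: `1` for `|x| ≤ ρ`, `0` for `|x| ≥ 2ρ` -/
def bumpX (ρ x : ℝ) : ℝ := Real.smoothTransition ((4 - (x / ρ) ^ 2) / 3)

/-- smooth bump in the vertical direction: `1` for `1 ≤ u ≤ 2`, `0` for `u ≤ 1/2` or `3 ≤ u` -/
def bumpY (u : ℝ) : ℝ := Real.smoothTransition (2 * u - 1) * Real.smoothTransition (3 - u)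

/-- the cut-off function of the box of index `(i, σ)` -/
def chi (i : ℤ) (σ : ℝ) (z : ℝ × ℝ) : ℝ := bumpX ((2:ℝ) ^ (i + 3)) z.1 * bumpY (σ * z.2 / (2:ℝ) ^ i)

/-- the closed orbits captured by the box of index `(i, σ)` -/
def Capt (p : Polynomial ℝ) (s : ℝ) (i : ℤ) (σ : ℝ) : Set (Set (ℝ × ℝ)) :=
  {C | ∃ γ T y₁ y₀ R L, LCyc p s γ T ∧ LD p s γ T y₁ y₀ R L ∧ C = range γ ∧
    ((σ = 1 ∧ (2:ℝ) ^ (i + 1) < y₀) ∨ (σ = -1 ∧ y₁ < -(2:ℝ) ^ (i + 1))) ∧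
    ∀ y ∈ Icc y₁ y₀, (2:ℝ) ^ i ≤ σ * y → σ * y ≤ (2:ℝ) ^ (i + 1) → R y ≤ (2:ℝ) ^ (i + 3)}

/-! ### The statements -/

/-- Z -/
def ZeroCross : Prop :=
  ∀ (f f' : ℝ → ℝ) (a b : ℝ), a < b → ContinuousOn f (Icc a b) →
    (∀ x ∈ Ioo a b, HasDerivAt f (f' x) x) → (∀ x ∈ Ioo a b, f x = 0 → f' x < 0) →
    (f a < 0 → ∀ x ∈ Ico a b, f x < 0) ∧ (0 < f b → ∀ x ∈ Ioc a b, 0 < f x)

/-- A1 -/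
def ArcTimes : Prop :=
  ∀ (p : Polynomial ℝ) (s : ℝ) (γ : ℝ → ℝ × ℝ) (T : ℝ), p.eval 0 = 0 → LCyc p s γ T →
    ∃ t₀ t₁, t₀ < t₁ ∧ t₁ < t₀ + T ∧ (γ t₀).1 = 0 ∧ 0 < (γ t₀).2 ∧ (γ t₁).1 = 0 ∧ (γ t₁).2 < 0 ∧
      (∀ t ∈ Ioo t₀ t₁, 0 < (γ t).1) ∧ ∀ t ∈ Ioo t₁ (t₀ + T), (γ t).1 < 0

/-- A2 -/
def Data : Prop :=
  ∀ (p : Polynomial ℝ) (s : ℝ) (γ : ℝ → ℝ × ℝ) (T : ℝ), p.eval 0 = 0 → LCyc p s γ T →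
    ∃ y₁ y₀ R L, LD p s γ T y₁ y₀ R L

/-- B1 -/
def Unimodal : Prop :=
  ∀ (p : Polynomial ℝ) (s : ℝ) (γ : ℝ → ℝ × ℝ) (T y₁ y₀ : ℝ) (R L : ℝ → ℝ), p.eval 0 = 0 →
    LD p s γ T y₁ y₀ R L → ∃ ym, UM p s y₁ y₀ R ym

/-- B2 -/
def WidthR : Prop :=
  ∀ (p : Polynomial ℝ) (s : ℝ) (γ : ℝ → ℝ × ℝ) (T y₁ y₀ : ℝ) (R L : ℝ → ℝ), p.eval 0 = 0 →
    LD p s γ T y₁ y₀ R L → ∀ y ∈ Icc y₁ y₀, R y ≤ y₀ - y₁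

/-- B3 -/
def Reflect : Prop :=
  ∀ (p : Polynomial ℝ) (s : ℝ) (γ : ℝ → ℝ × ℝ) (T y₁ y₀ : ℝ) (R L : ℝ → ℝ), p.eval 0 = 0 →
    LCyc p s γ T → LD p s γ T y₁ y₀ R L →
    LCyc (-(p.comp (-Polynomial.X))) s (fun t => -γ t) T ∧ (-(p.comp (-Polynomial.X))).eval 0 = 0 ∧
    ∃ R' L', LD (-(p.comp (-Polynomial.X))) s (fun t => -γ t) T (-y₀) (-y₁) R' L' ∧
      (∀ y, R' y = L (-y)) ∧ ∀ y, L' y = R (-y)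

/-- B4 -/
def WidthL : Prop :=
  ∀ (p : Polynomial ℝ) (s : ℝ) (γ : ℝ → ℝ × ℝ) (T y₁ y₀ : ℝ) (R L : ℝ → ℝ), p.eval 0 = 0 →
    LCyc p s γ T → LD p s γ T y₁ y₀ R L → ∀ y ∈ Icc y₁ y₀, L y ≤ y₀ - y₁

/-- C -/
def Disj : Prop :=
  ∀ (p : Polynomial ℝ) (s s' : ℝ) (γ γ' : ℝ → ℝ × ℝ) (T T' : ℝ), p.eval 0 = 0 → LCyc p s γ T →
    LCyc p s' γ' T' → γ 0 = γ' 0 → s = s'

/-- D -/
def Capture : Prop :=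
  ∀ (p : Polynomial ℝ) (s : ℝ) (γ : ℝ → ℝ × ℝ) (T y₁ y₀ : ℝ) (R L : ℝ → ℝ) (ρ : ℝ), p.eval 0 = 0 →
    |s| < 1 → LD p s γ T y₁ y₀ R L → 0 < ρ →
    (∀ x, ρ ≤ x → (∃ y ∈ Icc y₁ y₀, x ≤ R y) → 4 * x ≤ |p.eval x|) →
    ∀ y ∈ Icc y₁ y₀, |y| ≤ ρ / 4 → R y ≤ ρ

/-- E -/
def BoxLen : Prop :=
  ∀ (p : Polynomial ℝ) (s : ℝ) (γ : ℝ → ℝ × ℝ) (T y₁ y₀ : ℝ) (R L : ℝ → ℝ) (ρ c d : ℝ)
    (χ : ℝ × ℝ → ℝ), p.eval 0 = 0 → |s| < 1 → LD p s γ T y₁ y₀ R L → 0 < ρ → c < d → y₁ < c → d < y₀ →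
    (∀ y ∈ Icc c d, R y ≤ ρ) → Continuous χ → (∀ z, 0 ≤ χ z) →
    (∀ z : ℝ × ℝ, 0 ≤ z.1 → z.1 ≤ ρ → z.2 ∈ Icc c d → χ z = 1) →
    (d - c) ^ 2 / (2 * (d - c) + 2 * ρ) ≤ J (fun z => χ z / √(H709R2.sq (lf p 0 z))) γ T

/-- F -/
def SmallLen : Prop :=
  ∀ (p : Polynomial ℝ) (s : ℝ) (γ : ℝ → ℝ × ℝ) (T y₁ y₀ : ℝ) (R L : ℝ → ℝ), p.eval 0 = 0 →
    LD p s γ T y₁ y₀ R L → (∀ y ∈ Icc y₁ y₀, |p.eval (R y) - s * R y| ≤ R y / 32) →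
    (y₀ - y₁) ^ 2 / 8 ≤ J (fun _ => 1) γ T

/-- G -/
def Window : Prop :=
  ∀ (p : Polynomial ℝ) (s : ℝ) (γ : ℝ → ℝ × ℝ) (T f κ ρ : ℝ), LCyc p s γ T →
    (∀ t, |(γ t).1| ≤ ρ) → (∀ x, |x| ≤ ρ → |p.eval x - f * x| ≤ κ * |x|) → |f - s| ≤ κ

/-- H1 -/
def Interp : Prop :=
  ∀ (P : Polynomial ℝ) (N : ℕ) (x : ℕ → ℝ) (M : ℝ), P.natDegree < N → 0 < x 0 →
    (∀ k, 8 * x k ≤ x (k + 1)) → (∀ k < N, |P.eval (x k)| ≤ M) → ∀ z, |z| ≤ x 0 → |P.eval z| ≤ 2 * M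

/-- H2 -/
def ScaleCount : Prop :=
  ∀ (P : Polynomial ℝ) (n : ℕ) (i₀ : ℤ), P.natDegree ≤ n →
    (∃ x : ℝ, |x| ≤ (2:ℝ) ^ (i₀ + 4) ∧ 1 / 64 < |P.eval x - P.eval 0|) →
    {i : ℤ | i₀ ≤ i ∧ ∃ x ∈ Icc ((2:ℝ) ^ (i + 3)) ((2:ℝ) ^ (i + 4)), |P.eval x| < 4}.encard ≤
      8 * n + 12

/-- H3 -/
def SmallBeta : Prop :=
  ∀ (P : Polynomial ℝ) (n : ℕ) (i₀ : ℤ), P.natDegree ≤ n →
    (∀ x : ℝ, |x| ≤ (2:ℝ) ^ (i₀ + 3) → |P.eval x - P.eval 0| ≤ 1 / 64) →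
    ∀ j : ℤ, j ≤ i₀ + 3 → ∀ x : ℝ, |x| ≤ (2:ℝ) ^ j →
      |P.eval x - P.eval 0| ≤ min (1 / 64) (8 ^ n / 32 * (2:ℝ) ^ (j - i₀ - 3))

/-- H4 -/
def PolyVar : Prop :=
  ∀ (q : Polynomial ℝ) (n : ℕ) (M a b : ℝ), q.natDegree ≤ n → a ≤ b →
    (∀ x ∈ Icc a b, |q.eval x| ≤ M) → ∫ x in a..b, |q.derivative.eval x| ≤ 2 * n * M

/-- M -/
def MasterL : Prop :=
  ∀ (p : Polynomial ℝ) (Ω : Set (ℝ × ℝ)) (w : ℝ × ℝ → ℝ) (h : ℝ × ℝ → ℝ≥0∞) (H ℓ : ℝ),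
    p.eval 0 = 0 → IsCompact Ω → (∀ z : ℝ × ℝ, z ≠ 0 → ContDiffAt ℝ 1 w z) → Measurable h →
    0 ≤ H → 0 < ℓ → ∫⁻ z in Ω, h z ≤ ENNReal.ofReal H →
    (∀ s ∈ Ioo (-1:ℝ) 1, ∀ γ T, LCyc p s γ T → range γ ⊆ Ω → ∀ t,
      ENNReal.ofReal |dvl p s w (γ t)| ≤ h (γ t)) →
    MajI (fun s => ((Kl p s w Ω ℓ).encard : ℝ≥0∞)) (H / ℓ)

/-- X: exhaustion by squares -/
def Exhaust : Prop :=
  ∀ (p : Polynomial ℝ) (Q : ℝ → Set (ℝ × ℝ) → Prop) (K : ℝ),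
    (∀ m : ℕ, MajI (fun s => ({C | C ∈ LOrb p s ∧ Q s C ∧ C ⊆ Sq m}.encard : ℝ≥0∞)) K) →
    MajI (fun s => ({C | C ∈ LOrb p s ∧ Q s C}.encard : ℝ≥0∞)) K

/-- S -/
def SmallClass : Prop :=
  ∀ (p : Polynomial ℝ) (n : ℕ) (f κ ρ : ℝ), p.eval 0 = 0 → p.natDegree ≤ n → 1 ≤ n → 0 ≤ κ →
    κ ≤ 1 / 64 → 0 < ρ → (∀ x, |x| ≤ ρ → |p.eval x - f * x| ≤ κ * |x|) →
    MajI (fun s => ({C | C ∈ LOrb p s ∧ C ⊆ Sq ρ ∧ ∃ z ∈ C, ∃ z' ∈ C, ρ / 2 < z.2 - z'.2}.encard :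
      ℝ≥0∞)) (128 * (n + 1) * κ)

/-- K1 -/
def PointBound : Prop :=
  ∀ (p : Polynomial ℝ) (χ : ℝ × ℝ → ℝ) (z : ℝ × ℝ) (s : ℝ), p.eval 0 = 0 → z ≠ 0 →
    DifferentiableAt ℝ χ z → |s| < 1 → 0 ≤ χ z →
    |dvl p s (fun z => χ z / √(H709R2.sq (lf p 0 z))) z| ≤
      2 * (|fderiv ℝ χ z (1, 0)| + |fderiv ℝ χ z (0, 1)|) + 2 * χ z * (kx p z + ky p z)

/-- K2 -/
def BoxCost : Prop :=
  ∀ (p : Polynomial ℝ) (n : ℕ) (i : ℤ) (σ : ℝ), p.natDegree ≤ n → 1 ≤ n → (σ = 1 ∨ σ = -1) →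
    ∫⁻ z, ENNReal.ofReal (2 * (|fderiv ℝ (chi i σ) z (1, 0)| + |fderiv ℝ (chi i σ) z (0, 1)|) +
      2 * chi i σ z * (kx p z + ky p z)) ≤ ENNReal.ofReal (400 * n * (2:ℝ) ^ i)

/-- K3 -/
def BoxClass : Prop :=
  ∀ (p : Polynomial ℝ) (n : ℕ) (i : ℤ) (σ : ℝ), p.eval 0 = 0 → p.natDegree ≤ n → 1 ≤ n →
    (σ = 1 ∨ σ = -1) → MajI (fun s => ((Capt p s i σ).encard : ℝ≥0∞)) (7200 * n)

/-- every closed orbit is small or captured -/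
def Cover : Prop :=
  ∀ (p P : Polynomial ℝ) (i₀ : ℤ) (s : ℝ) (C : Set (ℝ × ℝ)), p = Polynomial.X * P → |s| < 1 →
    C ∈ LOrb p s →
    (∃ j : ℤ, j ≤ i₀ + 2 ∧ C ⊆ Sq ((2:ℝ) ^ j) ∧ ∃ z ∈ C, ∃ z' ∈ C, (2:ℝ) ^ j / 2 < z.2 - z'.2) ∨
    ∃ i : ℤ, (i = i₀ ∨ i = i₀ + 1 ∨ (i₀ ≤ i - 1 ∧
      ∃ x ∈ Icc ((2:ℝ) ^ (i - 1 + 3)) ((2:ℝ) ^ (i - 1 + 4)), |P.eval x| < 4)) ∧
      (C ∈ Capt p s i 1 ∨ C ∈ Capt p s i (-1))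

/-- every closed orbit has a dyadic size -/
def CoverAll : Prop :=
  ∀ (p : Polynomial ℝ) (s : ℝ) (C : Set (ℝ × ℝ)), p.eval 0 = 0 → C ∈ LOrb p s →
    ∃ j : ℤ, C ⊆ Sq ((2:ℝ) ^ j) ∧ ∃ z ∈ C, ∃ z' ∈ C, (2:ℝ) ^ j / 2 < z.2 - z'.2

/-- O -/
def MainL : Prop :=
  ∃ K : ℝ, 0 < K ∧ ∀ (p : Polynomial ℝ) (n : ℕ), p.eval 0 = 0 → p.natDegree ≤ n → 1 ≤ n →
    MajI (fun s => ((LOrb p s).encard : ℝ≥0∞)) (K * n ^ 2)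

/-- P1 -/
def MinPeriod : Prop :=
  ∀ (p : Polynomial ℝ) (s : ℝ) (C : Set (ℝ × ℝ)), p.eval 0 = 0 → ClosedOrbit (lf p s) C → C ∈ LOrb p s

/-- the number of closed orbits of the Lienard system `x' = y - p(x) + s x`, `y' = -x` -/
def NL (p : Polynomial ℝ) (s : ℝ) : ℝ≥0∞ := ({C | ClosedOrbit (lf p s) C}.encard : ℝ≥0∞)

/-- P2 -/
def Translate : Prop :=
  ∀ (p : Polynomial ℝ) (s c : ℝ), NL (p + Polynomial.C c) s = NL p s ∧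
    ∀ a : ℝ, NL (p - Polynomial.C a * Polynomial.X) s = NL p (s + a)

/-- P3 -/
def MeasL : Prop := ∀ p : Polynomial ℝ, Measurable (NL p)

/-- P4 -/
def FinalL : Prop :=
  ∃ K : ℝ, 0 < K ∧ ∀ (p : Polynomial ℝ) (n : ℕ), p.natDegree ≤ n → 1 ≤ n →
    Measurable (NL p) ∧ ∀ a : ℝ, ∫⁻ s in Ioo a (a + 1), NL p s ≤ ENNReal.ofReal (K * n ^ 2)

end

end Pool.Agent.H709L
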