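import Pool.Agent.H709L.Basic

/-! Task E: length of the arc in a box. -/

open Real Set MeasureTheory Topology Filter
open scoped ENNReal

namespace Pool.Agent.H709L

namespace TaskE

lemma sq_lf_pos (p : Polynomial ℝ) (hp : p.eval 0 = 0) (z : ℝ × ℝ) (hz : z ≠ 0) :
    0 < H709R2.sq (lf p 0 z) := by
  unfold H709R2.sq lf
  simp only
  rcases eq_or_ne z.1 0 with h | h
  · have h2 : z.2 ≠ 0 := by
      intro h2
      exact hz (Prod.ext h h2)
    rw [h, hp]
    have : 0 < z.2 ^ 2 := by positivity
    simpa using this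
  · have : 0 < z.1 ^ 2 := by positivity
    nlinarith [sq_nonneg (z.2 - Polynomial.eval z.1 p + 0 * z.1)]

lemma cont_w (p : Polynomial ℝ) (hp : p.eval 0 = 0) (χ : ℝ × ℝ → ℝ) (hχ : Continuous χ) :
    ContinuousOn (fun z => χ z / √(H709R2.sq (lf p 0 z))) {z | z ≠ 0} := by
  apply ContinuousOn.div hχ.continuousOn
  · apply Continuous.continuousOn
    apply Real.continuous_sqrt.comp
    unfold H709R2.sq lf
    fun_prop
  · intro z hz
    exact (Real.sqrt_pos.2 (sq_lf_pos p hp z hz)).ne'

end TaskE

open TaskE in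
/-- E -/
theorem boxLen (h : Unimodal) : BoxLen := by
  intro p s γ T y₁ y₀ R L ρ c d χ hp hs hLD hρ hcd hc hd hR hχc hχ0 hχ1
  obtain ⟨ym, hum⟩ := h p s γ T y₁ y₀ R L hp hLD
  set w : ℝ × ℝ → ℝ := fun z => χ z / √(H709R2.sq (lf p 0 z)) with hw
  have hw0 : ∀ z, 0 ≤ w z := fun z => div_nonneg (hχ0 z) (Real.sqrt_nonneg _)
  have hwc := cont_w p hp χ hχc
  have hact := hLD.act w hw0 hwc c d hc hcd.le hd
  refine le_trans ?_ hact
  have hsub : Icc c d ⊆ Ioo y₁ y₀ := fun y hy => ⟨hc.trans_le hy.1, hy.2.trans_lt hd⟩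
  have hsub2 : Icc c d ⊆ Icc y₁ y₀ := fun y hy => Ioo_subset_Icc_self (hsub hy)
  have hRp : ∀ y ∈ Icc c d, 0 < R y := fun y hy => hLD.Rp y (hsub hy)
  have hRc : ContinuousOn R (Icc c d) := hLD.cR.mono hsub2
  set g : ℝ → ℝ := fun y => (p.eval (R y) - s * R y - y) / R y with hg
  have hgc : ContinuousOn g (Icc c d) := by
    apply ContinuousOn.div _ hRc (fun y hy => (hRp y hy).ne')
    exact ((p.continuous.comp_continuousOn hRc).sub (continuousOn_const.mul hRc)).sub continuousOn_id
  have hder : ∀ y ∈ Icc c d, HasDerivAt R (g y) y := fun y hy => hLD.dR y (hsub hy)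
  -- total variation
  have hint : ∀ u v, c ≤ u → u ≤ v → v ≤ d → ∫ y in u..v, g y = R v - R u := by
    intro u v hu huv hv
    have hsuv : uIcc u v ⊆ Icc c d := by
      rw [uIcc_of_le huv]
      exact Icc_subset_Icc hu hv
    apply intervalIntegral.integral_eq_sub_of_hasDerivAt
    · intro y hy
      exact hder y (hsuv hy)
    · exact (hgc.mono hsuv).intervalIntegrable
  have hp1 : ∀ u v, c ≤ u → u ≤ v → v ≤ d → (∀ y ∈ Icc u v, 0 ≤ g y) →
      ∫ y in u..v, |g y| = R v - R u := by
    intro u v hu huv hv hpos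
    rw [← hint u v hu huv hv]
    apply intervalIntegral.integral_congr
    intro y hy
    rw [uIcc_of_le huv] at hy
    exact abs_of_nonneg (hpos y hy)
  have hp2 : ∀ u v, c ≤ u → u ≤ v → v ≤ d → (∀ y ∈ Icc u v, g y ≤ 0) →
      ∫ y in u..v, |g y| = R u - R v := by
    intro u v hu huv hv hneg
    have : ∫ y in u..v, |g y| = ∫ y in u..v, -g y := by
      apply intervalIntegral.integral_congr
      intro y hy
      rw [uIcc_of_le huv] at hy
      exact abs_of_nonpos (hneg y hy)
    rw [this, intervalIntegral.integral_neg, hint u v hu huv hv]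
    ring
  have hglo : ∀ y ∈ Icc c d, y ≤ ym → 0 ≤ g y := by
    intro y hy hym
    rcases hym.eq_or_lt with h1 | h1
    · have := hum.eq
      rw [← h1] at this
      simp only [hg]
      rw [show p.eval (R y) - s * R y - y = 0 by linarith]
      simp
    · have := hum.lo y ⟨(hsub hy).1, h1⟩
      exact div_nonneg (by linarith) (hRp y hy).le
  have hghi : ∀ y ∈ Icc c d, ym ≤ y → g y ≤ 0 := by
    intro y hy hym
    rcases hym.eq_or_lt with h1 | h1
    · have := hum.eq
      rw [h1] at this
      simp only [hg]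
      rw [show p.eval (R y) - s * R y - y = 0 by linarith]
      simp
    · have := hum.hi y ⟨h1, (hsub hy).2⟩
      exact div_nonpos_of_nonpos_of_nonneg (by linarith) (hRp y hy).le
  have hvar : ∫ y in c..d, |g y| ≤ 2 * ρ := by
    have hcI : c ∈ Icc c d := ⟨le_rfl, hcd.le⟩
    have hdI : d ∈ Icc c d := ⟨hcd.le, le_rfl⟩
    rcases le_or_gt ym c with h1 | h1
    · rw [hp2 c d le_rfl hcd.le le_rfl (fun y hy => hghi y hy (h1.trans hy.1))]
      linarith [hR c hcI, hRp d hdI]
    · rcases le_or_gt d ym with h2 | h2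
      · rw [hp1 c d le_rfl hcd.le le_rfl (fun y hy => hglo y hy (hy.2.trans h2))]
        linarith [hR d hdI, hRp c hcI]
      · have hm : ym ∈ Icc c d := ⟨h1.le, h2.le⟩
        have hga : ContinuousOn (fun y => |g y|) (Icc c d) := hgc.abs
        rw [← intervalIntegral.integral_add_adjacent_intervals (b := ym)
          (ContinuousOn.intervalIntegrable (hga.mono (by
            rw [uIcc_of_le h1.le]; exact Icc_subset_Icc le_rfl h2.le)))
          (ContinuousOn.intervalIntegrable (hga.mono (by
            rw [uIcc_of_le h2.le]; exact Icc_subset_Icc h1.le le_rfl))),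
          hp1 c ym le_rfl h1.le h2.le (fun y hy => hglo y ⟨hy.1, hy.2.trans h2.le⟩ hy.2),
          hp2 ym d h1.le h2.le le_rfl (fun y hy => hghi y ⟨h1.le.trans hy.1, hy.2⟩ hy.1)]
        linarith [hR ym hm, hRp c hcI, hRp d hdI]
  -- pointwise lower bound
  have hpt : ∀ q : ℝ, ∀ y ∈ Icc c d, 2 * q - q ^ 2 * (2 + |g y|) ≤ w (R y, y) * R y := by
    intro q y hy
    have hRy := hRp y hy
    have hχy : χ (R y, y) = 1 := hχ1 (R y, y) hRy.le (hR y hy) hy
    have hsqe : H709R2.sq (lf p 0 (R y, y)) = (y - p.eval (R y)) ^ 2 + R y ^ 2 := by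
      unfold H709R2.sq lf
      simp only
      ring
    have hA : |y - p.eval (R y)| ≤ R y * (|g y| + 1) := by
      have e : y - p.eval (R y) = -(R y * g y) - s * R y := by
        simp only [hg]
        field_simp
        ring
      rw [e]
      calc |-(R y * g y) - s * R y| ≤ |-(R y * g y)| + |s * R y| := abs_sub _ _
        _ = R y * |g y| + |s| * R y := by
            rw [abs_neg, abs_mul, abs_mul, abs_of_pos hRy]
        _ ≤ R y * |g y| + 1 * R y := by gcongr
        _ = _ := by ring
    have hS : √((y - p.eval (R y)) ^ 2 + R y ^ 2) ≤ R y * (|g y| + 2) := by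
      rw [Real.sqrt_le_left (by positivity)]
      have h0 := abs_nonneg (y - p.eval (R y))
      have h1 : (y - p.eval (R y)) ^ 2 = |y - p.eval (R y)| ^ 2 := (sq_abs _).symm
      rw [h1]
      have h2 : |y - p.eval (R y)| ^ 2 ≤ (R y * (|g y| + 1)) ^ 2 := pow_le_pow_left₀ h0 hA 2
      have h3 : 0 ≤ |g y| := abs_nonneg _
      have h4 : 0 ≤ R y ^ 2 * |g y| := by positivity
      nlinarith [sq_nonneg (R y)]
    have hpos : 0 < √((y - p.eval (R y)) ^ 2 + R y ^ 2) := Real.sqrt_pos.2 (by positivity)
    have hv : 0 < 2 + |g y| := by positivity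
    have hlow : 1 / (2 + |g y|) ≤ w (R y, y) * R y := by
      simp only [hw]
      rw [hχy, hsqe, div_mul_eq_mul_div, one_mul, div_le_div_iff₀ hv hpos, one_mul]
      linarith
    refine le_trans ?_ hlow
    rw [le_div_iff₀ hv]
    nlinarith [sq_nonneg (1 - q * (2 + |g y|))]
  have hwint : IntervalIntegrable (fun y => w (R y, y) * R y) volume c d := by
    apply ContinuousOn.intervalIntegrable
    rw [uIcc_of_le hcd.le]
    apply ContinuousOn.mul _ hRc
    apply hwc.comp (hRc.prodMk continuousOn_id)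
    intro y hy h0
    have := congrArg Prod.fst h0
    exact (hRp y hy).ne' this
  set l := d - c with hl
  have hl0 : 0 < l := by rw [hl]; linarith
  set q := l / (2 * l + 2 * ρ) with hq
  have hqint : IntervalIntegrable (fun y => 2 * q - q ^ 2 * (2 + |g y|)) volume c d := by
    apply ContinuousOn.intervalIntegrable
    rw [uIcc_of_le hcd.le]
    exact continuousOn_const.sub (continuousOn_const.mul (continuousOn_const.add hgc.abs))
  have hmono := intervalIntegral.integral_mono_on hcd.le hqint hwint (hpt q)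
  refine le_trans ?_ hmono
  have hgi : IntervalIntegrable (fun y => |g y|) volume c d := by
    apply ContinuousOn.intervalIntegrable
    rw [uIcc_of_le hcd.le]
    exact hgc.abs
  have hval : ∫ y in c..d, (2 * q - q ^ 2 * (2 + |g y|)) =
      2 * q * l - q ^ 2 * (2 * l + ∫ y in c..d, |g y|) := by
    rw [intervalIntegral.integral_sub (by simp) (by
      exact (intervalIntegrable_const.add hgi).const_mul _)]
    rw [intervalIntegral.integral_const, intervalIntegral.integral_const_mul,
      intervalIntegral.integral_add (by simp) hgi, intervalIntegral.integral_const]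
    simp only [smul_eq_mul]
    ring
  rw [hval]
  have hD : 0 < 2 * l + 2 * ρ := by positivity
  have e1 : l ^ 2 / (2 * l + 2 * ρ) = 2 * q * l - q ^ 2 * (2 * l + 2 * ρ) := by
    rw [hq]
    field_simp
    ring
  rw [e1]
  have : q ^ 2 * (2 * l + ∫ y in c..d, |g y|) ≤ q ^ 2 * (2 * l + 2 * ρ) := by gcongr
  linarith

end Pool.Agent.H709L
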