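import Pool.Agent.H709L.Basic

open Real Set MeasureTheory Topology Filter
open scoped ENNReal

namespace Pool.Agent.H709L

noncomputable section

theorem smallLen (h : WidthR) : SmallLen := by
  intro p s γ T y₁ y₀ R L hp hD hs
  have hneg := hD.neg
  have hpos := hD.pos
  set Y := y₀ - y₁ with hY
  have hYpos : 0 < Y := by linarith
  have hRY : ∀ y ∈ Icc y₁ y₀, R y ≤ Y := fun y hy => h p s γ T y₁ y₀ R L hp hD y hy
  have hR0 : ∀ y ∈ Icc y₁ y₀, 0 ≤ R y := by
    intro y hy
    rcases eq_or_lt_of_le hy.1 with h1 | h1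
    · rw [← h1, hD.R1]
    · rcases eq_or_lt_of_le hy.2 with h2 | h2
      · rw [h2, hD.R0]
      · exact (hD.Rp y ⟨h1, h2⟩).le
  -- the energy
  have hE : ∀ u ∈ Icc y₁ y₀, ∀ v ∈ Icc y₁ y₀,
      |(R u ^ 2 + u ^ 2) - (R v ^ 2 + v ^ 2)| ≤ Y ^ 2 / 16 := by
    have hwlog : ∀ u ∈ Icc y₁ y₀, ∀ v ∈ Icc y₁ y₀, u < v →
        |(R u ^ 2 + u ^ 2) - (R v ^ 2 + v ^ 2)| ≤ Y ^ 2 / 16 := by
      intro u hu v hv huv
      have hder : ∀ y ∈ Ioo u v, HasDerivAt (fun y => R y ^ 2 + y ^ 2)
          (2 * (p.eval (R y) - s * R y)) y := by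
        intro y hy
        have hyI : y ∈ Ioo y₁ y₀ := ⟨lt_of_le_of_lt hu.1 hy.1, lt_of_lt_of_le hy.2 hv.2⟩
        have hRp := hD.Rp y hyI
        have h1 := ((hD.dR y hyI).pow 2).add ((hasDerivAt_id y).pow 2)
        refine h1.congr_deriv ?_
        simp only [id]
        field_simp
        push_cast
        ring
      have hcont : ContinuousOn (fun y => R y ^ 2 + y ^ 2) (Icc u v) := by
        apply ContinuousOn.add
        · exact ((hD.cR).mono (Icc_subset_Icc hu.1 hv.2)).pow 2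
        · fun_prop
      obtain ⟨c, hc, hc2⟩ := exists_hasDerivAt_eq_slope _ _ huv hcont hder
      have hcI : c ∈ Icc y₁ y₀ := ⟨hu.1.trans hc.1.le, hc.2.le.trans hv.2⟩
      have h3 := hs c hcI
      have h4 := hRY c hcI
      have h5 : (R v ^ 2 + v ^ 2) - (R u ^ 2 + u ^ 2) =
          2 * (p.eval (R c) - s * R c) * (v - u) := by
        have : v - u ≠ 0 := by linarith
        field_simp at hc2
        linarith
      rw [abs_sub_comm, h5, abs_mul, abs_mul, abs_two, abs_of_pos (by linarith : 0 < v - u)]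
      have h6 : v - u ≤ Y := by linarith [hu.1, hv.2]
      have h7 : |Polynomial.eval (R c) p - s * R c| ≤ Y / 32 := h3.trans (by linarith)
      calc 2 * |Polynomial.eval (R c) p - s * R c| * (v - u) ≤ 2 * (Y / 32) * Y := by
            apply mul_le_mul _ h6 (by linarith) (by positivity)
            linarith
        _ = Y ^ 2 / 16 := by ring
    intro u hu v hv
    rcases lt_trichotomy u v with h1 | h1 | h1
    · exact hwlog u hu v hv h1
    · subst h1
      simp
      positivity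
    · rw [abs_sub_comm]
      exact hwlog v hv u hu h1
  have m0 : y₀ ∈ Icc y₁ y₀ := ⟨by linarith, le_refl _⟩
  have m1 : y₁ ∈ Icc y₁ y₀ := ⟨le_refl _, by linarith⟩
  have hA := hE y₀ m0 y₁ m1
  rw [hD.R0, hD.R1] at hA
  have hA1 := abs_le.1 hA
  -- y₀ and |y₁| are at least 15Y/32
  have hfac : (0 ^ 2 + y₀ ^ 2) - (0 ^ 2 + y₁ ^ 2) = Y * (y₀ + y₁) := by rw [hY]; ring
  rw [hfac] at hA1
  have hB1 : y₀ + y₁ ≤ Y / 16 := by
    by_contra hcon
    push Not at hcon
    have := mul_lt_mul_of_pos_left hcon hYpos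
    nlinarith [hA1.2]
  have hB2 : -(Y / 16) ≤ y₀ + y₁ := by
    by_contra hcon
    push Not at hcon
    have := mul_lt_mul_of_pos_left hcon hYpos
    nlinarith [hA1.1]
  have hC0 : 15 * Y / 32 ≤ y₀ := by linarith
  have hC1 : 15 * Y / 32 ≤ -y₁ := by linarith
  have hRlow : ∀ y ∈ Icc (-(Y / 4)) (Y / 4), Y / 4 ≤ R y := by
    intro y hy
    have hyI : y ∈ Icc y₁ y₀ := ⟨by linarith [hy.1], by linarith [hy.2]⟩
    have h1 := abs_le.1 (hE y hyI y₀ m0)
    rw [hD.R0] at h1
    have h2 : y ^ 2 ≤ (Y / 4) ^ 2 := by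
      apply sq_le_sq'
      · linarith [hy.1]
      · exact hy.2
    have h3 : (15 * Y / 32) ^ 2 ≤ y₀ ^ 2 := by
      apply pow_le_pow_left₀ (by positivity) hC0
    have h4 : (Y / 4) ^ 2 ≤ R y ^ 2 := by nlinarith [h1.1]
    have h5 := hR0 y hyI
    exact (pow_le_pow_iff_left₀ (by positivity) h5 two_ne_zero).1 h4
  have hact := hD.act (fun _ => 1) (fun _ => zero_le_one) continuousOn_const (-(Y / 4)) (Y / 4)
    (by linarith) (by linarith) (by linarith)
  refine le_trans ?_ hact
  have hcR : ContinuousOn R (Icc (-(Y / 4)) (Y / 4)) :=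
    hD.cR.mono (Icc_subset_Icc (by linarith) (by linarith))
  have hint : IntervalIntegrable (fun y => (1:ℝ) * R y) volume (-(Y / 4)) (Y / 4) := by
    apply ContinuousOn.intervalIntegrable
    rw [uIcc_of_le (by linarith)]
    simpa using hcR
  have hmono := intervalIntegral.integral_mono_on (μ := volume) (a := -(Y / 4)) (b := Y / 4)
    (f := fun _ => Y / 4) (g := fun y => (1:ℝ) * R y) (by linarith) (by simp) hint
    (by intro y hy; simpa using hRlow y hy)
  refine le_trans (le_of_eq ?_) hmono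
  simp
  ring

end

end Pool.Agent.H709L
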