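import Pool.Agent.H709L.Basic

open Real Set MeasureTheory Topology Filter
open scoped ENNReal

namespace Pool.Agent.H709L

noncomputable section

/-- a `T`-periodic function with a derivative of constant sign is constant, hence the
derivative vanishes -/
theorem window_aux (E E' : ℝ → ℝ) (T : ℝ) (hT : 0 < T) (hE : ∀ t, HasDerivAt E (E' t) t)
    (hper : ∀ t, E (t + T) = E t) (hs : ∀ t, 0 ≤ E' t) : ∀ t, E' t = 0 := by
  have hmono : Monotone E := by
    apply monotone_of_deriv_nonneg
    · intro t; exact (hE t).differentiableAt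
    · intro t; rw [(hE t).deriv]; exact hs t
  have hconst : ∀ t, ∀ u ∈ Icc t (t + T), E u = E t := by
    intro t u hu
    apply le_antisymm
    · have := hmono hu.2
      rw [hper] at this
      exact this
    · exact hmono hu.1
  intro t
  have h1 := hE (t + T / 2)
  -- derivative of E at an interior point of the interval [t, t+T] vanishes
  have h2 : ∀ t, E' (t + T / 2) = 0 := by
    intro t
    have h3 : HasDerivAt E 0 (t + T / 2) := by
      have h4 : (fun _ : ℝ => E t) =ᶠ[𝓝 (t + T / 2)] E := by
        have : Ioo t (t + T) ∈ 𝓝 (t + T / 2) := Ioo_mem_nhds (by linarith) (by linarith)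
        filter_upwards [this] with u hu
        exact (hconst t u ⟨hu.1.le, hu.2.le⟩).symm
      exact (hasDerivAt_const (t + T / 2) (E t)).congr_of_eventuallyEq h4.symm
    exact (hE _).unique h3
  have := h2 (t - T / 2)
  simpa using this

theorem window_core (p : Polynomial ℝ) (s : ℝ) (γ : ℝ → ℝ × ℝ) (T : ℝ) (h : LCyc p s γ T)
    (c : ℝ) (hc : 0 < c) (σ : ℝ)
    (hs : ∀ t, c * (γ t).1 ^ 2 ≤ σ * ((γ t).1 * (s * (γ t).1 - p.eval (γ t).1))) : False := by
  have hx : ∀ t, HasDerivAt (fun t => (γ t).1) ((γ t).2 - p.eval (γ t).1 + s * (γ t).1) t := by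
    intro t
    have := h.ode t
    exact this.fst
  have hy : ∀ t, HasDerivAt (fun t => (γ t).2) (-(γ t).1) t := by
    intro t
    have := h.ode t
    exact this.snd
  have hE : ∀ t, HasDerivAt (fun t => σ * ((γ t).1 ^ 2 + (γ t).2 ^ 2))
      (2 * (σ * ((γ t).1 * (s * (γ t).1 - p.eval (γ t).1)))) t := by
    intro t
    have h1 := ((hx t).pow 2).add ((hy t).pow 2)
    have h2 := h1.const_mul σ
    refine h2.congr_deriv ?_
    push_cast
    ring
  have hz := window_aux _ _ T h.pos hE (by intro t; simp only [h.per]) (by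
    intro t
    have := hs t
    have h3 : 0 ≤ c * (γ t).1 ^ 2 := by positivity
    linarith)
  have hx0 : ∀ t, (γ t).1 = 0 := by
    intro t
    have h1 := hz t
    have h2 := hs t
    have h3 : c * (γ t).1 ^ 2 ≤ 0 := by linarith
    have h4 : (γ t).1 ^ 2 ≤ 0 := by
      by_contra hcon
      push Not at hcon
      have := mul_pos hc hcon
      linarith
    exact pow_eq_zero_iff (two_ne_zero) |>.1 (le_antisymm h4 (sq_nonneg _))
  have hy0 : ∀ t, (γ t).2 = (γ 0).2 := by
    intro t
    apply is_const_of_deriv_eq_zero (f := fun t => (γ t).2)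
    · intro t; exact (hy t).differentiableAt
    · intro t; rw [(hy t).deriv, hx0 t]; simp
  have heq : γ (T / 2) = γ 0 := by
    apply Prod.ext
    · rw [hx0, hx0]
    · exact hy0 _
  obtain ⟨k, hk⟩ := h.inj _ _ heq
  have hT := h.pos
  have hk2 : (1:ℝ) / 2 = k := by
    field_simp at hk ⊢
    nlinarith [hk]
  have hk3 : (1:ℝ) = 2 * k := by linarith
  have hk4 : (1:ℤ) = 2 * k := by exact_mod_cast hk3
  omega

theorem window : Window := by
  intro p s γ T f κ ρ h hρ hp
  have key : ∀ t, |(γ t).1 * (p.eval (γ t).1 - f * (γ t).1)| ≤ κ * (γ t).1 ^ 2 := by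
    intro t
    rw [abs_mul]
    have := hp _ (hρ t)
    calc |(γ t).1| * |p.eval (γ t).1 - f * (γ t).1| ≤ |(γ t).1| * (κ * |(γ t).1|) := by
          apply mul_le_mul_of_nonneg_left this (abs_nonneg _)
      _ = κ * (|(γ t).1| ^ 2) := by ring
      _ = κ * (γ t).1 ^ 2 := by rw [sq_abs]
  by_contra hcon
  push Not at hcon
  rcases lt_abs.1 hcon with h1 | h1
  · -- f - s > κ
    apply window_core p s γ T h (f - s - κ) (by linarith) (-1)
    intro t
    have := (abs_le.1 (key t)).1
    nlinarith
  · apply window_core p s γ T h (s - f - κ) (by linarith) 1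
    intro t
    have := (abs_le.1 (key t)).2
    nlinarith

end

end Pool.Agent.H709L
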