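import Pool.Agent.H709L.Basic

/-!
# H1: interpolation at lacunary nodes
-/

namespace Pool.Agent.H709L

open Finset

namespace H1

theorem prod_sub (K : ℕ) :
    6 / 7 + (1 / 7) * (1 / 8 : ℝ) ^ K ≤ ∏ m ∈ range K, (1 - (1 / 8 : ℝ) ^ (m + 1)) := by
  induction K with
  | zero => norm_num
  | succ K ih =>
    rw [prod_range_succ]
    have h0 : (0:ℝ) < (1 / 8 : ℝ) ^ K := by positivity
    have h1 : (1 / 8 : ℝ) ^ K ≤ 1 := pow_le_one₀ (by norm_num) (by norm_num)
    have h2 : (0:ℝ) ≤ 1 - (1 / 8 : ℝ) ^ (K + 1) := by rw [pow_succ]; linarith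
    refine le_trans ?_ (mul_le_mul_of_nonneg_right ih h2)
    rw [pow_succ]
    nlinarith

theorem prod_add (K : ℕ) :
    ∏ m ∈ range K, (1 + (1 / 8 : ℝ) ^ (m + 1)) ≤ 7 / 6 * (1 - (1 / 7) * (1 / 8 : ℝ) ^ K) := by
  induction K with
  | zero => norm_num
  | succ K ih =>
    rw [prod_range_succ]
    have h0 : (0:ℝ) < (1 / 8 : ℝ) ^ K := by positivity
    have h2 : (0:ℝ) ≤ 1 + (1 / 8 : ℝ) ^ (K + 1) := by positivity
    refine le_trans (mul_le_mul_of_nonneg_right ih h2) ?_
    rw [pow_succ]
    nlinarith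

theorem prod_ratio (K : ℕ) :
    ∏ m ∈ range K, ((1 + (1 / 8 : ℝ) ^ (m + 1)) / (1 - (1 / 8 : ℝ) ^ (m + 1))) ≤ 49 / 36 := by
  rw [prod_div_distrib]
  have h1 := prod_sub K
  have h2 := prod_add K
  have h0 : (0:ℝ) < (1 / 8 : ℝ) ^ K := by positivity
  have h3 : (6:ℝ) / 7 ≤ ∏ m ∈ range K, (1 - (1 / 8 : ℝ) ^ (m + 1)) := by linarith
  rw [div_le_iff₀ (by linarith)]
  nlinarith

theorem geo (N : ℕ) : ∑ k ∈ range N, (2 / 7 : ℝ) ^ k ≤ 7 / 5 := by
  have : ∑ k ∈ range N, (2 / 7 : ℝ) ^ k = 7 / 5 * (1 - (2 / 7 : ℝ) ^ N) := by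
    induction N with
    | zero => simp
    | succ N ih => rw [sum_range_succ, ih, pow_succ]; ring
  rw [this]
  have : (0:ℝ) < (2 / 7 : ℝ) ^ N := by positivity
  linarith

end H1

open H1 in
/-- H1 -/
theorem interp : Interp := by
  intro P N x M hdeg hx0 hx hM z hz
  have hN : 0 < N := by omega
  have hM0 : 0 ≤ M := le_trans (abs_nonneg _) (hM 0 hN)
  -- growth of the nodes
  have hgrow : ∀ k m, 8 ^ m * x k ≤ x (k + m) := by
    intro k m
    induction m with
    | zero => simp
    | succ m ih =>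
      have := hx (k + m)
      rw [pow_succ]
      have e : k + (m + 1) = k + m + 1 := by ring
      rw [e]
      nlinarith
  have hpos : ∀ k, 0 < x k := by
    intro k
    have := hgrow 0 k
    rw [zero_add] at this
    exact lt_of_lt_of_le (by positivity) this
  have hle : ∀ k, x 0 ≤ x k := by
    intro k
    have := hgrow 0 k
    rw [zero_add] at this
    refine le_trans ?_ this
    have h8 : (1:ℝ) ≤ 8 ^ k := one_le_pow₀ (by norm_num)
    nlinarith
  have hmono : StrictMono x := by
    apply strictMono_nat_of_lt_succ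
    intro n
    have := hx n
    have := hpos n
    linarith
  have hinj : Set.InjOn x (range N : Set ℕ) := hmono.injective.injOn
  have hP : P = Lagrange.interpolate (range N) x (fun k => P.eval (x k)) := by
    apply Lagrange.eq_interpolate_of_eval_eq _ hinj
    · rw [card_range]
      exact lt_of_le_of_lt Polynomial.degree_le_natDegree (by exact_mod_cast hdeg)
    · intro i _
      rfl
  have heval : P.eval z = ∑ k ∈ range N, P.eval (x k) *
      ∏ j ∈ (range N).erase k, ((x k - x j)⁻¹ * (z - x j)) := by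
    conv_lhs => rw [hP]
    rw [Lagrange.interpolate_apply, Polynomial.eval_finsetSum]
    refine sum_congr rfl fun k _ => ?_
    rw [Polynomial.eval_mul, Polynomial.eval_C, Lagrange.basis, Polynomial.eval_prod]
    congr 1
    refine prod_congr rfl fun j _ => ?_
    simp [Lagrange.basisDivisor]
  -- the factors
  have hlow : ∀ k j, j < k → |(x k - x j)⁻¹ * (z - x j)| ≤ 2 / 7 := by
    intro k j hjk
    have h1 : 8 * x j ≤ x k := by
      have := hgrow j (k - j)
      have e : j + (k - j) = k := by omega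
      rw [e] at this
      refine le_trans ?_ this
      have h8 : (8:ℝ) ≤ 8 ^ (k - j) := by
        calc (8:ℝ) = 8 ^ 1 := by norm_num
          _ ≤ 8 ^ (k - j) := pow_le_pow_right₀ (by norm_num) (by omega)
      have := hpos j
      nlinarith
    have h2 := hpos j
    have h3 : |z - x j| ≤ 2 * x j := by
      rw [abs_le] at hz ⊢
      have := hle j
      constructor <;> linarith
    have h4 : 0 < x k - x j := by linarith
    rw [abs_mul, abs_inv, abs_of_pos h4, inv_mul_eq_div, div_le_div_iff₀ h4 (by norm_num)]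
    linarith
  have hhigh : ∀ k m, |(x k - x (k + (m + 1)))⁻¹ * (z - x (k + (m + 1)))| ≤
      (1 + (1 / 8 : ℝ) ^ (m + 1)) / (1 - (1 / 8 : ℝ) ^ (m + 1)) := by
    intro k m
    have h1 := hgrow k (m + 1)
    have h2 := hpos (k + (m + 1))
    have h3 := hle k
    have hq : (0:ℝ) < (1 / 8 : ℝ) ^ (m + 1) := by positivity
    have hq1 : (1 / 8 : ℝ) ^ (m + 1) < 1 := pow_lt_one₀ (by norm_num) (by norm_num) (by omega)
    have h4 : x k ≤ (1 / 8 : ℝ) ^ (m + 1) * x (k + (m + 1)) := by
      have e : (1 / 8 : ℝ) ^ (m + 1) * (8 ^ (m + 1) * x k) = x k := by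
        rw [← mul_assoc, ← mul_pow]; norm_num
      calc x k = (1 / 8 : ℝ) ^ (m + 1) * (8 ^ (m + 1) * x k) := e.symm
        _ ≤ _ := mul_le_mul_of_nonneg_left h1 hq.le
    set q := (1 / 8 : ℝ) ^ (m + 1) with hqdef
    set y := x (k + (m + 1)) with hy
    have h5 : |z - y| ≤ y * (1 + q) := by
      rw [abs_le] at hz ⊢
      constructor <;> nlinarith
    have h6 : y * (1 - q) ≤ y - x k := by nlinarith
    have h7 : 0 < y * (1 - q) := by
      have : 0 < 1 - q := by linarith
      positivity
    have h8 : 0 < y - x k := by linarith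
    rw [abs_mul, abs_inv, abs_sub_comm (x k) y, abs_of_pos h8, inv_mul_eq_div]
    calc |z - y| / (y - x k) ≤ (y * (1 + q)) / (y * (1 - q)) := by
          apply div_le_div₀ (by positivity) h5 h7 h6
      _ = (1 + q) / (1 - q) := by
          rw [mul_div_mul_left _ _ h2.ne']
  have hprod : ∀ k ∈ range N, |∏ j ∈ (range N).erase k, ((x k - x j)⁻¹ * (z - x j))| ≤
      (2 / 7) ^ k * (49 / 36) := by
    intro k hk
    rw [mem_range] at hk
    have hsplit : (range N).erase k = range k ∪ (range (N - (k + 1))).image (fun m => k + (m + 1)) := by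
      ext j
      simp only [mem_erase, mem_range, mem_union, mem_image]
      constructor
      · rintro ⟨h1, h2⟩
        rcases lt_or_gt_of_ne h1 with h | h
        · exact Or.inl h
        · exact Or.inr ⟨j - k - 1, by omega, by omega⟩
      · rintro (h | ⟨m, hm, rfl⟩)
        · omega
        · omega
    have hdisj : Disjoint (range k) ((range (N - (k + 1))).image (fun m => k + (m + 1))) := by
      rw [disjoint_left]
      intro j hj hj'
      simp only [mem_range, mem_image] at hj hj'
      obtain ⟨m, _, rfl⟩ := hj'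
      omega
    rw [hsplit, prod_union hdisj, prod_image (by intro a _ b _ h; simpa using h), abs_mul,
      abs_prod, abs_prod]
    refine mul_le_mul ?_ ?_ (prod_nonneg fun _ _ => abs_nonneg _) (by positivity)
    · calc ∏ j ∈ range k, |(x k - x j)⁻¹ * (z - x j)| ≤ ∏ _j ∈ range k, (2 / 7 : ℝ) :=
            prod_le_prod (fun _ _ => abs_nonneg _) fun j hj => hlow k j (mem_range.1 hj)
        _ = (2 / 7) ^ k := by rw [prod_const, card_range]
    · refine le_trans (prod_le_prod (fun _ _ => abs_nonneg _) fun m _ => hhigh k m) ?_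
      exact prod_ratio _
  rw [heval]
  calc |∑ k ∈ range N, P.eval (x k) * ∏ j ∈ (range N).erase k, ((x k - x j)⁻¹ * (z - x j))|
      ≤ ∑ k ∈ range N, |P.eval (x k) * ∏ j ∈ (range N).erase k, ((x k - x j)⁻¹ * (z - x j))| :=
        abs_sum_le_sum_abs _ _
    _ ≤ ∑ k ∈ range N, M * ((2 / 7) ^ k * (49 / 36)) := by
        refine sum_le_sum fun k hk => ?_
        rw [abs_mul]
        exact mul_le_mul (hM k (mem_range.1 hk)) (hprod k hk) (abs_nonneg _) hM0
    _ = M * (49 / 36) * ∑ k ∈ range N, (2 / 7 : ℝ) ^ k := by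
        rw [mul_sum]
        exact sum_congr rfl fun k _ => by ring
    _ ≤ M * (49 / 36) * (7 / 5) := mul_le_mul_of_nonneg_left (geo N) (by positivity)
    _ ≤ 2 * M := by linarith

end Pool.Agent.H709L
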