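import Pool.Agent.H709L.Basic

/-! H2: the number of scales. -/

open Real Set MeasureTheory Topology Filter
open scoped ENNReal

namespace Pool.Agent.H709L

theorem scaleCount_core (h : Interp) (P : Polynomial ℝ) (n : ℕ) (i₀ : ℤ) (hn : P.natDegree ≤ n)
    (hx : ∃ x : ℝ, |x| ≤ (2:ℝ) ^ (i₀ + 4) ∧ 1 / 64 < |P.eval x - P.eval 0|)
    (z : ℕ → ℝ) (hz0 : (2:ℝ) ^ (i₀ + 3) ≤ z 0) (hz : ∀ k, 8 * z k ≤ z (k + 1))
    (hb : ∀ k, k < 2 * n + 4 → |P.eval (z k)| ≤ 4) : False := by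
  obtain ⟨x, hx1, hx2⟩ := hx
  have h2 : (0:ℝ) < (2:ℝ) ^ (i₀ + 3) := zpow_pos two_pos _
  have hzp : ∀ k, (8:ℝ) ^ k * (2:ℝ) ^ (i₀ + 3) ≤ z k := by
    intro k
    induction k with
    | zero => simpa using hz0
    | succ k ih =>
      calc (8:ℝ) ^ (k + 1) * (2:ℝ) ^ (i₀ + 3) = 8 * ((8:ℝ) ^ k * (2:ℝ) ^ (i₀ + 3)) := by ring
        _ ≤ 8 * z k := by linarith
        _ ≤ _ := hz k
  have hpos : ∀ k, 0 < z k := fun k => lt_of_lt_of_le (by positivity) (hzp k)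
  have hn1 : P.natDegree ≠ 0 := by
    intro h0
    rw [Polynomial.natDegree_eq_zero] at h0
    obtain ⟨c, hc⟩ := h0
    rw [← hc] at hx2
    simp only [Polynomial.eval_C, sub_self, abs_zero] at hx2
    linarith
  have hn2 : 1 ≤ n := by omega
  have hP : ∀ y, |y| ≤ z (n + 3) → |P.eval y| ≤ 8 := by
    intro y hy
    have := h P (n + 1) (fun k => z (n + 3 + k)) 4 (by omega) (hpos _) (fun k => hz _)
      (fun k hk => hb _ (by omega)) y (by simpa using hy)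
    linarith
  have e : ∀ y, P.divX.eval y * y = P.eval y - P.eval 0 := by
    intro y
    have h1 : P.eval y = (P.divX * Polynomial.X + Polynomial.C (P.coeff 0)).eval y := by
      rw [Polynomial.divX_mul_X_add]
    rw [h1]
    simp [Polynomial.coeff_zero_eq_eval_zero]
  have hQ : ∀ y, |y| ≤ z (n + 3) → |P.divX.eval y| * |y| ≤ 16 := by
    intro y hy
    have h1 := hP y hy
    have h3 := hP 0 (by simpa using (hpos _).le)
    rw [← abs_mul, e]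
    have h4 := abs_sub (P.eval y) (P.eval 0)
    linarith
  have h8 : (0:ℝ) < 8 ^ (n - 1) := by positivity
  obtain ⟨w0, hw0⟩ : ∃ w0, w0 = z (n + 3) / 8 ^ (n - 1) := ⟨_, rfl⟩
  have hw0p : 0 < w0 := by rw [hw0]; exact div_pos (hpos _) h8
  have hw0e : w0 * 8 ^ (n - 1) = z (n + 3) := by
    rw [hw0]; field_simp
  have hw0l : 8 ^ 4 * (2:ℝ) ^ (i₀ + 3) ≤ w0 := by
    rw [hw0, le_div_iff₀ h8]
    have h3 := hzp (n + 3)
    have e : (8:ℝ) ^ (n + 3) = 8 ^ 4 * 8 ^ (n - 1) := by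
      rw [← pow_add]; congr 1; omega
    rw [e] at h3
    linarith
  have hQ2 : ∀ y, |y| ≤ w0 → |P.divX.eval y| ≤ 2 * (16 / w0) := by
    intro y hy
    refine h P.divX n (fun k => 8 ^ k * w0) (16 / w0) ?_ ?_ ?_ ?_ y ?_
    · rw [Polynomial.natDegree_divX_eq_natDegree_tsub_one]; omega
    · simpa using hw0p
    · intro k
      simp only [pow_succ]
      linarith
    · intro k hk
      have h1 : (8:ℝ) ^ k ≤ 8 ^ (n - 1) := pow_le_pow_right₀ (by norm_num) (by omega)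
      have h1' : (1:ℝ) ≤ 8 ^ k := one_le_pow₀ (by norm_num)
      have h3 : 0 < 8 ^ k * w0 := by positivity
      have h4 : |8 ^ k * w0| ≤ z (n + 3) := by
        rw [abs_of_pos h3, ← hw0e]
        nlinarith
      have h5 := hQ _ h4
      rw [abs_of_pos h3] at h5
      rw [le_div_iff₀ hw0p]
      have h6 : |P.divX.eval (8 ^ k * w0)| * w0 ≤ |P.divX.eval (8 ^ k * w0)| * (8 ^ k * w0) := by
        apply mul_le_mul_of_nonneg_left _ (abs_nonneg _)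
        nlinarith
      exact le_trans h6 h5
    · simpa using hy
  have h24 : (2:ℝ) ^ (i₀ + 4) = 2 * (2:ℝ) ^ (i₀ + 3) := by
    rw [show i₀ + 4 = (i₀ + 3) + 1 by ring, zpow_add_one₀ two_ne_zero]
    ring
  have hxw : |x| ≤ w0 := by
    rw [h24] at hx1
    nlinarith
  have h7 := hQ2 x hxw
  rw [← e, abs_mul] at hx2
  have h9 : |P.divX.eval x| * |x| ≤ 2 * (16 / w0) * (2 * (2:ℝ) ^ (i₀ + 3)) := by
    rw [h24] at hx1
    exact mul_le_mul h7 hx1 (abs_nonneg _) (by positivity)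
  have h10 : 2 * (16 / w0) * (2 * (2:ℝ) ^ (i₀ + 3)) ≤ 1 / 64 := by
    have : 2 * (16 / w0) * (2 * (2:ℝ) ^ (i₀ + 3)) = 64 * (2:ℝ) ^ (i₀ + 3) / w0 := by ring
    rw [this, div_le_iff₀ hw0p]
    linarith
  linarith

theorem scaleCount_class (h : Interp) (P : Polynomial ℝ) (n : ℕ) (i₀ : ℤ) (hn : P.natDegree ≤ n)
    (hx : ∃ x : ℝ, |x| ≤ (2:ℝ) ^ (i₀ + 4) ∧ 1 / 64 < |P.eval x - P.eval 0|) (r : ℤ) :
    {i : ℤ | (i₀ ≤ i ∧ ∃ x ∈ Icc ((2:ℝ) ^ (i + 3)) ((2:ℝ) ^ (i + 4)), |P.eval x| < 4) ∧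
      i % 4 = r}.encard ≤ 2 * n + 3 := by
  by_contra hcon
  push Not at hcon
  have hcon' : ((2 * n + 4 : ℕ) : ℕ∞) ≤
      {i : ℤ | (i₀ ≤ i ∧ ∃ x ∈ Icc ((2:ℝ) ^ (i + 3)) ((2:ℝ) ^ (i + 4)), |P.eval x| < 4) ∧
      i % 4 = r}.encard := by
    have := Order.add_one_le_of_lt hcon
    refine le_trans (le_of_eq ?_) this
    push_cast
    ring
  obtain ⟨t, hts, htc⟩ := Set.exists_subset_encard_eq hcon'
  have htf : t.Finite := Set.finite_of_encard_eq_coe htc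
  set T := htf.toFinset with hT
  have hTc : T.card = 2 * n + 4 := by
    have h1 := htf.encard_eq_coe_toFinset_card
    rw [htc] at h1
    exact_mod_cast h1.symm
  set ι := T.orderEmbOfFin hTc with hι
  have hmem : ∀ k, ι k ∈ t := by
    intro k
    have := Finset.orderEmbOfFin_mem T hTc k
    exact (Set.Finite.mem_toFinset htf).mp this
  have hch : ∀ k : Fin (2 * n + 4), ∃ x ∈ Icc ((2:ℝ) ^ (ι k + 3)) ((2:ℝ) ^ (ι k + 4)),
      |P.eval x| < 4 := fun k => (hts (hmem k)).1.2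
  choose f hf1 hf2 using hch
  have h0 : 0 < 2 * n + 4 := by omega
  let z : ℕ → ℝ := fun k => if hk : k < 2 * n + 4 then f ⟨k, hk⟩ else
    8 ^ (k - (2 * n + 3)) * f ⟨2 * n + 3, by omega⟩
  refine scaleCount_core h P n i₀ hn hx z ?_ ?_ ?_
  · have e1 : z 0 = f ⟨0, h0⟩ := by simp [z]
    rw [e1]
    refine le_trans ?_ (hf1 ⟨0, h0⟩).1
    have := (hts (hmem ⟨0, h0⟩)).1.1
    exact zpow_le_zpow_right₀ (by norm_num) (by omega)
  · intro k
    by_cases hk : k + 1 < 2 * n + 4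
    · have hk' : k < 2 * n + 4 := by omega
      have e1 : z k = f ⟨k, hk'⟩ := by simp [z, hk']
      have e2 : z (k + 1) = f ⟨k + 1, hk⟩ := by simp [z, hk]
      rw [e1, e2]
      have h1 := (hf1 ⟨k, hk'⟩).2
      have h2 := (hf1 ⟨k + 1, hk⟩).1
      have h3 : ι ⟨k, hk'⟩ < ι ⟨k + 1, hk⟩ := by
        rw [OrderEmbedding.lt_iff_lt]
        exact Fin.mk_lt_mk.mpr (by omega)
      have h4 := (hts (hmem ⟨k, hk'⟩)).2
      have h5 := (hts (hmem ⟨k + 1, hk⟩)).2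
      have h6 : ι ⟨k, hk'⟩ + 4 ≤ ι ⟨k + 1, hk⟩ := by omega
      have h7 : (2:ℝ) ^ (ι ⟨k, hk'⟩ + 4 + 3) ≤ (2:ℝ) ^ (ι ⟨k + 1, hk⟩ + 3) :=
        zpow_le_zpow_right₀ (by norm_num) (by omega)
      have h8 : (2:ℝ) ^ (ι ⟨k, hk'⟩ + 4 + 3) = (2:ℝ) ^ (ι ⟨k, hk'⟩ + 4) * 8 := by
        rw [zpow_add₀ two_ne_zero]
        norm_num
      rw [h8] at h7
      linarith
    · by_cases hk' : k < 2 * n + 4
      · have hk3 : k = 2 * n + 3 := by omega
        subst hk3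
        have e1 : z (2 * n + 3) = f ⟨2 * n + 3, hk'⟩ := by simp [z]
        have e2 : z (2 * n + 3 + 1) = 8 ^ 1 * f ⟨2 * n + 3, hk'⟩ := by
          simp only [z]
          rw [dif_neg hk]
          congr 2
          omega
        rw [e1, e2]
        linarith
      · have e1 : z k = 8 ^ (k - (2 * n + 3)) * f ⟨2 * n + 3, by omega⟩ := by
          simp only [z]
          rw [dif_neg hk']
        have e2 : z (k + 1) = 8 ^ (k + 1 - (2 * n + 3)) * f ⟨2 * n + 3, by omega⟩ := by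
          simp only [z]
          rw [dif_neg hk]
        rw [e1, e2, show k + 1 - (2 * n + 3) = (k - (2 * n + 3)) + 1 by omega, pow_succ]
        linarith
  · intro k hk
    have e1 : z k = f ⟨k, hk⟩ := by simp [z, hk]
    rw [e1]
    exact (hf2 _).le

theorem scaleCount (h : Interp) : ScaleCount := by
  intro P n i₀ hn hx
  have hsub : {i : ℤ | i₀ ≤ i ∧ ∃ x ∈ Icc ((2:ℝ) ^ (i + 3)) ((2:ℝ) ^ (i + 4)), |P.eval x| < 4} ⊆
      ((({i : ℤ | (i₀ ≤ i ∧ ∃ x ∈ Icc ((2:ℝ) ^ (i + 3)) ((2:ℝ) ^ (i + 4)), |P.eval x| < 4) ∧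
        i % 4 = 0} ∪
      {i : ℤ | (i₀ ≤ i ∧ ∃ x ∈ Icc ((2:ℝ) ^ (i + 3)) ((2:ℝ) ^ (i + 4)), |P.eval x| < 4) ∧
        i % 4 = 1}) ∪
      {i : ℤ | (i₀ ≤ i ∧ ∃ x ∈ Icc ((2:ℝ) ^ (i + 3)) ((2:ℝ) ^ (i + 4)), |P.eval x| < 4) ∧
        i % 4 = 2}) ∪
      {i : ℤ | (i₀ ≤ i ∧ ∃ x ∈ Icc ((2:ℝ) ^ (i + 3)) ((2:ℝ) ^ (i + 4)), |P.eval x| < 4) ∧
        i % 4 = 3}) := by
    intro i hi
    have h4 : i % 4 = 0 ∨ i % 4 = 1 ∨ i % 4 = 2 ∨ i % 4 = 3 := by omega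
    rcases h4 with h4 | h4 | h4 | h4
    · exact Or.inl (Or.inl (Or.inl ⟨hi, h4⟩))
    · exact Or.inl (Or.inl (Or.inr ⟨hi, h4⟩))
    · exact Or.inl (Or.inr ⟨hi, h4⟩)
    · exact Or.inr ⟨hi, h4⟩
  have c0 := scaleCount_class h P n i₀ hn hx 0
  have c1 := scaleCount_class h P n i₀ hn hx 1
  have c2 := scaleCount_class h P n i₀ hn hx 2
  have c3 := scaleCount_class h P n i₀ hn hx 3
  refine le_trans (Set.encard_le_encard hsub) ?_
  refine le_trans (Set.encard_union_le _ _) ?_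
  refine le_trans (add_le_add (le_trans (Set.encard_union_le _ _)
    (add_le_add (le_trans (Set.encard_union_le _ _) (add_le_add c0 c1)) c2)) c3) ?_
  apply le_of_eq
  ring

end Pool.Agent.H709L
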