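import Pool.Agent.H709L.Basic

/-! Task H3: small variation on small scales. -/

open Real Set MeasureTheory Topology Filter
open scoped ENNReal

namespace Pool.Agent.H709L

theorem smallBeta (h : Interp) : SmallBeta := by
  intro P n i₀ hn hP j hj x hx
  have hxs : |x| ≤ (2:ℝ) ^ (i₀ + 3) := hx.trans (zpow_le_zpow_right₀ (by norm_num) hj)
  have hb := hP x hxs
  refine le_min hb ?_
  have hpos : (0:ℝ) < (2:ℝ) ^ (j - i₀ - 3) := by positivity
  have he : (2:ℝ) ^ (j - i₀ - 3) = (2:ℝ) ^ j / (2:ℝ) ^ (i₀ + 3) := by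
    rw [← zpow_sub₀ (by norm_num)]
    congr 1
    ring
  have hS : (0:ℝ) < (2:ℝ) ^ (i₀ + 3) := by positivity
  have hJ : (0:ℝ) < (2:ℝ) ^ j := by positivity
  rcases Nat.eq_zero_or_pos n with rfl | hnpos
  · have hdeg : P.natDegree = 0 := by omega
    rw [Polynomial.eq_C_of_natDegree_eq_zero hdeg]
    simp only [Polynomial.eval_C, sub_self, abs_zero]
    positivity
  · -- `P - P(0) = X Q`
    set Q := P.divX with hQ
    have hPQ : ∀ z, P.eval z - P.eval 0 = z * Q.eval z := by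
      intro z
      have h1 := congrArg (Polynomial.eval z) (Polynomial.X_mul_divX_add P)
      simp only [Polynomial.eval_add, Polynomial.eval_mul, Polynomial.eval_X,
        Polynomial.eval_C] at h1
      rw [← Polynomial.coeff_zero_eq_eval_zero, ← h1]
      ring
    have hQd : Q.natDegree < n := by
      rw [hQ, Polynomial.natDegree_divX_eq_natDegree_tsub_one]
      omega
    set x0 : ℝ := (2:ℝ) ^ (i₀ + 3) / 8 ^ (n - 1) with hx0
    have hx0pos : 0 < x0 := by positivity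
    have hnodes : ∀ k < n, |Q.eval (8 ^ k * x0)| ≤ 1 / 64 / x0 := by
      intro k hk
      have hk8 : (1:ℝ) ≤ 8 ^ k := one_le_pow₀ (by norm_num)
      have hpos' : 0 < 8 ^ k * x0 := by positivity
      have hle : 8 ^ k * x0 ≤ (2:ℝ) ^ (i₀ + 3) := by
        rw [hx0, mul_div_assoc', div_le_iff₀ (by positivity), mul_comm]
        exact mul_le_mul_of_nonneg_left (pow_le_pow_right₀ (by norm_num) (by omega)) hS.le
      have h1 := hP (8 ^ k * x0) (by rw [abs_of_pos hpos']; exact hle)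
      rw [hPQ, abs_mul, abs_of_pos hpos'] at h1
      rw [le_div_iff₀ hx0pos, mul_comm]
      have h2 : x0 * |Q.eval (8 ^ k * x0)| ≤ 8 ^ k * x0 * |Q.eval (8 ^ k * x0)| := by
        apply mul_le_mul_of_nonneg_right _ (abs_nonneg _)
        exact le_mul_of_one_le_left hx0pos.le hk8
      linarith
    have hI := h Q n (fun k => 8 ^ k * x0) (1 / 64 / x0) hQd (by simpa using hx0pos)
      (fun k => by rw [pow_succ]; linarith) hnodes
    simp only [pow_zero, one_mul] at hI
    rcases le_or_gt ((2:ℝ) ^ j) x0 with hc | hc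
    · have h1 := hI x (hx.trans hc)
      rw [hPQ, abs_mul]
      calc |x| * |Q.eval x| ≤ (2:ℝ) ^ j * (2 * (1 / 64 / x0)) := by
            gcongr
        _ = (2:ℝ) ^ j * (1 / 32) * 8 ^ (n - 1) / (2:ℝ) ^ (i₀ + 3) := by
            rw [hx0]
            field_simp
            norm_num
        _ ≤ 8 ^ n / 32 * (2:ℝ) ^ (j - i₀ - 3) := by
            rw [he]
            have h8 : (8:ℝ) ^ (n - 1) ≤ 8 ^ n := pow_le_pow_right₀ (by norm_num) (by omega)
            calc (2:ℝ) ^ j * (1 / 32) * 8 ^ (n - 1) / (2:ℝ) ^ (i₀ + 3)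
                ≤ (2:ℝ) ^ j * (1 / 32) * 8 ^ n / (2:ℝ) ^ (i₀ + 3) := by gcongr
              _ = _ := by ring
    · refine hb.trans ?_
      rw [he]
      have h1 : x0 / (2:ℝ) ^ (i₀ + 3) ≤ (2:ℝ) ^ j / (2:ℝ) ^ (i₀ + 3) := by
        gcongr
      have h2 : x0 / (2:ℝ) ^ (i₀ + 3) = 1 / 8 ^ (n - 1) := by
        rw [hx0]; field_simp
      have h3 : (8:ℝ) ^ n = 8 * 8 ^ (n - 1) := by
        rw [← pow_succ']
        congr 1
        omega
      rw [h2] at h1
      calc (1:ℝ) / 64 ≤ 8 / 32 := by norm_num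
        _ = 8 ^ n / 32 * (1 / 8 ^ (n - 1)) := by rw [h3]; field_simp
        _ ≤ 8 ^ n / 32 * ((2:ℝ) ^ j / (2:ℝ) ^ (i₀ + 3)) := by gcongr

end Pool.Agent.H709L
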