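import Pool.Agent.H709L.Basic

open Real Set MeasureTheory Topology Filter
open scoped ENNReal

namespace Pool.Agent.H709L

/-- one piece without critical point -/
theorem h4_piece (q : Polynomial ℝ) (M a b : ℝ) (hab : a < b)
    (hM : ∀ x ∈ Icc a b, |q.eval x| ≤ M)
    (hroot : ∀ x ∈ Ioo a b, q.derivative.eval x ≠ 0) :
    ∫ x in a..b, |q.derivative.eval x| ≤ 2 * M := by
  have hc : Continuous fun x => q.derivative.eval x := q.derivative.continuous
  have hint : ∫ x in a..b, q.derivative.eval x = q.eval b - q.eval a := by
    apply intervalIntegral.integral_eq_sub_of_hasDerivAt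
    · intro x _
      exact q.hasDerivAt x
    · exact hc.intervalIntegrable _ _
  have hb := abs_le.1 (hM b (right_mem_Icc.2 hab.le))
  have ha := abs_le.1 (hM a (left_mem_Icc.2 hab.le))
  have hsign : (∀ x ∈ Ioo a b, 0 ≤ q.derivative.eval x) ∨ (∀ x ∈ Ioo a b, q.derivative.eval x ≤ 0) := by
    by_contra hcon
    push Not at hcon
    obtain ⟨⟨x, hx, hx'⟩, ⟨y, hy, hy'⟩⟩ := hcon
    have hpc : IsPreconnected (Ioo a b) := isPreconnected_Ioo
    obtain ⟨z, hz, hz'⟩ := hpc.intermediate_value hx hy hc.continuousOn ⟨hx'.le, hy'.le⟩
    exact hroot z hz hz'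
  rcases hsign with h | h
  · have h' : ∀ x ∈ Icc a b, 0 ≤ q.derivative.eval x := by
      rw [← closure_Ioo hab.ne]
      exact closure_minimal h (isClosed_le continuous_const hc)
    have : ∫ x in a..b, |q.derivative.eval x| = ∫ x in a..b, q.derivative.eval x := by
      apply intervalIntegral.integral_congr
      intro x hx
      rw [uIcc_of_le hab.le] at hx
      exact abs_of_nonneg (h' x hx)
    rw [this, hint]
    linarith [ha.1, hb.2]
  · have h' : ∀ x ∈ Icc a b, q.derivative.eval x ≤ 0 := by
      rw [← closure_Ioo hab.ne]
      exact closure_minimal h (isClosed_le hc continuous_const)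
    have : ∫ x in a..b, |q.derivative.eval x| = ∫ x in a..b, -(q.derivative.eval x) := by
      apply intervalIntegral.integral_congr
      intro x hx
      rw [uIcc_of_le hab.le] at hx
      exact abs_of_nonpos (h' x hx)
    rw [this, intervalIntegral.integral_neg, hint]
    linarith [ha.2, hb.1]

theorem h4_induct (q : Polynomial ℝ) (S : Finset ℝ)
    (hS : ∀ x, q.derivative.eval x = 0 → x ∈ S) (M : ℝ) : ∀ (k : ℕ) (a b : ℝ), a ≤ b →
    (S.filter (fun x => a < x ∧ x < b)).card ≤ k → (∀ x ∈ Icc a b, |q.eval x| ≤ M) →
    ∫ x in a..b, |q.derivative.eval x| ≤ 2 * M * (1 + k) := by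
  have hc : Continuous fun x => |q.derivative.eval x| := q.derivative.continuous.abs
  intro k
  induction k using Nat.strong_induction_on with
  | _ k ih =>
    intro a b hab hcard hM
    have hM0 : 0 ≤ M := (abs_nonneg _).trans (hM a (left_mem_Icc.2 hab))
    rcases hab.eq_or_lt with rfl | hab'
    · rw [intervalIntegral.integral_same]; positivity
    by_cases hr : ∃ c ∈ Ioo a b, q.derivative.eval c = 0
    · obtain ⟨c, hc1, hc0⟩ := hr
      have hcS := hS c hc0
      set S1 := S.filter (fun x => a < x ∧ x < c) with hS1
      set S2 := S.filter (fun x => c < x ∧ x < b) with hS2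
      have hsum : S1.card + S2.card + 1 ≤ k := by
        have hdisj : Disjoint S1 S2 := by
          rw [Finset.disjoint_left]
          intro x hx1 hx2
          rw [hS1, Finset.mem_filter] at hx1
          rw [hS2, Finset.mem_filter] at hx2
          linarith [hx1.2.2, hx2.2.1]
        have hnot : c ∉ S1 ∪ S2 := by
          rw [Finset.mem_union, hS1, hS2, Finset.mem_filter, Finset.mem_filter]
          rintro (h | h)
          · exact lt_irrefl _ h.2.2
          · exact lt_irrefl _ h.2.1
        have hsub : insert c (S1 ∪ S2) ⊆ S.filter (fun x => a < x ∧ x < b) := by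
          intro x hx
          rw [Finset.mem_insert, Finset.mem_union, hS1, hS2, Finset.mem_filter,
            Finset.mem_filter] at hx
          rw [Finset.mem_filter]
          rcases hx with rfl | h | h
          · exact ⟨hcS, hc1⟩
          · exact ⟨h.1, h.2.1, h.2.2.trans hc1.2⟩
          · exact ⟨h.1, hc1.1.trans h.2.1, h.2.2⟩
        have := Finset.card_le_card hsub
        rw [Finset.card_insert_of_notMem hnot, Finset.card_union_of_disjoint hdisj] at this
        omega
      have h1 := ih S1.card (by omega) a c hc1.1.le le_rfl
        (fun x hx => hM x ⟨hx.1, hx.2.trans hc1.2.le⟩)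
      have h2 := ih S2.card (by omega) c b hc1.2.le le_rfl
        (fun x hx => hM x ⟨hc1.1.le.trans hx.1, hx.2⟩)
      rw [← intervalIntegral.integral_add_adjacent_intervals (hc.intervalIntegrable a c)
        (hc.intervalIntegrable c b)]
      have h3 : ((S1.card : ℝ) + S2.card + 1) ≤ k := by exact_mod_cast hsum
      nlinarith
    · push Not at hr
      have h := h4_piece q M a b hab' hM hr
      have hk : (0 : ℝ) ≤ k := Nat.cast_nonneg k
      nlinarith

theorem polyVar : PolyVar := by
  intro q n M a b hn hab hM
  have hM0 : 0 ≤ M := (abs_nonneg _).trans (hM a (left_mem_Icc.2 hab))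
  by_cases hq : q.derivative = 0
  · rw [hq]
    simp only [Polynomial.eval_zero, abs_zero, intervalIntegral.integral_zero]
    positivity
  · have hq0 : q.natDegree ≠ 0 := by
      intro h0
      exact hq (Polynomial.derivative_of_natDegree_zero h0)
    have hdeg : q.derivative.natDegree < q.natDegree := Polynomial.natDegree_derivative_lt hq0
    have hroots : q.derivative.roots.toFinset.card + 1 ≤ n := by
      have h1 := q.derivative.roots.toFinset_card_le
      have h2 := Polynomial.card_roots' q.derivative
      omega
    have h := h4_induct q q.derivative.roots.toFinset (by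
      intro x hx
      rw [Multiset.mem_toFinset, Polynomial.mem_roots hq]
      exact hx) M q.derivative.roots.toFinset.card a b hab
      (Finset.card_le_card (Finset.filter_subset _ _)) hM
    have h3 : ((q.derivative.roots.toFinset.card : ℝ) + 1) ≤ n := by exact_mod_cast hroots
    nlinarith

end Pool.Agent.H709L
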