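import Pool.Agent.H709L.Basic

/-! K1: the pointwise bound of the weighted divergence. -/

open Real Set MeasureTheory Topology Filter
open scoped ENNReal

namespace Pool.Agent.H709L

private lemma hasFDerivAt_lf (p : Polynomial ℝ) (z : ℝ × ℝ) :
    HasFDerivAt (lf p 0)
      ((((ContinuousLinearMap.snd ℝ ℝ ℝ) - (p.derivative.eval z.1) • (ContinuousLinearMap.fst ℝ ℝ ℝ)).prod
        (-(ContinuousLinearMap.fst ℝ ℝ ℝ)))) z := by
  have h1 : HasFDerivAt (fun z : ℝ × ℝ => z.1) (ContinuousLinearMap.fst ℝ ℝ ℝ) z :=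
    (ContinuousLinearMap.fst ℝ ℝ ℝ).hasFDerivAt
  have h2 : HasFDerivAt (fun z : ℝ × ℝ => z.2) (ContinuousLinearMap.snd ℝ ℝ ℝ) z :=
    (ContinuousLinearMap.snd ℝ ℝ ℝ).hasFDerivAt
  have h3 : HasFDerivAt (fun z : ℝ × ℝ => p.eval z.1)
      ((p.derivative.eval z.1) • (ContinuousLinearMap.fst ℝ ℝ ℝ)) z :=
    (p.hasDerivAt z.1).comp_hasFDerivAt z h1
  have h4 := (h2.sub h3).prodMk h1.neg
  refine h4.congr_of_eventuallyEq ?_
  refine Eventually.of_forall fun w => ?_
  simp [lf]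

theorem pointBound : PointBound := by
  intro p χ z s hp hz hχ hs hχ0
  set u := (lf p 0 z).1 with hu
  set v := (lf p 0 z).2 with hv
  set d := p.derivative.eval z.1 with hd
  have hX := hasFDerivAt_lf p z
  have hA : fderiv ℝ (lf p 0) z (1, 0) = (-d, -1) := by
    rw [hX.fderiv]; ext <;> simp [hd]
  have hB : fderiv ℝ (lf p 0) z (0, 1) = (1, 0) := by
    rw [hX.fderiv]; ext <;> simp
  have hvx : v = -z.1 := by simp [hv, lf]
  have hV : lf p s z = (u - s * v, v) := by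
    ext
    · simp only [hu, hv, lf]; ring
    · simp only [hv, lf]
  have hsq : H709R2.sq (lf p 0 z) = u ^ 2 + v ^ 2 := rfl
  have hpos : 0 < u ^ 2 + v ^ 2 := by
    by_cases h : z.1 = 0
    · have h2 : z.2 ≠ 0 := fun h2 => hz (Prod.ext h h2)
      have : u = z.2 := by simp [hu, lf, h, hp]
      rw [this]
      positivity
    · have : v ≠ 0 := by rw [hvx]; exact neg_ne_zero.2 h
      positivity
  set N := √(u ^ 2 + v ^ 2) with hN
  have hNpos : 0 < N := Real.sqrt_pos.2 hpos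
  have hN2 : N ^ 2 = u ^ 2 + v ^ 2 := Real.sq_sqrt hpos.le
  have hau : |u| ≤ N := Real.abs_le_sqrt (by nlinarith [sq_nonneg v])
  have hav : |v| ≤ N := Real.abs_le_sqrt (by nlinarith [sq_nonneg u])
  -- derivative of the weight
  have hq : HasFDerivAt (fun w => H709R2.sq (lf p 0 w))
      ((2 * u) • ((ContinuousLinearMap.fst ℝ ℝ ℝ).comp (fderiv ℝ (lf p 0) z)) +
        (2 * v) • ((ContinuousLinearMap.snd ℝ ℝ ℝ).comp (fderiv ℝ (lf p 0) z))) z := by
    have hX' : HasFDerivAt (lf p 0) (fderiv ℝ (lf p 0) z) z := by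
      rw [hX.fderiv]; exact hX
    have h1 : HasFDerivAt (fun w => (lf p 0 w).1)
        ((ContinuousLinearMap.fst ℝ ℝ ℝ).comp (fderiv ℝ (lf p 0) z)) z :=
      (ContinuousLinearMap.fst ℝ ℝ ℝ).hasFDerivAt.comp z hX'
    have h2 : HasFDerivAt (fun w => (lf p 0 w).2)
        ((ContinuousLinearMap.snd ℝ ℝ ℝ).comp (fderiv ℝ (lf p 0) z)) z :=
      (ContinuousLinearMap.snd ℝ ℝ ℝ).hasFDerivAt.comp z hX'
    have h3 := (h1.pow 2).add (h2.pow 2)
    refine (h3.congr_fderiv ?_)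
    ext <;> simp [hu, hv]
  have hsqrt := hq.sqrt (by rw [hsq]; exact hpos.ne')
  have hne : √(H709R2.sq (lf p 0 z)) ≠ 0 := by rw [hsq]; exact hNpos.ne'
  have hinv := (hasDerivAt_inv hne).comp_hasFDerivAt z hsqrt
  have hdiv := (hχ.hasFDerivAt).mul hinv
  have hfd : fderiv ℝ (fun w => χ w / √(H709R2.sq (lf p 0 w))) z (lf p s z) =
      (fderiv ℝ χ z (lf p s z)) / N - χ z * (u * (v - d * (u - s * v)) - v * (u - s * v)) / N ^ 3 := by
    have h0 : (fun w => χ w / √(H709R2.sq (lf p 0 w))) =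
        χ * ((fun x : ℝ => x⁻¹) ∘ fun y => √(H709R2.sq (lf p 0 y))) := by
      ext w; simp [div_eq_mul_inv]
    have hsN : √(H709R2.sq (lf p 0 z)) = N := by rw [hsq]
    rw [h0, hdiv.fderiv, hX.fderiv, hV]
    simp [hsN, ← hd]
    field_simp
    ring
  have hkx : kx p z = |d * v - u| / N ^ 2 := by
    unfold kx
    rw [hA, hsq, hN2]
    congr 2
    unfold H709R2.wedge
    simp only [← hu, ← hv]
    ring
  have hky : ky p z = |v| / N ^ 2 := by
    unfold ky
    rw [hB, hsq, hN2]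
    congr 1
    unfold H709R2.wedge
    simp only [← hu, ← hv]
    rw [← abs_neg v]
    congr 1
    ring
  have hlin : fderiv ℝ χ z (lf p s z) = (u - s * v) * fderiv ℝ χ z (1, 0) + v * fderiv ℝ χ z (0, 1) := by
    have : lf p s z = (u - s * v) • ((1:ℝ), (0:ℝ)) + v • ((0:ℝ), (1:ℝ)) := by
      rw [hV]; ext <;> simp
    rw [this, map_add, map_smul, map_smul]
    simp
  set cx := fderiv ℝ χ z (1, 0)
  set cy := fderiv ℝ χ z (0, 1)
  have hdvl : dvl p s (fun z => χ z / √(H709R2.sq (lf p 0 z))) z =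
      ((u - s * v) * cx + v * cy) / N +
        χ z * ((-s * u - v) * (d * v - u) - u * v) / N ^ 3 := by
    unfold dvl
    rw [hfd, hlin]
    simp only [hsq, ← hN, ← hd]
    have : χ z / N * (s - d) = χ z * ((u ^ 2 + v ^ 2) * (s - d)) / N ^ 3 := by
      rw [← hN2]; field_simp
    rw [this]
    field_simp
    ring
  rw [hdvl, hkx, hky]
  have hs' := abs_lt.1 hs
  have e1 : |((u - s * v) * cx + v * cy) / N| ≤ 2 * (|cx| + |cy|) := by
    rw [abs_div, abs_of_pos hNpos, div_le_iff₀ hNpos]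
    have h1 : |u - s * v| ≤ 2 * N := by
      calc |u - s * v| ≤ |u| + |s * v| := abs_sub _ _
        _ = |u| + |s| * |v| := by rw [abs_mul]
        _ ≤ N + 1 * N := by gcongr
        _ = 2 * N := by ring
    calc |(u - s * v) * cx + v * cy| ≤ |(u - s * v) * cx| + |v * cy| := abs_add_le _ _
      _ = |u - s * v| * |cx| + |v| * |cy| := by rw [abs_mul, abs_mul]
      _ ≤ 2 * N * |cx| + N * |cy| := by gcongr
      _ ≤ 2 * (|cx| + |cy|) * N := by nlinarith [abs_nonneg cy, mul_nonneg hNpos.le (abs_nonneg cy)]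
  have e2 : |χ z * ((-s * u - v) * (d * v - u) - u * v) / N ^ 3| ≤
      2 * χ z * (|d * v - u| / N ^ 2 + |v| / N ^ 2) := by
    rw [abs_div, abs_mul, abs_of_nonneg hχ0, abs_of_pos (by positivity : (0:ℝ) < N ^ 3)]
    have h1 : |(-s * u - v) * (d * v - u) - u * v| ≤ 2 * N * (|d * v - u| + |v|) := by
      have h2 : |-s * u - v| ≤ 2 * N := by
        calc |-s * u - v| ≤ |-s * u| + |v| := abs_sub _ _
          _ = |s| * |u| + |v| := by rw [abs_mul, abs_neg]
          _ ≤ 1 * N + N := by gcongr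
          _ = 2 * N := by ring
      calc |(-s * u - v) * (d * v - u) - u * v| ≤ |(-s * u - v) * (d * v - u)| + |u * v| := abs_sub _ _
        _ = |-s * u - v| * |d * v - u| + |u| * |v| := by rw [abs_mul, abs_mul]
        _ ≤ 2 * N * |d * v - u| + N * |v| := by gcongr
        _ ≤ 2 * N * (|d * v - u| + |v|) := by nlinarith [mul_nonneg hNpos.le (abs_nonneg v)]
    rw [div_le_iff₀ (by positivity)]
    calc χ z * |(-s * u - v) * (d * v - u) - u * v| ≤ χ z * (2 * N * (|d * v - u| + |v|)) := by gcongr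
      _ = 2 * χ z * (|d * v - u| / N ^ 2 + |v| / N ^ 2) * N ^ 3 := by
        field_simp
  exact (abs_add_le _ _).trans (add_le_add e1 e2)

end Pool.Agent.H709L
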