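import Pool.Agent.H709L.Basic

/-! K2 (helper19): cost of a box. -/

open Real Set MeasureTheory Topology Filter
open scoped ENNReal

namespace Pool.Agent.H709L

noncomputable section

open Pool.Agent.H709R2 (wedge field)

namespace K2


def S' (x : ℝ) : ℝ := deriv Real.smoothTransition x

theorem S_hd (x : ℝ) : HasDerivAt Real.smoothTransition (S' x) x := by
  have : Differentiable ℝ Real.smoothTransition :=
    (Real.smoothTransition.contDiff (n := 1)).differentiable (by norm_num)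
  exact (this x).hasDerivAt

theorem S'_nonneg (x : ℝ) : 0 ≤ S' x := Real.smoothTransition.monotone.deriv_nonneg

theorem S'_cont : Continuous S' :=
  (Real.smoothTransition.contDiff (n := 1)).continuous_deriv (by norm_num)

/-- total variation of a monotone step -/
theorem tv {G G' : ℝ → ℝ} (hG : ∀ x, HasDerivAt G (G' x) x) (hc : Continuous G')
    (h0 : ∀ x, 0 ≤ G x) (h1 : ∀ x, G x ≤ 1) {a b : ℝ} (hab : a ≤ b)
    (hs : (∀ x ∈ Icc a b, 0 ≤ G' x) ∨ ∀ x ∈ Icc a b, G' x ≤ 0) :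
    ∫⁻ x in Icc a b, ENNReal.ofReal |G' x| ≤ 1 := by
  have hint : IntegrableOn (fun x => |G' x|) (Icc a b) := hc.abs.continuousOn.integrableOn_Icc
  rw [← ofReal_integral_eq_lintegral_ofReal hint (Eventually.of_forall fun x => abs_nonneg _)]
  rw [← ENNReal.ofReal_one]
  apply ENNReal.ofReal_le_ofReal
  rw [integral_Icc_eq_integral_Ioc, ← intervalIntegral.integral_of_le hab]
  have hFT : ∫ x in a..b, G' x = G b - G a :=
    intervalIntegral.integral_eq_sub_of_hasDerivAt (fun x _ => hG x) (hc.intervalIntegrable a b)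
  rcases hs with hs | hs
  · have : ∫ x in a..b, |G' x| = ∫ x in a..b, G' x := by
      apply intervalIntegral.integral_congr
      intro x hx
      rw [uIcc_of_le hab] at hx
      exact abs_of_nonneg (hs x hx)
    rw [this, hFT]
    linarith [h0 a, h1 b]
  · have : ∫ x in a..b, |G' x| = ∫ x in a..b, -G' x := by
      apply intervalIntegral.integral_congr
      intro x hx
      rw [uIcc_of_le hab] at hx
      exact abs_of_nonpos (hs x hx)
    rw [this, intervalIntegral.integral_neg, hFT]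
    linarith [h0 b, h1 a]

/-- horizontal bump -/
def A (ρ x : ℝ) : ℝ := bumpX ρ x

def A' (ρ x : ℝ) : ℝ := S' ((4 - (x / ρ) ^ 2) / 3) * (-(2 * x / ρ ^ 2) / 3)

theorem A_hd {ρ : ℝ} (_hρ : 0 < ρ) (x : ℝ) : HasDerivAt (bumpX ρ) (A' ρ x) x := by
  have h1 : HasDerivAt (fun x : ℝ => (4 - (x / ρ) ^ 2) / 3) (-(2 * x / ρ ^ 2) / 3) x := by
    have h2 : HasDerivAt (fun x : ℝ => x / ρ) (1 / ρ) x := (hasDerivAt_id x).div_const ρ
    have h3 := ((h2.pow 2).const_sub 4).div_const 3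
    refine h3.congr_deriv ?_
    push_cast
    ring
  exact (S_hd _).comp x h1

theorem A'_cont (ρ : ℝ) : Continuous (A' ρ) := by
  unfold A'
  exact (S'_cont.comp (by fun_prop)).mul (by fun_prop)

theorem A_nonneg (ρ x : ℝ) : 0 ≤ bumpX ρ x := Real.smoothTransition.nonneg _

theorem A_le (ρ x : ℝ) : bumpX ρ x ≤ 1 := Real.smoothTransition.le_one _

theorem A'_zero {ρ x : ℝ} (hρ : 0 < ρ) (hx : x ∉ Icc (-(2 * ρ)) (2 * ρ)) : A' ρ x = 0 := by
  have hm : IsMinOn (bumpX ρ) univ x := by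
    intro y _
    have h1 : bumpX ρ x = 0 := by
      apply Real.smoothTransition.zero_of_nonpos
      have : 4 ≤ (x / ρ) ^ 2 := by
        rw [div_pow, le_div_iff₀ (by positivity)]
        rw [mem_Icc, not_and_or, not_le, not_le] at hx
        rcases hx with h | h <;> nlinarith
      linarith
    rw [mem_ofPred_eq, h1]
    exact A_nonneg ρ y
  have h2 := (hm.isLocalMin univ_mem).hasDerivAt_eq_zero (A_hd hρ x)
  exact h2

theorem A_tv {ρ : ℝ} (hρ : 0 < ρ) :
    ∫⁻ x in Icc (-(2 * ρ)) (2 * ρ), ENNReal.ofReal |A' ρ x| ≤ 2 := by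
  have hu : Icc (-(2 * ρ)) (2 * ρ) = Icc (-(2 * ρ)) 0 ∪ Icc 0 (2 * ρ) := by
    rw [Icc_union_Icc_eq_Icc (by linarith) (by linarith)]
  rw [hu]
  refine (lintegral_union_le _ _ _).trans ?_
  have h1 := tv (A_hd hρ) (A'_cont ρ) (A_nonneg ρ) (A_le ρ) (show -(2 * ρ) ≤ 0 by linarith)
    (Or.inl fun x hx => mul_nonneg (S'_nonneg _) (by
      have : 0 ≤ -(2 * x / ρ ^ 2) := by
        rw [neg_nonneg]
        apply div_nonpos_of_nonpos_of_nonneg <;> [linarith [hx.2]; positivity]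
      linarith))
  have h2 := tv (A_hd hρ) (A'_cont ρ) (A_nonneg ρ) (A_le ρ) (show 0 ≤ 2 * ρ by linarith)
    (Or.inr fun x hx => mul_nonpos_of_nonneg_of_nonpos (S'_nonneg _) (by
      have : 0 ≤ 2 * x / ρ ^ 2 := by
        apply div_nonneg <;> [linarith [hx.1]; positivity]
      linarith))
  calc _ ≤ (1:ℝ≥0∞) + 1 := add_le_add h1 h2
    _ = 2 := by norm_num

/-- vertical bump -/
def B (h σ y : ℝ) : ℝ := bumpY (σ * y / h)

def B1' (h σ y : ℝ) : ℝ := S' (2 * (σ * y / h) - 1) * (2 * (σ / h))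
def B2' (h σ y : ℝ) : ℝ := S' (3 - σ * y / h) * (-(σ / h))

def B' (h σ y : ℝ) : ℝ := B1' h σ y * Real.smoothTransition (3 - σ * y / h) +
  Real.smoothTransition (2 * (σ * y / h) - 1) * B2' h σ y

theorem lin_hd (h σ y : ℝ) : HasDerivAt (fun y : ℝ => σ * y / h) (σ / h) y := by
  have := ((hasDerivAt_id y).const_mul σ).div_const h
  simpa using this

theorem B1_hd (h σ y : ℝ) : HasDerivAt (fun y => Real.smoothTransition (2 * (σ * y / h) - 1))
    (B1' h σ y) y :=
  (S_hd _).comp y (((lin_hd h σ y).const_mul 2).sub_const 1)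

theorem B2_hd (h σ y : ℝ) : HasDerivAt (fun y => Real.smoothTransition (3 - σ * y / h))
    (B2' h σ y) y :=
  (S_hd _).comp y ((lin_hd h σ y).const_sub 3)

theorem B_hd (h σ y : ℝ) : HasDerivAt (B h σ) (B' h σ y) y := (B1_hd h σ y).mul (B2_hd h σ y)

theorem B1'_cont (h σ : ℝ) : Continuous (B1' h σ) := by
  unfold B1'
  exact (S'_cont.comp (by fun_prop)).mul (by fun_prop)

theorem B2'_cont (h σ : ℝ) : Continuous (B2' h σ) := by
  unfold B2'
  exact (S'_cont.comp (by fun_prop)).mul (by fun_prop)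

theorem B'_cont (h σ : ℝ) : Continuous (B' h σ) := by
  unfold B'
  have := Real.smoothTransition.continuous
  exact ((B1'_cont h σ).mul (this.comp (by fun_prop))).add ((this.comp (by fun_prop)).mul
    (B2'_cont h σ))

theorem B_nonneg (h σ y : ℝ) : 0 ≤ B h σ y :=
  mul_nonneg (Real.smoothTransition.nonneg _) (Real.smoothTransition.nonneg _)

theorem B_le (h σ y : ℝ) : B h σ y ≤ 1 :=
  mul_le_one₀ (Real.smoothTransition.le_one _) (Real.smoothTransition.nonneg _)
    (Real.smoothTransition.le_one _)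

theorem B_tv {h σ : ℝ} (hh : 0 < h) (hσ : σ = 1 ∨ σ = -1) {a b : ℝ} (hab : a ≤ b) :
    ∫⁻ y in Icc a b, ENNReal.ofReal |B' h σ y| ≤ 2 := by
  have hle : ∀ y, ENNReal.ofReal |B' h σ y| ≤
      ENNReal.ofReal |B1' h σ y| + ENNReal.ofReal |B2' h σ y| := by
    intro y
    rw [← ENNReal.ofReal_add (abs_nonneg _) (abs_nonneg _)]
    apply ENNReal.ofReal_le_ofReal
    unfold B'
    refine (abs_add_le _ _).trans ?_
    rw [abs_mul, abs_mul]
    have h1 : |Real.smoothTransition (3 - σ * y / h)| ≤ 1 := by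
      rw [abs_of_nonneg (Real.smoothTransition.nonneg _)]; exact Real.smoothTransition.le_one _
    have h2 : |Real.smoothTransition (2 * (σ * y / h) - 1)| ≤ 1 := by
      rw [abs_of_nonneg (Real.smoothTransition.nonneg _)]; exact Real.smoothTransition.le_one _
    exact add_le_add (mul_le_of_le_one_right (abs_nonneg _) h1)
      (mul_le_of_le_one_left (abs_nonneg _) h2)
  refine (lintegral_mono hle).trans ?_
  rw [lintegral_add_left ((B1'_cont h σ).abs.measurable.ennreal_ofReal)]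
  have s1 : (∀ x ∈ Icc a b, 0 ≤ B1' h σ x) ∨ ∀ x ∈ Icc a b, B1' h σ x ≤ 0 := by
    rcases hσ with rfl | rfl
    · left
      intro x _
      exact mul_nonneg (S'_nonneg _) (by positivity)
    · right
      intro x _
      apply mul_nonpos_of_nonneg_of_nonpos (S'_nonneg _)
      have : (0:ℝ) < 1 / h := by positivity
      rw [neg_div]
      linarith
  have s2 : (∀ x ∈ Icc a b, 0 ≤ B2' h σ x) ∨ ∀ x ∈ Icc a b, B2' h σ x ≤ 0 := by
    rcases hσ with rfl | rfl
    · right
      intro x _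
      apply mul_nonpos_of_nonneg_of_nonpos (S'_nonneg _)
      have : (0:ℝ) < 1 / h := by positivity
      linarith
    · left
      intro x _
      apply mul_nonneg (S'_nonneg _)
      rw [neg_div, neg_neg]
      positivity
  have h1 := tv (B1_hd h σ) (B1'_cont h σ) (fun _ => Real.smoothTransition.nonneg _)
    (fun _ => Real.smoothTransition.le_one _) hab s1
  have h2 := tv (B2_hd h σ) (B2'_cont h σ) (fun _ => Real.smoothTransition.nonneg _)
    (fun _ => Real.smoothTransition.le_one _) hab s2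
  calc _ ≤ (1:ℝ≥0∞) + 1 := add_le_add h1 h2
    _ = 2 := by norm_num

theorem B_zero {h σ : ℝ} {y : ℝ} (hy : ¬ (1 / 2 ≤ σ * y / h ∧ σ * y / h ≤ 3)) : B h σ y = 0 := by
  unfold B bumpY
  rw [not_and_or, not_le, not_le] at hy
  rcases hy with hy | hy
  · rw [Real.smoothTransition.zero_of_nonpos (by linarith), zero_mul]
  · rw [Real.smoothTransition.zero_of_nonpos (show 3 - σ * y / h ≤ 0 by linarith), mul_zero]

theorem B'_zero {h σ : ℝ} {y : ℝ} (hy : ¬ (1 / 2 ≤ σ * y / h ∧ σ * y / h ≤ 3)) :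
    B' h σ y = 0 := by
  have hm : IsMinOn (B h σ) univ y := by
    intro x _
    rw [mem_ofPred_eq, B_zero hy]
    exact B_nonneg h σ x
  exact (hm.isLocalMin univ_mem).hasDerivAt_eq_zero (B_hd h σ y)

theorem chi_eq (i : ℤ) (σ : ℝ) (z : ℝ × ℝ) :
    chi i σ z = bumpX ((2:ℝ) ^ (i + 3)) z.1 * B ((2:ℝ) ^ i) σ z.2 := rfl

theorem chi_hd (i : ℤ) (σ : ℝ) (z : ℝ × ℝ) : HasFDerivAt (chi i σ)
    ((bumpX ((2:ℝ) ^ (i + 3)) z.1) • (B' ((2:ℝ) ^ i) σ z.2 • ContinuousLinearMap.snd ℝ ℝ ℝ) +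
      (B ((2:ℝ) ^ i) σ z.2) • (A' ((2:ℝ) ^ (i + 3)) z.1 • ContinuousLinearMap.fst ℝ ℝ ℝ)) z := by
  have h1 := (A_hd (ρ := (2:ℝ) ^ (i + 3)) (by positivity) z.1).comp_hasFDerivAt z
    (hasFDerivAt_fst (𝕜 := ℝ) (E := ℝ) (F := ℝ) (p := z))
  have h2 := (B_hd ((2:ℝ) ^ i) σ z.2).comp_hasFDerivAt z
    (hasFDerivAt_snd (𝕜 := ℝ) (E := ℝ) (F := ℝ) (p := z))
  exact h1.mul h2

theorem chi_dx (i : ℤ) (σ : ℝ) (z : ℝ × ℝ) : fderiv ℝ (chi i σ) z (1, 0) =
    B ((2:ℝ) ^ i) σ z.2 * A' ((2:ℝ) ^ (i + 3)) z.1 := by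
  rw [(chi_hd i σ z).fderiv]
  simp

theorem chi_dy (i : ℤ) (σ : ℝ) (z : ℝ × ℝ) : fderiv ℝ (chi i σ) z (0, 1) =
    bumpX ((2:ℝ) ^ (i + 3)) z.1 * B' ((2:ℝ) ^ i) σ z.2 := by
  rw [(chi_hd i σ z).fderiv]
  simp

/-- the field as a polynomial field -/
theorem lf_field (p : Polynomial ℝ) : lf p 0 =
    field (MvPolynomial.X 1 - Polynomial.aeval (MvPolynomial.X 0) p) (-MvPolynomial.X 0) := by
  funext z
  unfold lf field
  have h1 : MvPolynomial.eval ![z.1, z.2]
      (Polynomial.aeval (MvPolynomial.X 0 : MvPolynomial (Fin 2) ℝ) p) = p.eval z.1 := by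
    have h2 : (MvPolynomial.eval ![z.1, z.2]).comp (algebraMap ℝ (MvPolynomial (Fin 2) ℝ)) =
        RingHom.id ℝ := by
      ext x
      simp
    rw [Polynomial.aeval_def, Polynomial.hom_eval₂, h2]
    simp [Polynomial.eval₂_id]
  rw [map_sub, map_neg, h1]
  simp

theorem deg_aeval (p : Polynomial ℝ) :
    (Polynomial.aeval (MvPolynomial.X 0 : MvPolynomial (Fin 2) ℝ) p).totalDegree ≤ p.natDegree := by
  rw [Polynomial.aeval_eq_sum_range]
  apply MvPolynomial.totalDegree_finsetSum_le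
  intro k hk
  rw [Finset.mem_range] at hk
  refine (MvPolynomial.totalDegree_smul_le _ _).trans ?_
  rw [MvPolynomial.totalDegree_X_pow]
  omega

theorem deg_P (p : Polynomial ℝ) {n : ℕ} (hp : p.natDegree ≤ n) (hn : 1 ≤ n) :
    (MvPolynomial.X 1 - Polynomial.aeval (MvPolynomial.X 0 : MvPolynomial (Fin 2) ℝ) p).totalDegree
      ≤ n := by
  refine (MvPolynomial.totalDegree_sub _ _).trans ?_
  rw [MvPolynomial.totalDegree_X]
  exact max_le hn ((deg_aeval p).trans hp)

theorem deg_Q {n : ℕ} (hn : 1 ≤ n) :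
    (-MvPolynomial.X 0 : MvPolynomial (Fin 2) ℝ).totalDegree ≤ n := by
  rw [MvPolynomial.totalDegree_neg, MvPolynomial.totalDegree_X]
  exact hn

theorem rect_k (p : Polynomial ℝ) {n : ℕ} (hp : p.natDegree ≤ n) (hn : 1 ≤ n) (a b c e : ℝ) :
    ∫⁻ z in Icc a b ×ˢ Icc c e, (ENNReal.ofReal (kx p z) + ENNReal.ofReal (ky p z)) ≤
      ENNReal.ofReal (n * π) * (ENNReal.ofReal (b - a) + ENNReal.ofReal (e - c)) := by
  have h := H709R2.lintegral_rect (deg_P p hp hn) (deg_Q hn) a b c e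
  rw [← lf_field p] at h
  exact h

theorem main (p : Polynomial ℝ) (n : ℕ) (i : ℤ) (σ : ℝ) (hp : p.natDegree ≤ n) (hn : 1 ≤ n)
    (hσ : σ = 1 ∨ σ = -1) {c e : ℝ} (hce : e - c = 5 / 2 * (2:ℝ) ^ i)
    (hI : ∀ y, 1 / 2 ≤ σ * y / (2:ℝ) ^ i ∧ σ * y / (2:ℝ) ^ i ≤ 3 → y ∈ Icc c e) :
    ∫⁻ z, ENNReal.ofReal (2 * (|fderiv ℝ (chi i σ) z (1, 0)| + |fderiv ℝ (chi i σ) z (0, 1)|) +
      2 * chi i σ z * (kx p z + ky p z)) ≤ ENNReal.ofReal (400 * n * (2:ℝ) ^ i) := by
  set h := (2:ℝ) ^ i with hh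
  set ρ := (2:ℝ) ^ (i + 3) with hρ
  have hh0 : 0 < h := by positivity
  have hρh : ρ = 8 * h := by
    rw [hρ, hh, zpow_add₀ (by norm_num)]
    norm_num
    ring
  have hρ0 : 0 < ρ := by positivity
  have hcele : c ≤ e := by
    have : 0 < 5 / 2 * h := by positivity
    linarith
  have hlf : ContDiff ℝ 2 (lf p 0) := by
    rw [lf_field p]; exact H709R2.contDiff_field _ _
  have hmx : Measurable fun z => ENNReal.ofReal (kx p z) := H709R2.measurable_kernel hlf (1, 0)
  have hmy : Measurable fun z => ENNReal.ofReal (ky p z) := H709R2.measurable_kernel hlf (0, 1)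
  have hkx : ∀ z, 0 ≤ kx p z := fun z => by
    unfold kx
    apply div_nonneg (abs_nonneg _)
    unfold H709R2.sq; positivity
  have hky : ∀ z, 0 ≤ ky p z := fun z => by
    unfold ky
    apply div_nonneg (abs_nonneg _)
    unfold H709R2.sq; positivity
  set Rc : Set (ℝ × ℝ) := Icc (-(2 * ρ)) (2 * ρ) ×ˢ Icc c e with hRc
  have hRm : MeasurableSet Rc := measurableSet_Icc.prod measurableSet_Icc
  set g : ℝ × ℝ → ℝ≥0∞ := fun z => (ENNReal.ofReal |A' ρ z.1| * 2 + ENNReal.ofReal |B' h σ z.2| * 2) +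
    2 * (ENNReal.ofReal (kx p z) + ENNReal.ofReal (ky p z)) with hg
  have hle : ∀ z, ENNReal.ofReal (2 * (|fderiv ℝ (chi i σ) z (1, 0)| +
      |fderiv ℝ (chi i σ) z (0, 1)|) + 2 * chi i σ z * (kx p z + ky p z)) ≤ Rc.indicator g z := by
    intro z
    rw [chi_dx, chi_dy, chi_eq, ← hρ, ← hh]
    by_cases hz : z ∈ Rc
    · rw [indicator_of_mem hz, hg]
      have e1 : ENNReal.ofReal |A' ρ z.1| * 2 + ENNReal.ofReal |B' h σ z.2| * 2 +
          2 * (ENNReal.ofReal (kx p z) + ENNReal.ofReal (ky p z)) =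
          ENNReal.ofReal (|A' ρ z.1| * 2 + |B' h σ z.2| * 2 + 2 * (kx p z + ky p z)) := by
        have h2 : (2:ℝ≥0∞) = ENNReal.ofReal 2 := by simp
        rw [h2, ← ENNReal.ofReal_mul (abs_nonneg _), ← ENNReal.ofReal_mul (abs_nonneg _),
          ← ENNReal.ofReal_add (hkx z) (hky z), ← ENNReal.ofReal_mul (by norm_num),
          ← ENNReal.ofReal_add (by positivity) (by positivity),
          ← ENNReal.ofReal_add (by positivity) (by have := hkx z; have := hky z; positivity)]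
      change _ ≤ ENNReal.ofReal |A' ρ z.1| * 2 + ENNReal.ofReal |B' h σ z.2| * 2 +
          2 * (ENNReal.ofReal (kx p z) + ENNReal.ofReal (ky p z))
      rw [e1]
      apply ENNReal.ofReal_le_ofReal
      have b1 : |B h σ z.2 * A' ρ z.1| ≤ |A' ρ z.1| := by
        rw [abs_mul, abs_of_nonneg (B_nonneg h σ z.2)]
        exact mul_le_of_le_one_left (abs_nonneg _) (B_le h σ z.2)
      have b2 : |bumpX ρ z.1 * B' h σ z.2| ≤ |B' h σ z.2| := by
        rw [abs_mul, abs_of_nonneg (A_nonneg ρ z.1)]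
        exact mul_le_of_le_one_left (abs_nonneg _) (A_le ρ z.1)
      have b3 : 2 * (bumpX ρ z.1 * B h σ z.2) * (kx p z + ky p z) ≤ 2 * (kx p z + ky p z) := by
        apply mul_le_mul_of_nonneg_right _ (add_nonneg (hkx z) (hky z))
        have := mul_le_one₀ (A_le ρ z.1) (B_nonneg h σ z.2) (B_le h σ z.2)
        linarith
      linarith
    · rw [indicator_of_notMem hz]
      have hz' : z.1 ∉ Icc (-(2 * ρ)) (2 * ρ) ∨ z.2 ∉ Icc c e := by
        rw [hRc, mem_prod, not_and_or] at hz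
        exact hz
      rcases hz' with hz | hz
      · have h1 : bumpX ρ z.1 = 0 := by
          apply Real.smoothTransition.zero_of_nonpos
          have : 4 ≤ (z.1 / ρ) ^ 2 := by
            rw [div_pow, le_div_iff₀ (by positivity)]
            rw [mem_Icc, not_and_or, not_le, not_le] at hz
            rcases hz with h | h <;> nlinarith
          linarith
        rw [h1, A'_zero hρ0 hz]
        simp
      · have hz2 : ¬ (1 / 2 ≤ σ * z.2 / h ∧ σ * z.2 / h ≤ 3) := fun h => hz (hI _ h)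
        rw [B_zero hz2, B'_zero hz2]
        simp
  refine (lintegral_mono hle).trans ?_
  rw [lintegral_indicator hRm]
  have hmA : Measurable fun z : ℝ × ℝ => ENNReal.ofReal |A' ρ z.1| * 2 :=
    ((((A'_cont ρ).comp continuous_fst).abs.measurable).ennreal_ofReal).mul_const _
  have hmB : Measurable fun z : ℝ × ℝ => ENNReal.ofReal |B' h σ z.2| * 2 :=
    ((((B'_cont h σ).comp continuous_snd).abs.measurable).ennreal_ofReal).mul_const _
  have hsplit : ∫⁻ z in Rc, g z = (∫⁻ z in Rc, ENNReal.ofReal |A' ρ z.1| * 2) +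
      (∫⁻ z in Rc, ENNReal.ofReal |B' h σ z.2| * 2) +
      2 * ∫⁻ z in Rc, (ENNReal.ofReal (kx p z) + ENNReal.ofReal (ky p z)) := by
    rw [hg, lintegral_add_left (f := fun z : ℝ × ℝ => ENNReal.ofReal |A' ρ z.1| * 2 +
      ENNReal.ofReal |B' h σ z.2| * 2) (hmA.add hmB), lintegral_add_left hmA,
      lintegral_const_mul (f := fun z : ℝ × ℝ => ENNReal.ofReal (kx p z) + ENNReal.ofReal (ky p z))
        _ (hmx.add hmy)]
  rw [hsplit]
  have hrestr : (volume : Measure (ℝ × ℝ)).restrict Rc =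
      (volume.restrict (Icc (-(2 * ρ)) (2 * ρ))).prod (volume.restrict (Icc c e)) := by
    rw [hRc, Measure.volume_eq_prod, ← Measure.prod_restrict]
  have i1 : ∫⁻ z in Rc, ENNReal.ofReal |A' ρ z.1| * 2 ≤ ENNReal.ofReal (10 * h) := by
    rw [hrestr]
    have hm1 : Measurable fun x => ENNReal.ofReal |A' ρ x| :=
      (A'_cont ρ).abs.measurable.ennreal_ofReal
    have := lintegral_prod_mul (μ := volume.restrict (Icc (-(2 * ρ)) (2 * ρ)))
      (ν := volume.restrict (Icc c e)) (f := fun x => ENNReal.ofReal |A' ρ x|)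
      (g := fun _ => (2:ℝ≥0∞)) hm1.aemeasurable aemeasurable_const
    rw [this, lintegral_const, Measure.restrict_apply MeasurableSet.univ, univ_inter,
      Real.volume_Icc, hce]
    calc _ ≤ 2 * (2 * ENNReal.ofReal (5 / 2 * h)) := by
          gcongr
          exact A_tv hρ0
      _ = ENNReal.ofReal (10 * h) := by
          have h2 : (2:ℝ≥0∞) = ENNReal.ofReal 2 := by simp
          rw [h2, ← ENNReal.ofReal_mul (by norm_num), ← ENNReal.ofReal_mul (by norm_num)]
          congr 1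
          ring
  have i2 : ∫⁻ z in Rc, ENNReal.ofReal |B' h σ z.2| * 2 ≤ ENNReal.ofReal (128 * h) := by
    rw [hrestr]
    have hm1 : Measurable fun x => ENNReal.ofReal |B' h σ x| :=
      (B'_cont h σ).abs.measurable.ennreal_ofReal
    have := lintegral_prod_mul (μ := volume.restrict (Icc (-(2 * ρ)) (2 * ρ)))
      (ν := volume.restrict (Icc c e)) (f := fun _ => (2:ℝ≥0∞))
      (g := fun x => ENNReal.ofReal |B' h σ x|) aemeasurable_const hm1.aemeasurable
    have e1 : ∫⁻ z, ENNReal.ofReal |B' h σ z.2| * 2 ∂((volume.restrict (Icc (-(2 * ρ)) (2 * ρ))).prod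
        (volume.restrict (Icc c e))) = ∫⁻ z, 2 * ENNReal.ofReal |B' h σ z.2|
        ∂((volume.restrict (Icc (-(2 * ρ)) (2 * ρ))).prod (volume.restrict (Icc c e))) := by
      congr 1
      funext z
      rw [mul_comm]
    rw [e1, this, lintegral_const, Measure.restrict_apply MeasurableSet.univ, univ_inter,
      Real.volume_Icc]
    calc _ ≤ (2 * ENNReal.ofReal (2 * ρ - -(2 * ρ))) * 2 := by
          gcongr
          exact B_tv hh0 hσ hcele
      _ = ENNReal.ofReal (128 * h) := by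
          have h2 : (2:ℝ≥0∞) = ENNReal.ofReal 2 := by simp
          rw [h2, ← ENNReal.ofReal_mul (by norm_num), ← ENNReal.ofReal_mul (by linarith)]
          congr 1
          rw [hρh]
          ring
  have i3 := rect_k p hp hn (-(2 * ρ)) (2 * ρ) c e
  rw [hce, ← ENNReal.ofReal_add (by linarith) (by positivity),
    ← ENNReal.ofReal_mul (by positivity)] at i3
  calc _ ≤ ENNReal.ofReal (10 * h) + ENNReal.ofReal (128 * h) + 2 * ENNReal.ofReal (n * π *
        (2 * ρ - -(2 * ρ) + 5 / 2 * h)) := add_le_add (add_le_add i1 i2) (by gcongr)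
    _ = ENNReal.ofReal (10 * h + 128 * h + 2 * (n * π * (2 * ρ - -(2 * ρ) + 5 / 2 * h))) := by
        have h2 : (2:ℝ≥0∞) = ENNReal.ofReal 2 := by simp
        have h3 : 0 ≤ 2 * ρ - -(2 * ρ) + 5 / 2 * h := by linarith
        rw [h2, ← ENNReal.ofReal_mul (by norm_num), ← ENNReal.ofReal_add (by positivity)
          (by positivity), ← ENNReal.ofReal_add (by positivity) (by positivity)]
    _ ≤ ENNReal.ofReal (400 * n * h) := by
        apply ENNReal.ofReal_le_ofReal
        rw [hρh]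
        have hn1 : (1:ℝ) ≤ n := by exact_mod_cast hn
        have hpi : π ≤ 3.15 := Real.pi_lt_d2.le
        have h1 : (n:ℝ) * π * h ≤ n * 3.15 * h := by gcongr
        have h2 : h ≤ n * h := by nlinarith
        nlinarith

end K2

theorem boxCost : BoxCost := by
  intro p n i σ hp hn hσ
  have hh0 : (0:ℝ) < (2:ℝ) ^ i := by positivity
  rcases hσ with rfl | rfl
  · refine K2.main p n i 1 hp hn (Or.inl rfl) (c := (2:ℝ) ^ i / 2) (e := 3 * (2:ℝ) ^ i) (by ring) ?_
    intro y hy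
    rw [one_mul, le_div_iff₀ hh0, div_le_iff₀ hh0] at hy
    exact ⟨by linarith [hy.1], hy.2⟩
  · refine K2.main p n i (-1) hp hn (Or.inr rfl) (c := -(3 * (2:ℝ) ^ i)) (e := -((2:ℝ) ^ i / 2))
      (by ring) ?_
    intro y hy
    rw [le_div_iff₀ hh0, div_le_iff₀ hh0] at hy
    exact ⟨by linarith [hy.2], by linarith [hy.1]⟩

end

end Pool.Agent.H709L
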