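import Pool.Agent.H709L.Basic

/-! The number of closed orbits captured by a box. -/

open Real Set MeasureTheory Topology Filter
open scoped ENNReal

namespace Pool.Agent.H709L

open Pool.Agent.H709R2 (wedge)

namespace K3

lemma contDiff_bumpX (ρ : ℝ) : ContDiff ℝ 2 (bumpX ρ) := by
  unfold bumpX
  have h : ContDiff ℝ 2 (fun x : ℝ => (4 - (x / ρ) ^ 2) / 3) := by fun_prop
  exact (Real.smoothTransition.contDiff).comp h

lemma contDiff_bumpY : ContDiff ℝ 2 bumpY := by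
  unfold bumpY
  have h1 : ContDiff ℝ 2 (fun u : ℝ => 2 * u - 1) := by fun_prop
  have h2 : ContDiff ℝ 2 (fun u : ℝ => 3 - u) := by fun_prop
  exact ((Real.smoothTransition.contDiff).comp h1).mul ((Real.smoothTransition.contDiff).comp h2)

lemma contDiff_chi (i : ℤ) (σ : ℝ) : ContDiff ℝ 2 (chi i σ) := by
  unfold chi
  have h1 : ContDiff ℝ 2 (fun z : ℝ × ℝ => σ * z.2 / (2:ℝ) ^ i) := by fun_prop
  exact ((contDiff_bumpX _).comp contDiff_fst).mul (contDiff_bumpY.comp h1)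

lemma chi_nonneg (i : ℤ) (σ : ℝ) (z : ℝ × ℝ) : 0 ≤ chi i σ z := by
  unfold chi bumpX bumpY
  exact mul_nonneg (Real.smoothTransition.nonneg _)
    (mul_nonneg (Real.smoothTransition.nonneg _) (Real.smoothTransition.nonneg _))

lemma chi_eq_one (i : ℤ) (σ : ℝ) (z : ℝ × ℝ) (h0 : 0 ≤ z.1) (h1 : z.1 ≤ (2:ℝ) ^ (i + 3))
    (h2 : (2:ℝ) ^ i ≤ σ * z.2) (h3 : σ * z.2 ≤ (2:ℝ) ^ (i + 1)) : chi i σ z = 1 := by
  have hp : (0:ℝ) < (2:ℝ) ^ i := zpow_pos (by norm_num) _
  have hp3 : (0:ℝ) < (2:ℝ) ^ (i + 3) := zpow_pos (by norm_num) _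
  have hi1 : (2:ℝ) ^ (i + 1) = 2 * (2:ℝ) ^ i := by
    rw [zpow_add₀ (by norm_num)]; norm_num; ring
  have hx : (z.1 / (2:ℝ) ^ (i + 3)) ^ 2 ≤ 1 := by
    have h4 : 0 ≤ z.1 / (2:ℝ) ^ (i + 3) := div_nonneg h0 hp3.le
    have h5 : z.1 / (2:ℝ) ^ (i + 3) ≤ 1 := (div_le_one hp3).2 h1
    nlinarith
  have hu1 : 1 ≤ σ * z.2 / (2:ℝ) ^ i := (one_le_div hp).2 h2
  have hu2 : σ * z.2 / (2:ℝ) ^ i ≤ 2 := by
    rw [div_le_iff₀ hp, ← hi1]; exact h3
  unfold chi bumpX bumpY
  rw [Real.smoothTransition.one_of_one_le (by linarith),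
    Real.smoothTransition.one_of_one_le (by linarith),
    Real.smoothTransition.one_of_one_le (by linarith)]
  norm_num

lemma lf_ne_zero {p : Polynomial ℝ} (hp0 : p.eval 0 = 0) {z : ℝ × ℝ} (hz : z ≠ 0) :
    lf p 0 z ≠ 0 := by
  intro h
  apply hz
  have h1 : (lf p 0 z).1 = 0 := by rw [h]; rfl
  have h2 : (lf p 0 z).2 = 0 := by rw [h]; rfl
  simp only [lf] at h1 h2
  have h3 : z.1 = 0 := by linarith
  rw [h3, hp0] at h1
  exact Prod.ext h3 (by simpa using h1)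

lemma contDiff_lf (p : Polynomial ℝ) (s : ℝ) : ContDiff ℝ 2 (lf p s) := by
  unfold lf
  have h1 : ContDiff ℝ 2 (fun z : ℝ × ℝ => p.eval z.1) :=
    (Polynomial.contDiff_aeval p 2).comp contDiff_fst
  exact ((contDiff_snd.sub h1).add (contDiff_const.mul contDiff_fst)).prodMk contDiff_fst.neg

lemma sq_lf_pos {p : Polynomial ℝ} (hp0 : p.eval 0 = 0) {z : ℝ × ℝ} (hz : z ≠ 0) :
    0 < H709R2.sq (lf p 0 z) := H709R2.sq_pos (lf_ne_zero hp0 hz)

lemma isCompact_Sq (r : ℝ) : IsCompact (Sq r) := by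
  have : Sq r = Icc (-r) r ×ˢ Icc (-r) r := by
    ext z
    simp only [Sq, mem_ofPred_eq, mem_prod, mem_Icc, abs_le]
  rw [this]
  exact isCompact_Icc.prod isCompact_Icc

end K3

open K3 in
theorem boxClass : MasterL → Data → BoxLen → PointBound → BoxCost → Exhaust → BoxClass := by
  intro hM hData hB hP hC hX p n i σ hp0 hdeg hn hσ
  have hpi : (0:ℝ) < (2:ℝ) ^ i := zpow_pos (by norm_num) _
  have hi1 : (2:ℝ) ^ (i + 1) = 2 * (2:ℝ) ^ i := by
    rw [zpow_add₀ (by norm_num)]; norm_num; ring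
  have hi3 : (2:ℝ) ^ (i + 3) = 8 * (2:ℝ) ^ i := by
    rw [zpow_add₀ (by norm_num)]; norm_num; ring
  -- the exhaustion
  have hred := hX p (fun s C => C ∈ Capt p s i σ) (7200 * n) ?_
  · obtain ⟨g, hg1, hg2, hg3⟩ := hred
    refine ⟨g, hg1, fun s hs => ?_, hg3⟩
    refine le_trans ?_ (hg2 s hs)
    have : Capt p s i σ ⊆ {C | C ∈ LOrb p s ∧ C ∈ Capt p s i σ} := by
      intro C hC
      refine ⟨?_, hC⟩
      obtain ⟨γ, T, _, _, _, _, h1, _, h3, _⟩ := hC
      exact ⟨γ, T, h1, h3⟩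
    exact ENat.toENNReal_le.2 (encard_le_encard this)
  intro m
  set w : ℝ × ℝ → ℝ := fun z => chi i σ z / √(H709R2.sq (lf p 0 z)) with hw
  set hh : ℝ × ℝ → ℝ≥0∞ := fun z =>
    ENNReal.ofReal (2 * (|fderiv ℝ (chi i σ) z (1, 0)| + |fderiv ℝ (chi i σ) z (0, 1)|) +
      2 * chi i σ z * (kx p z + ky p z)) with hhh
  have hmas := hM p (Sq m) w hh (400 * n * (2:ℝ) ^ i) ((2:ℝ) ^ i / 18) hp0 (isCompact_Sq _) ?_ ?_
    (by positivity) (by positivity) ?_ ?_
  · have hK : 400 * (n:ℝ) * (2:ℝ) ^ i / ((2:ℝ) ^ i / 18) = 7200 * n := by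
      field_simp
      ring
    rw [hK] at hmas
    obtain ⟨g, hg1, hg2, hg3⟩ := hmas
    refine ⟨g, hg1, fun s hs => ?_, hg3⟩
    refine le_trans ?_ (hg2 s hs)
    have hsub : {C | C ∈ LOrb p s ∧ C ∈ Capt p s i σ ∧ C ⊆ Sq m} ⊆
        Kl p s w (Sq m) ((2:ℝ) ^ i / 18) := by
      rintro C ⟨-, hCap, hCs⟩
      obtain ⟨γ, T, y₁, y₀, R, L, h1, h2, h3, h4, h5⟩ := hCap
      refine ⟨γ, T, h1, h3, hCs, ?_⟩
      have habs : |s| < 1 := abs_lt.2 ⟨hs.1, hs.2⟩
      rcases h4 with ⟨hσ1, hy⟩ | ⟨hσ1, hy⟩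
      · have hb := hB p s γ T y₁ y₀ R L ((2:ℝ) ^ (i + 3)) ((2:ℝ) ^ i) ((2:ℝ) ^ (i + 1)) (chi i σ)
          hp0 habs h2 (by positivity) (by rw [hi1]; linarith) (h2.neg.trans hpi) hy
          (fun y hy' => h5 y ⟨by linarith [h2.neg, hy'.1], by linarith [hy'.2]⟩
            (by rw [hσ1, one_mul]; exact hy'.1) (by rw [hσ1, one_mul]; exact hy'.2))
          (contDiff_chi i σ).continuous (chi_nonneg i σ)
          (fun z hz0 hz1 hz2 => chi_eq_one i σ z hz0 hz1 (by rw [hσ1, one_mul]; exact hz2.1)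
            (by rw [hσ1, one_mul]; exact hz2.2))
        refine le_trans (le_of_eq ?_) hb
        rw [hi1, hi3]
        field_simp
        ring
      · have hb := hB p s γ T y₁ y₀ R L ((2:ℝ) ^ (i + 3)) (-(2:ℝ) ^ (i + 1)) (-(2:ℝ) ^ i) (chi i σ)
          hp0 habs h2 (by positivity) (by rw [hi1]; linarith) hy (by linarith [h2.pos])
          (fun y hy' => h5 y ⟨by linarith [hy'.1], by linarith [h2.pos, hy'.2]⟩
            (by rw [hσ1]; linarith [hy'.2]) (by rw [hσ1]; linarith [hy'.1]))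
          (contDiff_chi i σ).continuous (chi_nonneg i σ)
          (fun z hz0 hz1 hz2 => chi_eq_one i σ z hz0 hz1 (by rw [hσ1]; linarith [hz2.2])
            (by rw [hσ1]; linarith [hz2.1]))
        refine le_trans (le_of_eq ?_) hb
        rw [hi1, hi3]
        field_simp
        ring
    exact ENat.toENNReal_le.2 (encard_le_encard hsub)
  · intro z hz
    have h1 : ContDiff ℝ 1 (fun z => H709R2.sq (lf p 0 z)) := by
      unfold H709R2.sq
      have := (contDiff_lf p 0).of_le (show (1 : WithTop ℕ∞) ≤ 2 by norm_num)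
      exact ((contDiff_fst.comp this).pow 2).add ((contDiff_snd.comp this).pow 2)
    have h2 := sq_lf_pos hp0 hz
    exact (((contDiff_chi i σ).of_le (by norm_num)).contDiffAt).div
      ((h1.contDiffAt).sqrt h2.ne') (Real.sqrt_pos.2 h2).ne'
  · have hc : ∀ v : ℝ × ℝ, Continuous fun z => fderiv ℝ (chi i σ) z v := fun v =>
      ((contDiff_chi i σ).continuous_fderiv (by norm_num)).clm_apply continuous_const
    have hk : ∀ v : ℝ × ℝ, Measurable fun z =>
        |wedge (lf p 0 z) (fderiv ℝ (lf p 0) z v)| / H709R2.sq (lf p 0 z) := by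
      intro v
      have h1 : Continuous fun z => fderiv ℝ (lf p 0) z v :=
        ((contDiff_lf p 0).continuous_fderiv (by norm_num)).clm_apply continuous_const
      have h0 : Continuous (lf p 0) := (contDiff_lf p 0).continuous
      have h2 : Continuous fun z => wedge (lf p 0 z) (fderiv ℝ (lf p 0) z v) := by
        unfold wedge
        fun_prop
      have h3 : Continuous fun z => H709R2.sq (lf p 0 z) := by
        unfold H709R2.sq
        fun_prop
      exact h2.abs.measurable.div h3.measurable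
    refine Measurable.ennreal_ofReal ?_
    refine Measurable.add ?_ ?_
    · exact (((hc (1, 0)).abs.add (hc (0, 1)).abs).measurable).const_mul 2
    · exact (((contDiff_chi i σ).continuous.measurable).const_mul 2).mul
        ((hk (1, 0)).add (hk (0, 1)))
  · exact (setLIntegral_le_lintegral _ _).trans (hC p n i σ hdeg hn hσ)
  · intro s hs γ T hγ _ t
    have hz : γ t ≠ 0 := hγ.ne t
    refine ENNReal.ofReal_le_ofReal ?_
    exact hP p (chi i σ) (γ t) s hp0 hz (((contDiff_chi i σ).differentiable (by norm_num)) _)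
      (abs_lt.2 ⟨hs.1, hs.2⟩) (chi_nonneg i σ _)

end Pool.Agent.H709L
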