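import Pool.Agent.H709L.Basic

/-! Task P1: minimal periods of the closed orbits of Lienard systems. -/

open Real Set MeasureTheory Topology Filter
open scoped ENNReal

namespace Pool.Agent.H709L

open Pool.Agent.H709R2 (ClosedOrbit)

lemma p1_contDiff_lf (p : Polynomial ℝ) (s : ℝ) : ContDiff ℝ 2 (lf p s) := by
  unfold lf
  have h1 : ContDiff ℝ 2 (fun x : ℝ => p.eval x) := by
    induction p using Polynomial.induction_on' with
    | add p q hp hq => simpa only [Polynomial.eval_add] using hp.add hq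
    | monomial n a =>
      simp only [Polynomial.eval_monomial]
      exact contDiff_const.mul (contDiff_id.pow n)
  have h2 : ContDiff ℝ 2 (fun z : ℝ × ℝ => p.eval z.1) := h1.comp contDiff_fst
  exact ((contDiff_snd.sub h2).add (contDiff_const.mul contDiff_fst)).prodMk contDiff_fst.neg

theorem minPeriod : MinPeriod := by
  intro p s C hp hC
  obtain ⟨γ, T, hT, hγ, hper, hnc, rfl⟩ := hC
  have hcont : Continuous γ := continuous_iff_continuousAt.2 fun t => (hγ t).continuousAt
  have hpT : Function.Periodic γ T := hper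
  have hcomp : IsCompact (range γ) := hpT.compact_of_continuous hT.ne' hcont
  obtain ⟨R, hR⟩ := hcomp.isBounded.exists_norm_le
  obtain ⟨Y, hY, ⟨K, hK⟩, ⟨M, hM⟩, hYF⟩ :=
    H709R2.exists_cutoff (F := lf p s) (p1_contDiff_lf p s) R
  obtain ⟨φ, hφ⟩ := H709R2.exists_rotFlow hY hK hM
  have hrot : ∀ v : ℝ × ℝ, H709R2.rot 0 v = v := by
    intro v; unfold H709R2.rot; ext <;> simp
  have hYf : ∀ t, Y (γ t) = lf p s (γ t) := fun t =>
    (hYF (γ t) (hR _ ⟨t, rfl⟩)).eq_of_nhds
  have hγ' : ∀ t, HasDerivAt γ (H709R2.rot 0 (Y (γ t))) t := by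
    intro t
    rw [hrot, hYf]
    exact hγ t
  obtain ⟨T₀, hmp, hrange⟩ := H709R2.minPer_of_closed hφ hT hγ' hper hnc
  have hu : ∀ t, γ t = φ t (γ 0) 0 := hφ.uniq 0 γ hγ'
  have hP : Function.Periodic γ T₀ := by
    intro t
    rw [hu (t + T₀), hφ.add, hmp.per, ← hu t]
  refine ⟨γ, T₀, ⟨hmp.pos, hγ, hP, ?_, ?_⟩, rfl⟩
  · intro s t hst
    have h1 : φ (-t + s) (γ 0) 0 = γ 0 := by
      rw [hφ.add, ← hu s, hst, hu t, ← hφ.add, neg_add_cancel, hφ.zero]
    set k : ℤ := ⌊(s - t) / T₀⌋ with hk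
    have hpos := hmp.pos
    have hr0 : 0 ≤ (s - t) - k * T₀ := by
      have := Int.floor_le ((s - t) / T₀)
      rw [← hk, le_div_iff₀ hpos] at this
      linarith
    have hr1 : (s - t) - k * T₀ < T₀ := by
      have := Int.lt_floor_add_one ((s - t) / T₀)
      rw [← hk, div_lt_iff₀ hpos] at this
      linarith
    have h2 : φ ((s - t) - k * T₀) (γ 0) 0 = γ 0 := by
      rw [← hu, hP.sub_int_mul_eq, hu, show s - t = -t + s by ring, h1]
    refine ⟨k, ?_⟩
    rcases hr0.lt_or_eq with h3 | h3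
    · exact absurd h2 (hmp.min _ ⟨h3, hr1⟩)
    · linarith
  · intro t ht
    have h1 : Y (γ t) ≠ 0 := by
      rw [hu]
      exact hφ.ne_zero hmp.ne t
    apply h1
    rw [hYf, ht]
    unfold lf
    simp [hp]

end Pool.Agent.H709L
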