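import Pool.Agent.H709L.Basic

/-! The number of closed orbits of a Lienard system is invariant under vertical translation. -/

open Real Set MeasureTheory Topology Filter
open scoped ENNReal

namespace Pool.Agent.H709L

open Pool.Agent.H709R2 (wedge ClosedOrbit)

lemma lf_addC (p : Polynomial ℝ) (c s : ℝ) (z : ℝ × ℝ) :
    lf (p + Polynomial.C c) s z = lf p s (z - (0, c)) := by
  simp only [lf, Prod.fst_sub, Prod.snd_sub, Polynomial.eval_add, Polynomial.eval_C, sub_zero]
  ext
  · simp only
    ring
  · rfl

lemma closedOrbit_translate (p : Polynomial ℝ) (c s : ℝ) (C : Set (ℝ × ℝ))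
    (h : ClosedOrbit (lf (p + Polynomial.C c) s) C) :
    ClosedOrbit (lf p s) ((fun z => z - (0, c)) '' C) := by
  obtain ⟨γ, T, hT, hode, hper, ⟨a, b, hab⟩, rfl⟩ := h
  refine ⟨fun t => γ t - (0, c), T, hT, fun t => ?_, fun t => ?_, ⟨a, b, ?_⟩, ?_⟩
  · have h1 := (hode t).sub_const ((0, c) : ℝ × ℝ)
    rw [lf_addC] at h1
    exact h1
  · simp only [hper t]
  · intro h
    exact hab (sub_left_injective h)
  · ext z
    constructor
    · rintro ⟨_, ⟨t, rfl⟩, rfl⟩
      exact ⟨t, rfl⟩
    · rintro ⟨t, rfl⟩
      exact ⟨γ t, ⟨t, rfl⟩, rfl⟩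

lemma NL_addC_le (p : Polynomial ℝ) (c s : ℝ) : NL (p + Polynomial.C c) s ≤ NL p s := by
  unfold NL
  have hinj : Function.Injective (fun C : Set (ℝ × ℝ) => (fun z => z - ((0, c) : ℝ × ℝ)) '' C) :=
    Set.image_injective.2 (fun x y h => sub_left_injective h)
  have h1 : {C | ClosedOrbit (lf (p + Polynomial.C c) s) C}.encard ≤
      {C | ClosedOrbit (lf p s) C}.encard := by
    rw [← hinj.encard_image]
    refine Set.encard_le_encard ?_
    rintro _ ⟨C, hC, rfl⟩
    exact closedOrbit_translate p c s C hC
  exact_mod_cast h1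

theorem translate : Translate := by
  intro p s c
  refine ⟨le_antisymm (NL_addC_le p c s) ?_, fun a => ?_⟩
  · have h := NL_addC_le (p + Polynomial.C c) (-c) s
    have he : p + Polynomial.C c + Polynomial.C (-c) = p := by
      rw [add_assoc, ← Polynomial.C_add]
      simp
    rwa [he] at h
  · have he : lf (p - Polynomial.C a * Polynomial.X) s = lf p (s + a) := by
      funext z
      simp only [lf, Polynomial.eval_sub, Polynomial.eval_mul, Polynomial.eval_C,
        Polynomial.eval_X]
      ext
      · simp only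
        ring
      · rfl
    unfold NL
    rw [he]

end Pool.Agent.H709L
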