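import Pool.Agent.H709L.Basic
import Pool.Agent.H709R2.WFin

/-! Measurability of the number of closed orbits of the Lienard family. -/

open Real Set MeasureTheory Topology Filter
open scoped ENNReal

namespace Pool.Agent.H709L

open Pool.Agent.H709R2 (fld NP measurable_NP)

/-- the exponents which are used -/
private def expo (n : ℕ) : Finset (ℕ × ℕ) := Finset.range (n + 2) ×ˢ Finset.range 2

/-- the coefficients -/
private noncomputable def cf (p : Polynomial ℝ) (s : ℝ) (m : ℕ × ℕ) : ℝ × ℝ :=
  (if m.2 = 0 then -p.coeff m.1 + (if m.1 = 1 then s else 0) else (if m.1 = 0 then 1 else 0),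
    if m.2 = 0 then (if m.1 = 1 then -1 else 0) else 0)

private lemma fld_cf (p : Polynomial ℝ) (s : ℝ) :
    fld (S := expo p.natDegree) (fun m => cf p s m.1) = lf p s := by
  funext z
  obtain ⟨x, y⟩ := z
  unfold fld lf
  rw [Finset.sum_coe_sort (expo p.natDegree) (fun m => (x ^ m.1 * y ^ m.2) • cf p s m)]
  unfold expo
  rw [Finset.sum_product]
  simp only [Finset.sum_range_succ (n := 1), Finset.sum_range_one, pow_zero, mul_one, pow_one]
  have hev : p.eval x = ∑ i ∈ Finset.range (p.natDegree + 2), p.coeff i * x ^ i :=
    Polynomial.eval_eq_sum_range' (by omega) x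
  have h0 : (0 : ℕ) ∈ Finset.range (p.natDegree + 2) := by simp
  have h1 : (1 : ℕ) ∈ Finset.range (p.natDegree + 2) := by simp
  refine Prod.ext ?_ ?_
  · simp only [Prod.fst_sum, Prod.fst_add, Prod.smul_fst, smul_eq_mul, cf, if_true, one_ne_zero,
      if_false]
    have e : ∀ i ∈ Finset.range (p.natDegree + 2),
        x ^ i * (-p.coeff i + if i = 1 then s else 0) + x ^ i * y * (if i = 0 then 1 else 0) =
        -(p.coeff i * x ^ i) + (if i = 1 then s * x else 0) + (if i = 0 then y else 0) := by
      intro i _
      by_cases hi0 : i = 0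
      · subst hi0; simp
      · by_cases hi1 : i = 1
        · subst hi1; simp; ring
        · simp [hi0, hi1]; ring
    rw [Finset.sum_congr rfl e, Finset.sum_add_distrib, Finset.sum_add_distrib,
      Finset.sum_neg_distrib, ← hev, Finset.sum_ite_eq', Finset.sum_ite_eq', if_pos h1, if_pos h0]
    ring
  · simp only [Prod.snd_sum, Prod.snd_add, Prod.smul_snd, smul_eq_mul, cf, if_true, one_ne_zero,
      if_false, mul_zero, add_zero]
    have e : ∀ i ∈ Finset.range (p.natDegree + 2),
        x ^ i * (if i = 1 then (-1 : ℝ) else 0) = if i = 1 then -x else 0 := by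
      intro i _
      by_cases hi1 : i = 1
      · subst hi1; simp
      · simp [hi1]
    rw [Finset.sum_congr rfl e, Finset.sum_ite_eq', if_pos h1]

/-- the number of closed orbits is a Borel function of `s` -/
theorem measL : MeasL := by
  intro p
  have h : NL p = fun s => NP (S := expo p.natDegree) (fun m => cf p s m.1) := by
    funext s
    unfold NL NP
    rw [fld_cf]
  rw [h]
  refine measurable_NP.comp ?_
  refine measurable_pi_iff.mpr fun m => ?_
  refine Continuous.measurable ?_
  unfold cf
  refine Continuous.prodMk ?_ continuous_const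
  by_cases h2 : (m : ℕ × ℕ).2 = 0
  · simp only [h2, if_true]
    by_cases h1 : (m : ℕ × ℕ).1 = 1
    · simp only [h1, if_true]; fun_prop
    · simp only [h1, if_false]; fun_prop
  · simp only [h2, if_false]; fun_prop

end Pool.Agent.H709L
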