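import Pool.Agent.H709L.Basic

/-! Lienard systems: every closed orbit is small or captured (task Q, helper666). -/

set_option autoImplicit false

open Real Set MeasureTheory Topology Filter
open scoped ENNReal

namespace Pool.Agent.H709L

theorem q_R_nonneg {p : Polynomial ℝ} {s : ℝ} {γ : ℝ → ℝ × ℝ} {T y₁ y₀ : ℝ} {R L : ℝ → ℝ}
    (h : LD p s γ T y₁ y₀ R L) {y : ℝ} (hy : y ∈ Icc y₁ y₀) : 0 ≤ R y := by
  rcases hy.1.eq_or_lt with h1 | h1
  · rw [← h1, h.R1]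
  · rcases hy.2.eq_or_lt with h2 | h2
    · rw [h2, h.R0]
    · exact (h.Rp y ⟨h1, h2⟩).le

theorem q_L_nonneg {p : Polynomial ℝ} {s : ℝ} {γ : ℝ → ℝ × ℝ} {T y₁ y₀ : ℝ} {R L : ℝ → ℝ}
    (h : LD p s γ T y₁ y₀ R L) {y : ℝ} (hy : y ∈ Icc y₁ y₀) : 0 ≤ L y := by
  rcases hy.1.eq_or_lt with h1 | h1
  · rw [← h1, h.L1]
  · rcases hy.2.eq_or_lt with h2 | h2
    · rw [h2, h.L0]
    · exact (h.Lp y ⟨h1, h2⟩).le

/-- the closed orbit has the dyadic size `2 ^ j` -/
theorem q_size {p : Polynomial ℝ} {s : ℝ} {γ : ℝ → ℝ × ℝ} {T y₁ y₀ : ℝ} {R L : ℝ → ℝ}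
    (h : LD p s γ T y₁ y₀ R L) (hR : ∀ y ∈ Icc y₁ y₀, R y ≤ y₀ - y₁)
    (hL : ∀ y ∈ Icc y₁ y₀, L y ≤ y₀ - y₁) :
    ∃ n : ℤ, (2:ℝ) ^ n < y₀ - y₁ ∧ range γ ⊆ Sq ((2:ℝ) ^ (n + 1)) ∧
      ∃ z ∈ range γ, ∃ z' ∈ range γ, (2:ℝ) ^ (n + 1) / 2 < z.2 - z'.2 := by
  have hneg := h.neg
  have hpos := h.pos
  obtain ⟨n, hn1, hn2⟩ := exists_mem_Ioc_zpow (show 0 < y₀ - y₁ by linarith) (one_lt_two (α := ℝ))
  have h2 : (2:ℝ) ^ (n + 1) = 2 ^ n * 2 := zpow_add_one₀ two_ne_zero n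
  refine ⟨n, hn1, ?_, ?_⟩
  · intro z hz
    rw [h.rng] at hz
    obtain ⟨hz1, hz2⟩ := hz
    have hz1' := hz1
    obtain ⟨ha, hb⟩ := hz1'
    have hR' := hR z.2 hz1
    have hL' := hL z.2 hz1
    have hR0 := q_R_nonneg h hz1
    have hL0 := q_L_nonneg h hz1
    refine ⟨?_, ?_⟩
    · rcases hz2 with h3 | h3
      · rw [h3, abs_of_nonneg hR0]; linarith
      · rw [h3, abs_neg, abs_of_nonneg hL0]; linarith
    · rw [abs_le]; constructor <;> linarith
  · refine ⟨(0, y₀), ?_, (0, y₁), ?_, ?_⟩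
    · rw [h.rng]
      exact ⟨⟨by simp only; linarith, le_rfl⟩, Or.inl h.R0.symm⟩
    · rw [h.rng]
      exact ⟨⟨le_rfl, by simp only; linarith⟩, Or.inl h.R1.symm⟩
    · rw [h2]
      simp only
      linarith

theorem coverAll : Data → WidthR → WidthL → CoverAll := by
  intro hD hWR hWL p s C hp hC
  obtain ⟨γ, T, hcyc, rfl⟩ := hC
  obtain ⟨y₁, y₀, R, L, h⟩ := hD p s γ T hp hcyc
  obtain ⟨n, -, h1, h2⟩ := q_size h (hWR p s γ T y₁ y₀ R L hp h) (hWL p s γ T y₁ y₀ R L hp hcyc h)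
  exact ⟨n + 1, h1, h2⟩

/-- criterion for capture -/
theorem q_capt {p : Polynomial ℝ} {s : ℝ} {γ : ℝ → ℝ × ℝ} {T y₁ y₀ : ℝ} {R L : ℝ → ℝ}
    (hc : LCyc p s γ T) (h : LD p s γ T y₁ y₀ R L) (i : ℤ)
    (hm : (2:ℝ) ^ (i + 1) < y₀ ∨ y₁ < -(2:ℝ) ^ (i + 1))
    (hR : ∀ y ∈ Icc y₁ y₀, |y| ≤ (2:ℝ) ^ (i + 1) → R y ≤ (2:ℝ) ^ (i + 3)) :
    range γ ∈ Capt p s i 1 ∨ range γ ∈ Capt p s i (-1) := by
  have h0 : (0:ℝ) < 2 ^ i := zpow_pos two_pos i
  rcases hm with hm | hm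
  · left
    refine ⟨γ, T, y₁, y₀, R, L, hc, h, rfl, Or.inl ⟨rfl, hm⟩, ?_⟩
    intro y hy h1 h2
    apply hR y hy
    rw [one_mul] at h1 h2
    rw [abs_of_nonneg (by linarith)]
    exact h2
  · right
    refine ⟨γ, T, y₁, y₀, R, L, hc, h, rfl, Or.inr ⟨rfl, hm⟩, ?_⟩
    intro y hy h1 h2
    apply hR y hy
    have h3 : y ≤ 0 := by linarith
    rw [abs_of_nonpos h3]
    linarith

theorem cover : Data → WidthR → WidthL → Capture → Cover := by
  intro hD hWR hWL hCap p P i₀ s C hpP hs hC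
  have hp : p.eval 0 = 0 := by rw [hpP]; simp
  obtain ⟨γ, T, hcyc, rfl⟩ := hC
  obtain ⟨y₁, y₀, R, L, h⟩ := hD p s γ T hp hcyc
  have hR := hWR p s γ T y₁ y₀ R L hp h
  have hL := hWL p s γ T y₁ y₀ R L hp hcyc h
  have hneg := h.neg
  have hpos := h.pos
  have two1 : (1:ℝ) < 2 := one_lt_two
  have z1 : ∀ k : ℤ, (2:ℝ) ^ (k + 1) = 2 ^ k * 2 := fun k => zpow_add_one₀ two_ne_zero k
  have zpos : ∀ k : ℤ, (0:ℝ) < 2 ^ k := fun k => zpow_pos two_pos k
  rcases le_or_gt (y₀ - y₁) ((2:ℝ) ^ (i₀ + 2)) with hY | hY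
  · left
    obtain ⟨n, hn, h1, h2⟩ := q_size h hR hL
    refine ⟨n + 1, ?_, h1, h2⟩
    have h3 : (2:ℝ) ^ n < (2:ℝ) ^ (i₀ + 2) := hn.trans_le hY
    rw [zpow_lt_zpow_iff_right₀ two1] at h3
    omega
  · right
    have e2 : (2:ℝ) ^ (i₀ + 2) = 2 ^ (i₀ + 1) * 2 := by
      have := z1 (i₀ + 1)
      rw [show i₀ + 1 + 1 = i₀ + 2 by ring] at this
      exact this
    by_cases hsmall : ∀ y ∈ Icc y₁ y₀, R y ≤ (2:ℝ) ^ (i₀ + 3)
    · refine ⟨i₀, Or.inl rfl, ?_⟩
      apply q_capt hcyc h i₀ _ (fun y hy _ => hsmall y hy)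
      by_contra hcon
      push Not at hcon
      linarith [hcon.1, hcon.2]
    · push Not at hsmall
      obtain ⟨ya, hya, hya2⟩ := hsmall
      obtain ⟨ym, hym, hmax⟩ := isCompact_Icc.exists_isMaxOn ⟨ya, hya⟩ h.cR
      have hmax' : ∀ y ∈ Icc y₁ y₀, R y ≤ R ym := fun y hy => hmax hy
      have hxm : (2:ℝ) ^ (i₀ + 3) < R ym := hya2.trans_le (hmax' ya hya)
      have hxm0 : 0 < R ym := (zpos _).trans hxm
      obtain ⟨n, hn1, hn2⟩ := exists_mem_Ioc_zpow hxm0 two1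
      set t : ℤ := n - 3 with ht
      have hnt : n = t + 3 := by omega
      have hn1' : (2:ℝ) ^ (t + 3) < R ym := by rw [← hnt]; exact hn1
      have hn2' : R ym ≤ (2:ℝ) ^ (t + 4) := by
        rw [show t + 4 = n + 1 by omega]; exact hn2
      have hti : i₀ ≤ t := by
        have h3 : (2:ℝ) ^ (i₀ + 3) < (2:ℝ) ^ (t + 4) := hxm.trans_le hn2'
        rw [zpow_lt_zpow_iff_right₀ two1] at h3
        omega
      obtain ⟨τ, ⟨hτ1, hτ2, hτ3⟩, hτmax⟩ := Int.exists_greatest_of_bdd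
        (P := fun τ : ℤ => i₀ ≤ τ ∧ τ ≤ t ∧
          (τ = i₀ ∨ ∃ x ∈ Icc ((2:ℝ) ^ (τ + 3)) ((2:ℝ) ^ (τ + 4)), |P.eval x| < 4))
        ⟨t, fun z hz => hz.2.1⟩ ⟨i₀, le_rfl, hti, Or.inl rfl⟩
      refine ⟨τ + 1, ?_, ?_⟩
      · rcases hτ3 with h3 | ⟨x, hx, hx2⟩
        · right; left; rw [h3]
        · right; right
          refine ⟨by omega, x, ?_, hx2⟩
          rw [show τ + 1 - 1 = τ by ring]
          exact hx
      · have hmono : (2:ℝ) ^ (τ + 2) ≤ (2:ℝ) ^ (t + 2) := by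
          rw [zpow_le_zpow_iff_right₀ two1]; omega
        have e3 : (2:ℝ) ^ (t + 3) = 2 ^ (t + 2) * 2 := by
          have := z1 (t + 2)
          rw [show t + 2 + 1 = t + 3 by ring] at this
          exact this
        have hxY := hR ym hym
        apply q_capt hcyc h (τ + 1)
        · rw [show τ + 1 + 1 = τ + 2 by ring]
          by_contra hcon
          push Not at hcon
          linarith [hcon.1, hcon.2]
        · rw [show τ + 1 + 1 = τ + 2 by ring, show τ + 1 + 3 = τ + 4 by ring]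
          rcases hτ2.eq_or_lt with hτt | hτt
          · intro y hy _
            rw [hτt]
            exact (hmax' y hy).trans hn2'
          · have e4 : (2:ℝ) ^ (τ + 4) / 4 = 2 ^ (τ + 2) := by
              have h5 := z1 (τ + 2)
              have h6 := z1 (τ + 3)
              rw [show τ + 2 + 1 = τ + 3 by ring] at h5
              rw [show τ + 3 + 1 = τ + 4 by ring] at h6
              rw [h6, h5]; ring
            have hc := hCap p s γ T y₁ y₀ R L ((2:ℝ) ^ (τ + 4)) hp hs h (zpos _) (by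
              rintro x hx ⟨y, hy, hxy⟩
              have hx0 : 0 < x := (zpos _).trans_le hx
              have hxt : x ≤ (2:ℝ) ^ (t + 4) := hxy.trans ((hmax' y hy).trans hn2')
              -- the index of `x`
              have hσ : ∃ σ : ℤ, τ < σ ∧ σ ≤ t ∧ x ∈ Icc ((2:ℝ) ^ (σ + 3)) ((2:ℝ) ^ (σ + 4)) := by
                rcases hx.eq_or_lt with hxe | hxl
                · refine ⟨τ + 1, by omega, by omega, ?_, ?_⟩
                  · rw [← hxe, show τ + 1 + 3 = τ + 4 by ring]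
                  · rw [← hxe, zpow_le_zpow_iff_right₀ two1]; omega
                · obtain ⟨k, hk1, hk2⟩ := exists_mem_Ioc_zpow hx0 two1
                  refine ⟨k - 3, ?_, ?_, ?_, ?_⟩
                  · have h7 : (2:ℝ) ^ (τ + 4) < (2:ℝ) ^ (k + 1) := hxl.trans_le hk2
                    rw [zpow_lt_zpow_iff_right₀ two1] at h7
                    omega
                  · have h7 : (2:ℝ) ^ k < (2:ℝ) ^ (t + 4) := hk1.trans_le hxt
                    rw [zpow_lt_zpow_iff_right₀ two1] at h7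
                    omega
                  · rw [show k - 3 + 3 = k by ring]; exact hk1.le
                  · rw [show k - 3 + 4 = k + 1 by ring]; exact hk2
              obtain ⟨σ, hσ1, hσ2, hσ3⟩ := hσ
              have hP : 4 ≤ |P.eval x| := by
                by_contra hlt
                push Not at hlt
                have := hτmax σ ⟨by omega, hσ2, Or.inr ⟨x, hσ3, hlt⟩⟩
                omega
              have hev : p.eval x = x * P.eval x := by rw [hpP]; simp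
              rw [hev, abs_mul, abs_of_pos hx0]
              nlinarith)
            intro y hy hy2
            apply hc y hy
            rw [e4]
            exact hy2

end Pool.Agent.H709L
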