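import Pool.Agent.H709L.Basic

/-! The majorant for the small closed orbits of a Lienard system. -/

open Real Set MeasureTheory Topology Filter
open scoped ENNReal

namespace Pool.Agent.H709L

open Pool.Agent.H709R2 (wedge ClosedOrbit)

lemma Sq_eq (r : ℝ) : Sq r = Icc (-r) r ×ˢ Icc (-r) r := by
  ext z
  simp only [Sq, abs_le, mem_setOf_eq, mem_prod, mem_Icc]

lemma isCompact_Sq (r : ℝ) : IsCompact (Sq r) := by
  rw [Sq_eq]
  exact isCompact_Icc.prod isCompact_Icc

lemma small_cost (hPV : PolyVar) (p : Polynomial ℝ) (n : ℕ) (f κ ρ : ℝ)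
    (hdeg : p.natDegree ≤ n) (hn : 1 ≤ n) (hκ : 0 ≤ κ) (hρ : 0 < ρ)
    (hp : ∀ x, |x| ≤ ρ → |p.eval x - f * x| ≤ κ * |x|) :
    ∫⁻ z in Sq ρ, ENNReal.ofReal (|p.derivative.eval (z : ℝ × ℝ).1 - f| + κ) ≤
      ENNReal.ofReal (4 * (n + 1) * κ * ρ ^ 2) := by
  have hcont : Continuous (fun x : ℝ => |p.derivative.eval x - f| + κ) := by fun_prop
  have h1 : ∫⁻ z in Sq ρ, ENNReal.ofReal (|p.derivative.eval (z : ℝ × ℝ).1 - f| + κ) =
      (∫⁻ x in Icc (-ρ) ρ, ENNReal.ofReal (|p.derivative.eval x - f| + κ)) *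
        ∫⁻ _ in Icc (-ρ) ρ, (1 : ℝ≥0∞) := by
    rw [Sq_eq, Measure.volume_eq_prod, ← Measure.prod_restrict,
      ← lintegral_prod_mul (f := fun x : ℝ => ENNReal.ofReal (|p.derivative.eval x - f| + κ))
        (g := fun _ : ℝ => (1 : ℝ≥0∞)) (by fun_prop) (by fun_prop)]
    simp only [mul_one]
  have hint : ∀ g : ℝ → ℝ, Continuous g → IntervalIntegrable g volume (-ρ) ρ :=
    fun g hg => hg.intervalIntegrable _ _
  have h2 : ∫⁻ x in Icc (-ρ) ρ, ENNReal.ofReal (|p.derivative.eval x - f| + κ) =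
      ENNReal.ofReal (∫ x in (-ρ)..ρ, (|p.derivative.eval x - f| + κ)) := by
    rw [intervalIntegral.integral_of_le (by linarith), ← integral_Icc_eq_integral_Ioc,
      ofReal_integral_eq_lintegral_ofReal (hcont.integrableOn_Icc)
        (Eventually.of_forall fun x => by positivity)]
  have h3 : ∫ x in (-ρ)..ρ, (|p.derivative.eval x - f| + κ) =
      (∫ x in (-ρ)..ρ, |p.derivative.eval x - f|) + 2 * ρ * κ := by
    rw [intervalIntegral.integral_add (hint _ (by fun_prop)) (hint _ (by fun_prop)),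
      intervalIntegral.integral_const]
    simp only [smul_eq_mul]
    ring
  have h4 : ∫ x in (-ρ)..ρ, |p.derivative.eval x - f| ≤ 2 * n * (κ * ρ) := by
    have h5 := hPV (p - Polynomial.C f * Polynomial.X) n (κ * ρ) (-ρ) ρ ?_ (by linarith) ?_
    · simpa using h5
    · refine (Polynomial.natDegree_sub_le _ _).trans (max_le hdeg ?_)
      exact (Polynomial.natDegree_C_mul_le f Polynomial.X).trans (Polynomial.natDegree_X_le.trans hn)
    · intro x hx
      have hx' : |x| ≤ ρ := abs_le.2 hx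
      have := hp x hx'
      simp only [Polynomial.eval_sub, Polynomial.eval_mul, Polynomial.eval_C, Polynomial.eval_X]
      exact this.trans (mul_le_mul_of_nonneg_left hx' hκ)
  have h6 : ∫⁻ _ in Icc (-ρ) ρ, (1 : ℝ≥0∞) = ENNReal.ofReal (2 * ρ) := by
    rw [lintegral_one, Measure.restrict_apply_univ, Real.volume_Icc]
    congr 1
    ring
  rw [h1, h2, h6, ← ENNReal.ofReal_mul' (by positivity), h3]
  refine ENNReal.ofReal_le_ofReal ?_
  have h7 : (∫ x in (-ρ)..ρ, |p.derivative.eval x - f|) + 2 * ρ * κ ≤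
      2 * (n + 1) * κ * ρ := by
    calc _ ≤ 2 * n * (κ * ρ) + 2 * ρ * κ := by linarith
      _ = _ := by ring
  calc _ ≤ 2 * (n + 1) * κ * ρ * (2 * ρ) := mul_le_mul_of_nonneg_right h7 (by positivity)
    _ = _ := by ring

theorem smallClass (hM : MasterL) (hD : Data) (_hW : WidthR) (hS : SmallLen) (hWin : Window)
    (hPV : PolyVar) : SmallClass := by
  intro p n f κ ρ hp0 hdeg hn hκ hκ2 hρ hp
  have key := hM p (Sq ρ) (fun _ => 1)
    (fun z => ENNReal.ofReal (|p.derivative.eval z.1 - f| + κ))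
    (4 * (n + 1) * κ * ρ ^ 2) (ρ ^ 2 / 32) hp0 (isCompact_Sq ρ) (fun z _ => contDiffAt_const)
    (by
      refine ENNReal.measurable_ofReal.comp (Continuous.measurable ?_)
      fun_prop) (by positivity) (by positivity)
    (small_cost hPV p n f κ ρ hdeg hn hκ hρ hp) ?_
  · refine majRulesI.1 _ _ _ _ (fun s hs => ?_) ?_ key
    · have hsub : {C | C ∈ LOrb p s ∧ C ⊆ Sq ρ ∧ ∃ z ∈ C, ∃ z' ∈ C, ρ / 2 < z.2 - z'.2} ⊆
          Kl p s (fun _ => 1) (Sq ρ) (ρ ^ 2 / 32) := by
        rintro C ⟨⟨γ, T, hγ, rfl⟩, hC, z, hz, z', hz', hzz⟩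
        refine ⟨γ, T, hγ, rfl, hC, ?_⟩
        obtain ⟨y₁, y₀, R, L, hLD⟩ := hD p s γ T hp0 hγ
        have hrng := hLD.rng
        have hz2 : z.2 ≤ y₀ := by
          rw [hrng] at hz
          exact hz.1.2
        have hz2' : y₁ ≤ z'.2 := by
          rw [hrng] at hz'
          exact hz'.1.1
        have hwin : |f - s| ≤ κ := by
          refine hWin p s γ T f κ ρ hγ (fun t => ?_) hp
          exact (hC ⟨t, rfl⟩).1
        have hlen := hS p s γ T y₁ y₀ R L hp0 hLD ?_
        · have h8 : ρ / 2 ≤ y₀ - y₁ := by linarith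
          have h9 : (ρ / 2) ^ 2 ≤ (y₀ - y₁) ^ 2 := pow_le_pow_left₀ (by positivity) h8 2
          calc ρ ^ 2 / 32 = (ρ / 2) ^ 2 / 8 := by ring
            _ ≤ (y₀ - y₁) ^ 2 / 8 := by linarith
            _ ≤ _ := hlen
        · intro y hy
          have hR0 : 0 ≤ R y := by
            rcases hy.1.eq_or_lt with h | h
            · rw [← h, hLD.R1]
            · rcases hy.2.eq_or_lt with h' | h'
              · rw [h', hLD.R0]
              · exact (hLD.Rp y ⟨h, h'⟩).le
          have hmem : ((R y, y) : ℝ × ℝ) ∈ range γ := by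
            rw [hrng]
            exact ⟨hy, Or.inl rfl⟩
          have hRρ : |R y| ≤ ρ := (hC hmem).1
          have h10 := hp (R y) hRρ
          rw [abs_of_nonneg hR0] at h10
          have h11 : |p.eval (R y) - s * R y| ≤ |p.eval (R y) - f * R y| + |(f - s) * R y| := by
            have : p.eval (R y) - s * R y = (p.eval (R y) - f * R y) + (f - s) * R y := by ring
            rw [this]
            exact abs_add_le _ _
          rw [abs_mul, abs_of_nonneg hR0] at h11
          have h12 : |f - s| * R y ≤ κ * R y := mul_le_mul_of_nonneg_right hwin hR0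
          have h13 : κ * R y ≤ 1 / 64 * R y := mul_le_mul_of_nonneg_right hκ2 hR0
          linarith
      have h14 := Set.encard_le_encard hsub
      exact_mod_cast h14
    · have : 4 * ((n : ℝ) + 1) * κ * ρ ^ 2 / (ρ ^ 2 / 32) = 128 * (n + 1) * κ := by
        field_simp
        ring
      rw [this]
  · intro s hs γ T hγ hran t
    refine ENNReal.ofReal_le_ofReal ?_
    have hwin : |f - s| ≤ κ := by
      refine hWin p s γ T f κ ρ hγ (fun t => ?_) hp
      exact (hran ⟨t, rfl⟩).1
    have h1 : dvl p s (fun _ => 1) (γ t) = s - p.derivative.eval (γ t).1 := by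
      simp [dvl]
    rw [h1]
    have h2 : s - p.derivative.eval (γ t).1 = -(p.derivative.eval (γ t).1 - f) + -(f - s) := by
      ring
    rw [h2]
    refine (abs_add_le _ _).trans ?_
    rw [abs_neg, abs_neg]
    linarith

end Pool.Agent.H709L
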