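import Pool.Agent.H709L.Basic
import Pool.Agent.H709R2.Indicatrix

/-! Task X: exhaustion by squares. -/

open Real Set MeasureTheory Topology Filter
open scoped ENNReal

namespace Pool.Agent.H709L

lemma x_bounded {p : Polynomial ℝ} {s : ℝ} {C : Set (ℝ × ℝ)} (hC : C ∈ LOrb p s) :
    ∃ m : ℕ, C ⊆ Sq m := by
  obtain ⟨γ, T, hγ, rfl⟩ := hC
  have hcont : Continuous γ := continuous_iff_continuousAt.2 fun t => (hγ.ode t).continuousAt
  have hpT : Function.Periodic γ T := hγ.per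
  have hcomp : IsCompact (range γ) := hpT.compact_of_continuous hγ.pos.ne' hcont
  obtain ⟨R, hR⟩ := hcomp.isBounded.exists_norm_le
  obtain ⟨m, hm⟩ := exists_nat_ge R
  refine ⟨m, fun z hz => ?_⟩
  have h1 := hR z hz
  rw [Prod.norm_def, max_le_iff, Real.norm_eq_abs, Real.norm_eq_abs] at h1
  exact ⟨h1.1.trans hm, h1.2.trans hm⟩

lemma x_Sq_mono {i j : ℕ} (h : i ≤ j) : Sq (i : ℝ) ⊆ Sq (j : ℝ) := by
  intro z hz
  have h' : (i : ℝ) ≤ j := by exact_mod_cast h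
  exact ⟨hz.1.trans h', hz.2.trans h'⟩

theorem exhaust : Exhaust := by
  intro p Q K h
  have h4 := majRulesI.2.2.2
    (fun (m : ℕ) s => ({C | C ∈ LOrb p s ∧ Q s C ∧ C ⊆ Sq m}.encard : ℝ≥0∞)) K
    (by
      intro i j s hij
      apply ENat.toENNReal_mono
      apply encard_le_encard
      rintro C ⟨h1, h2, h3⟩
      exact ⟨h1, h2, h3.trans (x_Sq_mono hij)⟩) h
  refine majRulesI.1 _ _ K K ?_ le_rfl h4
  intro s _
  refine H709R2.encard_le_of_finset fun F hF => ?_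
  classical
  have hb : ∀ C ∈ F, ∃ m : ℕ, C ⊆ Sq m := fun C hC => x_bounded (hF hC).1
  choose! m hm using hb
  set M := F.sup m with hM
  refine le_trans ?_ (le_iSup (fun (m : ℕ) =>
    (({C | C ∈ LOrb p s ∧ Q s C ∧ C ⊆ Sq m}.encard : ℕ∞) : ℝ≥0∞)) M)
  have h1 : (F : Set (Set (ℝ × ℝ))) ⊆ {C | C ∈ LOrb p s ∧ Q s C ∧ C ⊆ Sq M} := by
    intro C hC
    exact ⟨(hF hC).1, (hF hC).2, (hm C hC).trans (x_Sq_mono (Finset.le_sup hC))⟩
  have h2 := encard_le_encard h1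
  rw [encard_coe_eq_coe_finsetCard] at h2
  have h3 := ENat.toENNReal_mono h2
  simpa using h3

end Pool.Agent.H709L
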