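import Pool.Agent.H709L.OE
import Pool.Agent.H709L.A1
import Pool.Agent.H709L.A2
import Pool.Agent.H709L.B1
import Pool.Agent.H709L.B2
import Pool.Agent.H709L.B3
import Pool.Agent.H709L.B4
import Pool.Agent.H709L.C
import Pool.Agent.H709L.D
import Pool.Agent.H709L.E
import Pool.Agent.H709L.F
import Pool.Agent.H709L.G
import Pool.Agent.H709L.H1
import Pool.Agent.H709L.H2
import Pool.Agent.H709L.H3
import Pool.Agent.H709L.H4
import Pool.Agent.H709L.K1
import Pool.Agent.H709L.K2
import Pool.Agent.H709L.K3
import Pool.Agent.H709L.MM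
import Pool.Agent.H709L.P1
import Pool.Agent.H709L.P2
import Pool.Agent.H709L.P3
import Pool.Agent.H709L.Q
import Pool.Agent.H709L.S
import Pool.Agent.H709L.X

/-! Task P4: the final form. -/

open Real Set MeasureTheory Topology Filter
open scoped ENNReal

namespace Pool.Agent.H709L

theorem finE (hP : MinPeriod) (hT : Translate) (hMe : MeasL)
    (hmain : ∀ (p : Polynomial ℝ) (n : ℕ), p.eval 0 = 0 → p.natDegree ≤ n → 1 ≤ n →
      MajI (fun s => ((LOrb p s).encard : ℝ≥0∞)) (320000 * n ^ 2)) :
    ∀ (p : Polynomial ℝ) (n : ℕ), p.natDegree ≤ n → 1 ≤ n →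
    Measurable (NL p) ∧ ∀ a : ℝ, ∫⁻ s in Ioo a (a + 1), NL p s ≤
      ENNReal.ofReal (320000 * n ^ 2) := by
  refine fun p n hpn hn => ⟨hMe p, fun a => ?_⟩
  set c : ℝ := a + 1 / 2 with hc
  set q : Polynomial ℝ := (p + Polynomial.C (-p.eval 0)) - Polynomial.C c * Polynomial.X with hq
  have hNL : ∀ t, NL q t = NL p (t + c) := by
    intro t
    rw [hq, (hT (p + Polynomial.C (-p.eval 0)) t 0).2 c, (hT p (t + c) (-p.eval 0)).1]
  have hq0 : q.eval 0 = 0 := by
    rw [hq]; simp
  have hqn : q.natDegree ≤ n := by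
    rw [hq]
    refine (Polynomial.natDegree_sub_le _ _).trans (max_le ?_ ?_)
    · refine (Polynomial.natDegree_add_le _ _).trans (max_le hpn ?_)
      rw [Polynomial.natDegree_C]; omega
    · refine (Polynomial.natDegree_C_mul_le _ _).trans ?_
      rw [Polynomial.natDegree_X]; exact hn
  obtain ⟨g, hg, hg1, hg2⟩ := hmain q n hq0 hqn hn
  have hle : ∀ t ∈ Ioo (-1:ℝ) 1, NL p (t + c) ≤ g t := by
    intro t ht
    refine le_trans ?_ (hg1 t ht)
    rw [← hNL]
    unfold NL
    apply ENat.toENNReal_mono
    apply encard_le_encard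
    intro C hC
    exact hP q t C hq0 hC
  calc ∫⁻ s in Ioo a (a + 1), NL p s
      = ∫⁻ s, (Ioo a (a + 1)).indicator (NL p) s := by
        rw [lintegral_indicator measurableSet_Ioo]
    _ = ∫⁻ t, (Ioo a (a + 1)).indicator (NL p) (t + c) :=
        (lintegral_add_right_eq_self _ c).symm
    _ ≤ ∫⁻ t, (Ioo (-1:ℝ) 1).indicator g t := by
        refine lintegral_mono fun t => ?_
        by_cases ht : t + c ∈ Ioo a (a + 1)
        · have h1 : t ∈ Ioo (-1:ℝ) 1 := by
            rw [hc] at ht
            exact ⟨by linarith [ht.1], by linarith [ht.2]⟩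
          rw [indicator_of_mem ht, indicator_of_mem h1]
          exact hle t h1
        · rw [indicator_of_notMem ht]
          exact zero_le
    _ = ∫⁻ t in Ioo (-1:ℝ) 1, g t := by
        rw [lintegral_indicator measurableSet_Ioo]
    _ ≤ _ := hg2

/-- the averaged bound for Lienard systems, with an explicit constant -/
theorem lienard_mean : ∀ (p : Polynomial ℝ) (n : ℕ), p.natDegree ≤ n → 1 ≤ n →
    Measurable (NL p) ∧ ∀ a : ℝ, ∫⁻ s in Ioo a (a + 1), NL p s ≤
      ENNReal.ofReal (320000 * n ^ 2) := by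
  have hA := arcTimes
  have hD := data hA
  have hU := unimodal
  have hWR := widthR hU
  have hRf := reflect hD
  have hWL := widthL hWR hRf
  have hDj := disj hD
  have hM := masterL hDj
  have hSm := smallClass hM hD hWR (smallLen hWR) window polyVar
  have hBx := boxClass hM hD (boxLen hU) pointBound boxCost exhaust
  have hCv := cover hD hWR hWL (capture hU)
  have hCA := coverAll hD hWR hWL
  exact finE minPeriod translate measL
    (mainLE hSm hBx hCv hCA (scaleCount interp) (smallBeta interp))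

end Pool.Agent.H709L
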