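import Pool.Agent.H709L.Basic
import Pool.Agent.H709R2.Variation
import Pool.Agent.H709R2.Patch

/-! Generic one-parameter families of plane fields: flow and variational identity. -/

open Real Set MeasureTheory Topology Filter

namespace Pool.Agent.H709L

noncomputable section

open Pool.Agent.H709R2 (wedge Jac clm_decomp isInvertible_of_wedge)

/-- `φ t p s` is the flow of the family `G (·, s)` -/
structure PFl (G : (ℝ × ℝ) × ℝ → ℝ × ℝ) (φ : ℝ → ℝ × ℝ → ℝ → ℝ × ℝ) : Prop where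
  sm : ContDiff ℝ 2 G
  zero : ∀ p s, φ 0 p s = p
  deriv : ∀ p s t, HasDerivAt (fun t => φ t p s) (G (φ t p s, s)) t
  smooth : ContDiff ℝ 2 (fun q : ℝ × (ℝ × ℝ) × ℝ => φ q.1 q.2.1 q.2.2)
  uniq : ∀ (s : ℝ) (γ : ℝ → ℝ × ℝ), (∀ t, HasDerivAt γ (G (γ t, s)) t) →
    ∀ t, γ t = φ t (γ 0) s

variable {G : (ℝ × ℝ) × ℝ → ℝ × ℝ} {φ : ℝ → ℝ × ℝ → ℝ → ℝ × ℝ}

lemma PFl.add (h : PFl G φ) (t s : ℝ) (p : ℝ × ℝ) (α : ℝ) : φ (t + s) p α = φ t (φ s p α) α := by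
  have h1 := h.uniq α (fun t => φ (t + s) p α) (fun t => by
    have := (h.deriv p α (t + s)).scomp t ((hasDerivAt_id t).add_const s)
    simp only [one_smul] at this
    exact this) t
  simpa using h1

lemma PFl.continuous (h : PFl G φ) :
    Continuous (fun q : ℝ × (ℝ × ℝ) × ℝ => φ q.1 q.2.1 q.2.2) := h.smooth.continuous

lemma PFl.ne_zero (hφ : PFl G φ) {p : ℝ × ℝ} {α : ℝ} (hp : G (p, α) ≠ 0) (t : ℝ) :
    G (φ t p α, α) ≠ 0 := by
  intro h
  have h1 := hφ.uniq α (fun _ => φ t p α) (fun u => by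
    simp only [h]
    exact hasDerivAt_const _ _) (-t)
  have h2 := hφ.add (-t) t p α
  rw [neg_add_cancel, hφ.zero] at h2
  rw [← h2] at h1
  rw [h1] at h
  exact hp h

lemma PFl.periodic (hφ : PFl G φ) {p : ℝ × ℝ} {α T : ℝ} (h : φ T p α = p) (t : ℝ) :
    φ (t + T) p α = φ t p α := by
  rw [hφ.add, h]

/-- existence of the flow of a compactly supported smooth family -/
theorem exists_PFl (hG : ContDiff ℝ 2 G) (hs : HasCompactSupport G) : ∃ φ, PFl G φ := by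
  set F : (ℝ × ℝ) × ℝ → (ℝ × ℝ) × ℝ := fun q => (G q, 0) with hF
  have hFc : ContDiff ℝ 2 F := hG.prodMk contDiff_const
  obtain ⟨K, hK⟩ := hG.lipschitzWith_of_hasCompactSupport hs (by norm_num)
  have hL : LipschitzWith K F := by
    refine LipschitzWith.of_dist_le_mul fun p q => ?_
    rw [dist_eq_norm, dist_eq_norm]
    have h1 : ‖F p - F q‖ = ‖G p - G q‖ := by
      simp only [hF]
      rw [Prod.norm_def]
      simp
    rw [h1, ← dist_eq_norm, ← dist_eq_norm]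
    exact hK.dist_le_mul p q
  obtain ⟨M, hM⟩ := hs.exists_bound_of_continuous hG.continuous
  have hB : ∀ q, ‖F q‖ ≤ ((⟨max M 0, le_max_right _ _⟩ : NNReal) : ℝ) := by
    intro q
    have h1 : ‖F q‖ = ‖G q‖ := by
      simp only [hF]
      rw [Prod.norm_def]
      simp
    rw [h1]
    exact (hM q).trans (le_max_left _ _)
  choose u hu0 hu using fun x => GR.Flow.exists_solution (X := F) hL hB x
  set g : ℝ → (ℝ × ℝ) × ℝ → (ℝ × ℝ) × ℝ := fun t x => u x t with hg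
  have hflow : GR.Flow.IsFlowOf F g := ⟨fun x => hu0 x, fun x t => hu x t⟩
  have hsm : ContDiff ℝ 2 (fun p : ℝ × (ℝ × ℝ) × ℝ => g p.1 p.2) := by
    have := GR.Flow.contDiff_flow (X := ⟨F, hFc.continuous⟩) (m := 2) (by norm_num)
      (by simpa using hFc) (K := K) hL (g := g) hflow
    simpa using this
  have hpar : ∀ x t, (u x t).2 = x.2 := by
    intro x t
    have h1 : ∀ t, HasDerivAt (fun t => (u x t).2) 0 t := fun t => by
      have := (ContinuousLinearMap.snd ℝ (ℝ × ℝ) ℝ).hasFDerivAt.comp_hasDerivAt t (hu x t)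
      exact this
    have h2 := is_const_of_deriv_eq_zero (fun t => (h1 t).differentiableAt)
      (fun t => (h1 t).deriv) t 0
    simp only [hu0] at h2
    exact h2
  refine ⟨fun t p α => (g t (p, α)).1, hG, ?_, ?_, ?_, ?_⟩
  · intro p α
    simp [hg, hu0]
  · intro p α t
    have := (ContinuousLinearMap.fst ℝ (ℝ × ℝ) ℝ).hasFDerivAt.comp_hasDerivAt t (hu (p, α) t)
    simp only [hF, ContinuousLinearMap.coe_fst'] at this
    have h3 : u (p, α) t = ((g t (p, α)).1, α) := by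
      ext1
      · rfl
      · exact hpar (p, α) t
    rw [h3] at this
    exact this
  · exact contDiff_fst.comp hsm
  · intro α γ hγ t
    have h1 : (fun t => (γ t, α)) = u (γ 0, α) := by
      refine ODE_solution_unique_univ (v := fun _ => F) (s := fun _ => univ)
        (K := K) (t₀ := 0)
        (fun t => hL.lipschitzOnWith) (fun t => ⟨?_, trivial⟩) (fun t => ⟨hu _ t, trivial⟩) ?_
      · exact (hγ t).prodMk (hasDerivAt_const t α)
      · simp [hu0]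
    have h2 := congrFun h1 t
    simp only [hg]
    rw [← h2]

/-- the rotation density `G ∧ ∂ₛ G` -/
def qq (G : (ℝ × ℝ) × ℝ → ℝ × ℝ) (s : ℝ) (p : ℝ × ℝ) : ℝ := wedge (G (p, s)) (fderiv ℝ G (p, s) (0, 1))

/-- divergence -/
def dv (G : (ℝ × ℝ) × ℝ → ℝ × ℝ) (s : ℝ) (p : ℝ × ℝ) : ℝ :=
  (fderiv ℝ G (p, s) ((1, 0), 0)).1 + (fderiv ℝ G (p, s) ((0, 1), 0)).2

/-- divergence of the weighted field -/
def dvw (w : ℝ × ℝ → ℝ) (G : (ℝ × ℝ) × ℝ → ℝ × ℝ) (s : ℝ) (p : ℝ × ℝ) : ℝ :=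
  fderiv ℝ w p (G (p, s)) + w p * dv G s p

lemma continuous_qq (hG : ContDiff ℝ 2 G) : Continuous fun q : (ℝ × ℝ) × ℝ => qq G q.2 q.1 := by
  have h1 : Continuous (fderiv ℝ G) := hG.continuous_fderiv (by norm_num)
  have h2 : Continuous fun q : (ℝ × ℝ) × ℝ => fderiv ℝ G q (0, 1) := h1.clm_apply continuous_const
  have h3 := hG.continuous
  unfold qq wedge
  fun_prop

lemma continuous_dv (hG : ContDiff ℝ 2 G) : Continuous fun q : (ℝ × ℝ) × ℝ => dv G q.2 q.1 := by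
  have h1 : Continuous (fderiv ℝ G) := hG.continuous_fderiv (by norm_num)
  have h2 : Continuous fun q : (ℝ × ℝ) × ℝ => fderiv ℝ G q ((1, 0), 0) := h1.clm_apply continuous_const
  have h3 : Continuous fun q : (ℝ × ℝ) × ℝ => fderiv ℝ G q ((0, 1), 0) := h1.clm_apply continuous_const
  unfold dv
  fun_prop

lemma trace_id (L : (ℝ × ℝ) × ℝ →L[ℝ] (ℝ × ℝ)) (u v : ℝ × ℝ) :
    wedge (L (u, 0)) v + wedge u (L (v, 0)) =
      ((L ((1, 0), 0)).1 + (L ((0, 1), 0)).2) * wedge u v := by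
  have h : ∀ u : ℝ × ℝ, L (u, 0) = u.1 • L ((1, 0), 0) + u.2 • L ((0, 1), 0) := by
    intro u
    conv_lhs => rw [show ((u, 0) : (ℝ × ℝ) × ℝ) =
      u.1 • (((1:ℝ), (0:ℝ)), (0:ℝ)) + u.2 • (((0:ℝ), (1:ℝ)), (0:ℝ)) by ext <;> simp]
    rw [map_add, map_smul, map_smul]
  rw [h u, h v]
  unfold wedge
  simp only [Prod.fst_add, Prod.snd_add, Prod.smul_fst, Prod.smul_snd, smul_eq_mul]
  ring

/-- the variational identity -/
theorem hasDerivAt_JacG {a : ℝ → ℝ} {Q : ℝ × ℝ → ℝ × ℝ} {s t a' : ℝ}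
    (hQ : ContDiffAt ℝ 2 Q (s, t))
    (hflow : ∀ᶠ y : ℝ × ℝ in 𝓝 (s, t), fderiv ℝ Q y (0, 1) = G (Q y, a y.1))
    (ha : HasDerivAt a a' s) (hG : DifferentiableAt ℝ G (Q (s, t), a s)) :
    HasDerivAt (fun t => Jac Q (s, t))
      (dv G (a s) (Q (s, t)) * Jac Q (s, t) - a' * qq G (a s) (Q (s, t))) t := by
  have hQd : DifferentiableAt ℝ Q (s, t) := hQ.differentiableAt (by norm_num)
  have hD : DifferentiableAt ℝ (fderiv ℝ Q) (s, t) :=
    (hQ.fderiv_right (m := 1) (by norm_num)).differentiableAt (by norm_num)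
  set D' := fderiv ℝ (fderiv ℝ Q) (s, t) with hD'
  have hsymm : IsSymmSndFDerivAt ℝ Q (s, t) := hQ.isSymmSndFDerivAt (by simp)
  -- lines
  have lt : HasDerivAt (fun t' : ℝ => ((s, t') : ℝ × ℝ)) (0, 1) t :=
    (hasDerivAt_const t s).prodMk (hasDerivAt_id t)
  have ls : HasDerivAt (fun s' : ℝ => ((s', t) : ℝ × ℝ)) (1, 0) s :=
    (hasDerivAt_id s).prodMk (hasDerivAt_const s t)
  have hDt : ∀ u, HasDerivAt (fun t' : ℝ => fderiv ℝ Q (s, t') u) (D' (0, 1) u) t := by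
    intro u
    have h1 := hD.hasFDerivAt.comp_hasDerivAt t lt
    exact ((ContinuousLinearMap.apply ℝ (ℝ × ℝ) u).hasFDerivAt.comp_hasDerivAt t h1)
  have hDs : ∀ u, HasDerivAt (fun s' : ℝ => fderiv ℝ Q (s', t) u) (D' (1, 0) u) s := by
    intro u
    have h1 := hD.hasFDerivAt.comp_hasDerivAt s ls
    exact ((ContinuousLinearMap.apply ℝ (ℝ × ℝ) u).hasFDerivAt.comp_hasDerivAt s h1)
  have hQt : HasDerivAt (fun t' : ℝ => Q (s, t')) (fderiv ℝ Q (s, t) (0, 1)) t :=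
    hQd.hasFDerivAt.comp_hasDerivAt t lt
  have hQs : HasDerivAt (fun s' : ℝ => Q (s', t)) (fderiv ℝ Q (s, t) (1, 0)) s :=
    hQd.hasFDerivAt.comp_hasDerivAt s ls
  have hz : fderiv ℝ Q (s, t) (0, 1) = G (Q (s, t), a s) := hflow.self_of_nhds
  set L := fderiv ℝ G (Q (s, t), a s) with hL
  -- second derivatives through the equation
  have e1 : D' (1, 0) (0, 1) = L (fderiv ℝ Q (s, t) (1, 0), 0) + a' • L (0, 1) := by
    have h1 : HasDerivAt (fun s' : ℝ => G (Q (s', t), a s')) (L (fderiv ℝ Q (s, t) (1, 0), a')) s :=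
      hG.hasFDerivAt.comp_hasDerivAt s (hQs.prodMk ha)
    have h2 : (fun s' : ℝ => fderiv ℝ Q (s', t) (0, 1)) =ᶠ[𝓝 s]
        fun s' => G (Q (s', t), a s') := by
      have : Tendsto (fun s' : ℝ => ((s', t) : ℝ × ℝ)) (𝓝 s) (𝓝 (s, t)) := ls.continuousAt
      exact this.eventually hflow
    have h3 := ((hDs (0, 1)).congr_of_eventuallyEq h2.symm).unique h1
    rw [h3, ← map_smul, ← map_add]
    congr 1
    ext <;> simp
  have e2 : D' (0, 1) (0, 1) = L (fderiv ℝ Q (s, t) (0, 1), 0) := by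
    have h1 : HasDerivAt (fun t' : ℝ => G (Q (s, t'), a s)) (L (fderiv ℝ Q (s, t) (0, 1), 0)) t :=
      hG.hasFDerivAt.comp_hasDerivAt t (hQt.prodMk (hasDerivAt_const t (a s)))
    have h2 : (fun t' : ℝ => fderiv ℝ Q (s, t') (0, 1)) =ᶠ[𝓝 t]
        fun t' => G (Q (s, t'), a s) := by
      have : Tendsto (fun t' : ℝ => ((s, t') : ℝ × ℝ)) (𝓝 t) (𝓝 (s, t)) := lt.continuousAt
      exact this.eventually hflow
    exact ((hDt (0, 1)).congr_of_eventuallyEq h2.symm).unique h1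
  have e3 : D' (0, 1) (1, 0) = D' (1, 0) (0, 1) := hsymm.eq (0, 1) (1, 0)
  -- derivative of the wedge
  have hu := hDt (1, 0)
  have hv := hDt (0, 1)
  have hu1 : HasDerivAt (fun t' : ℝ => (fderiv ℝ Q (s, t') (1, 0)).1) (D' (0, 1) (1, 0)).1 t :=
    (ContinuousLinearMap.fst ℝ ℝ ℝ).hasFDerivAt.comp_hasDerivAt t hu
  have hu2 : HasDerivAt (fun t' : ℝ => (fderiv ℝ Q (s, t') (1, 0)).2) (D' (0, 1) (1, 0)).2 t :=
    (ContinuousLinearMap.snd ℝ ℝ ℝ).hasFDerivAt.comp_hasDerivAt t hu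
  have hv1 : HasDerivAt (fun t' : ℝ => (fderiv ℝ Q (s, t') (0, 1)).1) (D' (0, 1) (0, 1)).1 t :=
    (ContinuousLinearMap.fst ℝ ℝ ℝ).hasFDerivAt.comp_hasDerivAt t hv
  have hv2 : HasDerivAt (fun t' : ℝ => (fderiv ℝ Q (s, t') (0, 1)).2) (D' (0, 1) (0, 1)).2 t :=
    (ContinuousLinearMap.snd ℝ ℝ ℝ).hasFDerivAt.comp_hasDerivAt t hv
  have hw := (hu1.mul hv2).sub (hu2.mul hv1)
  unfold Jac
  have hfin : HasDerivAt (fun t' : ℝ => wedge (fderiv ℝ Q (s, t') (1, 0)) (fderiv ℝ Q (s, t') (0, 1)))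
      (wedge (D' (0, 1) (1, 0)) (fderiv ℝ Q (s, t) (0, 1)) +
        wedge (fderiv ℝ Q (s, t) (1, 0)) (D' (0, 1) (0, 1))) t := by
    refine hw.congr_deriv ?_
    unfold wedge
    ring
  refine hfin.congr_deriv ?_
  rw [e3, e1, e2]
  have h5 := trace_id L (fderiv ℝ Q (s, t) (1, 0)) (fderiv ℝ Q (s, t) (0, 1))
  have h6 : wedge (a' • L (0, 1)) (fderiv ℝ Q (s, t) (0, 1)) = - (a' * qq G (a s) (Q (s, t))) := by
    rw [hz]
    unfold qq wedge
    simp only [Prod.smul_fst, Prod.smul_snd, smul_eq_mul]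
    ring
  have h7 : ∀ x y z : ℝ × ℝ, wedge (x + y) z = wedge x z + wedge y z := by
    intro x y z; unfold wedge; simp only [Prod.fst_add, Prod.snd_add]; ring
  rw [h7, h6]
  unfold dv
  rw [← hL, ← h5]
  ring

/-- the weighted variational identity -/
theorem hasDerivAt_wJacG {w : ℝ × ℝ → ℝ} {a : ℝ → ℝ} {Q : ℝ × ℝ → ℝ × ℝ}
    {s t a' : ℝ} (hQ : ContDiffAt ℝ 2 Q (s, t))
    (hflow : ∀ᶠ y : ℝ × ℝ in 𝓝 (s, t), fderiv ℝ Q y (0, 1) = G (Q y, a y.1))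
    (ha : HasDerivAt a a' s) (hG : DifferentiableAt ℝ G (Q (s, t), a s))
    (hw : DifferentiableAt ℝ w (Q (s, t))) :
    HasDerivAt (fun t => w (Q (s, t)) * Jac Q (s, t))
      (dvw w G (a s) (Q (s, t)) * Jac Q (s, t) - a' * (w (Q (s, t)) * qq G (a s) (Q (s, t)))) t := by
  have h1 := hasDerivAt_JacG hQ hflow ha hG
  have hQd : DifferentiableAt ℝ Q (s, t) := hQ.differentiableAt (by norm_num)
  have lt : HasDerivAt (fun t' : ℝ => ((s, t') : ℝ × ℝ)) (0, 1) t :=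
    (hasDerivAt_const t s).prodMk (hasDerivAt_id t)
  have hQt : HasDerivAt (fun t' : ℝ => Q (s, t')) (fderiv ℝ Q (s, t) (0, 1)) t :=
    hQd.hasFDerivAt.comp_hasDerivAt t lt
  have hz : fderiv ℝ Q (s, t) (0, 1) = G (Q (s, t), a s) := hflow.self_of_nhds
  rw [hz] at hQt
  have h2 : HasDerivAt (fun t' : ℝ => w (Q (s, t')))
      (fderiv ℝ w (Q (s, t)) (G (Q (s, t), a s))) t :=
    hw.hasFDerivAt.comp_hasDerivAt t hQt
  refine (h2.mul h1).congr_deriv ?_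
  unfold dvw
  ring

/-- sign of the parameter derivative of a flow -/
lemma neg_of_deriv' {y c q : ℝ → ℝ} (hc : Continuous c) (hq : Continuous q)
    (hy : ∀ t, HasDerivAt y (c t * y t - q t) t) (h0 : y 0 = 0) (hq0 : ∀ t, 0 ≤ q t)
    {T : ℝ} (hT : 0 < T) (hq1 : ∃ t ∈ Ioo 0 T, 0 < q t) : y T < 0 := by
  set C : ℝ → ℝ := fun t => ∫ u in (0:ℝ)..t, c u with hC
  have hCd : ∀ t, HasDerivAt C (c t) t := fun t =>
    intervalIntegral.integral_hasDerivAt_right (hc.intervalIntegrable _ _)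
      (hc.stronglyMeasurableAtFilter _ _) hc.continuousAt
  have hE : ∀ t, HasDerivAt (fun t => Real.exp (-C t) * y t) (-(Real.exp (-C t) * q t)) t := by
    intro t
    have h1 := ((hCd t).neg.exp).mul (hy t)
    refine h1.congr_deriv ?_
    simp only [Pi.neg_apply]
    ring
  have hEc : Continuous C := continuous_iff_continuousAt.2 fun t => (hCd t).continuousAt
  have h2 := intervalIntegral.integral_eq_sub_of_hasDerivAt (fun t (_ : t ∈ uIcc 0 T) => hE t)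
    (Continuous.intervalIntegrable (by fun_prop) _ _)
  rw [intervalIntegral.integral_neg, h0, mul_zero, sub_zero] at h2
  have h3 : 0 < ∫ t in (0:ℝ)..T, Real.exp (-C t) * q t := by
    obtain ⟨t₁, ht₁, ht₂⟩ := hq1
    refine intervalIntegral.integral_pos hT (Continuous.continuousOn (by fun_prop)) ?_
      ⟨t₁, ⟨ht₁.1.le, ht₁.2.le⟩, ?_⟩
    · intro t _
      have := hq0 t
      positivity
    · positivity
  have h4 : Real.exp (-C T) * y T < 0 := by linarith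
  by_contra h5
  push Not at h5
  have := mul_nonneg (Real.exp_pos (-C T)).le h5
  linarith

/-- the parametrised family of orbits -/
def QF (φ : ℝ → ℝ × ℝ → ℝ → ℝ × ℝ) (σ : ℝ → ℝ × ℝ) (a : ℝ → ℝ) (z : ℝ × ℝ) : ℝ × ℝ :=
  φ z.2 (σ z.1) (a z.1)

lemma contDiffAt_QF (hφ : PFl G φ) {σ : ℝ → ℝ × ℝ} {a : ℝ → ℝ} {s t : ℝ}
    (hσ : ContDiffAt ℝ 2 σ s) (ha : ContDiffAt ℝ 2 a s) : ContDiffAt ℝ 2 (QF φ σ a) (s, t) := by
  unfold QF
  have h1 : ContDiffAt ℝ 2 (fun z : ℝ × ℝ => ((z.2, σ z.1, a z.1) : ℝ × (ℝ × ℝ) × ℝ)) (s, t) := by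
    refine contDiffAt_snd.prodMk (ContDiffAt.prodMk ?_ ?_)
    · exact ContDiffAt.comp (s, t) (g := σ) hσ contDiffAt_fst
    · exact ContDiffAt.comp (s, t) (g := a) ha contDiffAt_fst
  exact ContDiffAt.comp (s, t) (g := fun q : ℝ × (ℝ × ℝ) × ℝ => φ q.1 q.2.1 q.2.2)
    hφ.smooth.contDiffAt h1

lemma fderiv_QF_snd (hφ : PFl G φ) {σ : ℝ → ℝ × ℝ} {a : ℝ → ℝ} {y : ℝ × ℝ}
    (hd : DifferentiableAt ℝ (QF φ σ a) y) :
    fderiv ℝ (QF φ σ a) y (0, 1) = G (QF φ σ a y, a y.1) := by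
  have lt : HasDerivAt (fun t' : ℝ => ((y.1, t') : ℝ × ℝ)) (0, 1) y.2 :=
    (hasDerivAt_const y.2 y.1).prodMk (hasDerivAt_id y.2)
  have h1 : HasDerivAt (fun t' : ℝ => QF φ σ a (y.1, t')) (fderiv ℝ (QF φ σ a) y (0, 1)) y.2 :=
    HasFDerivAt.comp_hasDerivAt y.2 (f := fun t' : ℝ => ((y.1, t') : ℝ × ℝ))
      (l := QF φ σ a) hd.hasFDerivAt lt
  have h2 : HasDerivAt (fun t' : ℝ => QF φ σ a (y.1, t')) (G (QF φ σ a y, a y.1)) y.2 :=
    hφ.deriv (σ y.1) (a y.1) y.2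
  exact h1.unique h2

lemma eventually_flow_QF (hφ : PFl G φ) {σ : ℝ → ℝ × ℝ} {a : ℝ → ℝ} {s t : ℝ}
    (hσ : ContDiffAt ℝ 2 σ s) (ha : ContDiffAt ℝ 2 a s) :
    ∀ᶠ y : ℝ × ℝ in 𝓝 (s, t), fderiv ℝ (QF φ σ a) y (0, 1) = G (QF φ σ a y, a y.1) := by
  have h1 := contDiffAt_QF hφ (t := t) hσ ha
  have h2 := h1.eventually (by norm_num)
  filter_upwards [h2] with y hy
  exact fderiv_QF_snd hφ (hy.differentiableAt (by norm_num))

end

end Pool.Agent.H709L
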