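import Pool.Agent.H709L.M1

/-! Generic families: patches of closed orbits, implicit function step. -/

open Real Set MeasureTheory Topology Filter

namespace Pool.Agent.H709L

noncomputable section

open Pool.Agent.H709R2 (wedge Jac clm_decomp isInvertible_of_wedge)

variable {G : (ℝ × ℝ) × ℝ → ℝ × ℝ} {φ : ℝ → ℝ × ℝ → ℝ → ℝ × ℝ} {O : Set (ℝ × ℝ)}

/-- a nonconstant closed orbit in `O` -/
structure CP (G : (ℝ × ℝ) × ℝ → ℝ × ℝ) (φ : ℝ → ℝ × ℝ → ℝ → ℝ × ℝ) (O : Set (ℝ × ℝ)) (s : ℝ)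
    (p : ℝ × ℝ) (T : ℝ) : Prop where
  pos : 0 < T
  per : φ T p s = p
  ne : G (p, s) ≠ 0
  inO : ∀ t, φ t p s ∈ O

/-- a family with flow whose closed orbits in the open set `O`, for parameters in `(-1,1)`, are
crossed in the positive direction when the parameter moves -/
structure Fam (G : (ℝ × ℝ) × ℝ → ℝ × ℝ) (φ : ℝ → ℝ × ℝ → ℝ → ℝ × ℝ) (O : Set (ℝ × ℝ)) : Prop
    extends PFl G φ where
  op : IsOpen O
  nn : ∀ s ∈ Ioo (-1:ℝ) 1, ∀ p ∈ O, 0 ≤ qq G s p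
  qpos : ∀ s ∈ Ioo (-1:ℝ) 1, ∀ p T, CP G φ O s p T → ∃ t ∈ Ioo 0 T, 0 < qq G s (φ t p s)
  dis : ∀ s ∈ Ioo (-1:ℝ) 1, ∀ s' ∈ Ioo (-1:ℝ) 1, ∀ p T T', CP G φ O s p T → CP G φ O s' p T' →
    s = s'

/-- a patch of closed orbits around `p₀` -/
structure Patch (G : (ℝ × ℝ) × ℝ → ℝ × ℝ) (φ : ℝ → ℝ × ℝ → ℝ → ℝ × ℝ) (O : Set (ℝ × ℝ))
    (p₀ : ℝ × ℝ) where
  ε : ℝ
  a : ℝ → ℝ
  T : ℝ → ℝ
  σ : ℝ → ℝ × ℝ
  hε : 0 < ε
  hσ : ∀ s ∈ Ioo (-ε) ε, ContDiffAt ℝ 2 σ s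
  ha : ∀ s ∈ Ioo (-ε) ε, ContDiffAt ℝ 2 a s
  hTd : ∀ s ∈ Ioo (-ε) ε, ContDiffAt ℝ 2 T s
  cp : ∀ s ∈ Ioo (-ε) ε, CP G φ O (a s) (σ s) (T s)
  haI : ∀ s ∈ Ioo (-ε) ε, a s ∈ Ioo (-1:ℝ) 1
  hinj : InjOn (QF φ σ a) {z | z.1 ∈ Ioo (-ε) ε ∧ z.2 ∈ Ico 0 (T z.1)}
  hnhds : QF φ σ a '' {z | z.1 ∈ Ioo (-ε) ε} ∈ 𝓝 p₀

/-- the key transversality: `∂φ/∂s ∧ ∂φ/∂t < 0` after one period -/
lemma wedge_param_neg (hF : Fam G φ O) {p₀ : ℝ × ℝ} {α₀ T₀ : ℝ} (hα : α₀ ∈ Ioo (-1:ℝ) 1)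
    (hcp : CP G φ O α₀ p₀ T₀) :
    Jac (QF φ (fun _ => p₀) (fun s => α₀ + s)) (0, T₀) < 0 := by
  have hφ := hF.toPFl
  have hG := hφ.sm
  set Q := QF φ (fun _ => p₀) (fun s => α₀ + s) with hQ
  have hσ : ∀ s, ContDiffAt ℝ 2 (fun _ : ℝ => p₀) s := fun s => contDiffAt_const
  have ha : ∀ s, ContDiffAt ℝ 2 (fun s : ℝ => α₀ + s) s := fun s =>
    (contDiff_const.add contDiff_id).contDiffAt
  have hy : ∀ t, HasDerivAt (fun t => Jac Q (0, t))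
      (dv G (α₀ + 0) (Q (0, t)) * Jac Q (0, t) - 1 * qq G (α₀ + 0) (Q (0, t))) t := fun t =>
    hasDerivAt_JacG (contDiffAt_QF hφ (hσ 0) (ha 0)) (eventually_flow_QF hφ (hσ 0) (ha 0))
      ((hasDerivAt_id (0:ℝ)).const_add α₀) (hG.differentiable (by norm_num) _)
  have hQc : Continuous fun t : ℝ => Q (0, t) := by
    simp only [hQ, QF]
    exact hφ.continuous.comp (by fun_prop : Continuous fun t : ℝ => ((t, p₀, α₀ + 0) : ℝ × (ℝ × ℝ) × ℝ))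
  have hQe : ∀ t, Q (0, t) = φ t p₀ α₀ := by
    intro t
    simp only [hQ, QF, add_zero]
  refine neg_of_deriv' (y := fun t => Jac Q (0, t)) (c := fun t => dv G (α₀ + 0) (Q (0, t)))
    (q := fun t => qq G (α₀ + 0) (Q (0, t))) ?_ ?_ ?_ ?_ ?_ hcp.pos ?_
  · have h1 : Continuous fun t : ℝ => ((Q (0, t), α₀ + 0) : (ℝ × ℝ) × ℝ) :=
      hQc.prodMk continuous_const
    have h2 := (continuous_dv hG).comp h1
    exact h2
  · have h1 : Continuous fun t : ℝ => ((Q (0, t), α₀ + 0) : (ℝ × ℝ) × ℝ) :=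
      hQc.prodMk continuous_const
    have h2 := (continuous_qq hG).comp h1
    exact h2
  · intro t
    have := hy t
    rw [one_mul] at this
    exact this
  · -- at time zero the parameter derivative vanishes
    have hd : DifferentiableAt ℝ Q (0, 0) :=
      (contDiffAt_QF hφ (hσ 0) (ha 0)).differentiableAt (by norm_num)
    have ls : HasDerivAt (fun s' : ℝ => ((s', (0:ℝ)) : ℝ × ℝ)) (1, 0) 0 :=
      (hasDerivAt_id (0:ℝ)).prodMk (hasDerivAt_const (0:ℝ) (0:ℝ))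
    have h1 : HasDerivAt (fun s' : ℝ => Q (s', 0)) (fderiv ℝ Q (0, 0) (1, 0)) 0 :=
      HasFDerivAt.comp_hasDerivAt (0:ℝ) (f := fun s' : ℝ => ((s', (0:ℝ)) : ℝ × ℝ))
      (l := Q) hd.hasFDerivAt ls
    have h2 : (fun s' : ℝ => Q (s', 0)) = fun _ => p₀ := by
      ext1 s'
      simp only [hQ, QF]
      exact hφ.zero _ _
    rw [h2] at h1
    have h3 := h1.unique (hasDerivAt_const 0 p₀)
    simp only [Jac, h3]
    unfold wedge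
    simp
  · intro t
    rw [hQe, add_zero]
    exact hF.nn _ hα _ (hcp.inO t)
  · obtain ⟨t, ht, htq⟩ := hF.qpos _ hα _ _ hcp
    refine ⟨t, ht, ?_⟩
    simp only [hQe, add_zero]
    exact htq

/-- implicit function step -/
lemma exists_implicit (hF : Fam G φ O) {p₀ n : ℝ × ℝ} {α₀ T₀ : ℝ} (hα : α₀ ∈ Ioo (-1:ℝ) 1)
    (hcp : CP G φ O α₀ p₀ T₀) :
    ∃ a T : ℝ → ℝ, a 0 = α₀ ∧ T 0 = T₀ ∧ ContDiffAt ℝ 2 a 0 ∧ ContDiffAt ℝ 2 T 0 ∧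
      ∀ᶠ s in 𝓝 (0:ℝ), φ (T s) (p₀ + s • n) (a s) = p₀ + s • n := by
  have hφ := hF.toPFl
  set H : ℝ × (ℝ × ℝ) → ℝ × ℝ := fun q => φ q.2.2 (p₀ + q.1 • n) q.2.1 - (p₀ + q.1 • n) with hH
  have hHc : ContDiff ℝ 2 H := by
    simp only [hH]
    have h1 : ContDiff ℝ 2 (fun q : ℝ × (ℝ × ℝ) => ((q.2.2, p₀ + q.1 • n, q.2.1) :
        ℝ × (ℝ × ℝ) × ℝ)) := by fun_prop
    exact (hφ.smooth.comp h1).sub (by fun_prop)
  have cdf : ContDiffAt ℝ 2 H (0, (α₀, T₀)) := hHc.contDiffAt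
  -- invertibility
  have hinv : (fderiv ℝ H (0, (α₀, T₀)) ∘L .inr ℝ ℝ (ℝ × ℝ)).IsInvertible := by
    apply isInvertible_of_wedge
    have hd : HasFDerivAt H (fderiv ℝ H (0, (α₀, T₀))) (0, (α₀, T₀)) :=
      (cdf.differentiableAt (by norm_num)).hasFDerivAt
    -- derivative in α
    set Q := QF φ (fun _ => p₀) (fun s => α₀ + s) with hQ
    have hQd : DifferentiableAt ℝ Q (0, T₀) :=
      (contDiffAt_QF hφ contDiffAt_const
        (contDiff_const.add contDiff_id).contDiffAt).differentiableAt (by norm_num)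
    have e1 : (fderiv ℝ H (0, (α₀, T₀)) ∘L .inr ℝ ℝ (ℝ × ℝ)) (1, 0) =
        fderiv ℝ Q (0, T₀) (1, 0) := by
      have l1 : HasDerivAt (fun s : ℝ => ((0, (α₀ + s, T₀)) : ℝ × (ℝ × ℝ))) (0, (1, 0)) 0 :=
        (hasDerivAt_const (0:ℝ) (0:ℝ)).prodMk
          (((hasDerivAt_id (0:ℝ)).const_add α₀).prodMk (hasDerivAt_const (0:ℝ) T₀))
      have hd' : HasFDerivAt H (fderiv ℝ H (0, (α₀, T₀))) ((0, (α₀ + 0, T₀)) : ℝ × (ℝ × ℝ)) := by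
        simpa using hd
      have h1 := HasFDerivAt.comp_hasDerivAt (0:ℝ)
        (f := fun s : ℝ => ((0, (α₀ + s, T₀)) : ℝ × (ℝ × ℝ))) (l := H) hd' l1
      have l2 : HasDerivAt (fun s : ℝ => ((s, T₀) : ℝ × ℝ)) (1, 0) 0 :=
        (hasDerivAt_id (0:ℝ)).prodMk (hasDerivAt_const (0:ℝ) T₀)
      have h2 := (HasFDerivAt.comp_hasDerivAt (0:ℝ) (f := fun s : ℝ => ((s, T₀) : ℝ × ℝ))
        (l := Q) hQd.hasFDerivAt l2).sub_const p₀
      have h3 : (H ∘ fun s : ℝ => ((0, (α₀ + s, T₀)) : ℝ × (ℝ × ℝ))) =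
          fun s => (Q ∘ fun s : ℝ => ((s, T₀) : ℝ × ℝ)) s - p₀ := by
        ext1 s
        simp [hH, hQ, QF]
      rw [h3] at h1
      exact h1.unique h2
    have e2 : (fderiv ℝ H (0, (α₀, T₀)) ∘L .inr ℝ ℝ (ℝ × ℝ)) (0, 1) =
        fderiv ℝ Q (0, T₀) (0, 1) := by
      have l1 : HasDerivAt (fun t : ℝ => ((0, (α₀, t)) : ℝ × (ℝ × ℝ))) (0, (0, 1)) T₀ :=
        (hasDerivAt_const T₀ (0:ℝ)).prodMk
          ((hasDerivAt_const T₀ α₀).prodMk (hasDerivAt_id T₀))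
      have h1 := HasFDerivAt.comp_hasDerivAt T₀
        (f := fun t : ℝ => ((0, (α₀, t)) : ℝ × (ℝ × ℝ))) (l := H) hd l1
      have l2 : HasDerivAt (fun t : ℝ => ((0, t) : ℝ × ℝ)) (0, 1) T₀ :=
        (hasDerivAt_const T₀ (0:ℝ)).prodMk (hasDerivAt_id T₀)
      have h2 := (HasFDerivAt.comp_hasDerivAt T₀ (f := fun t : ℝ => ((0, t) : ℝ × ℝ))
        (l := Q) hQd.hasFDerivAt l2).sub_const p₀
      have h3 : (H ∘ fun t : ℝ => ((0, (α₀, t)) : ℝ × (ℝ × ℝ))) =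
          fun t => (Q ∘ fun t : ℝ => ((0, t) : ℝ × ℝ)) t - p₀ := by
        ext1 s
        simp [hH, hQ, QF]
      rw [h3] at h1
      exact h1.unique h2
    rw [e1, e2]
    exact (wedge_param_neg hF hα hcp).ne
  have h2ne : (2 : WithTop ℕ∞) ≠ 0 := by norm_num
  set ψ := cdf.implicitFunction h2ne hinv with hψ
  have hψc : ContDiffAt ℝ 2 ψ 0 := cdf.contDiffAt_implicitFunction h2ne hinv
  have hψ0 : ψ 0 = (α₀, T₀) := cdf.implicitFunction_apply_self h2ne hinv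
  have hψe := cdf.eventually_apply_implicitFunction h2ne hinv
  refine ⟨fun s => (ψ s).1, fun s => (ψ s).2, by simp [hψ0], by simp [hψ0], hψc.fst, hψc.snd, ?_⟩
  have h0 : H (0, (α₀, T₀)) = 0 := by simp [hH, hcp.per]
  filter_upwards [hψe] with s hs
  have hs' : H (s, ψ s) = 0 := by rw [← h0]; exact hs
  simp only [hH] at hs'
  exact sub_eq_zero.1 hs'

/-- the transversal through `p₀` in direction orthogonal to `v` -/
def tr (v p₀ : ℝ × ℝ) (s : ℝ) : ℝ × ℝ := p₀ + s • ((-v.2, v.1) : ℝ × ℝ)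

lemma contDiff_tr (v p₀ : ℝ × ℝ) : ContDiff ℝ 2 (tr v p₀) := by
  unfold tr; fun_prop

lemma tr_zero (v p₀ : ℝ × ℝ) : tr v p₀ 0 = p₀ := by unfold tr; simp

lemma CP.shift (hφ : PFl G φ) {s : ℝ} {p : ℝ × ℝ} {T : ℝ} (h : CP G φ O s p T) (u : ℝ) :
    CP G φ O s (φ u p s) T := by
  refine ⟨h.pos, ?_, hφ.ne_zero h.ne u, fun t => ?_⟩
  · rw [← hφ.add, add_comm, hφ.periodic h.per]
  · rw [← hφ.add]
    exact h.inO _

/-- two closed orbits of the family through a common point have the same parameter -/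
lemma same_par (hF : Fam G φ O) {p q : ℝ × ℝ} {α β T S t u : ℝ}
    (hα : α ∈ Ioo (-1:ℝ) 1) (hβ : β ∈ Ioo (-1:ℝ) 1)
    (hp : CP G φ O α p T) (hq : CP G φ O β q S) (hm : φ t p α = φ u q β) : α = β := by
  have h1 := hp.shift hF.toPFl t
  have h2 := hq.shift hF.toPFl u
  rw [← hm] at h2
  exact hF.dis α hα β hβ _ _ _ h1 h2

/-- local injectivity and openness of the parametrisation at the base point -/
lemma local_QF (hφ : PFl G φ) {p₀ : ℝ × ℝ} {α₀ : ℝ} {a : ℝ → ℝ}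
    (hne : G (p₀, α₀) ≠ 0) (ha0 : a 0 = α₀) (ha : ContDiffAt ℝ 2 a 0) :
    (∃ N ∈ 𝓝 ((0:ℝ), (0:ℝ)), InjOn (QF φ (tr (G (p₀, α₀)) p₀) a) N) ∧
      map (QF φ (tr (G (p₀, α₀)) p₀) a) (𝓝 ((0:ℝ), (0:ℝ))) = 𝓝 p₀ := by
  set Q := QF φ (tr (G (p₀, α₀)) p₀) a with hQ
  have hc : ContDiffAt ℝ 2 Q (0, 0) := contDiffAt_QF hφ (contDiff_tr _ p₀).contDiffAt ha
  have hd : DifferentiableAt ℝ Q (0, 0) := hc.differentiableAt (by norm_num)
  have hQ0 : Q (0, 0) = p₀ := by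
    simp only [hQ, QF]
    rw [hφ.zero, tr_zero]
  have e2 : fderiv ℝ Q (0, 0) (0, 1) = G (p₀, α₀) := by
    rw [hQ, fderiv_QF_snd hφ hd, ← hQ, hQ0, ha0]
  have e1 : fderiv ℝ Q (0, 0) (1, 0) = (-(G (p₀, α₀)).2, (G (p₀, α₀)).1) := by
    have ls : HasDerivAt (fun s' : ℝ => ((s', (0:ℝ)) : ℝ × ℝ)) (1, 0) 0 :=
      (hasDerivAt_id (0:ℝ)).prodMk (hasDerivAt_const (0:ℝ) (0:ℝ))
    have h1 : HasDerivAt (fun s' : ℝ => Q (s', 0)) (fderiv ℝ Q (0, 0) (1, 0)) 0 :=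
      HasFDerivAt.comp_hasDerivAt (0:ℝ) (f := fun s' : ℝ => ((s', (0:ℝ)) : ℝ × ℝ))
      (l := Q) hd.hasFDerivAt ls
    have h2 : (fun s' : ℝ => Q (s', 0)) = tr (G (p₀, α₀)) p₀ := by
      ext1 s'
      simp only [hQ, QF]
      exact hφ.zero _ _
    rw [h2] at h1
    have h3 : HasDerivAt (tr (G (p₀, α₀)) p₀) ((-(G (p₀, α₀)).2, (G (p₀, α₀)).1) : ℝ × ℝ) 0 := by
      unfold tr
      have := ((hasDerivAt_id (0:ℝ)).smul_const
        ((-(G (p₀, α₀)).2, (G (p₀, α₀)).1) : ℝ × ℝ)).const_add p₀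
      simpa using this
    exact h1.unique h3
  have hinv : (fderiv ℝ Q (0, 0)).IsInvertible := by
    apply isInvertible_of_wedge
    rw [e1, e2]
    have h1 := H709R2.sq_pos hne
    unfold wedge
    unfold H709R2.sq at h1
    simp only
    nlinarith
  obtain ⟨M, hM⟩ := hinv
  have hstrict : HasStrictFDerivAt Q (M : (ℝ × ℝ) →L[ℝ] (ℝ × ℝ)) (0, 0) := by
    rw [hM]
    exact hc.hasStrictFDerivAt (by norm_num)
  constructor
  · refine ⟨(hstrict.toOpenPartialHomeomorph Q).source,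
      (hstrict.toOpenPartialHomeomorph Q).open_source.mem_nhds
        hstrict.mem_toOpenPartialHomeomorph_source, ?_⟩
    exact (hstrict.toOpenPartialHomeomorph Q).injOn
  · rw [hstrict.map_nhds_eq_of_equiv, hQ0]

end

end Pool.Agent.H709L
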