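import Pool.Agent.H709L.M2

/-! Generic families: existence of patches. -/

open Real Set MeasureTheory Topology Filter

namespace Pool.Agent.H709L

noncomputable section

open Pool.Agent.H709R2 (wedge Jac clm_decomp isInvertible_of_wedge)

variable {G : (ℝ × ℝ) × ℝ → ℝ × ℝ} {φ : ℝ → ℝ × ℝ → ℝ → ℝ × ℝ} {O : Set (ℝ × ℝ)}

/-- the no-return property -/
lemma no_return (hφ : PFl G φ) {p₀ : ℝ × ℝ} {α₀ T₀ : ℝ} {a T : ℝ → ℝ}
    (hne : G (p₀, α₀) ≠ 0) (hmin : ∀ t ∈ Ioo 0 T₀, φ t p₀ α₀ ≠ p₀)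
    (hT0 : T 0 = T₀) (ha0 : a 0 = α₀) (ha : ContDiffAt ℝ 2 a 0) (hT : ContDiffAt ℝ 2 T 0)
    (hpos : 0 < T₀)
    (hper : ∀ᶠ s in 𝓝 (0:ℝ), φ (T s) (tr (G (p₀, α₀)) p₀ s) (a s) = tr (G (p₀, α₀)) p₀ s) :
    ∃ ε > 0, ∀ s ∈ Ioo (-ε) ε, ∀ s' ∈ Ioo (-ε) ε, ∀ t ∈ Ico 0 (T s),
      QF φ (tr (G (p₀, α₀)) p₀) a (s, t) = tr (G (p₀, α₀)) p₀ s' → t = 0 ∧ s = s' := by
  set σ := tr (G (p₀, α₀)) p₀ with hσdef
  set Q := QF φ σ a with hQ
  obtain ⟨⟨N, hN, hinj⟩, -⟩ := local_QF hφ hne ha0 ha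
  rw [← hσdef, ← hQ] at hinj
  by_contra hcon
  push Not at hcon
  have hcon' : ∀ k : ℕ, ∃ s s' t : ℝ, s ∈ Ioo (-(1 / ((k:ℝ) + 1))) (1 / ((k:ℝ) + 1)) ∧
      s' ∈ Ioo (-(1 / ((k:ℝ) + 1))) (1 / ((k:ℝ) + 1)) ∧ t ∈ Ico 0 (T s) ∧
      Q (s, t) = σ s' ∧ (t = 0 → s ≠ s') := by
    intro k
    obtain ⟨s, hs, s', hs', t, ht, h1, h2⟩ := hcon (1 / ((k:ℝ) + 1)) (by positivity)
    exact ⟨s, s', t, hs, hs', ht, h1, h2⟩
  choose s s' t hs hs' ht hQe hne' using hcon'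
  have hz : Tendsto (fun k : ℕ => 1 / ((k:ℝ) + 1)) atTop (𝓝 0) := tendsto_one_div_add_atTop_nhds_zero_nat
  have hz' : Tendsto (fun k : ℕ => -(1 / ((k:ℝ) + 1))) atTop (𝓝 0) := by simpa using hz.neg
  have hs0 : Tendsto s atTop (𝓝 0) := tendsto_of_tendsto_of_tendsto_of_le_of_le hz' hz
    (fun k => (hs k).1.le) (fun k => (hs k).2.le)
  have hs'0 : Tendsto s' atTop (𝓝 0) := tendsto_of_tendsto_of_tendsto_of_le_of_le hz' hz
    (fun k => (hs' k).1.le) (fun k => (hs' k).2.le)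
  have hTs : Tendsto (fun k => T (s k)) atTop (𝓝 T₀) := by
    have := hT.continuousAt.tendsto
    rw [hT0] at this
    exact this.comp hs0
  have has : Tendsto (fun k => a (s k)) atTop (𝓝 α₀) := by
    have := ha.continuousAt.tendsto
    rw [ha0] at this
    exact this.comp hs0
  have hinjσ : ∀ u v : ℝ, σ u = σ v → u = v := by
    intro u v huv
    rw [hσdef] at huv
    unfold tr at huv
    have h1 := add_left_cancel huv
    have h2 : ((-(G (p₀, α₀)).2, (G (p₀, α₀)).1) : ℝ × ℝ) ≠ 0 := by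
      intro h3
      have h4 := congrArg Prod.fst h3
      have h5 := congrArg Prod.snd h3
      simp only [Prod.fst_zero, Prod.snd_zero, neg_eq_zero] at h4 h5
      exact hne (Prod.ext h5 h4)
    exact smul_left_injective ℝ h2 h1
  -- t k is positive
  have htpos : ∀ k, 0 < t k := by
    intro k
    rcases (ht k).1.lt_or_eq with h | h
    · exact h
    · exfalso
      refine hne' k h.symm (hinjσ _ _ ?_)
      rw [← hQe k, ← h]
      simp only [hQ, QF]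
      rw [hφ.zero]
  -- bounded, extract a subsequence
  have hbdd : ∀ᶠ k in atTop, t k ∈ Icc 0 (T₀ + 1) := by
    have h1 : ∀ᶠ k in atTop, T (s k) < T₀ + 1 := hTs.eventually (gt_mem_nhds (by linarith))
    filter_upwards [h1] with k hk
    exact ⟨(htpos k).le, ((ht k).2.trans hk).le⟩
  obtain ⟨tl, htl, ψ, hψ, htψ⟩ := isCompact_Icc.tendsto_subseq' hbdd.frequently
  have hψt : Tendsto ψ atTop atTop := hψ.tendsto_atTop
  have hcσ : Continuous σ := (contDiff_tr _ p₀).continuous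
  have hσs : Tendsto (fun k => σ (s (ψ k))) atTop (𝓝 p₀) := by
    have := (hcσ.tendsto 0)
    rw [hσdef, tr_zero, ← hσdef] at this
    exact this.comp (hs0.comp hψt)
  have hσs' : Tendsto (fun k => σ (s' (ψ k))) atTop (𝓝 p₀) := by
    have := (hcσ.tendsto 0)
    rw [hσdef, tr_zero, ← hσdef] at this
    exact this.comp (hs'0.comp hψt)
  have hlim : Tendsto (fun k => Q (s (ψ k), t (ψ k))) atTop (𝓝 (φ tl p₀ α₀)) := by
    have h1 : Tendsto (fun k => ((t (ψ k), σ (s (ψ k)), a (s (ψ k))) :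
        ℝ × (ℝ × ℝ) × ℝ)) atTop (𝓝 (tl, p₀, α₀)) :=
      Tendsto.prodMk_nhds htψ (Tendsto.prodMk_nhds hσs (has.comp hψt))
    exact (hφ.continuous.tendsto (tl, p₀, α₀)).comp h1
  have hlim2 : φ tl p₀ α₀ = p₀ := by
    refine tendsto_nhds_unique hlim ?_
    refine hσs'.congr fun k => ?_
    exact (hQe (ψ k)).symm
  have htl2 : tl ≤ T₀ := le_of_tendsto_of_tendsto' htψ (hTs.comp hψt)
    (fun k => (ht (ψ k)).2.le)
  have hcase : tl = 0 ∨ tl = T₀ := by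
    by_contra h
    push Not at h
    exact hmin tl ⟨lt_of_le_of_ne htl.1 (Ne.symm h.1), lt_of_le_of_ne htl2 h.2⟩ hlim2
  have hN' : ∀ᶠ k in atTop, ((s' (ψ k), 0) : ℝ × ℝ) ∈ N := by
    have : Tendsto (fun k => ((s' (ψ k), (0:ℝ)) : ℝ × ℝ)) atTop (𝓝 (0, 0)) :=
      Tendsto.prodMk_nhds (hs'0.comp hψt) tendsto_const_nhds
    exact this.eventually hN
  have hQs' : ∀ k, Q (s' k, 0) = σ (s' k) := by
    intro k
    simp only [hQ, QF]
    rw [hφ.zero]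
  rcases hcase with h0 | h0
  · have h1 : ∀ᶠ k in atTop, ((s (ψ k), t (ψ k)) : ℝ × ℝ) ∈ N := by
      have : Tendsto (fun k => ((s (ψ k), t (ψ k)) : ℝ × ℝ)) atTop (𝓝 (0, 0)) := by
        rw [h0] at htψ
        exact Tendsto.prodMk_nhds (hs0.comp hψt) htψ
      exact this.eventually hN
    obtain ⟨k, hk1, hk2⟩ := (h1.and hN').exists
    have h2 := hinj hk1 hk2 (by rw [hQe, hQs'])
    have h3 := congrArg Prod.snd h2
    simp only at h3
    exact (htpos (ψ k)).ne' h3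
  · have h1 : ∀ᶠ k in atTop, ((s (ψ k), t (ψ k) - T (s (ψ k))) : ℝ × ℝ) ∈ N := by
      have : Tendsto (fun k => ((s (ψ k), t (ψ k) - T (s (ψ k))) : ℝ × ℝ)) atTop (𝓝 (0, 0)) := by
        refine Tendsto.prodMk_nhds (hs0.comp hψt) ?_
        have := htψ.sub (hTs.comp hψt)
        rw [h0, sub_self] at this
        exact this
      exact this.eventually hN
    have h1' : ∀ᶠ k in atTop, φ (T (s (ψ k))) (σ (s (ψ k))) (a (s (ψ k))) =
        σ (s (ψ k)) := (hs0.comp hψt).eventually hper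
    obtain ⟨k, ⟨hk1, hk3⟩, hk2⟩ := ((h1.and h1').and hN').exists
    have h2 := hinj hk1 hk2 (by
      rw [hQs', ← hQe]
      simp only [hQ, QF]
      have h4 := hφ.periodic hk3 (t (ψ k) - T (s (ψ k)))
      rw [← h4, sub_add_cancel])
    have h3 := congrArg Prod.snd h2
    simp only at h3
    have := (ht (ψ k)).2
    linarith

theorem exists_patch (hF : Fam G φ O) {p₀ : ℝ × ℝ} {α₀ T₀ : ℝ} (hα : α₀ ∈ Ioo (-1:ℝ) 1)
    (hcp : CP G φ O α₀ p₀ T₀) (hmin : ∀ t ∈ Ioo 0 T₀, φ t p₀ α₀ ≠ p₀) :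
    Nonempty (Patch G φ O p₀) := by
  have hφ := hF.toPFl
  have hne := hcp.ne
  have hT := hcp.pos
  obtain ⟨a, T, ha0, hT0, ha, hTc, hev⟩ := exists_implicit hF
    (n := (-(G (p₀, α₀)).2, (G (p₀, α₀)).1)) hα hcp
  set σ := tr (G (p₀, α₀)) p₀ with hσdef
  have hev' : ∀ᶠ s in 𝓝 (0:ℝ), φ (T s) (σ s) (a s) = σ s := hev
  obtain ⟨ε₁, hε₁, hnr⟩ := no_return hφ hne hmin hT0 ha0 ha hTc hT hev'
  have hcσ : Continuous σ := (contDiff_tr _ p₀).continuous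
  have hσ0 : σ 0 = p₀ := tr_zero _ _
  -- collect the open conditions
  have c1 : ∀ᶠ s in 𝓝 (0:ℝ), ContDiffAt ℝ 2 a s := ha.eventually (by norm_num)
  have c2 : ∀ᶠ s in 𝓝 (0:ℝ), ContDiffAt ℝ 2 T s := hTc.eventually (by norm_num)
  have c3 : ∀ᶠ s in 𝓝 (0:ℝ), 0 < T s ∧ T s < T₀ + 1 := by
    have := hTc.continuousAt.tendsto
    rw [hT0] at this
    exact (this.eventually (lt_mem_nhds hT)).and (this.eventually (gt_mem_nhds (by linarith)))
  have c4 : ∀ᶠ s in 𝓝 (0:ℝ), a s ∈ Ioo (-1:ℝ) 1 := by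
    have := ha.continuousAt.tendsto
    rw [ha0] at this
    exact this.eventually (Ioo_mem_nhds hα.1 hα.2)
  have c5 : ∀ᶠ s in 𝓝 (0:ℝ), G (σ s, a s) ≠ 0 := by
    have h1 : ContinuousAt (fun s => G (σ s, a s)) 0 :=
      ContinuousAt.comp (f := fun s => ((σ s, a s) : (ℝ × ℝ) × ℝ)) (g := G)
        hφ.sm.continuous.continuousAt (hcσ.continuousAt.prodMk ha.continuousAt)
    have h2 := h1.tendsto
    simp only [hσ0, ha0] at h2
    exact h2.eventually (isOpen_ne.mem_nhds hne)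
  have c6 : ∀ᶠ s in 𝓝 (0:ℝ), ∀ t ∈ Icc 0 (T₀ + 1), φ t (σ s) (a s) ∈ O := by
    refine IsCompact.eventually_forall_of_forall_eventually isCompact_Icc ?_
    intro t _
    have h1 : ContinuousAt (fun z : ℝ × ℝ => φ z.2 (σ z.1) (a z.1)) (0, t) :=
      (contDiffAt_QF hφ (contDiff_tr _ p₀).contDiffAt ha).continuousAt
    have h2 := h1.tendsto
    simp only [hσ0, ha0] at h2
    exact h2.eventually (hF.op.mem_nhds (hcp.inO t))
  obtain ⟨ε₂, hε₂, hball⟩ := Metric.eventually_nhds_iff_ball.1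
    (c1.and (c2.and (c3.and (c4.and (c5.and (hev'.and c6))))))
  set ε := min ε₁ ε₂ with hε
  have hεpos : 0 < ε := lt_min hε₁ hε₂
  have hsub2 : ∀ s ∈ Ioo (-ε) ε, s ∈ Metric.ball (0:ℝ) ε₂ := by
    intro s hs
    rw [Metric.mem_ball, Real.dist_eq, sub_zero, abs_lt]
    exact ⟨by linarith [hs.1, min_le_right ε₁ ε₂], by linarith [hs.2, min_le_right ε₁ ε₂]⟩
  have hsub1 : ∀ s ∈ Ioo (-ε) ε, s ∈ Ioo (-ε₁) ε₁ := by
    intro s hs
    exact ⟨by linarith [hs.1, min_le_left ε₁ ε₂], by linarith [hs.2, min_le_left ε₁ ε₂]⟩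
  have hcps : ∀ s ∈ Ioo (-ε) ε, CP G φ O (a s) (σ s) (T s) := by
    intro s hs
    obtain ⟨-, -, h3, -, h5, h6, h7⟩ := hball s (hsub2 s hs)
    refine ⟨h3.1, h6, h5, ?_⟩
    intro t
    have hp : Function.Periodic (fun t => φ t (σ s) (a s)) (T s) := fun t => hφ.periodic h6 t
    obtain ⟨y, hy, hy2⟩ := hp.exists_mem_Ico₀ h3.1 t
    rw [hy2]
    exact h7 y ⟨hy.1, (hy.2.trans h3.2).le⟩
  refine ⟨⟨ε, a, T, σ, hεpos, fun s _ => (contDiff_tr _ p₀).contDiffAt,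
    fun s hs => (hball s (hsub2 s hs)).1, fun s hs => (hball s (hsub2 s hs)).2.1,
    hcps, fun s hs => (hball s (hsub2 s hs)).2.2.2.1, ?_, ?_⟩⟩
  · -- injectivity
    have main : ∀ s ∈ Ioo (-ε) ε, ∀ s' ∈ Ioo (-ε) ε, ∀ t ∈ Ico 0 (T s), ∀ t' ∈ Ico 0 (T s'),
        t' ≤ t → QF φ σ a (s, t) = QF φ σ a (s', t') →
        ((s, t) : ℝ × ℝ) = (s', t') := by
      intro s hs s' hs' t ht t' ht' htt hQe
      simp only [QF] at hQe
      have haa : a s = a s' := same_par hF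
        (hball s (hsub2 s hs)).2.2.2.1 (hball s' (hsub2 s' hs')).2.2.2.1
        (hcps s hs) (hcps s' hs') hQe
      have h1 : QF φ σ a (s, t - t') = σ s' := by
        simp only [QF]
        have h2 : φ (t - t') (σ s) (a s) = φ (-t') (φ t (σ s) (a s)) (a s) := by
          rw [← hφ.add]; congr 1; ring
        rw [h2, hQe, haa, ← hφ.add, neg_add_cancel, hφ.zero]
      obtain ⟨h3, h4⟩ := hnr s (hsub1 s hs) s' (hsub1 s' hs') (t - t')
        ⟨by linarith, by linarith [ht.2, ht'.1]⟩ h1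
      rw [h4, sub_eq_zero.1 h3]
    rintro ⟨s, t⟩ ⟨hs, ht⟩ ⟨s', t'⟩ ⟨hs', ht'⟩ hQe
    simp only at hs ht hs' ht'
    rcases le_total t' t with h | h
    · exact main s hs s' hs' t ht t' ht' h hQe
    · exact (main s' hs' s hs t' ht' t ht h hQe.symm).symm
  · -- neighbourhood
    obtain ⟨-, hmap⟩ := local_QF hφ hne ha0 ha
    rw [← hσdef] at hmap
    rw [← hmap]
    apply image_mem_map
    have : {z : ℝ × ℝ | z.1 ∈ Ioo (-ε) ε} = Ioo (-ε) ε ×ˢ univ := by ext; simp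
    rw [this]
    exact prod_mem_nhds (Ioo_mem_nhds (by linarith) hεpos) univ_mem

end

end Pool.Agent.H709L
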