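import Pool.Agent.H709L.M3
import Pool.Agent.H709R2.Indicatrix

/-! Generic families: the measure inequality on one patch. -/

open Real Set MeasureTheory Topology Filter
open scoped ENNReal

namespace Pool.Agent.H709L

noncomputable section

open Pool.Agent.H709R2 (wedge Jac clm_decomp isInvertible_of_wedge)

variable {G : (ℝ × ℝ) × ℝ → ℝ × ℝ} {φ : ℝ → ℝ × ℝ → ℝ → ℝ × ℝ} {O : Set (ℝ × ℝ)} {p₀ : ℝ × ℝ}

/-- the weight is `C¹` at the points of nonconstant closed orbits -/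
def WReg (G : (ℝ × ℝ) × ℝ → ℝ × ℝ) (O : Set (ℝ × ℝ)) (w : ℝ × ℝ → ℝ) : Prop :=
  ∀ s ∈ Ioo (-1:ℝ) 1, ∀ p ∈ O, G (p, s) ≠ 0 → ContDiffAt ℝ 1 w p

namespace Patch

/-- the swept orbits -/
def Q (P : Patch G φ O p₀) : ℝ × ℝ → ℝ × ℝ := QF φ P.σ P.a

/-- the integral defining the weighted length -/
def len (P : Patch G φ O p₀) (w : ℝ × ℝ → ℝ) (s : ℝ) : ℝ :=
  ∫ t in (0:ℝ)..P.T s, w (P.Q (s, t)) * qq G (P.a s) (P.Q (s, t))

lemma contDiffAt_Q (hφ : PFl G φ) (P : Patch G φ O p₀) {s : ℝ} (hs : s ∈ Ioo (-P.ε) P.ε)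
    (t : ℝ) : ContDiffAt ℝ 2 P.Q (s, t) :=
  contDiffAt_QF hφ (P.hσ s hs) (P.ha s hs)

lemma continuous_Q_snd (hφ : PFl G φ) (P : Patch G φ O p₀) (s : ℝ) :
    Continuous fun t : ℝ => P.Q (s, t) :=
  hφ.continuous.comp (by fun_prop : Continuous fun t : ℝ => ((t, P.σ s, P.a s) : ℝ × (ℝ × ℝ) × ℝ))

lemma ne_zero (hφ : PFl G φ) (P : Patch G φ O p₀) {s : ℝ} (hs : s ∈ Ioo (-P.ε) P.ε)
    (t : ℝ) : G (P.Q (s, t), P.a s) ≠ 0 := hφ.ne_zero (P.cp s hs).ne t

lemma Q_period (hφ : PFl G φ) (P : Patch G φ O p₀) {s : ℝ} (hs : s ∈ Ioo (-P.ε) P.ε)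
    (t : ℝ) : P.Q (s, t + P.T s) = P.Q (s, t) := hφ.periodic (P.cp s hs).per t

lemma Q_zero (hφ : PFl G φ) (P : Patch G φ O p₀) (s : ℝ) : P.Q (s, 0) = P.σ s := hφ.zero _ _

lemma Jac_period (hφ : PFl G φ) (P : Patch G φ O p₀) {s : ℝ} (hs : s ∈ Ioo (-P.ε) P.ε) :
    Jac P.Q (s, P.T s) = Jac P.Q (s, 0) := by
  have hd0 : DifferentiableAt ℝ P.Q (s, 0) :=
    (P.contDiffAt_Q hφ hs 0).differentiableAt (by norm_num)
  have hdT : DifferentiableAt ℝ P.Q (s, P.T s) :=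
    (P.contDiffAt_Q hφ hs (P.T s)).differentiableAt (by norm_num)
  have hT : HasDerivAt P.T (deriv P.T s) s :=
    ((P.hTd s hs).differentiableAt (by norm_num)).hasDerivAt
  have l0 : HasDerivAt (fun s' : ℝ => ((s', (0:ℝ)) : ℝ × ℝ)) (1, 0) s :=
    (hasDerivAt_id s).prodMk (hasDerivAt_const s (0:ℝ))
  have lT : HasDerivAt (fun s' : ℝ => ((s', P.T s') : ℝ × ℝ)) (1, deriv P.T s) s :=
    (hasDerivAt_id s).prodMk hT
  have h0 := HasFDerivAt.comp_hasDerivAt s (f := fun s' : ℝ => ((s', (0:ℝ)) : ℝ × ℝ))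
      (l := P.Q) hd0.hasFDerivAt l0
  have h1 := HasFDerivAt.comp_hasDerivAt s (f := fun s' : ℝ => ((s', P.T s') : ℝ × ℝ))
      (l := P.Q) hdT.hasFDerivAt lT
  have heq : (P.Q ∘ fun s' : ℝ => ((s', P.T s') : ℝ × ℝ)) =ᶠ[𝓝 s]
      (P.Q ∘ fun s' : ℝ => ((s', (0:ℝ)) : ℝ × ℝ)) := by
    filter_upwards [Ioo_mem_nhds hs.1 hs.2] with s' hs'
    simp only [Function.comp_apply]
    have := P.Q_period hφ hs' 0
    rwa [zero_add] at this
  have h2 := (h0.congr_of_eventuallyEq heq).unique h1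
  have v0 : fderiv ℝ P.Q (s, 0) (0, 1) = G (P.Q (s, 0), P.a s) :=
    fderiv_QF_snd (y := (s, 0)) hφ hd0
  have vT : fderiv ℝ P.Q (s, P.T s) (0, 1) = G (P.Q (s, P.T s), P.a s) :=
    fderiv_QF_snd (y := (s, P.T s)) hφ hdT
  have e3 : P.Q (s, P.T s) = P.Q (s, 0) := by
    have := P.Q_period hφ hs 0
    rwa [zero_add] at this
  have e4 : fderiv ℝ P.Q (s, P.T s) (1, deriv P.T s) =
      fderiv ℝ P.Q (s, P.T s) (1, 0) + deriv P.T s • fderiv ℝ P.Q (s, P.T s) (0, 1) := by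
    rw [clm_decomp (fderiv ℝ P.Q (s, P.T s)) (1, deriv P.T s)]
    simp
  rw [e4] at h2
  unfold Jac
  rw [v0, h2, vT, e3]
  unfold wedge
  simp only [Prod.fst_add, Prod.snd_add, Prod.smul_fst, Prod.smul_snd, smul_eq_mul]
  ring

lemma continuous_Jac_snd (hφ : PFl G φ) (P : Patch G φ O p₀) {s : ℝ}
    (hs : s ∈ Ioo (-P.ε) P.ε) : Continuous fun t : ℝ => Jac P.Q (s, t) := by
  rw [continuous_iff_continuousAt]
  intro t
  have h1 : ContinuousAt (fderiv ℝ P.Q) (s, t) :=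
    ((P.contDiffAt_Q hφ hs t).fderiv_right (m := 1) (by norm_num)).continuousAt
  have h2 : ContinuousAt (fun t : ℝ => fderiv ℝ P.Q (s, t)) t :=
    ContinuousAt.comp (f := fun t : ℝ => ((s, t) : ℝ × ℝ)) h1 (by fun_prop)
  have h3 : ContinuousAt (fun t : ℝ => fderiv ℝ P.Q (s, t) (1, 0)) t :=
    h2.clm_apply continuousAt_const
  have h4 : ContinuousAt (fun t : ℝ => fderiv ℝ P.Q (s, t) (0, 1)) t :=
    h2.clm_apply continuousAt_const
  unfold Jac wedge
  exact (h3.fst.mul h4.snd).sub (h3.snd.mul h4.fst)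

lemma contDiffAt_w (hφ : PFl G φ) (P : Patch G φ O p₀) {s : ℝ}
    (hs : s ∈ Ioo (-P.ε) P.ε) {w : ℝ × ℝ → ℝ} (hw : WReg G O w) (t : ℝ) :
    ContDiffAt ℝ 1 w (P.Q (s, t)) :=
  hw _ (P.haI s hs) _ ((P.cp s hs).inO t) (P.ne_zero hφ hs t)

lemma continuous_dvw_snd (hφ : PFl G φ) (P : Patch G φ O p₀) {s : ℝ}
    (hs : s ∈ Ioo (-P.ε) P.ε) {w : ℝ × ℝ → ℝ} (hw : WReg G O w) :
    Continuous fun t : ℝ => dvw w G (P.a s) (P.Q (s, t)) := by
  have hQ := P.continuous_Q_snd hφ s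
  rw [continuous_iff_continuousAt]
  intro t
  have hwt := P.contDiffAt_w hφ hs hw t
  have h1 : ContinuousAt (fderiv ℝ w) (P.Q (s, t)) :=
    (hwt.fderiv_right (m := 0) (by norm_num)).continuousAt
  have h2 : ContinuousAt (fun t : ℝ => fderiv ℝ w (P.Q (s, t))) t :=
    ContinuousAt.comp (f := fun t : ℝ => P.Q (s, t)) h1 hQ.continuousAt
  have h7 : Continuous fun t : ℝ => ((P.Q (s, t), P.a s) : (ℝ × ℝ) × ℝ) := hQ.prodMk continuous_const
  have h3 : Continuous fun t : ℝ => G (P.Q (s, t), P.a s) := hφ.sm.continuous.comp h7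
  have h4 : ContinuousAt (fun t : ℝ => fderiv ℝ w (P.Q (s, t)) (G (P.Q (s, t), P.a s))) t :=
    h2.clm_apply h3.continuousAt
  have h5 : ContinuousAt (fun t : ℝ => w (P.Q (s, t))) t :=
    ContinuousAt.comp (f := fun t : ℝ => P.Q (s, t)) hwt.continuousAt hQ.continuousAt
  have h6 : Continuous fun t : ℝ => dv G (P.a s) (P.Q (s, t)) := by
    have h8 := (continuous_dv hφ.sm).comp h7
    exact h8
  unfold dvw
  exact h4.add (h5.mul h6.continuousAt)

lemma continuous_w_snd (hφ : PFl G φ) (P : Patch G φ O p₀) {s : ℝ}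
    (hs : s ∈ Ioo (-P.ε) P.ε) {w : ℝ × ℝ → ℝ} (hw : WReg G O w) :
    Continuous fun t : ℝ => w (P.Q (s, t)) * qq G (P.a s) (P.Q (s, t)) := by
  have hQ := P.continuous_Q_snd hφ s
  rw [continuous_iff_continuousAt]
  intro t
  have hwt := P.contDiffAt_w hφ hs hw t
  have h5 : ContinuousAt (fun t : ℝ => w (P.Q (s, t))) t :=
    ContinuousAt.comp (f := fun t : ℝ => P.Q (s, t)) hwt.continuousAt hQ.continuousAt
  have h7 : Continuous fun t : ℝ => ((P.Q (s, t), P.a s) : (ℝ × ℝ) × ℝ) := hQ.prodMk continuous_const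
  have h8 := (continuous_qq hφ.sm).comp h7
  exact h5.mul h8.continuousAt

/-- the identity `a'(s) ∫ w q = ∫ div(w G) J` over one period -/
theorem identity (hφ : PFl G φ) (P : Patch G φ O p₀) {s : ℝ}
    (hs : s ∈ Ioo (-P.ε) P.ε) {w : ℝ × ℝ → ℝ} (hw : WReg G O w) :
    deriv P.a s * P.len w s =
      ∫ t in (0:ℝ)..P.T s, dvw w G (P.a s) (P.Q (s, t)) * Jac P.Q (s, t) := by
  have ha : HasDerivAt P.a (deriv P.a s) s :=
    ((P.ha s hs).differentiableAt (by norm_num)).hasDerivAt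
  have hd : ∀ t, HasDerivAt (fun t => w (P.Q (s, t)) * Jac P.Q (s, t))
      (dvw w G (P.a s) (P.Q (s, t)) * Jac P.Q (s, t) -
        deriv P.a s * (w (P.Q (s, t)) * qq G (P.a s) (P.Q (s, t)))) t := fun t =>
    hasDerivAt_wJacG (P.contDiffAt_Q hφ hs t) (eventually_flow_QF hφ (P.hσ s hs) (P.ha s hs)) ha
      (hφ.sm.differentiable (by norm_num) _)
      ((P.contDiffAt_w hφ hs hw t).differentiableAt (by norm_num))
  have c1 : Continuous fun t : ℝ => dvw w G (P.a s) (P.Q (s, t)) * Jac P.Q (s, t) :=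
    (P.continuous_dvw_snd hφ hs hw).mul (P.continuous_Jac_snd hφ hs)
  have c2 : Continuous fun t : ℝ => deriv P.a s * (w (P.Q (s, t)) * qq G (P.a s) (P.Q (s, t))) :=
    (P.continuous_w_snd hφ hs hw).const_mul (deriv P.a s)
  have c3 : Continuous fun t : ℝ => dvw w G (P.a s) (P.Q (s, t)) * Jac P.Q (s, t) -
      deriv P.a s * (w (P.Q (s, t)) * qq G (P.a s) (P.Q (s, t))) := c1.sub c2
  have h1 := intervalIntegral.integral_eq_sub_of_hasDerivAt
    (fun t (_ : t ∈ uIcc 0 (P.T s)) => hd t) (c3.intervalIntegrable _ _)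
  rw [P.Jac_period hφ hs] at h1
  have e3 : P.Q (s, P.T s) = P.Q (s, 0) := by
    have := P.Q_period hφ hs 0
    rwa [zero_add] at this
  rw [e3, sub_self] at h1
  rw [intervalIntegral.integral_sub (c1.intervalIntegrable _ _) (c2.intervalIntegrable _ _),
    intervalIntegral.integral_const_mul] at h1
  unfold len
  linarith

/-- the parameter domain over a set of transversal parameters -/
def strip (P : Patch G φ O p₀) (S : Set ℝ) : Set (ℝ × ℝ) :=
  {z | z.1 ∈ S ∧ z.2 ∈ Ico 0 (P.T z.1)}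

lemma continuousOn_T (P : Patch G φ O p₀) : ContinuousOn P.T (Ioo (-P.ε) P.ε) :=
  fun s hs => (P.hTd s hs).continuousAt.continuousWithinAt

lemma continuousOn_a (P : Patch G φ O p₀) : ContinuousOn P.a (Ioo (-P.ε) P.ε) :=
  fun s hs => (P.ha s hs).continuousAt.continuousWithinAt

lemma measurableSet_strip (P : Patch G φ O p₀) {S : Set ℝ} (hS : MeasurableSet S)
    (hSε : S ⊆ Ioo (-P.ε) P.ε) : MeasurableSet (P.strip S) := by
  classical
  set T' : ℝ → ℝ := (Ioo (-P.ε) P.ε).piecewise P.T (fun _ => 0) with hT'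
  have hT'm : Measurable T' :=
    P.continuousOn_T.measurable_piecewise continuousOn_const measurableSet_Ioo
  have : P.strip S = (Prod.fst ⁻¹' S) ∩ ({z : ℝ × ℝ | 0 ≤ z.2} ∩ {z : ℝ × ℝ | z.2 < T' z.1}) := by
    ext z
    simp only [strip, mem_ofPred_eq, mem_inter_iff, mem_preimage, mem_Ico]
    constructor
    · rintro ⟨h1, h2, h3⟩
      refine ⟨h1, h2, ?_⟩
      rw [hT', Set.piecewise_eq_of_mem _ _ _ (hSε h1)]
      exact h3
    · rintro ⟨h1, h2, h3⟩
      rw [hT', Set.piecewise_eq_of_mem _ _ _ (hSε h1)] at h3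
      exact ⟨h1, h2, h3⟩
  rw [this]
  refine (measurable_fst hS).inter ((measurableSet_le measurable_const measurable_snd).inter
    (measurableSet_lt measurable_snd (hT'm.comp measurable_fst)))

lemma continuousOn_Q (hφ : PFl G φ) (P : Patch G φ O p₀) :
    ContinuousOn P.Q (Ioo (-P.ε) P.ε ×ˢ univ) := by
  rintro ⟨s, t⟩ ⟨hs, -⟩
  exact (P.contDiffAt_Q hφ hs t).continuousAt.continuousWithinAt

lemma measurable_Jac (P : Patch G φ O p₀) : Measurable (Jac P.Q) := by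
  unfold Jac wedge
  have h1 : Measurable fun z => fderiv ℝ P.Q z (1, 0) := measurable_fderiv_apply_const ℝ P.Q _
  have h2 : Measurable fun z => fderiv ℝ P.Q z (0, 1) := measurable_fderiv_apply_const ℝ P.Q _
  exact (h1.fst.mul h2.snd).sub (h1.snd.mul h2.fst)

/-- the measure inequality on a patch -/
theorem lintegral_deriv_le (hφ : PFl G φ) (P : Patch G φ O p₀)
    {S : Set ℝ} (hS : MeasurableSet S) (hSε : S ⊆ Ioo (-P.ε) P.ε)
    {w : ℝ × ℝ → ℝ} (hw : WReg G O w)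
    {h : ℝ × ℝ → ℝ≥0∞} (hh : Measurable h)
    (hbd : ∀ s ∈ S, ∀ t, ENNReal.ofReal |dvw w G (P.a s) (P.Q (s, t))| ≤ h (P.Q (s, t)))
    {ℓ : ℝ} (hℓ : 0 < ℓ) (hlen : ∀ s ∈ S, ℓ ≤ P.len w s) :
    ∫⁻ s in S, ENNReal.ofReal |deriv P.a s| ≤
      ENNReal.ofReal (1 / ℓ) * ∫⁻ p in P.Q '' P.strip S, h p := by
  set F : ℝ × ℝ → ℝ≥0∞ := fun z => ENNReal.ofReal |Jac P.Q z| * h (P.Q z) with hF
  -- pointwise bound
  have hpt : ∀ s ∈ S, ENNReal.ofReal |deriv P.a s| ≤
      ENNReal.ofReal (1 / ℓ) * ∫⁻ t in Ico 0 (P.T s), F (s, t) := by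
    intro s hs
    have hsε := hSε hs
    have hT := (P.cp s hsε).pos
    have hid := P.identity hφ hsε hw
    have c1 : Continuous fun t : ℝ => dvw w G (P.a s) (P.Q (s, t)) * Jac P.Q (s, t) :=
      (P.continuous_dvw_snd hφ hsε hw).mul (P.continuous_Jac_snd hφ hsε)
    have h1 : |deriv P.a s| * ℓ ≤
        ∫ t in (0:ℝ)..P.T s, |dvw w G (P.a s) (P.Q (s, t)) * Jac P.Q (s, t)| := by
      calc |deriv P.a s| * ℓ ≤ |deriv P.a s| * P.len w s := by
            gcongr; exact hlen s hs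
        _ = |deriv P.a s * P.len w s| := by
            rw [abs_mul, abs_of_nonneg (hℓ.le.trans (hlen s hs))]
        _ ≤ _ := by
            rw [hid]
            exact intervalIntegral.abs_integral_le_integral_abs hT.le
    have h2 : |deriv P.a s| ≤ 1 / ℓ *
        ∫ t in (0:ℝ)..P.T s, |dvw w G (P.a s) (P.Q (s, t)) * Jac P.Q (s, t)| := by
      rw [one_div, inv_mul_eq_div, le_div_iff₀ hℓ]
      exact h1
    refine (ENNReal.ofReal_le_ofReal h2).trans ?_
    rw [ENNReal.ofReal_mul (by positivity)]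
    gcongr
    rw [intervalIntegral.integral_of_le hT.le]
    rw [ofReal_integral_eq_lintegral_ofReal]
    · rw [← restrict_Ico_eq_restrict_Ioc]
      refine lintegral_mono fun t => ?_
      simp only [hF]
      rw [abs_mul, ENNReal.ofReal_mul (abs_nonneg _), mul_comm]
      gcongr
      exact hbd s hs t
    · exact (c1.abs.intervalIntegrable 0 (P.T s)).1
    · exact Eventually.of_forall fun t => abs_nonneg _
  -- measurability
  have hO : MeasurableSet (Ioo (-P.ε) P.ε ×ˢ (univ : Set ℝ)) := measurableSet_Ioo.prod MeasurableSet.univ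
  have hstrip := P.measurableSet_strip hS hSε
  have hsub : P.strip S ⊆ Ioo (-P.ε) P.ε ×ˢ (univ : Set ℝ) := fun z hz => ⟨hSε hz.1, trivial⟩
  have hQm : AEMeasurable P.Q (volume.restrict (P.strip S)) :=
    ((P.continuousOn_Q hφ).mono hsub).aemeasurable hstrip
  have hFm : AEMeasurable F (volume.restrict (P.strip S)) :=
    ((P.measurable_Jac.abs.ennreal_ofReal).aemeasurable).mul (hh.comp_aemeasurable hQm)
  have hind : AEMeasurable ((P.strip S).indicator F) (volume : Measure (ℝ × ℝ)) :=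
    (aemeasurable_indicator_iff hstrip).2 hFm
  -- Tonelli
  have h3 : ∫⁻ z in P.strip S, F z = ∫⁻ s in S, ∫⁻ t in Ico 0 (P.T s), F (s, t) := by
    rw [← lintegral_indicator hstrip, Measure.volume_eq_prod, lintegral_prod _
      (by rw [← Measure.volume_eq_prod]; exact hind)]
    rw [← lintegral_indicator hS]
    congr 1
    ext s
    by_cases hs : s ∈ S
    · rw [indicator_of_mem hs, ← lintegral_indicator measurableSet_Ico]
      congr 1
      ext t
      by_cases ht : t ∈ Ico 0 (P.T s)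
      · rw [indicator_of_mem ht, indicator_of_mem]
        exact ⟨hs, ht⟩
      · rw [indicator_of_notMem ht, indicator_of_notMem]
        exact fun hc => ht hc.2
    · rw [indicator_of_notMem hs]
      have : ∀ t, (P.strip S).indicator F (s, t) = 0 := fun t =>
        indicator_of_notMem (fun hc => hs hc.1) _
      simp [this]
  -- area formula
  have h4 : ∫⁻ p in P.Q '' P.strip S, h p = ∫⁻ z in P.strip S, F z := by
    have hsub2 : P.strip S ⊆ {z : ℝ × ℝ | z.1 ∈ Ioo (-P.ε) P.ε ∧ z.2 ∈ Ico 0 (P.T z.1)} :=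
      fun z hz => ⟨hSε hz.1, hz.2⟩
    have hinj' : InjOn P.Q (P.strip S) := P.hinj.mono hsub2
    have h5 := lintegral_image_eq_lintegral_abs_det_fderiv_mul volume hstrip (f := P.Q)
      (f' := fderiv ℝ P.Q)
      (fun z hz => ((P.contDiffAt_Q hφ (hSε hz.1) z.2).differentiableAt
        (by norm_num)).hasFDerivAt.hasFDerivWithinAt)
      hinj' h
    rw [h5]
    refine lintegral_congr fun z => ?_
    simp only [hF, Jac]
    rw [GR.Flow.det_plane]
    unfold wedge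
    congr 4
    ring
  calc ∫⁻ s in S, ENNReal.ofReal |deriv P.a s|
      ≤ ∫⁻ s in S, ENNReal.ofReal (1 / ℓ) * ∫⁻ t in Ico 0 (P.T s), F (s, t) :=
        setLIntegral_mono' hS hpt
    _ = ENNReal.ofReal (1 / ℓ) * ∫⁻ s in S, ∫⁻ t in Ico 0 (P.T s), F (s, t) :=
        lintegral_const_mul' _ _ ENNReal.ofReal_ne_top
    _ = ENNReal.ofReal (1 / ℓ) * ∫⁻ p in P.Q '' P.strip S, h p := by rw [h4, h3]

end Patch

end

end Pool.Agent.H709L
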