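import Pool.Agent.H709L.M4

/-! Generic families: global assembly of the patches. -/

open Real Set MeasureTheory Topology Filter
open scoped ENNReal

namespace Pool.Agent.H709L

noncomputable section

open Pool.Agent.H709R2 (wedge Jac)

variable {G : (ℝ × ℝ) × ℝ → ℝ × ℝ} {φ : ℝ → ℝ × ℝ → ℝ → ℝ × ℝ} {O : Set (ℝ × ℝ)} {p₀ : ℝ × ℝ}

/-- `T` is the minimal period of the nonconstant orbit of `p` in `O` -/
structure MP (G : (ℝ × ℝ) × ℝ → ℝ × ℝ) (φ : ℝ → ℝ × ℝ → ℝ → ℝ × ℝ) (O : Set (ℝ × ℝ)) (s : ℝ)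
    (p : ℝ × ℝ) (T : ℝ) : Prop extends CP G φ O s p T where
  min : ∀ t ∈ Ioo 0 T, φ t p s ≠ p

lemma MP.shift (hφ : PFl G φ) {α : ℝ} {p : ℝ × ℝ} {T : ℝ} (h : MP G φ O α p T) (u : ℝ) :
    MP G φ O α (φ u p α) T := by
  refine ⟨h.toCP.shift hφ u, ?_⟩
  intro t ht hc
  apply h.min t ht
  have h1 := congrArg (fun q => φ (-u) q α) hc
  rw [← hφ.add, ← hφ.add, ← hφ.add, neg_add_cancel, hφ.zero] at h1
  rw [← h1]
  congr 1
  ring

lemma MP.unique {α : ℝ} {p : ℝ × ℝ} {T T' : ℝ} (h : MP G φ O α p T)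
    (h' : MP G φ O α p T') : T = T' := by
  rcases lt_trichotomy T T' with h1 | h1 | h1
  · exact absurd h.per (h'.min T ⟨h.pos, h1⟩)
  · exact h1
  · exact absurd h'.per (h.min T' ⟨h'.pos, h1⟩)

/-- weighted length of the closed orbit through `p` -/
def wl (G : (ℝ × ℝ) × ℝ → ℝ × ℝ) (φ : ℝ → ℝ × ℝ → ℝ → ℝ × ℝ) (w : ℝ × ℝ → ℝ) (α : ℝ) (p : ℝ × ℝ)
    (T : ℝ) : ℝ := ∫ t in (0:ℝ)..T, w (φ t p α) * qq G α (φ t p α)

lemma wl_shift (hφ : PFl G φ) {w : ℝ × ℝ → ℝ} {α : ℝ} {p : ℝ × ℝ} {T : ℝ}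
    (h : MP G φ O α p T) (u : ℝ) : wl G φ w α (φ u p α) T = wl G φ w α p T := by
  unfold wl
  have h1 : Function.Periodic (fun t => w (φ t p α) * qq G α (φ t p α)) T := by
    intro t
    simp only
    rw [hφ.periodic h.per]
  have h2 : (fun t => w (φ t (φ u p α) α) * qq G α (φ t (φ u p α) α)) =
      fun t => (fun t => w (φ t p α) * qq G α (φ t p α)) (t + u) := by
    ext t
    simp only
    rw [hφ.add]
  rw [h2, intervalIntegral.integral_comp_add_right (fun t => w (φ t p α) * qq G α (φ t p α))]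
  have h3 := h1.intervalIntegral_add_eq 0 u
  rw [zero_add] at h3
  rw [zero_add, add_comm T u, h3]

/-- a closed orbit contained in `Ω`, with weighted length in `M` -/
def Good (G : (ℝ × ℝ) × ℝ → ℝ × ℝ) (φ : ℝ → ℝ × ℝ → ℝ → ℝ × ℝ) (O : Set (ℝ × ℝ)) (w : ℝ × ℝ → ℝ)
    (Ω : Set (ℝ × ℝ)) (M : Set ℝ) (α : ℝ) (C : Set (ℝ × ℝ)) : Prop :=
  ∃ p T, MP G φ O α p T ∧ C = range (fun t => φ t p α) ∧ C ⊆ Ω ∧ wl G φ w α p T ∈ M

/-- two closed orbits through a common point coincide -/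
lemma orbit_eq (hF : Fam G φ O) {p q : ℝ × ℝ} {α β T S t u : ℝ}
    (hα : α ∈ Ioo (-1:ℝ) 1) (hβ : β ∈ Ioo (-1:ℝ) 1) (hp : MP G φ O α p T) (hq : MP G φ O β q S)
    (hm : φ t p α = φ u q β) : α = β ∧ q = φ (t - u) p α := by
  have hφ := hF.toPFl
  have h1 : α = β := same_par hF hα hβ hp.toCP hq.toCP hm
  refine ⟨h1, ?_⟩
  subst h1
  have h2 := congrArg (fun x => φ (-u) x α) hm
  rw [← hφ.add, ← hφ.add, neg_add_cancel, hφ.zero] at h2
  rw [← h2]
  congr 1
  ring

lemma range_shift (hφ : PFl G φ) (p : ℝ × ℝ) (α u : ℝ) :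
    range (fun t => φ t (φ u p α) α) = range (fun t => φ t p α) := by
  ext x
  constructor
  · rintro ⟨t, rfl⟩
    exact ⟨t + u, by simp only; rw [hφ.add]⟩
  · rintro ⟨t, rfl⟩
    refine ⟨t - u, ?_⟩
    simp only
    rw [← hφ.add, sub_add_cancel]

namespace Patch

lemma mp (P : Patch G φ O p₀) (hφ : PFl G φ) {s : ℝ} (hs : s ∈ Ioo (-P.ε) P.ε) :
    MP G φ O (P.a s) (P.σ s) (P.T s) := by
  refine ⟨P.cp s hs, ?_⟩
  intro t ht hc
  have h1 : QF φ P.σ P.a (s, t) = QF φ P.σ P.a (s, 0) := by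
    simp only [QF]
    rw [hc, hφ.zero]
  have h2 := P.hinj (x₁ := (s, t)) (x₂ := (s, 0)) ⟨hs, ht.1.le, ht.2⟩ ⟨hs, le_rfl, (P.cp s hs).pos⟩ h1
  have h3 := congrArg Prod.snd h2
  simp only at h3
  exact ht.1.ne' h3

/-- the region swept by the patch -/
def reg (P : Patch G φ O p₀) : Set (ℝ × ℝ) := P.Q '' P.strip (Ioo (-P.ε) P.ε)

lemma mem_reg (hφ : PFl G φ) (P : Patch G φ O p₀) {s : ℝ} (hs : s ∈ Ioo (-P.ε) P.ε) (t : ℝ) :
    P.Q (s, t) ∈ P.reg := by
  have h1 : Function.Periodic (fun t => P.Q (s, t)) (P.T s) := fun t => P.Q_period hφ hs t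
  obtain ⟨y, hy, hy2⟩ := h1.exists_mem_Ico₀ (P.cp s hs).pos t
  rw [hy2]
  exact ⟨(s, y), ⟨hs, hy⟩, rfl⟩

lemma reg_mem_nhds (hφ : PFl G φ) (P : Patch G φ O p₀) : P.reg ∈ 𝓝 p₀ := by
  refine mem_of_superset P.hnhds ?_
  rintro _ ⟨⟨s, t⟩, hs, rfl⟩
  exact P.mem_reg hφ hs t

lemma measurableSet_image (hφ : PFl G φ) (P : Patch G φ O p₀) {S : Set ℝ}
    (hS : MeasurableSet S) (hSε : S ⊆ Ioo (-P.ε) P.ε) : MeasurableSet (P.Q '' P.strip S) := by
  have hsub : P.strip S ⊆ Ioo (-P.ε) P.ε ×ˢ (univ : Set ℝ) := fun z hz => ⟨hSε hz.1, trivial⟩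
  have hsub2 : P.strip S ⊆ {z : ℝ × ℝ | z.1 ∈ Ioo (-P.ε) P.ε ∧ z.2 ∈ Ico 0 (P.T z.1)} :=
    fun z hz => ⟨hSε hz.1, hz.2⟩
  exact (P.measurableSet_strip hS hSε).image_of_continuousOn_injOn
    ((P.continuousOn_Q hφ).mono hsub) (P.hinj.mono hsub2)

/-- good transversal parameters -/
def good (P : Patch G φ O p₀) (w : ℝ × ℝ → ℝ) (Ω B : Set (ℝ × ℝ)) (M : Set ℝ) : Set ℝ :=
  {s | s ∈ Ioo (-P.ε) P.ε ∧ P.σ s ∉ B ∧ (∀ t, P.Q (s, t) ∈ Ω) ∧ P.len w s ∈ M}

lemma measurableSet_good (hφ : PFl G φ) (P : Patch G φ O p₀)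
    {w : ℝ × ℝ → ℝ} (hw : WReg G O w) {Ω B : Set (ℝ × ℝ)}
    (hΩ : IsClosed Ω) (hB : MeasurableSet B) {M : Set ℝ} (hM : MeasurableSet M) :
    MeasurableSet (P.good w Ω B M) := by
  classical
  set I := Ioo (-P.ε) P.ε with hI
  have hIm : MeasurableSet I := measurableSet_Ioo
  set O' : Set (ℝ × ℝ) := I ×ˢ univ with hO
  have hOm : MeasurableSet O' := hIm.prod MeasurableSet.univ
  -- σ
  have hσc : ContinuousOn P.σ I := fun s hs => (P.hσ s hs).continuousAt.continuousWithinAt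
  have hσm : Measurable (I.piecewise P.σ (fun _ => 0)) :=
    hσc.measurable_piecewise continuousOn_const hIm
  have m1 : MeasurableSet (I ∩ {s | P.σ s ∉ B}) := by
    have : I ∩ {s | P.σ s ∉ B} = I ∩ (I.piecewise P.σ (fun _ => 0)) ⁻¹' Bᶜ := by
      ext s
      simp only [mem_inter_iff, mem_ofPred_eq, mem_preimage, mem_compl_iff]
      refine and_congr_right fun hs => ?_
      rw [piecewise_eq_of_mem _ _ _ hs]
    rw [this]
    exact hIm.inter (hσm hB.compl)
  -- containment in Ω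
  have hQm : Measurable (O'.piecewise P.Q (fun _ => 0)) :=
    (P.continuousOn_Q hφ).measurable_piecewise continuousOn_const hOm
  have m2 : MeasurableSet (I ∩ {s | ∀ t, P.Q (s, t) ∈ Ω}) := by
    have : I ∩ {s | ∀ t, P.Q (s, t) ∈ Ω} =
        ⋂ r : ℚ, (I ∩ (fun s => O'.piecewise P.Q (fun _ => 0) (s, (r:ℝ))) ⁻¹' Ω) := by
      ext s
      simp only [mem_inter_iff, mem_ofPred_eq, mem_iInter, mem_preimage]
      constructor
      · rintro ⟨hs, h⟩ r
        refine ⟨hs, ?_⟩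
        rw [piecewise_eq_of_mem O' _ _ (show ((s, (r:ℝ)) : ℝ × ℝ) ∈ O' from ⟨hs, trivial⟩)]
        exact h r
      · intro h
        have hs := (h 0).1
        refine ⟨hs, fun t => ?_⟩
        have hcl : IsClosed {t : ℝ | P.Q (s, t) ∈ Ω} := hΩ.preimage (P.continuous_Q_snd hφ s)
        have hd : range ((↑) : ℚ → ℝ) ⊆ {t : ℝ | P.Q (s, t) ∈ Ω} := by
          rintro _ ⟨r, rfl⟩
          have := (h r).2
          rw [piecewise_eq_of_mem O' _ _ (show ((s, (r:ℝ)) : ℝ × ℝ) ∈ O' from ⟨hs, trivial⟩)] at this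
          exact this
        have h2 := hcl.closure_subset_iff.2 hd
        rw [Rat.denseRange_cast.closure_range] at h2
        exact h2 (mem_univ t)
    rw [this]
    refine MeasurableSet.iInter fun r => hIm.inter ?_
    exact (hQm.comp (measurable_id.prodMk measurable_const)) hΩ.measurableSet
  -- length
  set f : ℝ × ℝ → ℝ := fun z => w (P.Q z) * qq G (P.a z.1) (P.Q z) with hf
  have hfc : ContinuousOn f O' := by
    rintro ⟨s, t⟩ ⟨hs, -⟩
    have h1 : ContinuousAt P.Q (s, t) := (P.contDiffAt_Q hφ hs t).continuousAt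
    have h2 : ContinuousAt (fun z => w (P.Q z)) (s, t) :=
      ContinuousAt.comp (f := P.Q) (P.contDiffAt_w hφ hs hw t).continuousAt h1
    have h4 : ContinuousAt (fun z : ℝ × ℝ => P.a z.1) (s, t) :=
      ContinuousAt.comp (f := Prod.fst) (g := P.a) (P.ha s hs).continuousAt continuousAt_fst
    have h3 : ContinuousAt (fun z : ℝ × ℝ => qq G (P.a z.1) (P.Q z)) (s, t) :=
      ContinuousAt.comp (f := fun z : ℝ × ℝ => ((P.Q z, P.a z.1) : (ℝ × ℝ) × ℝ))
        (g := fun q : (ℝ × ℝ) × ℝ => qq G q.2 q.1)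
        (continuous_qq hφ.sm).continuousAt (h1.prodMk h4)
    exact (h2.mul h3).continuousWithinAt
  have hfm : Measurable (O'.piecewise f (fun _ => 0)) :=
    hfc.measurable_piecewise continuousOn_const hOm
  have hTm : Measurable (I.piecewise P.T (fun _ => 0)) :=
    P.continuousOn_T.measurable_piecewise continuousOn_const hIm
  set A : Set (ℝ × ℝ) := {z | 0 < z.2} ∩ {z | z.2 ≤ I.piecewise P.T (fun _ => 0) z.1} with hA
  have hAm : MeasurableSet A := (measurableSet_lt measurable_const measurable_snd).inter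
    (measurableSet_le measurable_snd (hTm.comp measurable_fst))
  set F : ℝ × ℝ → ℝ := A.indicator (O'.piecewise f (fun _ => 0)) with hF
  have hFm : Measurable F := hfm.indicator hAm
  have hint : Measurable fun s => ∫ t, F (s, t) :=
    (hFm.stronglyMeasurable.integral_prod_right' (ν := volume)).measurable
  have hlen : ∀ s ∈ I, ∫ t, F (s, t) = P.len w s := by
    intro s hs
    unfold len
    rw [intervalIntegral.integral_of_le (P.cp s hs).pos.le, ← integral_indicator measurableSet_Ioc]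
    congr 1
    ext t
    simp only [hF, indicator]
    have hO' : ((s, t) : ℝ × ℝ) ∈ O' := ⟨hs, trivial⟩
    rw [piecewise_eq_of_mem O' _ _ hO']
    have : ((s, t) : ℝ × ℝ) ∈ A ↔ t ∈ Ioc 0 (P.T s) := by
      simp only [hA, mem_inter_iff, mem_ofPred_eq, mem_Ioc]
      rw [piecewise_eq_of_mem I _ _ hs]
    simp only [this, hf]
  have m3 : MeasurableSet (I ∩ {s | P.len w s ∈ M}) := by
    have : I ∩ {s | P.len w s ∈ M} = I ∩ (fun s => ∫ t, F (s, t)) ⁻¹' M := by
      ext s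
      simp only [mem_inter_iff, mem_ofPred_eq, mem_preimage]
      refine and_congr_right fun hs => ?_
      rw [hlen s hs]
    rw [this]
    exact hIm.inter (hint hM)
  have : P.good w Ω B M = (I ∩ {s | P.σ s ∉ B}) ∩ ((I ∩ {s | ∀ t, P.Q (s, t) ∈ Ω}) ∩
      (I ∩ {s | P.len w s ∈ M})) := by
    ext s
    simp only [good, mem_inter_iff, mem_ofPred_eq]
    tauto
  rw [this]
  exact m1.inter (m2.inter m3)

end Patch

open Pool.Agent.H709R2 (indicatrix encard_le_of_finset)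

/-- **Master inequality** for generic families. -/
theorem master (hF : Fam G φ O)
    {w : ℝ × ℝ → ℝ} (hw : WReg G O w)
    {Ω : Set (ℝ × ℝ)} (hΩ : IsClosed Ω) {M : Set ℝ} (hM : MeasurableSet M)
    {h : ℝ × ℝ → ℝ≥0∞} (hh : Measurable h) {ℓ : ℝ} (hℓ : 0 < ℓ)
    (hbd : ∀ α ∈ Ioo (-1:ℝ) 1, ∀ p T, MP G φ O α p T → (∀ t, φ t p α ∈ Ω) →
      wl G φ w α p T ∈ M →
      ℓ ≤ wl G φ w α p T ∧ ENNReal.ofReal |dvw w G α p| ≤ h p) :
    ∃ g : ℝ → ℝ≥0∞, Measurable g ∧
      (∀ α ∈ Ioo (-1:ℝ) 1, ({C | Good G φ O w Ω M α C}.encard : ℝ≥0∞) ≤ g α) ∧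
      ∫⁻ α, g α ≤ ENNReal.ofReal (1 / ℓ) * ∫⁻ p in Ω, h p := by
  classical
  have hφ := hF.toPFl
  set U : Set (ℝ × ℝ) := {p | ∃ α ∈ Ioo (-1:ℝ) 1, ∃ C, Good G φ O w Ω M α C ∧ p ∈ C} with hU
  have hpatch : ∀ p ∈ U, Nonempty (Patch G φ O p) := by
    rintro p ⟨α, hα, C, ⟨q, T, hq, rfl, -, -⟩, ⟨u, rfl⟩⟩
    have h' := hq.shift hφ u
    exact exists_patch hF hα h'.toCP h'.min
  by_cases hUe : U = ∅
  · refine ⟨fun _ => 0, measurable_const, ?_, by simp⟩
    intro α hα
    have : {C | Good G φ O w Ω M α C} = ∅ := by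
      ext C
      simp only [mem_ofPred_eq, mem_empty_iff_false, iff_false]
      intro hC
      have hC' := hC
      obtain ⟨p, T, h1, rfl, -, -⟩ := hC
      have : φ 0 p α ∈ U := ⟨α, hα, _, hC', ⟨0, rfl⟩⟩
      rw [hUe] at this
      exact this
    rw [this]
    simp
  -- countable cover
  set V : ℝ × ℝ → Set (ℝ × ℝ) := fun p => if hp : p ∈ U then (hpatch p hp).some.reg else univ with hV
  have hVn : ∀ p ∈ U, V p ∈ 𝓝[U] p := by
    intro p hp
    simp only [hV, dif_pos hp]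
    exact mem_nhdsWithin_of_mem_nhds ((hpatch p hp).some.reg_mem_nhds hφ)
  obtain ⟨t, htU, htc, hcover⟩ := TopologicalSpace.countable_cover_nhdsWithin hVn
  have htne : t.Nonempty := by
    by_contra hne
    rw [Set.not_nonempty_iff_eq_empty] at hne
    subst hne
    simp only [mem_empty_iff_false, iUnion_of_empty, iUnion_empty, subset_empty_iff] at hcover
    exact hUe hcover
  obtain ⟨e, he⟩ := htc.exists_eq_range htne
  have heU : ∀ k, e k ∈ U := fun k => htU (by rw [he]; exact mem_range_self k)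
  set P : ∀ k, Patch G φ O (e k) := fun k => (hpatch (e k) (heU k)).some with hP
  have hcov : ∀ p ∈ U, ∃ k, p ∈ (P k).reg := by
    intro p hp
    have h1 := hcover hp
    simp only [mem_iUnion] at h1
    obtain ⟨q, hq, hq2⟩ := h1
    rw [he] at hq
    obtain ⟨k, rfl⟩ := hq
    refine ⟨k, ?_⟩
    simp only [hV, dif_pos (heU k)] at hq2
    exact hq2
  have hregm : ∀ k, MeasurableSet (P k).reg := fun k =>
    (P k).measurableSet_image hφ measurableSet_Ioo subset_rfl
  -- earlier regions and good parameters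
  set B : ℕ → Set (ℝ × ℝ) := fun k => ⋃ j : ℕ, ⋃ (_ : j < k), (P j).reg with hB
  have hBm : ∀ k, MeasurableSet (B k) := fun k =>
    MeasurableSet.iUnion fun j => MeasurableSet.iUnion fun _ => hregm j
  set S : ℕ → Set ℝ := fun k => (P k).good w Ω (B k) M with hS
  have hSm : ∀ k, MeasurableSet (S k) := fun k => (P k).measurableSet_good hφ hw hΩ (hBm k) hM
  have hSε : ∀ k, S k ⊆ Ioo (-(P k).ε) (P k).ε := fun k s hs => hs.1
  have hSprop : ∀ k, ∀ s ∈ S k, ∀ t, ℓ ≤ (P k).len w s ∧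
      ENNReal.ofReal |dvw w G ((P k).a s) ((P k).Q (s, t))| ≤ h ((P k).Q (s, t)) := by
    intro k s hs t
    have hmp := (P k).mp hφ (hSε k hs)
    have hmp' := hmp.shift hφ t
    have h1 := hbd _ ((P k).haI s (hSε k hs)) ((P k).Q (s, t)) _ hmp' (by
      intro r
      have h2 := hs.2.2.1 (r + t)
      have h3 : φ r ((P k).Q (s, t)) ((P k).a s) = (P k).Q (s, r + t) := by
        simp only [Patch.Q, QF]
        rw [hφ.add]
      rw [h3]
      exact h2) (by
      rw [show (P k).Q (s, t) = φ t ((P k).σ s) ((P k).a s) from rfl, wl_shift hφ hmp]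
      exact hs.2.2.2)
    refine ⟨?_, h1.2⟩
    have h4 := h1.1
    rw [show (P k).Q (s, t) = φ t ((P k).σ s) ((P k).a s) from rfl, wl_shift hφ hmp] at h4
    exact h4
  -- one-dimensional indicatrix on each patch
  have hind : ∀ k, ∃ g : ℝ → ℝ≥0∞, Measurable g ∧
      (∀ β, ((S k ∩ (P k).a ⁻¹' {β}).encard : ℝ≥0∞) ≤ g β) ∧
      ∫⁻ β, g β ≤ ENNReal.ofReal (1 / ℓ) * ∫⁻ p in (P k).Q '' (P k).strip (S k), h p := by
    intro k
    obtain ⟨g, hg1, hg2, hg3⟩ := indicatrix (hSm k) (a := (P k).a) (a' := deriv (P k).a)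
      (fun s hs => (((P k).ha s (hSε k hs)).differentiableAt (by norm_num)).hasDerivAt)
    refine ⟨g, hg1, hg2, hg3.trans ?_⟩
    exact (P k).lintegral_deriv_le hφ (hSm k) (hSε k) hw hh
      (fun s hs t => (hSprop k s hs t).2) hℓ (fun s hs => (hSprop k s hs 0).1)
  choose g hg1 hg2 hg3 using hind
  refine ⟨fun β => ∑' k, g k β, Measurable.tsum hg1, ?_, ?_⟩
  · -- counting
    intro α hα
    refine encard_le_of_finset fun F hF' => ?_
    have hch : ∀ C ∈ F, ∃ k : ℕ, ∃ s, s ∈ S k ∧ (P k).a s = α ∧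
        C = range (fun t => (P k).Q (s, t)) := by
      intro C hC
      have hCg : Good G φ O w Ω M α C := hF' hC
      have hCg' := hCg
      obtain ⟨p, T, hmp, hCr, hCΩ, hCM⟩ := hCg
      have hex : ∃ k, (C ∩ (P k).reg).Nonempty := by
        have hpC : φ 0 p α ∈ C := by rw [hCr]; exact ⟨0, rfl⟩
        obtain ⟨k, hk⟩ := hcov (φ 0 p α) ⟨α, hα, C, hCg', hpC⟩
        exact ⟨k, _, hpC, hk⟩
      set k := Nat.find hex with hk
      obtain ⟨q, hqC, ⟨⟨s, t⟩, ⟨hs, ht⟩, hq⟩⟩ := Nat.find_spec hex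
      rw [← hk] at hs ht hq
      simp only at hs ht
      rw [hCr] at hqC
      obtain ⟨u, hu⟩ := hqC
      simp only at hu
      have hmps := (P k).mp hφ hs
      have hq' : φ t ((P k).σ s) ((P k).a s) = q := hq
      obtain ⟨e1, e2⟩ := orbit_eq hF hα ((P k).haI s hs) hmp hmps
        (hu.trans hq'.symm)
      have hrange : C = range (fun t => (P k).Q (s, t)) := by
        rw [hCr]
        have h5 : (fun r => (P k).Q (s, r)) = fun r => φ r (φ (u - t) p α) α := by
          ext1 r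
          simp only [Patch.Q, QF]
          rw [← e1, e2]
        rw [h5, range_shift hφ]
      refine ⟨k, s, ⟨hs, ?_, ?_, ?_⟩, e1.symm, hrange⟩
      · -- not in an earlier region
        intro hσB
        simp only [hB, mem_iUnion] at hσB
        obtain ⟨j, hj, hj2⟩ := hσB
        refine Nat.find_min hex hj ⟨(P k).σ s, ?_, hj2⟩
        rw [hrange]
        exact ⟨0, (P k).Q_zero hφ s⟩
      · intro r
        apply hCΩ
        rw [hrange]
        exact ⟨r, rfl⟩
      · have h6 : (P k).T s = T := by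
          have h7 := hmp.shift hφ (u - t)
          rw [← e2] at h7
          rw [← e1] at hmps
          exact hmps.unique h7
        have h8 : (P k).len w s = wl G φ w α p T := by
          rw [← wl_shift hφ hmp (u - t), ← e2, ← h6]
          unfold Patch.len wl
          rw [e1]
          rfl
        rw [h8]
        exact hCM
    choose! kk ss h1 h2 h3 using hch
    have hinj : ∀ k, Set.InjOn ss (F.filter fun C => kk C = k) := by
      intro k C hC C' hC' hss
      simp only [Finset.coe_filter, mem_ofPred_eq] at hC hC'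
      rw [h3 C hC.1, h3 C' hC'.1, hC.2, hC'.2, hss]
    calc (F.card : ℝ≥0∞) = ((∑ k ∈ F.image kk, (F.filter fun C => kk C = k).card : ℕ) : ℝ≥0∞) := by
          congr 1
          exact Finset.card_eq_sum_card_image kk F
      _ = ∑ k ∈ F.image kk, ((F.filter fun C => kk C = k).card : ℝ≥0∞) := by push_cast; rfl
      _ ≤ ∑ k ∈ F.image kk, g k α := by
          refine Finset.sum_le_sum fun k _ => ?_
          refine le_trans ?_ (hg2 k α)
          have h4 : ((F.filter fun C => kk C = k).card : ℕ∞) ≤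
              (S k ∩ (P k).a ⁻¹' {α}).encard := by
            rw [← Set.encard_coe_eq_coe_finsetCard, ← (hinj k).encard_image]
            apply Set.encard_le_encard
            rintro _ ⟨C, hC, rfl⟩
            simp only [Finset.coe_filter, mem_ofPred_eq] at hC
            have h5 := h1 C hC.1
            have h6 := h2 C hC.1
            rw [hC.2] at h5 h6
            exact ⟨h5, h6⟩
          have h7 := ENat.toENNReal_le.2 h4
          simpa using h7
      _ ≤ ∑' k, g k α := ENNReal.sum_le_tsum _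
  · -- integral
    have hmeasimg : ∀ k, MeasurableSet ((P k).Q '' (P k).strip (S k)) := fun k =>
      (P k).measurableSet_image hφ (hSm k) (hSε k)
    have hdisj : Pairwise (Function.onFun Disjoint fun k => (P k).Q '' (P k).strip (S k)) := by
      have key : ∀ j k, j < k → Disjoint ((P j).Q '' (P j).strip (S j))
          ((P k).Q '' (P k).strip (S k)) := by
        intro j k hjk
        rw [Set.disjoint_left]
        rintro _ ⟨⟨s', t'⟩, ⟨hs', ht'⟩, rfl⟩ ⟨⟨s, t⟩, ⟨hs, ht⟩, heq⟩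
        simp only at hs' ht' hs ht
        have hm1 := (P j).mp hφ (hSε j hs')
        have hm2 := (P k).mp hφ (hSε k hs)
        have heq' : φ t' ((P j).σ s') ((P j).a s') = φ t ((P k).σ s) ((P k).a s) := heq.symm
        obtain ⟨e1, e2⟩ := orbit_eq hF ((P j).haI s' (hSε j hs'))
          ((P k).haI s (hSε k hs)) hm1 hm2 heq'
        apply hs.2.1
        simp only [hB, mem_iUnion]
        refine ⟨j, hjk, ?_⟩
        rw [e2]
        exact (P j).mem_reg hφ (hSε j hs') (t' - t)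
      intro j k hjk
      rcases lt_or_gt_of_ne hjk with h | h
      · exact key j k h
      · exact (key k j h).symm
    rw [lintegral_tsum fun k => (hg1 k).aemeasurable]
    calc ∑' k, ∫⁻ β, g k β
        ≤ ∑' k, ENNReal.ofReal (1 / ℓ) * ∫⁻ p in (P k).Q '' (P k).strip (S k), h p :=
          ENNReal.tsum_le_tsum hg3
      _ = ENNReal.ofReal (1 / ℓ) * ∫⁻ p in ⋃ k, (P k).Q '' (P k).strip (S k), h p := by
          rw [ENNReal.tsum_mul_left, lintegral_iUnion hmeasimg hdisj]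
      _ ≤ ENNReal.ofReal (1 / ℓ) * ∫⁻ p in Ω, h p := by
          gcongr
          rintro _ hx
          simp only [mem_iUnion] at hx
          obtain ⟨k, ⟨s, t⟩, ⟨hs, ht⟩, rfl⟩ := hx
          exact hs.2.2.1 t

end

end Pool.Agent.H709L
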