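import Pool.Agent.H709L.M5

/-! The master inequality for Lienard systems. -/

open Real Set MeasureTheory Topology Filter
open scoped ENNReal

namespace Pool.Agent.H709L

noncomputable section

open Pool.Agent.H709R2 (wedge Jac)

variable {G : (ℝ × ℝ) × ℝ → ℝ × ℝ} {φ : ℝ → ℝ × ℝ → ℝ → ℝ × ℝ} {O : Set (ℝ × ℝ)}

/-- a periodic nonconstant orbit has a minimal period -/
lemma exists_MP (hφ : PFl G φ) {α : ℝ} {p : ℝ × ℝ} {T : ℝ} (h : CP G φ O α p T) :
    ∃ T₀, MP G φ O α p T₀ := by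
  have hT := h.pos
  have hper := h.per
  have hd := hφ.deriv p α 0
  rw [hφ.zero] at hd
  have h1 := hd.eventually_ne (c := p) h.ne
  have hcont : Continuous fun t => φ t p α :=
    continuous_iff_continuousAt.2 fun t => (hφ.deriv p α t).continuousAt
  obtain ⟨ε, hε, hε2⟩ := Metric.mem_nhdsWithin_iff.1 h1
  have h2 : ∀ t, 0 < t → t < ε → φ t p α ≠ p := by
    intro t ht ht2
    have : t ∈ Metric.ball (0:ℝ) ε ∩ {0}ᶜ := by
      refine ⟨?_, ht.ne'⟩
      rw [Metric.mem_ball, dist_zero_right, Real.norm_eq_abs, abs_of_pos ht]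
      exact ht2
    exact hε2 this
  set Z : Set ℝ := {t | t ∈ Icc ε T ∧ φ t p α = p} with hZ
  have hεT : ε ≤ T := by
    by_contra hc
    exact h2 T hT (not_le.1 hc) hper
  have hZne : Z.Nonempty := ⟨T, ⟨hεT, le_rfl⟩, hper⟩
  have hZc : IsCompact Z := by
    have : Z = Icc ε T ∩ (fun t => φ t p α) ⁻¹' {p} := by ext t; rfl
    rw [this]
    exact isCompact_Icc.inter_right (isClosed_singleton.preimage hcont)
  obtain ⟨T₀, hT₀, hmin⟩ := hZc.exists_isLeast hZne
  refine ⟨T₀, ⟨lt_of_lt_of_le hε hT₀.1.1, hT₀.2, h.ne, h.inO⟩, ?_⟩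
  intro t ht hc
  by_cases h3 : t < ε
  · exact h2 t ht.1 h3 hc
  · have : t ∈ Z := ⟨⟨not_lt.1 h3, ht.2.le.trans hT₀.1.2⟩, hc⟩
    exact absurd (hmin this) (not_le.2 ht.2)

/-- the Lienard family as one map -/
def LF (p : Polynomial ℝ) (q : (ℝ × ℝ) × ℝ) : ℝ × ℝ := lf p q.2 q.1

lemma contDiff_LF (p : Polynomial ℝ) : ContDiff ℝ 2 (LF p) := by
  unfold LF lf
  have h : ContDiff ℝ 2 fun q : (ℝ × ℝ) × ℝ => p.eval q.1.1 := by
    have h1 : ContDiff ℝ 2 fun x : ℝ => p.eval x := by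
      have h2 := Polynomial.contDiff_aeval (𝕜 := ℝ) p 2
      simpa [Polynomial.coe_aeval_eq_eval] using h2
    exact h1.comp (contDiff_fst.comp contDiff_fst)
  refine ContDiff.prodMk ?_ ?_
  · exact ((contDiff_snd.comp contDiff_fst).sub h).add
      (contDiff_snd.mul (contDiff_fst.comp contDiff_fst))
  · exact (contDiff_fst.comp contDiff_fst).neg

lemma fderiv_LF (p : Polynomial ℝ) (q v : (ℝ × ℝ) × ℝ) :
    fderiv ℝ (LF p) q v = (v.1.2 - p.derivative.eval q.1.1 * v.1.1 + (v.2 * q.1.1 + q.2 * v.1.1),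
      -v.1.1) := by
  have hd : HasFDerivAt (LF p) (fderiv ℝ (LF p) q) q :=
    ((contDiff_LF p).differentiable (by norm_num) q).hasFDerivAt
  have hl : HasDerivAt (fun t : ℝ => q + t • v) v 0 := by
    simpa using ((hasDerivAt_id (0:ℝ)).smul_const v).const_add q
  have hd' : HasFDerivAt (LF p) (fderiv ℝ (LF p) q) (q + (0:ℝ) • v) := by simpa using hd
  have h1 : HasDerivAt (fun t : ℝ => LF p (q + t • v)) (fderiv ℝ (LF p) q v) 0 :=
    HasFDerivAt.comp_hasDerivAt (0:ℝ) (l := LF p) (f := fun t : ℝ => q + t • v) hd' hl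
  have hx : HasDerivAt (fun t : ℝ => q.1.1 + t * v.1.1) v.1.1 0 := by
    simpa using ((hasDerivAt_id (0:ℝ)).mul_const v.1.1).const_add q.1.1
  have hy : HasDerivAt (fun t : ℝ => q.1.2 + t * v.1.2) v.1.2 0 := by
    simpa using ((hasDerivAt_id (0:ℝ)).mul_const v.1.2).const_add q.1.2
  have hs : HasDerivAt (fun t : ℝ => q.2 + t * v.2) v.2 0 := by
    simpa using ((hasDerivAt_id (0:ℝ)).mul_const v.2).const_add q.2
  have hp : HasDerivAt (fun t : ℝ => p.eval (q.1.1 + t * v.1.1))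
      (p.derivative.eval (q.1.1 + 0 * v.1.1) * v.1.1) 0 :=
    HasDerivAt.comp (0:ℝ) (h₂ := fun x => p.eval x) (h := fun t : ℝ => q.1.1 + t * v.1.1)
      (p.hasDerivAt (q.1.1 + 0 * v.1.1)) hx
  have h2 := ((hy.sub hp).add (hs.mul hx)).prodMk hx.neg
  have h3 : (fun t : ℝ => LF p (q + t • v)) = fun t : ℝ =>
      ((q.1.2 + t * v.1.2) - p.eval (q.1.1 + t * v.1.1) + (q.2 + t * v.2) * (q.1.1 + t * v.1.1),
        -(q.1.1 + t * v.1.1)) := by
    ext1 t
    simp [LF, lf]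
  rw [h3] at h1
  rw [h1.unique h2]
  simp

/-- a family equal to the Lienard family near the points of `O` -/
structure LFam (p : Polynomial ℝ) (G : (ℝ × ℝ) × ℝ → ℝ × ℝ) (O : Set (ℝ × ℝ)) : Prop where
  eq : ∀ s ∈ Ioo (-1:ℝ) 1, ∀ z ∈ O, G =ᶠ[𝓝 (z, s)] LF p

variable {p : Polynomial ℝ}

lemma LFam.val (h : LFam p G O) {s : ℝ} (hs : s ∈ Ioo (-1:ℝ) 1) {z : ℝ × ℝ} (hz : z ∈ O) :
    G (z, s) = lf p s z := (h.eq s hs z hz).self_of_nhds

lemma LFam.qq (h : LFam p G O) {s : ℝ} (hs : s ∈ Ioo (-1:ℝ) 1) {z : ℝ × ℝ} (hz : z ∈ O) :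
    qq G s z = z.1 ^ 2 := by
  unfold H709L.qq
  rw [h.val hs hz, (h.eq s hs z hz).fderiv_eq, fderiv_LF]
  unfold wedge lf
  simp
  ring

lemma LFam.dvw (h : LFam p G O) {s : ℝ} (hs : s ∈ Ioo (-1:ℝ) 1) {z : ℝ × ℝ} (hz : z ∈ O)
    (w : ℝ × ℝ → ℝ) : dvw w G s z = dvl p s w z := by
  unfold H709L.dvw dv dvl
  rw [h.val hs hz, (h.eq s hs z hz).fderiv_eq, fderiv_LF, fderiv_LF]
  simp only [mul_one, zero_mul, zero_add, add_zero, neg_zero]
  ring

lemma lf_zero (hp0 : p.eval 0 = 0) (s : ℝ) : lf p s 0 = 0 := by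
  unfold lf; simp [hp0]

lemma eq_zero_of_lf (hp0 : p.eval 0 = 0) {s : ℝ} {z : ℝ × ℝ} (h : lf p s z = 0) : z = 0 := by
  unfold lf at h
  have h1 := congrArg Prod.fst h
  have h2 := congrArg Prod.snd h
  simp only [Prod.fst_zero, Prod.snd_zero] at h1 h2
  have h3 : z.1 = 0 := by linarith
  rw [h3, hp0] at h1
  exact Prod.ext h3 (by simpa using h1)

lemma lcyc_of_MP (hφ : PFl G φ) (h : LFam p G O) (hp0 : p.eval 0 = 0) {s : ℝ}
    (hs : s ∈ Ioo (-1:ℝ) 1) {z : ℝ × ℝ} {T : ℝ} (hm : MP G φ O s z T) :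
    LCyc p s (fun t => φ t z s) T := by
  refine ⟨hm.pos, ?_, ?_, ?_, ?_⟩
  · intro t
    have := hφ.deriv z s t
    rw [h.val hs (hm.inO t)] at this
    exact this
  · intro t
    exact hφ.periodic hm.per t
  · intro t u htu
    have h1 : φ (t - u) z s = z := by
      have h2 := congrArg (fun x => φ (-u) x s) htu
      rw [← hφ.add, ← hφ.add, neg_add_cancel, hφ.zero] at h2
      rw [← h2]
      congr 1
      ring
    have hT := hm.pos
    set k : ℤ := ⌊(t - u) / T⌋ with hk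
    refine ⟨k, ?_⟩
    have hk1 : (k : ℝ) * T ≤ t - u := by
      have := Int.floor_le ((t - u) / T)
      rwa [le_div_iff₀ hT] at this
    have hk2 : t - u < (k + 1) * T := by
      have := Int.lt_floor_add_one ((t - u) / T)
      rwa [div_lt_iff₀ hT] at this
    have hper : Function.Periodic (fun t => φ t z s) T := fun t => hφ.periodic hm.per t
    have h3 : φ (t - u - k * T) z s = z := by
      have h4 := hper.sub_int_mul_eq (x := t - u) k
      rw [h4, h1]
    by_contra hne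
    have h5 : 0 < t - u - k * T := by
      rcases (show 0 ≤ t - u - k * T by linarith).lt_or_eq with h6 | h6
      · exact h6
      · exfalso; apply hne; linarith
    exact hm.min _ ⟨h5, by linarith⟩ h3
  · intro t hc
    have h1 := hφ.ne_zero hm.ne t
    rw [h.val hs (hm.inO t), hc, lf_zero hp0] at h1
    exact h1 rfl

lemma mp_of_lcyc (hφ : PFl G φ) (h : LFam p G O) (hp0 : p.eval 0 = 0) {s : ℝ}
    (hs : s ∈ Ioo (-1:ℝ) 1) {γ : ℝ → ℝ × ℝ} {T : ℝ} (hc : LCyc p s γ T) (hO : ∀ t, γ t ∈ O) :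
    (∀ t, γ t = φ t (γ 0) s) ∧ MP G φ O s (γ 0) T := by
  have h1 : ∀ t, γ t = φ t (γ 0) s := by
    refine hφ.uniq s γ fun t => ?_
    rw [h.val hs (hO t)]
    exact hc.ode t
  refine ⟨h1, ⟨hc.pos, ?_, ?_, ?_⟩, ?_⟩
  · rw [← h1 T]
    have := hc.per 0
    rwa [zero_add] at this
  · rw [h.val hs (hO 0)]
    intro h2
    exact hc.ne 0 (eq_zero_of_lf hp0 h2)
  · intro t
    rw [← h1]
    exact hO t
  · intro t ht h2
    rw [← h1 t] at h2
    obtain ⟨k, hk⟩ := hc.inj t 0 h2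
    rw [zero_add] at hk
    have hT := hc.pos
    have h3 : (0:ℝ) < k := by
      by_contra h4
      push Not at h4
      nlinarith [ht.1]
    have h4 : (k:ℝ) < 1 := by
      by_contra h5
      push Not at h5
      nlinarith [ht.2]
    have h5 : (0:ℤ) < k := by exact_mod_cast h3
    have h6 : k < (1:ℤ) := by exact_mod_cast h4
    omega

lemma fam_of_LFam (hd : Disj) (hφ : PFl G φ) (h : LFam p G O) (hp0 : p.eval 0 = 0)
    (hO : IsOpen O) : Fam G φ O := by
  refine ⟨hφ, hO, ?_, ?_, ?_⟩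
  · intro s hs z hz
    rw [h.qq hs hz]
    positivity
  · intro s hs z T hcp
    by_contra hcon
    push Not at hcon
    have hT := hcp.pos
    have hx : ∀ t ∈ Ioo 0 T, (φ t z s).1 = 0 := by
      intro t ht
      have := hcon t ht
      rw [h.qq hs (hcp.inO t)] at this
      have h2 : (φ t z s).1 ^ 2 = 0 := le_antisymm this (by positivity)
      simpa using h2
    have hmid : T / 2 ∈ Ioo 0 T := ⟨by linarith, by linarith⟩
    have hder := hφ.deriv z s (T / 2)
    rw [h.val hs (hcp.inO _)] at hder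
    have hder1 : HasDerivAt (fun t => (φ t z s).1) (lf p s (φ (T / 2) z s)).1 (T / 2) :=
      (ContinuousLinearMap.fst ℝ ℝ ℝ).hasFDerivAt.comp_hasDerivAt (T / 2) hder
    have hev : (fun t => (φ t z s).1) =ᶠ[𝓝 (T / 2)] fun _ => 0 := by
      filter_upwards [Ioo_mem_nhds hmid.1 hmid.2] with t ht using hx t ht
    have h0 : (lf p s (φ (T / 2) z s)).1 = 0 :=
      (hder1.congr_of_eventuallyEq hev.symm).unique (hasDerivAt_const _ _)
    have hx0 := hx _ hmid
    have h1 := hφ.ne_zero hcp.ne (T / 2)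
    rw [h.val hs (hcp.inO _)] at h1
    apply h1
    refine Prod.ext h0 ?_
    unfold lf
    simp [hx0]
  · intro s hs s' hs' z T T' h1 h2
    obtain ⟨T₀, hm⟩ := exists_MP hφ h1
    obtain ⟨T₁, hm'⟩ := exists_MP hφ h2
    refine hd p s s' _ _ T₀ T₁ hp0 (lcyc_of_MP hφ h hp0 hs hm) (lcyc_of_MP hφ h hp0 hs' hm') ?_
    simp only [hφ.zero]

theorem masterL (hd : Disj) : MasterL := by
  intro p Ω w h H ℓ hp0 hΩ hw hh hH hℓ hint hbd
  obtain ⟨R, hR⟩ := hΩ.isBounded.exists_norm_le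
  set r := max R 0 with hr
  have hr0 : 0 ≤ r := le_max_right _ _
  let χ : ContDiffBump (0 : (ℝ × ℝ) × ℝ) := ⟨r + 2, r + 3, by linarith, by linarith⟩
  set G : (ℝ × ℝ) × ℝ → ℝ × ℝ := fun q => χ q • LF p q with hG
  have hGc : ContDiff ℝ 2 G := (χ.contDiff).smul (contDiff_LF p)
  have hGs : HasCompactSupport G := χ.hasCompactSupport.smul_right
  obtain ⟨φ, hφ⟩ := exists_PFl hGc hGs
  set O : Set (ℝ × ℝ) := Metric.ball 0 (r + 1) with hO
  have hOo : IsOpen O := Metric.isOpen_ball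
  have hΩO : Ω ⊆ O := by
    intro z hz
    rw [hO, mem_ball_zero_iff]
    have := hR z hz
    have h2 : R ≤ r := le_max_left _ _
    linarith
  have hLF : LFam p G O := by
    refine ⟨fun s hs z hz => ?_⟩
    have h1 : ((z, s) : (ℝ × ℝ) × ℝ) ∈ Metric.ball (0 : (ℝ × ℝ) × ℝ) (r + 2) := by
      rw [mem_ball_zero_iff, Prod.norm_def, max_lt_iff]
      rw [hO, mem_ball_zero_iff] at hz
      refine ⟨by linarith, ?_⟩
      rw [Real.norm_eq_abs, abs_lt]
      exact ⟨by linarith [hs.1], by linarith [hs.2]⟩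
    filter_upwards [Metric.isOpen_ball.mem_nhds h1] with q hq
    simp only [hG]
    rw [χ.one_of_mem_closedBall (Metric.ball_subset_closedBall hq), one_smul]
  have hF := fam_of_LFam hd hφ hLF hp0 hOo
  have hwr : WReg G O w := by
    intro s hs z hz hne
    refine hw z ?_
    rintro rfl
    rw [hLF.val hs hz, lf_zero hp0] at hne
    exact hne rfl
  obtain ⟨g, hg1, hg2, hg3⟩ := master hF hwr hΩ.isClosed (M := Ici ℓ) measurableSet_Ici hh hℓ
    (by
      intro s hs z T hm hzΩ hwl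
      refine ⟨hwl, ?_⟩
      have hc := lcyc_of_MP hφ hLF hp0 hs hm
      have h1 := hbd s hs _ T hc (by rintro _ ⟨t, rfl⟩; exact hzΩ t) 0
      simp only [hφ.zero] at h1
      have hzO : z ∈ O := by
        have := hm.inO 0
        rwa [hφ.zero] at this
      rw [hLF.dvw hs hzO]
      exact h1)
  refine ⟨g, hg1, ?_, ?_⟩
  · intro s hs
    refine le_trans ?_ (hg2 s hs)
    have hsub : Kl p s w Ω ℓ ⊆ {C | Good G φ O w Ω (Ici ℓ) s C} := by
      rintro C ⟨γ, T, hc, rfl, hCΩ, hJ⟩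
      have hγO : ∀ t, γ t ∈ O := fun t => hΩO (hCΩ ⟨t, rfl⟩)
      obtain ⟨h1, h2⟩ := mp_of_lcyc hφ hLF hp0 hs hc hγO
      have hγ : γ = fun t => φ t (γ 0) s := funext h1
      refine ⟨γ 0, T, h2, congrArg range hγ, hCΩ, ?_⟩
      have h3 : wl G φ w s (γ 0) T = J w γ T := by
        unfold wl J
        congr 1
        ext t
        rw [← h1 t, hLF.qq hs (hγO t)]
      rw [h3]
      exact hJ
    exact ENat.toENNReal_le.2 (encard_le_encard hsub)
  · calc ∫⁻ s in Ioo (-1:ℝ) 1, g s ≤ ∫⁻ s, g s := setLIntegral_le_lintegral _ _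
      _ ≤ ENNReal.ofReal (1 / ℓ) * ∫⁻ z in Ω, h z := hg3
      _ ≤ ENNReal.ofReal (1 / ℓ) * ENNReal.ofReal H := by gcongr
      _ = ENNReal.ofReal (H / ℓ) := by
          rw [← ENNReal.ofReal_mul (by positivity)]
          congr 1
          ring

end

end Pool.Agent.H709L
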