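import Pool.Agent.H709L.Basic

/-! Assembly: the averaged bound for all closed orbits of Lienard systems. -/

open Real Set MeasureTheory Topology Filter
open scoped ENNReal

namespace Pool.Agent.H709L

lemma OE_enc {α : Type} (s : Set α) (t : ℕ → Set α) (h : s ⊆ ⋃ i, t i) :
    (s.encard : ℝ≥0∞) ≤ ∑' i, ((t i).encard : ℝ≥0∞) := by
  let _ : MeasurableSpace α := ⊤
  have h1 : ∀ u : Set α, (u.encard : ℝ≥0∞) = Measure.count u := fun u =>
    (Measure.count_apply (MeasurableSpace.measurableSet_top)).symm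
  rw [h1]
  simp_rw [h1]
  exact (measure_mono h).trans (measure_iUnion_le _)

lemma OE_enc_fin {α ι : Type} (s : Set α) (T : Finset ι) (t : ι → Set α)
    (h : s ⊆ ⋃ i ∈ T, t i) : (s.encard : ℝ≥0∞) ≤ ∑ i ∈ T, ((t i).encard : ℝ≥0∞) := by
  let _ : MeasurableSpace α := ⊤
  have h1 : ∀ u : Set α, (u.encard : ℝ≥0∞) = Measure.count u := fun u =>
    (Measure.count_apply (MeasurableSpace.measurableSet_top)).symm
  rw [h1]
  simp_rw [h1]
  exact (measure_mono h).trans (measure_biUnion_finset_le _ _)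

lemma OE_enc_union {α : Type} (s t : Set α) :
    ((s ∪ t).encard : ℝ≥0∞) ≤ (s.encard : ℝ≥0∞) + (t.encard : ℝ≥0∞) := by
  let _ : MeasurableSpace α := ⊤
  have h1 : ∀ u : Set α, (u.encard : ℝ≥0∞) = Measure.count u := fun u =>
    (Measure.count_apply (MeasurableSpace.measurableSet_top)).symm
  simp_rw [h1]
  exact measure_union_le _ _

lemma OE_enc_mono {α : Type} {s t : Set α} (h : s ⊆ t) :
    (s.encard : ℝ≥0∞) ≤ (t.encard : ℝ≥0∞) := by
  exact_mod_cast (Set.encard_le_encard h)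

lemma OE_fin {ι : Type} (T : Finset ι) (N : ι → ℝ → ℝ≥0∞) (K : ℝ) (hK : 0 ≤ K)
    (h : ∀ i, MajI (N i) K) : MajI (fun s => ∑ i ∈ T, N i s) (T.card * K) := by
  classical
  obtain ⟨r1, r2, -, -⟩ := majRulesI
  induction T using Finset.induction_on with
  | empty =>
    refine ⟨fun _ => 0, measurable_const, fun s _ => by simp, by simp⟩
  | insert a T ha ih =>
    have h1 := r2 _ _ _ _ hK (by positivity) (h a) ih
    refine r1 _ _ _ _ (fun s _ => ?_) ?_ h1
    · rw [Finset.sum_insert ha]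
    · rw [Finset.card_insert_of_notMem ha]
      push_cast
      linarith

/-- the small class -/
def OE_D (p : Polynomial ℝ) (j : ℤ) (s : ℝ) : Set (Set (ℝ × ℝ)) :=
  {C | C ∈ LOrb p s ∧ C ⊆ Sq ((2:ℝ) ^ j) ∧ ∃ z ∈ C, ∃ z' ∈ C, (2:ℝ) ^ j / 2 < z.2 - z'.2}

noncomputable def OE_c (n m : ℕ) : ℝ := if m < 3 * n then 1 / 64 else 8 ^ n / 32 * (1 / 2 : ℝ) ^ (m + 1)

lemma OE_c_nonneg (n m : ℕ) : 0 ≤ OE_c n m := by
  unfold OE_c
  split_ifs <;> positivity

lemma OE_c_sum (n : ℕ) : HasSum (OE_c n) ((3 * n + 2) / 64 : ℝ) := by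
  have h1 : HasSum (fun k => OE_c n (k + 3 * n)) (1 / 32 : ℝ) := by
    have h2 : ∀ k, OE_c n (k + 3 * n) = 1 / 64 * (1 / 2 : ℝ) ^ k := by
      intro k
      unfold OE_c
      rw [if_neg (by omega)]
      have h3 : (1 / 2 : ℝ) ^ (k + 3 * n + 1) = (1 / 2) ^ k * ((1 / 8) ^ n) * (1 / 2) := by
        rw [pow_succ, pow_add, pow_mul]
        norm_num
      rw [h3]
      have h4 : (8 : ℝ) ^ n * (1 / 8) ^ n = 1 := by
        rw [← mul_pow]; norm_num
      calc (8 : ℝ) ^ n / 32 * ((1 / 2) ^ k * (1 / 8) ^ n * (1 / 2))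
          = (8 ^ n * (1 / 8) ^ n) * (1 / 64) * (1 / 2) ^ k := by ring
        _ = 1 / 64 * (1 / 2) ^ k := by rw [h4]; ring
    simp_rw [h2]
    have h5 := hasSum_geometric_two.mul_left (1 / 64 : ℝ)
    have h6 : (1 / 32 : ℝ) = 1 / 64 * 2 := by norm_num
    rw [h6]
    exact h5
  have h6 := (hasSum_nat_add_iff (3 * n)).1 h1
  have h7 : ∑ i ∈ Finset.range (3 * n), OE_c n i = 3 * n / 64 := by
    rw [Finset.sum_congr rfl (g := fun _ => (1 / 64 : ℝ))]
    · simp
      ring
    · intro i hi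
      unfold OE_c
      rw [if_pos (Finset.mem_range.1 hi)]
  have h8 : ((3 * n + 2) / 64 : ℝ) = 1 / 32 + ∑ i ∈ Finset.range (3 * n), OE_c n i := by
    rw [h7]; ring
  rw [h8]
  exact h6

theorem mainLE (hS : SmallClass) (hB : BoxClass) (hC : Cover) (hCA : CoverAll) (hSC : ScaleCount)
    (hSB : SmallBeta) : ∀ (p : Polynomial ℝ) (n : ℕ), p.eval 0 = 0 → p.natDegree ≤ n → 1 ≤ n →
    MajI (fun s => ((LOrb p s).encard : ℝ≥0∞)) (320000 * n ^ 2) := by
  classical
  obtain ⟨r1, r2, r3, -⟩ := majRulesI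
  intro p n hp0 hpn hn
  have hnR : (1 : ℝ) ≤ n := by exact_mod_cast hn
  obtain ⟨P, hP⟩ : Polynomial.X ∣ p := by
    rw [Polynomial.X_dvd_iff, Polynomial.coeff_zero_eq_eval_zero]; exact hp0
  have hPn : P.natDegree ≤ n := by
    by_cases hP0 : P = 0
    · rw [hP0]; simp
    · have h1 : p.natDegree = P.natDegree + 1 := by
        rw [hP, Polynomial.natDegree_X_mul hP0]
      omega
  have hpe : ∀ x, p.eval x - P.eval 0 * x = (P.eval x - P.eval 0) * x := by
    intro x
    rw [hP, Polynomial.eval_mul, Polynomial.eval_X]; ring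
  have hpos : ∀ j : ℤ, (0 : ℝ) < (2:ℝ) ^ j := fun j => zpow_pos (by norm_num) j
  by_cases hA : ∀ x, P.eval x = P.eval 0
  · -- constant case
    have h1 : ∀ j : ℤ, MajI (fun s => ((OE_D p j s).encard : ℝ≥0∞)) 0 := by
      intro j
      have h2 := hS p n (P.eval 0) 0 ((2:ℝ) ^ j) hp0 hpn hn le_rfl (by norm_num) (hpos j)
        (by intro x _; rw [hpe, hA x]; simp)
      rw [mul_zero] at h2
      exact h2
    have e : ℕ ≃ ℤ := Equiv.intEquivNat.symm
    have h3 := r3 (fun i s => ((OE_D p (e i) s).encard : ℝ≥0∞)) (fun _ => 0) 0 (fun _ => le_rfl)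
      hasSum_zero (fun i => h1 (e i))
    refine r1 _ _ _ _ (fun s hs => ?_) (by positivity) h3
    refine OE_enc _ _ ?_
    intro C hCm
    obtain ⟨j, hj1, hj2⟩ := hCA p s C hp0 hCm
    refine mem_iUnion.2 ⟨e.symm j, ?_⟩
    rw [Equiv.apply_symm_apply]
    exact ⟨hCm, hj1, hj2⟩
  · push Not at hA
    obtain ⟨x₂, hx₂⟩ := hA
    -- a point with a large value
    obtain ⟨x₁, hx₁⟩ : ∃ x₁ : ℝ, 1 / 64 < |P.eval x₁ - P.eval 0| := by
      set Q : Polynomial ℝ := P - Polynomial.C (P.eval 0) with hQ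
      have hQe : ∀ x, Q.eval x = P.eval x - P.eval 0 := by intro x; simp [hQ]
      have hQd : 0 < Q.degree := by
        by_contra hcon
        push Not at hcon
        have h1 := Polynomial.eq_C_of_degree_le_zero hcon
        have h2 : Q.eval x₂ = Q.eval 0 := by rw [h1]; simp
        rw [hQe, hQe, sub_self] at h2
        exact hx₂ (by linarith)
      have h3 := (Polynomial.abs_tendsto_atTop Q hQd).eventually (eventually_gt_atTop (1 / 64 : ℝ))
      obtain ⟨x, hx⟩ := h3.exists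
      exact ⟨x, by rw [← hQe]; exact hx⟩
    obtain ⟨i₀, hi₀, hmax⟩ : ∃ i₀ : ℤ, (∀ x : ℝ, |x| ≤ (2:ℝ) ^ (i₀ + 3) →
        |P.eval x - P.eval 0| ≤ 1 / 64) ∧ ∀ z : ℤ, (∀ x : ℝ, |x| ≤ (2:ℝ) ^ (z + 3) →
        |P.eval x - P.eval 0| ≤ 1 / 64) → z ≤ i₀ := by
      refine Int.exists_greatest_of_bdd ?_ ?_
      · obtain ⟨k, hk⟩ := pow_unbounded_of_one_lt |x₁| (by norm_num : (1:ℝ) < 2)
        refine ⟨k, fun z hz => ?_⟩
        by_contra hcon
        push Not at hcon
        have h1 : |x₁| ≤ (2:ℝ) ^ (z + 3) := by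
          refine hk.le.trans ?_
          rw [← zpow_natCast]
          exact zpow_le_zpow_right₀ (by norm_num) (by omega)
        linarith [hz x₁ h1]
      · have h1 : ContinuousAt (fun x => P.eval x) 0 := P.continuous.continuousAt
        obtain ⟨δ, hδ, hδ2⟩ := Metric.continuousAt_iff.1 h1 (1 / 64) (by norm_num)
        obtain ⟨k, hk⟩ := exists_pow_lt_of_lt_one hδ (by norm_num : (1 / 2 : ℝ) < 1)
        refine ⟨-(k : ℤ) - 3, fun x hx => ?_⟩
        have h2 : (2:ℝ) ^ (-(k : ℤ) - 3 + 3) = (1 / 2) ^ k := by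
          rw [sub_add_cancel, zpow_neg, zpow_natCast, one_div, inv_pow]
        rw [h2] at hx
        have h3 := hδ2 (x := x) (by rw [Real.dist_eq, sub_zero]; linarith)
        rw [Real.dist_eq] at h3
        exact h3.le
    obtain ⟨x₃, hx₃, hx₃'⟩ : ∃ x : ℝ, |x| ≤ (2:ℝ) ^ (i₀ + 4) ∧ 1 / 64 < |P.eval x - P.eval 0| := by
      by_contra hcon
      push Not at hcon
      have := hmax (i₀ + 1) (by
        intro x hx
        refine hcon x ?_
        have h9 : i₀ + 1 + 3 = i₀ + 4 := by ring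
        rwa [h9] at hx)
      omega
    have hcount := hSC P n i₀ hPn ⟨x₃, hx₃, hx₃'⟩
    set I : Set ℤ := {i : ℤ | i₀ ≤ i ∧ ∃ x ∈ Icc ((2:ℝ) ^ (i + 3)) ((2:ℝ) ^ (i + 4)),
      |P.eval x| < 4} with hI
    have hIfin : I.Finite := by
      refine Set.finite_of_encard_le_coe (k := 8 * n + 12) ?_
      exact_mod_cast hcount
    set I' : Set ℤ := {i₀, i₀ + 1} ∪ (fun i => i + 1) '' I with hI'
    have hI'fin : I'.Finite := (Set.toFinite _).union (hIfin.image _)
    set T : Finset ℤ := hI'fin.toFinset with hT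
    have hTcard : (T.card : ℝ) ≤ 22 * n := by
      have h1 : (T.card : ℕ∞) ≤ 2 + (8 * n + 12) := by
        have h2 : (T.card : ℕ∞) = I'.encard := by
          rw [hI'fin.encard_eq_coe_toFinset_card]
        rw [h2, hI']
        refine (Set.encard_union_le _ _).trans (add_le_add ?_ ?_)
        · exact (Set.encard_insert_le _ _).trans (by
            rw [Set.encard_singleton]; norm_num)
        · exact (Set.encard_image_le _ _).trans hcount
      have h3 : T.card ≤ 2 + (8 * n + 12) := by exact_mod_cast h1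
      have h4 : T.card ≤ 22 * n := by omega
      exact_mod_cast h4
    -- boxes
    have hbox : MajI (fun s => ∑ i ∈ T, (((Capt p s i 1).encard : ℝ≥0∞) +
        ((Capt p s i (-1)).encard : ℝ≥0∞))) (T.card * (7200 * n + 7200 * n)) := by
      refine OE_fin T _ _ (by positivity) (fun i => ?_)
      exact r2 _ _ _ _ (by positivity) (by positivity) (hB p n i 1 hp0 hpn hn (Or.inl rfl))
        (hB p n i (-1) hp0 hpn hn (Or.inr rfl))
    -- small orbits
    have hsm : MajI (fun s => ∑' m : ℕ, ((OE_D p (i₀ + 2 - m) s).encard : ℝ≥0∞))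
        (128 * (n + 1) * ((3 * n + 2) / 64)) := by
      refine r3 _ (fun m => 128 * (n + 1) * OE_c n m) _
        (fun m => mul_nonneg (by positivity) (OE_c_nonneg n m)) ((OE_c_sum n).mul_left _) ?_
      intro m
      set κ : ℝ := min (1 / 64) (8 ^ n / 32 * (2:ℝ) ^ (i₀ + 2 - (m : ℤ) - i₀ - 3)) with hκ
      have hκ0 : 0 ≤ κ := le_min (by norm_num) (by positivity)
      have h1 : ∀ x : ℝ, |x| ≤ (2:ℝ) ^ (i₀ + 2 - (m : ℤ)) →
          |p.eval x - P.eval 0 * x| ≤ κ * |x| := by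
        intro x hx
        rw [hpe, abs_mul]
        refine mul_le_mul_of_nonneg_right ?_ (abs_nonneg _)
        exact hSB P n i₀ hPn hi₀ (i₀ + 2 - m) (by omega) x hx
      have h2 := hS p n (P.eval 0) κ ((2:ℝ) ^ (i₀ + 2 - (m : ℤ))) hp0 hpn hn hκ0 (min_le_left _ _)
        (hpos _) h1
      refine r1 _ _ _ _ (fun s _ => le_rfl) ?_ h2
      refine mul_le_mul_of_nonneg_left ?_ (by positivity)
      unfold OE_c
      split_ifs with h3
      · exact min_le_left _ _
      · refine (min_le_right _ _).trans (le_of_eq ?_)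
        have h4 : i₀ + 2 - (m : ℤ) - i₀ - 3 = -((m + 1 : ℕ) : ℤ) := by push_cast; ring
        rw [h4, zpow_neg, zpow_natCast, one_div, inv_pow]
    have htot := r2 _ _ _ _ (by positivity) (by positivity) hsm hbox
    refine r1 _ _ _ _ (fun s hs => ?_) ?_ htot
    · -- covering
      have hsub : LOrb p s ⊆ (⋃ m : ℕ, OE_D p (i₀ + 2 - m) s) ∪
          (⋃ i ∈ T, (Capt p s i 1 ∪ Capt p s i (-1))) := by
        intro C hCm
        rcases hC p P i₀ s C hP (abs_lt.2 hs) hCm with ⟨j, hj, hj1, hj2⟩ | ⟨i, hi, hi2⟩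
        · left
          refine mem_iUnion.2 ⟨(i₀ + 2 - j).toNat, ?_⟩
          have h5 : i₀ + 2 - ((i₀ + 2 - j).toNat : ℤ) = j := by
            rw [Int.toNat_of_nonneg (by omega)]; ring
          rw [h5]
          exact ⟨hCm, hj1, hj2⟩
        · right
          refine mem_iUnion₂.2 ⟨i, ?_, hi2⟩
          rw [hT, Set.Finite.mem_toFinset, hI']
          rcases hi with h | h | ⟨h, h'⟩
          · left; simp [h]
          · left; simp [h]
          · right
            exact ⟨i - 1, ⟨h, h'⟩, by ring⟩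
      calc ((LOrb p s).encard : ℝ≥0∞) ≤ _ := OE_enc_mono hsub
        _ ≤ _ := OE_enc_union _ _
        _ ≤ _ := add_le_add (OE_enc _ _ subset_rfl)
          ((OE_enc_fin _ T _ subset_rfl).trans (Finset.sum_le_sum fun i _ => OE_enc_union _ _))
    · have h6 : (T.card : ℝ) * (7200 * n + 7200 * n) ≤ 22 * n * (14400 * n) := by
        have : (7200 * n + 7200 * n : ℝ) = 14400 * n := by ring
        rw [this]
        exact mul_le_mul_of_nonneg_right hTcard (by positivity)
      nlinarith [mul_nonneg (sub_nonneg.2 hnR) (sub_nonneg.2 hnR), hnR]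

end Pool.Agent.H709L
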