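import Pool.Agent.H709L.Basic

/-! Task P4: the final form. -/

open Real Set MeasureTheory Topology Filter
open scoped ENNReal

namespace Pool.Agent.H709L

theorem finalL (hM : MainL) (hP : MinPeriod) (hT : Translate) (hMe : MeasL) : FinalL := by
  obtain ⟨K, hK, hmain⟩ := hM
  refine ⟨K, hK, fun p n hpn hn => ⟨hMe p, fun a => ?_⟩⟩
  set c : ℝ := a + 1 / 2 with hc
  set q : Polynomial ℝ := (p + Polynomial.C (-p.eval 0)) - Polynomial.C c * Polynomial.X with hq
  have hNL : ∀ t, NL q t = NL p (t + c) := by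
    intro t
    rw [hq, (hT (p + Polynomial.C (-p.eval 0)) t 0).2 c, (hT p (t + c) (-p.eval 0)).1]
  have hq0 : q.eval 0 = 0 := by
    rw [hq]; simp
  have hqn : q.natDegree ≤ n := by
    rw [hq]
    refine (Polynomial.natDegree_sub_le _ _).trans (max_le ?_ ?_)
    · refine (Polynomial.natDegree_add_le _ _).trans (max_le hpn ?_)
      rw [Polynomial.natDegree_C]; omega
    · refine (Polynomial.natDegree_C_mul_le _ _).trans ?_
      rw [Polynomial.natDegree_X]; exact hn
  obtain ⟨g, hg, hg1, hg2⟩ := hmain q n hq0 hqn hn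
  have hle : ∀ t ∈ Ioo (-1:ℝ) 1, NL p (t + c) ≤ g t := by
    intro t ht
    refine le_trans ?_ (hg1 t ht)
    rw [← hNL]
    unfold NL
    apply ENat.toENNReal_mono
    apply encard_le_encard
    intro C hC
    exact hP q t C hq0 hC
  calc ∫⁻ s in Ioo a (a + 1), NL p s
      = ∫⁻ s, (Ioo a (a + 1)).indicator (NL p) s := by
        rw [lintegral_indicator measurableSet_Ioo]
    _ = ∫⁻ t, (Ioo a (a + 1)).indicator (NL p) (t + c) :=
        (lintegral_add_right_eq_self _ c).symm
    _ ≤ ∫⁻ t, (Ioo (-1:ℝ) 1).indicator g t := by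
        refine lintegral_mono fun t => ?_
        by_cases ht : t + c ∈ Ioo a (a + 1)
        · have h1 : t ∈ Ioo (-1:ℝ) 1 := by
            rw [hc] at ht
            exact ⟨by linarith [ht.1], by linarith [ht.2]⟩
          rw [indicator_of_mem ht, indicator_of_mem h1]
          exact hle t h1
        · rw [indicator_of_notMem ht]
          exact zero_le
    _ = ∫⁻ t in Ioo (-1:ℝ) 1, g t := by
        rw [lintegral_indicator measurableSet_Ioo]
    _ ≤ _ := hg2

end Pool.Agent.H709L
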